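import Pool.Agent.Helper86_DA.Closed
import Pool.Agent.Helper95_CLB.OpenFin
import Pool.Agent.Helper80_DA.K0Done
import Pool.Agent.Helper91_DA.Pair

/-!
The main theorem from the classification of nearly closed components on open chains.
-/

set_option autoImplicit false

namespace CLB.H86

open CLB.H95 (LocAll RestAll HypAll)
open CLB.H3 (OpenFalse ClosedFalse)

theorem restAll : RestAll := by
  intro V _ G H R k x y hR hG hle hc h hk e1 e2 hloc
  exact ⟨CLB.H80.k0H hR hG hle hc h hk ⟨e1, e2⟩ hloc, CLB.H91.pairH hR hG hle hc h hk ⟨e1, e2⟩ hloc⟩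

theorem openFalse_of_loc (hL : LocAll) : OpenFalse :=
  CLB.H95.openFalse_of (CLB.H95.hypAll_of hL restAll)

/-- **The main theorem, given the classification.** -/
theorem good_of_loc (hL : LocAll) (V : Type) [Fintype V] (G : SimpleGraph V) [DecidableRel G.Adj]
    (hreg : G.IsRegularOfDegree 3) (hcl : G.CliqueFree 3) : CLB.H95.Good G :=
  CLB.H3.main (openFalse_of_loc hL) (closedFalse_of (openFalse_of_loc hL)) V G hreg hcl

end CLB.H86
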