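import Pool.Agent.Helper95_CLB.UStar

/-!
Windows with exceptional components: their extension is a condition on the walk.
-/

set_option autoImplicit false
set_option linter.unusedSectionVars false

namespace CLB.H86

open Finset Classical
open H3DA (Q neg nr)
open CLB.H95
open CLB.H3 (CExt Cat IsTwo Fits UPath he_of_unc cat_structure chn_side KTight exists_ktight no_cext
  Leaf cext_or)

variable {V : Type*} {G : SimpleGraph V} {R : V → Bool} [Fintype V] {k r : ℕ} {x y X Y : ℕ → V}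
  {m : ℕ} {z c : ℕ → V} {f : V → Q}

/-- The number of ports of `v` outside the set `E`. -/
noncomputable def fpE (G : SimpleGraph V) (R : V → Bool) (E : Set V) (v : V) : ℕ :=
  ((prt G R v).filter (fun w => w ∉ E)).card

lemma cst_le_fpE {E : Set V} {Φ : V → V → Finset Q} (h2 : ∀ v w, (Φ v w).card ≤ 2)
    (h0 : ∀ v w, w ∈ E → Φ v w = ∅) (v : V) : cst G R Φ v ≤ 2 * fpE G R E v := by
  unfold cst fpE
  rw [← Finset.sum_filter_add_sum_filter_not (prt G R v) (fun w => w ∉ E)]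
  have e1 : ∑ w ∈ (prt G R v).filter (fun w => ¬ w ∉ E), (Φ v w).card = 0 := by
    refine Finset.sum_eq_zero fun w hw => ?_
    rw [mem_filter, not_not] at hw
    rw [h0 v w hw.2]; simp
  rw [e1, Nat.add_zero]
  calc ∑ w ∈ (prt G R v).filter (fun w => w ∉ E), (Φ v w).card
      ≤ ∑ _w ∈ (prt G R v).filter (fun w => w ∉ E), 2 := Finset.sum_le_sum fun w _ => h2 v w
    _ = 2 * ((prt G R v).filter (fun w => w ∉ E)).card := by simp [mul_comm]
    _ ≤ _ := le_rfl

/-- **The forbidden sets of a window**, with exceptional components. -/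
theorem win_forbE (hG : ClassC G R) (hc : Crit G R) (hcat : Cat G R m z c) (h : Chn G R r X Y)
    (hcyc : ¬ Lk G R (Y r) (X 1)) (hf : OffC G R r X Y f) (E : Set V)
    (hE2 : ∀ w a b, IsTwo G R w a b → w ∉ E) (Ex : (ℕ → Q) → Prop)
    (hcl : ∀ m' z' c', Cat G R m' z' c' → cSupp m' z' ≠ cSupp m z →
      (∃ j ≤ m' + 1, InC r X Y (c' j)) →
      ((∀ i, 1 ≤ i → i ≤ m' → z' i ∉ E) ∧
        (m' = 1 → ∀ i j, i ≤ 2 → j ≤ 2 → InC r X Y (c' i) → InC r X Y (c' j) → i = j) ∧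
        (2 ≤ m' → ¬ NCp m' (fun j => InC r X Y (c' j)))) ∨
      ∀ mu, Ex mu → CExt m' (fun j => lbl r X Y mu f (c' j))) :
    ∃ F : ℕ → (ℕ → Q) → Finset Q,
      (∀ i, 1 ≤ i → i ≤ r → ∀ g g', Same (i - 1) g g' → F i g = F i g') ∧
      (∀ i, ∀ g g', (F i g ∪ F i g').card ≤ 2 * (fpE G R E (X i) + fpE G R E (Y i))) ∧
      ∀ mu, Nwk r mu → (∀ i, 1 ≤ i → i ≤ r → mu i ∉ F i mu) →
        (∀ i, 1 ≤ i → i ≤ r → mu i ∈ wall G R r X Y f i) → Ex mu →
        ¬ CExt m (fun j => lbl r X Y mu f (c j)) := by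
  have hrp := h.pos
  obtain ⟨Φ, hΦ⟩ := exists_oforb hG h (f := f) E (z 1) (z 1)
  refine ⟨fun i g => (olst G R X Y Φ g i)ᶜ, ?_, ?_, ?_⟩
  · intro i h1 h2 g g' hs
    have e : olst G R X Y Φ g i = olst G R X Y Φ g' i := lst_congr' (fun w => hΦ.dep i h1 h2 w g g' hs)
    show (olst G R X Y Φ g i)ᶜ = (olst G R X Y Φ g' i)ᶜ
    rw [e]
  · intro i g g'
    have e1 : (olst G R X Y Φ g i)ᶜ ∪ (olst G R X Y Φ g' i)ᶜ ⊆ (lst G R X Y (uni Φ g g') i)ᶜ := by
      intro t ht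
      rw [mem_union, mem_compl, mem_compl] at ht
      rw [mem_compl]
      intro ht'
      rcases ht with ht | ht
      · exact ht (uni_left _ _ _ _ ht')
      · exact ht (uni_right _ _ _ _ ht')
    have e2 := Finset.card_le_card e1
    have e3 := Finset.card_compl_add_card (lst G R X Y (uni Φ g g') i)
    have e4 := lst_card (G := G) (R := R) (x := X) (y := Y) (uni Φ g g') i
    have c2 : ∀ v w, (uni Φ g g' v w).card ≤ 2 := fun v w => hΦ.two v w g g'
    have c0 : ∀ v w, w ∈ E → uni Φ g g' v w = ∅ := by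
      intro v w hw
      unfold uni
      rw [hΦ.triv v w g hw, hΦ.triv v w g' hw, Finset.union_empty]
    have e5 := cst_le_fpE (G := G) (R := R) c2 c0 (X i)
    have e6 := cst_le_fpE (G := G) (R := R) c2 c0 (Y i)
    have e7 : Fintype.card Q = 8 := by
      rw [← Finset.card_univ, card_univ_Q]
    show ((olst G R X Y Φ g i)ᶜ ∪ (olst G R X Y Φ g' i)ᶜ).card ≤ _
    omega
  · intro mu hmu hF hwl hEx
    have hpw : PW G R X Y Φ r mu := ⟨hmu, fun i h1 h2 => by
      have := hF i h1 h2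
      rwa [mem_compl, not_not] at this⟩
    have av := hpw.avoid h (f := f)
    refine win_contra hG hc hcat h hcyc hf hmu ?_ ?_ ?_ ?_
    · intro v hv
      have := hwl 1 le_rfl hrp
      unfold wall at this
      rw [mem_inter, mem_filter, mem_filter] at this
      exact this.1.2 rfl v hv
    · intro v hv
      have := hwl r hrp le_rfl
      unfold wall at this
      rw [mem_inter, mem_filter, mem_filter] at this
      exact this.2.2 rfl v hv
    · intro v a b hT ha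
      exact hΦ.isTwo mu av v a b hT (hE2 v a b hT) ha
    · intro m' z' c' hC' hex hne
      rcases hcl m' z' c' hC' hne hex with ⟨o0, o1, o2⟩ | o1
      · refine hΦ.cat mu hmu av m' z' c' hC' ?_ o0
        refine okill_of_not_nc hG h hf hC' hex o1 o2 ?_
        intro p p1 p2 p3 _ _
        exact hcat.unc 1 le_rfl hcat.pos (p3 ▸ hC'.cov p (by omega))
      · exact o1 mu hEx

/-- **The walks keep the caterpillar tight.** -/
theorem win_tightE (hG : ClassC G R) (hc : Crit G R) (hcat : Cat G R m z c) (hm : 2 ≤ m)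
    (h : Chn G R r X Y) (hcyc : ¬ Lk G R (Y r) (X 1)) (hf : OffC G R r X Y f) (E : Set V)
    (hE2 : ∀ w a b, IsTwo G R w a b → w ∉ E) (Ex : (ℕ → Q) → Prop)
    (hcl : ∀ m' z' c', Cat G R m' z' c' → cSupp m' z' ≠ cSupp m z →
      (∃ j ≤ m' + 1, InC r X Y (c' j)) →
      ((∀ i, 1 ≤ i → i ≤ m' → z' i ∉ E) ∧
        (m' = 1 → ∀ i j, i ≤ 2 → j ≤ 2 → InC r X Y (c' i) → InC r X Y (c' j) → i = j) ∧
        (2 ≤ m' → ¬ NCp m' (fun j => InC r X Y (c' j)))) ∨
      ∀ mu, Ex mu → CExt m' (fun j => lbl r X Y mu f (c' j))) :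
    ∃ F : ℕ → (ℕ → Q) → Finset Q,
      (∀ i, 1 ≤ i → i ≤ r → ∀ g g', Same (i - 1) g g' → F i g = F i g') ∧
      (∀ i, ∀ g g', (F i g ∪ F i g').card ≤ 2 * (fpE G R E (X i) + fpE G R E (Y i))) ∧
      ∀ mu, Nwk r mu → (∀ i, 1 ≤ i → i ≤ r → mu i ∉ F i mu) →
        (∀ i, 1 ≤ i → i ≤ r → mu i ∈ wall G R r X Y f i) → Ex mu →
        lbl r X Y mu f (c 0) ≠ neg (lbl r X Y mu f (c 1)) →
        lbl r X Y mu f (c m) ≠ neg (lbl r X Y mu f (c (m + 1))) →
        ∃ D, Tight D (fun j => lbl r X Y mu f (c j)) m := by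
  obtain ⟨F, h1, h2, h3⟩ := win_forbE hG hc hcat h hcyc hf E hE2 Ex hcl
  refine ⟨F, h1, h2, fun mu a1 a2 a3 a4 a5 a6 => ?_⟩
  by_contra hcon
  push Not at hcon
  exact h3 mu a1 a2 a3 a4 ((cext_iff (by omega)).2 ⟨a5, a6, hcon⟩)

lemma fpE_le_prt (E : Set V) (v : V) : fpE G R E v ≤ (prt G R v).card := Finset.card_filter_le _ _

lemma fpE_lk (hG : ClassC G R) {E : Set V} {v w : V} (hl : Lk G R v w) : fpE G R E v ≤ 1 :=
  (fpE_le_prt E v).trans (prt_card_lk hG hl)

/-- A port of a component inside `E` is not counted. -/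
lemma fpE_own (hcat : Cat G R m z c) {E : Set V} (hE : cSupp m z ⊆ E) {j : ℕ} (hj : j ≤ m + 1) :
    fpE G R E (c j) + 1 ≤ (prt G R (c j)).card := by
  have h1 := cl_mem hcat.pos hj
  have h2 : z (cl m j) ∈ prt G R (c j) := by
    rw [mem_prt]; exact ⟨cat_adj_cl hcat hj, hcat.unc _ h1.1 h1.2⟩
  have h3 : (prt G R (c j)).filter (fun w => w ∉ E) ⊆ (prt G R (c j)).erase (z (cl m j)) := by
    intro w hw
    rw [mem_filter] at hw
    rw [mem_erase]
    exact ⟨fun he => hw.2 (by rw [he]; exact hE (mem_cSupp h1.1 h1.2)), hw.1⟩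
  have h4 := Finset.card_le_card h3
  rw [Finset.card_erase_of_mem h2] at h4
  have h5 := Finset.card_pos.2 ⟨_, h2⟩
  unfold fpE
  omega

lemma fpE_own_lk (hG : ClassC G R) (hcat : Cat G R m z c) {E : Set V} (hE : cSupp m z ⊆ E) {j : ℕ}
    (hj : j ≤ m + 1) {w : V} (hl : Lk G R (c j) w) : fpE G R E (c j) = 0 := by
  have h1 := fpE_own hcat hE hj
  have h2 := prt_card_lk hG hl
  omega

lemma fpE_own_cov (hG : ClassC G R) (hcat : Cat G R m z c) {E : Set V} (hE : cSupp m z ⊆ E) {j : ℕ}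
    (hj : j ≤ m + 1) : fpE G R E (c j) ≤ 1 := by
  have h1 := fpE_own hcat hE hj
  have h2 := prt_card hG (hcat.cov j hj)
  omega

/-- Two components of `E` at one vertex. -/
lemma fpE_own_two (hG : ClassC G R) (hcat : Cat G R m z c) {m1 : ℕ} {z1 c1 : ℕ → V}
    (hC1 : Cat G R m1 z1 c1) (hne : cSupp m1 z1 ≠ cSupp m z) {E : Set V} (hE : cSupp m z ⊆ E)
    (hE1 : cSupp m1 z1 ⊆ E) {j j1 : ℕ} (hj : j ≤ m + 1) (hj1 : j1 ≤ m1 + 1) (he : c1 j1 = c j) :
    fpE G R E (c j) = 0 := by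
  have h1 := cl_mem hcat.pos hj
  have h1' := cl_mem hC1.pos hj1
  have h2 : z (cl m j) ∈ prt G R (c j) := by
    rw [mem_prt]; exact ⟨cat_adj_cl hcat hj, hcat.unc _ h1.1 h1.2⟩
  have h2' : z1 (cl m1 j1) ∈ prt G R (c j) := by
    rw [mem_prt, ← he]; exact ⟨cat_adj_cl hC1 hj1, hC1.unc _ h1'.1 h1'.2⟩
  have hzz : z1 (cl m1 j1) ≠ z (cl m j) := fun e =>
    hne (cSupp_eq hC1 hcat (mem_cSupp h1'.1 h1'.2) (by rw [e]; exact mem_cSupp h1.1 h1.2))
  have h3 : (prt G R (c j)).filter (fun w => w ∉ E) ⊆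
      ((prt G R (c j)).erase (z (cl m j))).erase (z1 (cl m1 j1)) := by
    intro w hw
    rw [mem_filter] at hw
    rw [mem_erase, mem_erase]
    exact ⟨fun he => hw.2 (by rw [he]; exact hE1 (mem_cSupp h1'.1 h1'.2)),
      fun he => hw.2 (by rw [he]; exact hE (mem_cSupp h1.1 h1.2)), hw.1⟩
  have h4 := Finset.card_le_card h3
  rw [Finset.card_erase_of_mem (mem_erase.2 ⟨hzz, h2'⟩), Finset.card_erase_of_mem h2] at h4
  have h5 := prt_card hG (hcat.cov j hj)
  unfold fpE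
  omega

lemma xor_key : ∀ u ea p v eb q : Bool, xor (xor u ea) p = xor (xor v eb) q →
    u = xor (xor (xor ea eb) (xor p q)) v := by decide

/-- **A component with two vertices and one window port in every fork.** -/
theorem two_ext (h : Chn G R r X Y) {c1 : ℕ → V} {a b : ℕ} (ha : a = 0 ∨ a = 1)
    (hb : b = 2 ∨ b = 3) {u v : ℕ} (u1 : 1 ≤ u) (ur : u ≤ r) (v1 : 1 ≤ v) (vr : v ≤ r)
    (hu : InU X Y u (c1 a)) (hv : InU X Y v (c1 b)) (oa : ¬ InC r X Y (c1 (1 - a)))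
    (ob : ¬ InC r X Y (c1 (5 - b))) :
    ∃ α β κ : Q, ∀ mu, mu u ≠ α → mu v ≠ β → mu u ≠ add κ (mu v) →
      CExt 2 (fun j => lbl r X Y mu f (c1 j)) := by
  have key : ∀ (i : ℕ) (w : V), ∃ e : Q, ∀ t, ul X i w t = add t e := by
    intro i w
    have h0 : ∀ t : Q, add t (false, false, false) = t := by decide
    have h1 : ∀ t : Q, add t (true, true, true) = neg t := by decide
    unfold ul sg
    by_cases e1 : w = X i <;> by_cases e2 : i % 2 = 0
    · exact ⟨(false, false, false), fun t => by rw [if_pos e1, if_pos e2, h0]⟩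
    · exact ⟨(true, true, true), fun t => by rw [if_pos e1, if_neg e2, h1]⟩
    · exact ⟨(true, true, true), fun t => by rw [if_neg e1, if_pos e2, h1]⟩
    · exact ⟨(false, false, false), fun t => by rw [if_neg e1, if_neg e2, h0, H3DA.neg_neg]⟩
  obtain ⟨ea, hea⟩ := key u (c1 a)
  obtain ⟨eb, heb⟩ := key v (c1 b)
  set p := f (c1 (1 - a)) with hp
  set q := f (c1 (5 - b)) with hq
  refine ⟨add (neg p) ea, add (neg q) eb, add (add ea eb) (add p q), fun mu m1 m2 m3 => ?_⟩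
  have la : lbl r X Y mu f (c1 a) = add (mu u) ea := by rw [lbl_ul h u1 ur hu, hea]
  have lb : lbl r X Y mu f (c1 b) = add (mu v) eb := by rw [lbl_ul h v1 vr hv, heb]
  have lp : lbl r X Y mu f (c1 (1 - a)) = p := lbl_out oa
  have lq : lbl r X Y mu f (c1 (5 - b)) = q := lbl_out ob
  have k1 : ∀ s e w : Q, add s e = w → s = add w e := by decide +kernel
  have n1 : add (mu u) ea ≠ neg p := fun e => m1 (k1 _ _ _ e)
  have n2 : add (mu v) eb ≠ neg q := fun e => m2 (k1 _ _ _ e)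
  rw [cext_iff (by omega)]
  have e01 : (lbl r X Y mu f (c1 0) = p ∧ lbl r X Y mu f (c1 1) = add (mu u) ea) ∨
      (lbl r X Y mu f (c1 1) = p ∧ lbl r X Y mu f (c1 0) = add (mu u) ea) := by
    rcases ha with rfl | rfl
    · exact Or.inr ⟨lp, la⟩
    · exact Or.inl ⟨lp, la⟩
  have e23 : (lbl r X Y mu f (c1 2) = add (mu v) eb ∧ lbl r X Y mu f (c1 3) = q) ∨
      (lbl r X Y mu f (c1 3) = add (mu v) eb ∧ lbl r X Y mu f (c1 2) = q) := by
    rcases hb with rfl | rfl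
    · exact Or.inl ⟨lb, lq⟩
    · exact Or.inr ⟨lb, lq⟩
  refine ⟨?_, ?_, ?_⟩
  · show lbl r X Y mu f (c1 0) ≠ neg (lbl r X Y mu f (c1 1))
    rcases e01 with ⟨a1, a2⟩ | ⟨a1, a2⟩
    · rw [a1, a2]; exact H3DA.ne_neg_symm n1
    · rw [a1, a2]; exact n1
  · show lbl r X Y mu f (c1 2) ≠ neg (lbl r X Y mu f (c1 3))
    rcases e23 with ⟨a1, a2⟩ | ⟨a1, a2⟩
    · rw [a1, a2]; exact n2
    · rw [a1, a2]; exact H3DA.ne_neg_symm n2
  · intro D hT
    have t1 : add (lbl r X Y mu f (c1 0)) (lbl r X Y mu f (c1 1)) = wD D := frk_add _ _ _ hT.1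
    have t3 : add (lbl r X Y mu f (c1 2)) (lbl r X Y mu f (c1 3)) = wD D := by
      have := frk_add _ _ _ hT.2.2
      have e : altT D (2 + 1) = D := by unfold altT; rw [if_pos (by omega)]
      rw [e] at this
      exact this
    have s1 : add (add (mu u) ea) p = wD D := by
      rcases e01 with ⟨a1, a2⟩ | ⟨a1, a2⟩
      · rw [a1, a2, CLB.H95.add_comm'] at t1; exact t1
      · rw [a1, a2] at t1; exact t1
    have s3 : add (add (mu v) eb) q = wD D := by
      rcases e23 with ⟨a1, a2⟩ | ⟨a1, a2⟩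
      · rw [a1, a2] at t3; exact t3
      · rw [a1, a2, CLB.H95.add_comm'] at t3; exact t3
    apply m3
    have k2 : add (add (mu u) ea) p = add (add (mu v) eb) q := s1.trans s3.symm
    exact Prod.ext (xor_key _ _ _ _ _ _ (congrArg Prod.fst k2))
      (Prod.ext (xor_key _ _ _ _ _ _ (congrArg (fun t => t.2.1) k2))
        (xor_key _ _ _ _ _ _ (congrArg (fun t => t.2.2) k2)))

end CLB.H86
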