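import Pool.Agent.Helper86_DA.Ast
import Pool.Agent.Helper95_CLB.OnlPair
import Pool.Agent.Helper3_DA.FLemma

/-!
Module A5: two caterpillars with forks in a closed chain.
-/

set_option autoImplicit false
set_option linter.unusedSectionVars false

namespace CLB.H86

open Finset Classical
open H3DA (Q neg nr)
open CLB.H95
open CLB.H3 (CExt Cat IsTwo pos)

namespace A5

/-! ### Labels up to sign -/

/-- Sign given by a boolean. -/
def sb (τ : Bool) (t : Q) : Q := if τ then t else neg t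

lemma sb_ne : ∀ (τ : Bool) (p r : Q), p ≠ r → sb (!τ) p ≠ neg (sb τ r) := by decide

lemma sb_ne' (τ : Bool) (t s : Q) (h : t ≠ sb τ (neg s)) : sb τ t ≠ neg s := by
  revert τ t s; decide

lemma sb_near : ∀ (τ : Bool) (p s : Q), nr (neg (sb (!τ) p)) s = nr (sb τ s) p := by decide

lemma sb_far : ∀ (τ : Bool) (r s : Q), nr (neg (sb τ r)) s = !(nr (sb τ s) r) := by decide

lemma sb_sb : ∀ (τ ρ : Bool) (t : Q), sb τ (sb ρ t) = sb (τ == ρ) t := by decide

/-- A label `± t`, with `t` near `p` and `r`, is not near `p` and far from `r`. -/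
lemma sb_no (ρ : Bool) (t p r : Q) (h1 : nr p t = true) (h2 : nr r t = true)
    (h3 : nr (sb ρ t) p = true) (h4 : nr (sb ρ t) r = false) : False := by
  cases ρ
  · have : nr (neg t) p = true := h3
    rw [nr_neg, nr_symm h1] at this
    simp at this
  · have : nr t r = false := h4
    rw [nr_symm h2] at this
    simp at this

/-- Periodic functions. -/
lemma per_mul {α : Type*} {k : ℕ} {χ : ℤ → α} (h : ∀ i, χ (i + k) = χ i) (i n : ℤ) :
    χ (i + n * k) = χ i := by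
  induction n using Int.induction_on with
  | zero => simp
  | succ n ih =>
    rw [show i + ((n : ℤ) + 1) * k = i + n * k + k by ring, h]
    exact ih
  | pred n ih =>
    rw [← ih, ← h]
    congr 1
    ring

variable {V : Type*} [Fintype V] {H : SimpleGraph V} {R : V → Bool} {k : ℕ} {X Y : ℤ → V}

/-- The labelling with two values on the chain. -/
noncomputable def Fv (k : ℕ) (X Y : ℤ → V) (χ : ℤ → Bool) (f : V → Q) (v : Bool → Q) : V → Q :=
  lbl k (fun i : ℕ => X i) (fun i : ℕ => Y i) (fun n => v (χ n)) f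

lemma sg_sb {i : ℤ} {n : ℕ} (h : i % 2 = n % 2) (t : Q) :
    sg n t = sb (decide (i % 2 = 0)) t := by
  rcases Nat.mod_two_eq_zero_or_one n with h1 | h1
  · have : i % 2 = 0 := by omega
    rw [sg_even h1, this]; rfl
  · have : i % 2 = 1 := by omega
    rw [sg_odd h1, this]; rfl

section val

variable (h : CC H R k X Y) {χ : ℤ → Bool} (hχ : ∀ i, χ (i + k) = χ i) (f : V → Q) (v : Bool → Q)

include h hχ

lemma repr' (i : ℤ) : ∃ n : ℕ, 1 ≤ n ∧ n ≤ k ∧ (X i = X n ∧ Y i = Y n) ∧ χ i = χ n ∧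
    i % 2 = n % 2 := by
  obtain ⟨n, h1, h2, h3⟩ := h.repr i
  refine ⟨n, h1, h2, h.eqX h3, ?_, ?_⟩
  · obtain ⟨t, ht⟩ := h3
    have e : i = n + t * k := by rw [mul_comm] at ht; omega
    rw [e]
    exact per_mul hχ _ _
  · have h4 : (2 : ℤ) ∣ k := by
      have := h.even
      omega
    have h5 : (2 : ℤ) ∣ i - n := dvd_trans h4 h3
    omega

lemma FX (i : ℤ) : Fv k X Y χ f v (X i) = sb (decide (i % 2 = 0)) (v (χ i)) := by
  obtain ⟨n, h1, h2, ⟨h3, -⟩, h4, h5⟩ := repr' h hχ i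
  have := lbl_x (mu := fun n : ℕ => v (χ n)) (f := f) h.chn h1 h2
  rw [h3, h4, ← sg_sb h5]
  exact this

lemma FY (i : ℤ) : Fv k X Y χ f v (Y i) = sb (!decide (i % 2 = 0)) (v (χ i)) := by
  obtain ⟨n, h1, h2, ⟨-, h3⟩, h4, h5⟩ := repr' h hχ i
  have := lbl_y (mu := fun n : ℕ => v (χ n)) (f := f) h.chn h1 h2
  have e : ∀ (τ : Bool) (t : Q), sb (!τ) t = neg (sb τ t) := by decide
  rw [h3, h4, e, ← sg_sb h5]
  exact this

lemma Fin' {u : V} (hu : InZ X Y u) : ∃ (τ b : Bool), ∀ v, Fv k X Y χ f v u = sb τ (v b) := by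
  obtain ⟨i, rfl | rfl⟩ := hu
  · exact ⟨_, _, fun v => FX h hχ f v i⟩
  · exact ⟨_, _, fun v => FY h hχ f v i⟩

omit hχ in
lemma Fout {u : V} (hu : ¬ InZ X Y u) : Fv k X Y χ f v u = f u :=
  lbl_out (fun h' => hu (h.inC_iff.1 h'))

end val

/-- A conflict between the units `j` and `j + 2`. -/
def LL (H : SimpleGraph V) (R : V → Bool) (X Y : ℤ → V) (j : ℤ) : Prop :=
  ∃ u, ¬ Cov H R u ∧ H.Adj u (Y j) ∧ H.Adj u (X (j + 2))

section key

variable {V : Type} [Fintype V] {H : SimpleGraph V} {R : V → Bool} {k : ℕ} {X Y : ℤ → V}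
  (tn : TwoNH) (hG : ClassC H R) (h : CC H R k X Y) {χ : ℤ → Bool} (hχ : ∀ i, χ (i + k) = χ i)
  (hL : ∀ i, LL H R X Y i → χ i ≠ χ (i + 2)) {f : V → Q}
  (hf : OffC H R k (fun i : ℕ => X i) (fun i : ℕ => Y i) f) {m : ℕ} {z c : ℕ → V}
  (hK : Cat H R m z c)

include tn hG h hL in
/-- Two neighbours in the chain. -/
lemma fork_chi {u a b : V} (hu : ¬ Cov H R u) (hab : a ≠ b) (ha : H.Adj u a) (hb : H.Adj u b)
    (ia : InZ X Y a) (ib : InZ X Y b) : ∃ i, χ i ≠ χ (i + 2) ∧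
      ((a = Y i ∧ b = X (i + 2)) ∨ (b = Y i ∧ a = X (i + 2))) := by
  obtain ⟨i, hi⟩ := tn V H R k X Y hG h u a b hu hab ha hb ia ib
  refine ⟨i, hL i ⟨u, hu, ?_⟩, hi⟩
  rcases hi with ⟨e1, e2⟩ | ⟨e1, e2⟩
  · rw [← e1, ← e2]; exact ⟨ha, hb⟩
  · rw [← e1, ← e2]; exact ⟨hb, ha⟩

lemma v_ne {v : Bool → Q} (hv : v false ≠ v true) {a b : Bool} (hab : a ≠ b) : v a ≠ v b := by
  cases a <;> cases b
  · exact absurd rfl hab
  · exact hv
  · exact hv.symm
  · exact absurd rfl hab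

lemma v_nr {v : Bool → Q} (hv : nr (v false) (v true) = true) (a b : Bool) :
    nr (v a) (v b) = true := by
  cases a <;> cases b
  · exact H3DA.nr_self _
  · exact hv
  · exact nr_symm hv
  · exact H3DA.nr_self _

include h hχ in
lemma val_fork {v : Bool → Q} {i : ℤ} {a b : V}
    (hi : (a = Y i ∧ b = X (i + 2)) ∨ (b = Y i ∧ a = X (i + 2))) :
    (Fv k X Y χ f v a = sb (!decide (i % 2 = 0)) (v (χ i)) ∧
      Fv k X Y χ f v b = sb (decide (i % 2 = 0)) (v (χ (i + 2)))) ∨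
    (Fv k X Y χ f v b = sb (!decide (i % 2 = 0)) (v (χ i)) ∧
      Fv k X Y χ f v a = sb (decide (i % 2 = 0)) (v (χ (i + 2)))) := by
  have e : (i + 2) % 2 = i % 2 := by omega
  have hX := FX h hχ f v (i + 2)
  rw [e] at hX
  rcases hi with ⟨rfl, rfl⟩ | ⟨rfl, rfl⟩
  · exact Or.inl ⟨FY h hχ f v i, hX⟩
  · exact Or.inr ⟨FY h hχ f v i, hX⟩

include tn hG h hχ hL in
/-- The labels of a fork in the chain are not antipodal. -/
lemma fork_in {u a b : V} (hu : ¬ Cov H R u) (hab : a ≠ b) (ha : H.Adj u a) (hb : H.Adj u b)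
    (ia : InZ X Y a) (ib : InZ X Y b) {v : Bool → Q} (hv : v false ≠ v true) :
    Fv k X Y χ f v a ≠ neg (Fv k X Y χ f v b) := by
  obtain ⟨i, hi, hi'⟩ := fork_chi tn hG h hL hu hab ha hb ia ib
  rcases val_fork h hχ (f := f) (v := v) hi' with ⟨e1, e2⟩ | ⟨e1, e2⟩
  · rw [e1, e2]; exact sb_ne _ _ _ (v_ne hv hi)
  · rw [e1, e2]; exact H3DA.ne_neg_symm (sb_ne _ _ _ (v_ne hv hi))

include tn hG h hχ hL hf in
/-- A fork: one forbidden value. -/
lemma fork_any {u a b : V} (hu : ¬ Cov H R u) (hab : a ≠ b) (ha : H.Adj u a) (hb : H.Adj u b) :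
    ∃ (w : Q) (b3 : Bool), ∀ v : Bool → Q, v false ≠ v true → v b3 ≠ w →
      Fv k X Y χ f v a ≠ neg (Fv k X Y χ f v b) := by
  by_cases ia : InZ X Y a <;> by_cases ib : InZ X Y b
  · exact ⟨f u, true, fun v hv _ => fork_in tn hG h hχ hL hu hab ha hb ia ib hv⟩
  · obtain ⟨τ, b0, e⟩ := Fin' h hχ f ia
    refine ⟨sb τ (neg (f b)), b0, fun v _ hv => ?_⟩
    rw [e, Fout h f v ib]
    exact sb_ne' _ _ _ hv
  · obtain ⟨τ, b0, e⟩ := Fin' h hχ f ib
    refine ⟨sb τ (neg (f a)), b0, fun v _ hv => ?_⟩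
    rw [e, Fout h f v ia]
    exact H3DA.ne_neg_symm (sb_ne' _ _ _ hv)
  · refine ⟨f u, true, fun v _ _ => ?_⟩
    rw [Fout h f v ia, Fout h f v ib]
    have iu : ¬ InC k (fun i : ℕ => X i) (fun i : ℕ => Y i) u := fun h' =>
      hu (h.cov (h.inC_iff.1 h'))
    have e1 := (hf u a ha iu (fun h' => ia (h.inC_iff.1 h'))).2 (CLB.H3.he_of_unc hu ha).2
    have e2 := (hf u b hb iu (fun h' => ib (h.inC_iff.1 h'))).2 (CLB.H3.he_of_unc hu hb).2
    exact H3DA.nr_common e1 e2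

include tn hG h hχ hL hf hK in
/-- The conditions of one caterpillar on the two values. -/
theorem key (hm : 2 ≤ m) (i0 : InZ X Y (c 0)) (i1 : InZ X Y (c 1)) :
    ∃ (q w : Q) (b1 b3 : Bool), ∀ v : Bool → Q, nr (v false) (v true) = true → v false ≠ v true →
      ¬ (nr q (v b1) = true ∧ nr q (v (!b1)) = false) → v b3 ≠ w →
      CExt m (fun j => Fv k X Y χ f v (c j)) := by
  have hpos := hK.pos
  obtain ⟨w, b3, hw⟩ := fork_any tn hG h hχ hL hf (hK.unc m hpos le_rfl) hK.nem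
    (hK.adjc m hpos le_rfl) hK.adjm
  obtain ⟨i, hi, hi'⟩ := fork_chi tn hG h hL (hK.unc 1 le_rfl hpos) hK.ne0 hK.adj0
    (hK.adjc 1 le_rfl hpos) i0 i1
  have near : ∀ v : Bool → Q, ∀ D, Tight D (fun j => Fv k X Y χ f v (c j)) m →
      nr (sb (decide (i % 2 = 0)) (Fv k X Y χ f v (c 2))) (v (χ i)) = true ∧
      nr (sb (decide (i % 2 = 0)) (Fv k X Y χ f v (c 2))) (v (χ (i + 2))) = false := by
    intro v D hD
    have hn := hD.near hm
    rcases val_fork h hχ (f := f) (v := v) hi' with ⟨e1, e2⟩ | ⟨e1, e2⟩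
    · have h1 := hn.1
      have h2 := hn.2
      simp only [e1, e2] at h1 h2
      rw [sb_near] at h1
      rw [sb_far] at h2
      exact ⟨h1, by simpa using h2⟩
    · have h1 := hn.1
      have h2 := hn.2
      simp only [e1, e2] at h1 h2
      rw [sb_near] at h2
      rw [sb_far] at h1
      exact ⟨h2, by simpa using h1⟩
  have fin : ∀ v : Bool → Q, v false ≠ v true → v b3 ≠ w →
      (∀ D, ¬ Tight D (fun j => Fv k X Y χ f v (c j)) m) →
      CExt m (fun j => Fv k X Y χ f v (c j)) := by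
    intro v h1 h2 h3
    rw [cext_iff hpos]
    exact ⟨fork_in tn hG h hχ hL (hK.unc 1 le_rfl hpos) hK.ne0 hK.adj0 (hK.adjc 1 le_rfl hpos)
      i0 i1 h1, hw v h1 h2, h3⟩
  by_cases i2 : InZ X Y (c 2)
  · obtain ⟨τ, b0, e⟩ := Fin' h hχ f i2
    refine ⟨w, w, true, b3, fun v v1 v2 _ v4 => fin v v2 v4 (fun D hD => ?_)⟩
    have hn := near v D hD
    rw [e, sb_sb] at hn
    exact sb_no _ _ _ _ (v_nr v1 _ _) (v_nr v1 _ _) hn.1 hn.2
  · refine ⟨sb (decide (i % 2 = 0)) (f (c 2)), w, χ i, b3,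
      fun v v1 v2 v3 v4 => fin v v2 v4 (fun D hD => ?_)⟩
    have hn := near v D hD
    rw [Fout h f v i2] at hn
    have e : χ (i + 2) = !(χ i) := by
      revert hi
      cases χ i <;> cases χ (i + 2) <;> simp
    rw [e] at hn
    exact v3 hn

end key

section struct

variable {V : Type} [Fintype V] {H : SimpleGraph V} {R : V → Bool} {k : ℕ} {X Y : ℤ → V}

/-- The vertices of the units of parity `p`. -/
def At (X Y : ℤ → V) (p : ℤ) (v : V) : Prop := ∃ j, j % 2 = p % 2 ∧ (v = X j ∨ v = Y j)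

/-- A conflict at the vertex `u` between units of parity `p`. -/
def UU (H : SimpleGraph V) (X Y : ℤ → V) (p : ℤ) (u : V) : Prop :=
  ∃ j, j % 2 = p % 2 ∧ H.Adj u (Y j) ∧ H.Adj u (X (j + 2))

lemma at_ne (h : CC H R k X Y) {p i : ℤ} (hi : i % 2 ≠ p % 2) {v : V} (hv : At X Y p v) :
    v ≠ X i ∧ v ≠ Y i := by
  have h4 : (2 : ℤ) ∣ k := by
    have := h.even
    omega
  obtain ⟨j, hj, rfl | rfl⟩ := hv
  · refine ⟨fun e => ?_, h.xy j i⟩
    have := dvd_trans h4 (h.injX _ _ e)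
    omega
  · refine ⟨fun e => h.xy i j e.symm, fun e => ?_⟩
    have := dvd_trans h4 (h.injY _ _ e)
    omega

/-- The fork at the first vertex. -/
lemma fork_one (h : CC H R k X Y) {m : ℕ} {z c : ℕ → V} (hK : Cat H R m z c) (hm : 2 ≤ m) {p : ℤ}
    (hu : UU H X Y p (z 1)) : At X Y p (c 0) ∧ At X Y p (c 1) := by
  obtain ⟨j, hj, h1, h2⟩ := hu
  obtain ⟨a, a1, a2, a3⟩ := port_exists hK le_rfl (by omega) (h.covY j) h1
  obtain ⟨b, b1, b2, b3⟩ := port_exists hK le_rfl (by omega) (h.covX (j + 2)) h2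
  have hab : a ≠ b := by
    rintro rfl
    exact h.xy (j + 2) j (b2.symm.trans a2)
  have ha : a = 0 ∨ a = 1 := by
    unfold cl at a3; split_ifs at a3 <;> omega
  have hb : b = 0 ∨ b = 1 := by
    unfold cl at b3; split_ifs at b3 <;> omega
  have A1 : At X Y p (c a) := ⟨j, hj, Or.inr a2⟩
  have A2 : At X Y p (c b) := ⟨j + 2, by omega, Or.inl b2⟩
  rcases ha with rfl | rfl <;> rcases hb with rfl | rfl
  · exact absurd rfl hab
  · exact ⟨A1, A2⟩
  · exact ⟨A2, A1⟩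
  · exact absurd rfl hab

/-- The fork at the last vertex. -/
lemma fork_last (h : CC H R k X Y) {m : ℕ} {z c : ℕ → V} (hK : Cat H R m z c) (hm : 2 ≤ m) {p : ℤ}
    (hu : UU H X Y p (z m)) : At X Y p (c m) ∧ At X Y p (c (m + 1)) := by
  have hu' : UU H X Y p ((fun i => z (m + 1 - i)) 1) := by
    show UU H X Y p (z (m + 1 - 1))
    rw [Nat.add_sub_cancel]; exact hu
  have := fork_one h (cat_rev hK) hm hu'
  simp only [Nat.sub_zero, Nat.add_sub_cancel] at this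
  exact ⟨this.2, this.1⟩

/-- A conflict is at an end. -/
lemma end_of (h : CC H R k X Y) {m : ℕ} {z c : ℕ → V} (hK : Cat H R m z c) {i : ℕ} (i1 : 1 ≤ i)
    (i2 : i ≤ m) {p : ℤ} (hu : UU H X Y p (z i)) : z i = z 1 ∨ z i = z m := by
  obtain ⟨j, hj, h1, h2⟩ := hu
  obtain ⟨a, a1, a2, a3⟩ := port_exists hK i1 i2 (h.covY j) h1
  obtain ⟨b, b1, b2, b3⟩ := port_exists hK i1 i2 (h.covX (j + 2)) h2
  have hab : a ≠ b := by
    rintro rfl
    exact h.xy (j + 2) j (b2.symm.trans a2)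
  have : i = 1 ∨ i = m := by
    unfold cl at a3 b3
    split_ifs at a3 b3 <;> omega
  rcases this with rfl | rfl
  · exact Or.inl rfl
  · exact Or.inr rfl

/-- The contradiction: both forks of `K` and one fork of `K'` at units of the same parity. -/
lemma no_three (hG : ClassC H R) (hc : Crit H R) (h : CC H R k X Y) {m m' : ℕ}
    {z c z' c' : ℕ → V} (hK : Cat H R m z c) (hK' : Cat H R m' z' c') (hm : 2 ≤ m)
    (hP : ∀ v, InZ X Y v → Prt m c v ∨ Prt m' c' v)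
    (full' : ∀ j, Prt m' c' (Y j) ↔ ¬ Prt m' c' (X (j + 1))) {p : ℤ}
    (u1 : UU H X Y p (z 1)) (u2 : UU H X Y p (z m)) (u3 : UU H X Y p (z' 1) ∨ UU H X Y p (z' m')) :
    False := by
  obtain ⟨F0, F1⟩ := fork_one h hK hm u1
  obtain ⟨Fm, Fm'⟩ := fork_last h hK hm u2
  have : ∃ j, j % 2 = p % 2 ∧ Prt m' c' (Y j) ∧ Prt m' c' (X (j + 2)) := by
    have hpos := hK'.pos
    rcases u3 with ⟨j, hj, h1, h2⟩ | ⟨j, hj, h1, h2⟩
    · obtain ⟨a, a1, a2, a3⟩ := port_exists hK' le_rfl hpos (h.covY j) h1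
      obtain ⟨b, b1, b2, b3⟩ := port_exists hK' le_rfl hpos (h.covX (j + 2)) h2
      exact ⟨j, hj, ⟨a, a1, a2⟩, ⟨b, b1, b2⟩⟩
    · obtain ⟨a, a1, a2, a3⟩ := port_exists hK' hpos le_rfl (h.covY j) h1
      obtain ⟨b, b1, b2, b3⟩ := port_exists hK' hpos le_rfl (h.covX (j + 2)) h2
      exact ⟨j, hj, ⟨a, a1, a2⟩, ⟨b, b1, b2⟩⟩
  obtain ⟨j, hj, h1, h2⟩ := this
  have n1 : ¬ Prt m' c' (X (j + 1)) := (full' j).1 h1
  have n2 : ¬ Prt m' c' (Y (j + 1)) := by
    intro h'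
    refine (full' (j + 1)).1 h' ?_
    rw [show j + 1 + 1 = j + 2 by ring]
    exact h2
  obtain ⟨a, a1, a2⟩ := (hP _ (inZ_X X Y (j + 1))).resolve_right n1
  obtain ⟨b, b1, b2⟩ := (hP _ (inZ_Y X Y (j + 1))).resolve_right n2
  have hme : Me H R (c a) (c b) := by rw [a2, b2]; exact h.me _
  have hlk : Lk H R (c a) (Y j) := by rw [a2]; exact (h.lk j).symm
  refine CLB.H3.full_leaf hG hc hK a1 b1 hme hlk ?_
  have hne : (j + 1) % 2 ≠ p % 2 := by omega
  intro l hl hor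
  rw [a2, b2] at hor
  have e : ∀ v, At X Y p v → ¬ (v = X (j + 1) ∨ v = Y (j + 1)) := by
    intro v hv
    have := at_ne h hne hv
    rintro (e | e)
    · exact this.1 e
    · exact this.2 e
  have l0 : l ≠ 0 := by rintro rfl; exact e _ F0 hor
  have l1 : l ≠ 1 := by rintro rfl; exact e _ F1 hor
  have lm : l ≠ m := by rintro rfl; exact e _ Fm hor
  have lm' : l ≠ m + 1 := by rintro rfl; exact e _ Fm' hor
  omega

/-- Three elements of the union of two pairs. -/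
lemma pairs {α : Type*} {U : α → Prop} {u1 u2 u3 a b a' b' : α} (n1 : u1 ≠ u2) (n2 : u1 ≠ u3)
    (n3 : u2 ≠ u3) (h1 : U u1) (h2 : U u2) (h3 : U u3)
    (c1 : (u1 = a ∨ u1 = b) ∨ (u1 = a' ∨ u1 = b')) (c2 : (u2 = a ∨ u2 = b) ∨ (u2 = a' ∨ u2 = b'))
    (c3 : (u3 = a ∨ u3 = b) ∨ (u3 = a' ∨ u3 = b')) :
    (U a ∧ U b ∧ (U a' ∨ U b')) ∨ (U a' ∧ U b' ∧ (U a ∨ U b)) := by
  rcases c1 with (rfl | rfl) | (rfl | rfl) <;> rcases c2 with (rfl | rfl) | (rfl | rfl) <;>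
    rcases c3 with (rfl | rfl) | (rfl | rfl) <;> tauto

end struct

end A5

open A5

/-- Module A5: two caterpillars with forks in the chain. -/
theorem twoK (tv : TvH) (col : ColH) (tn : TwoNH) : TwoKH := by
  intro V _ H R k X Y hG hc h hk m z c m' z' c' hK hK' hne hm hm' i0 i1 i0' i1' full full'
  have hpos := hK.pos
  have hpos' := hK'.pos
  -- every vertex of the chain is a port
  have hP : ∀ v, InZ X Y v → Prt m c v ∨ Prt m' c' v := by
    have key : ∀ j, (Prt m c (Y j) ∨ Prt m' c' (Y j)) ∧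
        (Prt m c (X (j + 1)) ∨ Prt m' c' (X (j + 1))) := by
      intro j
      have hno : ∀ v, InZ X Y v → Prt m c v → Prt m' c' v → False := fun v hv h1 h2 =>
        hne (h.port_comp hG hK hK' hv h1 h2)
      have e1 := full j
      have e2 := full' j
      have n1 := hno (Y j) (inZ_Y X Y j)
      have n2 := hno (X (j + 1)) (inZ_X X Y (j + 1))
      tauto
    rintro v ⟨j, rfl | rfl⟩
    · have := (key (j - 1)).2
      rwa [sub_add_cancel] at this
    · exact (key j).1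
  have hP' : ∀ v, InZ X Y v → Prt m' c' v ∨ Prt m c v := fun v hv => (hP v hv).symm
  -- the uncovered neighbours
  have hZ : ∀ u a, ¬ Cov H R u → H.Adj u a → InZ X Y a →
      (∃ i, 1 ≤ i ∧ i ≤ m ∧ u = z i) ∨ (∃ i, 1 ≤ i ∧ i ≤ m' ∧ u = z' i) := by
    intro u a hu ha ia
    rcases hP a ia with ⟨j, j1, rfl⟩ | ⟨j, j1, rfl⟩
    · left
      have hcl := cl_mem hpos j1
      exact ⟨cl m j, hcl.1, hcl.2, h.unc_unique hG ia ha.symm (cat_adj_cl hK j1) hu
        (hK.unc _ hcl.1 hcl.2)⟩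
    · right
      have hcl := cl_mem hpos' j1
      exact ⟨cl m' j, hcl.1, hcl.2, h.unc_unique hG ia ha.symm (cat_adj_cl hK' j1) hu
        (hK'.unc _ hcl.1 hcl.2)⟩
  have hend : ∀ p u, ¬ Cov H R u → UU H X Y p u → (u = z 1 ∨ u = z m) ∨ (u = z' 1 ∨ u = z' m') := by
    intro p u hu hU
    obtain ⟨j, hj, h1, h2⟩ := hU
    rcases hZ u _ hu h1 (inZ_Y X Y j) with ⟨i, e1, e2, rfl⟩ | ⟨i, e1, e2, rfl⟩
    · exact Or.inl (end_of h hK e1 e2 ⟨j, hj, h1, h2⟩)
    · exact Or.inr (end_of h hK' e1 e2 ⟨j, hj, h1, h2⟩)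
  -- the colouring
  have hper : ∀ i, LL H R X Y (i + k) ↔ LL H R X Y i := by
    intro i
    unfold LL
    rw [h.perY, show i + (k : ℤ) + 2 = i + 2 + k by ring, h.perX]
  have hcol : k % 4 = 0 ∨ ∀ p : ℤ, ∃ j, j % 2 = p % 2 ∧ ¬ LL H R X Y j := by
    by_contra hcon
    push Not at hcon
    obtain ⟨h4, p, hp⟩ := hcon
    have hev := h.even
    have hk6 : 6 ≤ k := by omega
    obtain ⟨u1, a1, b1, c1⟩ := hp p rfl
    obtain ⟨u2, a2, b2, c2⟩ := hp (p + 2) (by omega)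
    obtain ⟨u3, a3, b3, c3⟩ := hp (p + 4) (by omega)
    have hyy : ∀ u i j, ¬ Cov H R u → H.Adj u (Y i) → H.Adj u (Y j) → Y i ≠ Y j → False := by
      intro u i j hu hi hj hij
      obtain ⟨l, ⟨-, e⟩ | ⟨-, e⟩⟩ := tn V H R k X Y hG h u _ _ hu hij hi hj (inZ_Y X Y i) (inZ_Y X Y j)
      · exact h.xy _ _ e.symm
      · exact h.xy _ _ e.symm
    have n1 : u1 ≠ u2 := by
      rintro rfl
      exact hyy u1 p (p + 2) a1 b1 b2 (h.neY (by omega) (by omega))
    have n2 : u1 ≠ u3 := by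
      rintro rfl
      exact hyy u1 p (p + 4) a1 b1 b3 (h.neY (by omega) (by omega))
    have n3 : u2 ≠ u3 := by
      rintro rfl
      exact hyy u2 (p + 2) (p + 4) a2 b2 b3 (h.neY (by omega) (by omega))
    have U1 : UU H X Y p u1 := ⟨p, rfl, b1, c1⟩
    have U2 : UU H X Y p u2 := ⟨p + 2, by omega, b2, c2⟩
    have U3 : UU H X Y p u3 := ⟨p + 4, by omega, b3, c3⟩
    rcases pairs (U := UU H X Y p) n1 n2 n3 U1 U2 U3 (hend p u1 a1 U1) (hend p u2 a2 U2)
      (hend p u3 a3 U3) with ⟨e1, e2, e3⟩ | ⟨e1, e2, e3⟩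
    · exact no_three hG hc h hK hK' (by omega) hP full' e1 e2 e3
    · exact no_three hG hc h hK' hK (by omega) hP' full e1 e2 e3
  obtain ⟨χ, hχ, hL⟩ := col k (LL H R X Y) hk h.even
    (by first | exact hper | exact fun i => (hper i).1) hcol
  obtain ⟨f, hf⟩ := exists_off h.chn hc
  obtain ⟨q, w, b1, b3, hv⟩ := key tn hG h hχ hL hf hK (by omega) i0 i1
  obtain ⟨q', w', b2, b4, hv'⟩ := key tn hG h hχ hL hf hK' (by omega) i0' i1'
  obtain ⟨v, v1, v2, v3, v4, v5, v6⟩ := tv q q' w w' b1 b2 b3 b4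
  have e := hv v v1 v2 v3 v5
  have e' := hv' v v1 v2 v4 v6
  refine chain_contra hG hc h.chn (Or.inl h.lkc) hf (mu := fun n => v (χ n)) ⟨?_, ?_, ?_, ?_⟩
  · intro i _ _
    exact v_nr v1 _ _
  · intro _
    exact v_nr v1 _ _
  · intro u a b hT ha
    have hu := hT.1
    rcases hZ u a hu hT.2.1 (h.inC_iff.1 ha) with ⟨i, i1, i2, rfl⟩ | ⟨i, i1, i2, rfl⟩
    · exact absurd hT (fun hT => isTwo_not_cat hK i1 i2 hT)
    · exact absurd hT (fun hT => isTwo_not_cat hK' i1 i2 hT)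
  · intro m2 z2 c2 hK2 hex
    obtain ⟨j, j1, j2⟩ := hex
    have iz := h.inC_iff.1 j2
    show CExt m2 (fun j => Fv k X Y χ f v (c2 j))
    rcases hP _ iz with hp | hp
    · have hS := h.port_comp hG hK2 hK iz ⟨j, j1, rfl⟩ hp
      rw [cext_iff_fits hK2, hS, ← cext_iff_fits hK]
      exact e
    · have hS := h.port_comp hG hK2 hK' iz ⟨j, j1, rfl⟩ hp
      rw [cext_iff_fits hK2, hS, ← cext_iff_fits hK']
      exact e'

end CLB.H86
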