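import Pool.Agent.Helper86_DA.Cc
import Pool.Agent.Helper95_CLB.ClosedStatic

/-!
Closed walks through the lists of a closed chain with further history dependent forbidden labels.
-/

set_option autoImplicit false
set_option linter.unusedSectionVars false

namespace CLB.H86

open Finset Classical
open H3DA (Q neg nr)
open CLB.H95
open CLB.H3 (CExt Cat IsTwo)

variable {V : Type*} {H : SimpleGraph V} {R : V → Bool} [Fintype V] {k : ℕ} {x y : ℕ → V}

/-- The list of unit `i` for the history `g`. -/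
noncomputable def Fl (H : SimpleGraph V) (R : V → Bool) (k : ℕ) (x y : ℕ → V) (Φ : V → V → Finset Q)
    (κ : V → (ℕ → Q) → Finset Q) (i : ℕ) (g : ℕ → Q) : Finset Q :=
  if 1 ≤ i ∧ i ≤ k then lst H R x y Φ i \ (κ (x i) g ∪ κ (y i) g) else univ

/-- Further forbidden labels: at most one at every vertex, only at uncharged vertices, depending on the
past. -/
structure Kap (H : SimpleGraph V) (R : V → Bool) (k : ℕ) (x y : ℕ → V) (Φ : V → V → Finset Q)
    (κ : V → (ℕ → Q) → Finset Q) : Prop where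
  two : ∀ v z, (Φ v z).card ≤ 2
  one : ∀ v g, (κ v g).card ≤ 1
  dep : ∀ i, 1 ≤ i → i ≤ k → ∀ g g', Same i g g' → κ (x i) g = κ (x i) g' ∧ κ (y i) g = κ (y i) g'
  unch : ∀ i, 1 ≤ i → i ≤ k → ∀ g, (κ (x i) g ≠ ∅ → cst H R Φ (x i) = 0) ∧
    (κ (y i) g ≠ ∅ → cst H R Φ (y i) = 0)
  st2 : ∀ g g', κ (x 2) g = κ (x 2) g' ∧ κ (y 2) g = κ (y 2) g'
  lastx : ∀ g, κ (x k) g = ∅
  lasty : ∀ g, κ (y k) g = ∅
  yp : cst H R Φ (y (k - 1)) = 0
  ypk : ∀ g, κ (y (k - 1)) g = ∅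
  x1 : cst H R Φ (x 1) = 0

variable {Φ : V → V → Finset Q} {κ : V → (ℕ → Q) → Finset Q}

lemma Fl_in {i : ℕ} (h1 : 1 ≤ i) (h2 : i ≤ k) (g : ℕ → Q) :
    Fl H R k x y Φ κ i g = lst H R x y Φ i \ (κ (x i) g ∪ κ (y i) g) := by
  unfold Fl; rw [if_pos ⟨h1, h2⟩]

lemma Fl_common {i : ℕ} (h1 : 1 ≤ i) (h2 : i ≤ k) (g g' : ℕ → Q) {a b : ℕ}
    (ha : cst H R Φ (x i) + (κ (x i) g ∪ κ (x i) g').card ≤ a)
    (hb : cst H R Φ (y i) + (κ (y i) g ∪ κ (y i) g').card ≤ b) :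
    8 ≤ (Fl H R k x y Φ κ i g ∩ Fl H R k x y Φ κ i g').card + (a + b) := by
  have e := lst_card (G := H) (R := R) (x := x) (y := y) Φ i
  have hsub : lst H R x y Φ i ⊆ (Fl H R k x y Φ κ i g ∩ Fl H R k x y Φ κ i g') ∪
      ((κ (x i) g ∪ κ (x i) g') ∪ (κ (y i) g ∪ κ (y i) g')) := by
    intro t ht
    rw [Fl_in h1 h2, Fl_in h1 h2]
    simp only [mem_union, mem_inter, mem_sdiff]
    tauto
  have c1 := Finset.card_le_card hsub
  have c2 := Finset.card_union_le (Fl H R k x y Φ κ i g ∩ Fl H R k x y Φ κ i g')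
      ((κ (x i) g ∪ κ (x i) g') ∪ (κ (y i) g ∪ κ (y i) g'))
  have c3 := Finset.card_union_le (κ (x i) g ∪ κ (x i) g') (κ (y i) g ∪ κ (y i) g')
  omega

/-- The cost of a vertex is at most two for two histories. -/
lemma cost2 (hn : ∀ v z, (Φ v z).card ≤ 2) {v : V} (hp : (prt H R v).card ≤ 1)
    {g g' : ℕ → Q} (h1 : (κ v g).card ≤ 1) (h1' : (κ v g').card ≤ 1)
    (hu : κ v g ≠ ∅ → cst H R Φ v = 0) (hu' : κ v g' ≠ ∅ → cst H R Φ v = 0) :
    cst H R Φ v + (κ v g ∪ κ v g').card ≤ 2 := by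
  have e1 := cst_le hn hp
  by_cases hk : κ v g = ∅
  · by_cases hk' : κ v g' = ∅
    · rw [hk, hk', Finset.union_empty, Finset.card_empty]; omega
    · have := hu' hk'
      have := Finset.card_union_le (κ v g) (κ v g')
      omega
  · have := hu hk
    have := Finset.card_union_le (κ v g) (κ v g')
    omega

/-- The cost for one history. -/
lemma cost1 (hn : ∀ v z, (Φ v z).card ≤ 2) {v : V} (hp : (prt H R v).card ≤ 1)
    {g : ℕ → Q} (h1 : (κ v g).card ≤ 1) (hu : κ v g ≠ ∅ → cst H R Φ v = 0) :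
    cst H R Φ v + (κ v g ∪ κ v g).card ≤ 2 := cost2 hn hp h1 h1 hu hu

section

variable (hG : ClassC H R) (h : Chn H R k x y) (hl : Lk H R (y k) (x 1)) (hK : Kap H R k x y Φ κ)

include hG h hl hK

lemma Fl_dep : DepF (Fl H R k x y Φ κ) := by
  intro i g g' hs
  unfold Fl
  split_ifs with hi
  · obtain ⟨e1, e2⟩ := hK.dep i hi.1 hi.2 g g' hs
    rw [e1, e2]
  · rfl

lemma costx {i : ℕ} (h1 : 1 ≤ i) (h2 : i ≤ k) (g g' : ℕ → Q) :
    cst H R Φ (x i) + (κ (x i) g ∪ κ (x i) g').card ≤ 2 :=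
  cost2 hK.two (h.prt_x hG hl h1 h2) (hK.one _ _) (hK.one _ _) (hK.unch i h1 h2 g).1
    (hK.unch i h1 h2 g').1

lemma costy {i : ℕ} (h1 : 1 ≤ i) (h2 : i ≤ k) (g g' : ℕ → Q) :
    cst H R Φ (y i) + (κ (y i) g ∪ κ (y i) g').card ≤ 2 :=
  cost2 hK.two (h.prt_y hG hl h1 h2) (hK.one _ _) (hK.one _ _) (hK.unch i h1 h2 g).2
    (hK.unch i h1 h2 g').2

lemma Fl4 {i : ℕ} (h1 : 1 ≤ i) (h2 : i ≤ k) (g g' : ℕ → Q) :
    4 ≤ (Fl H R k x y Φ κ i g ∩ Fl H R k x y Φ κ i g').card := by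
  have := Fl_common h1 h2 g g' (costx hG h hl hK h1 h2 g g') (costy hG h hl hK h1 h2 g g')
  omega

lemma Fl4' {i : ℕ} (h1 : 1 ≤ i) (h2 : i ≤ k) (g : ℕ → Q) : 4 ≤ (Fl H R k x y Φ κ i g).card := by
  have := Fl4 hG h hl hK h1 h2 g g
  rwa [Finset.inter_self] at this

lemma Fl_prev (hk : 2 ≤ k) (g g' : ℕ → Q) :
    6 ≤ (Fl H R k x y Φ κ (k - 1) g ∩ Fl H R k x y Φ κ (k - 1) g').card := by
  have e : cst H R Φ (y (k - 1)) + (κ (y (k - 1)) g ∪ κ (y (k - 1)) g').card ≤ 0 := by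
    rw [hK.yp, hK.ypk, hK.ypk]; simp
  have := Fl_common (k := k) (show 1 ≤ k - 1 by omega) (by omega) g g'
    (costx hG h hl hK (show 1 ≤ k - 1 by omega) (by omega) g g') e
  omega

/-- The first way. -/
theorem asm1 (ct1 : Ct1H) (hk : 4 ≤ k) (k1 : ∀ g, κ (x 1) g = ∅) :
    ∃ mu : ℕ → Q, (∀ i, 1 ≤ i → i ≤ k → mu i ∈ lst H R x y Φ i ∧ mu i ∉ κ (x i) mu ∧
      mu i ∉ κ (y i) mu) ∧ (∀ i, 1 ≤ i → i < k → nr (mu i) (mu (i + 1)) = true) ∧
      nr (mu k) (mu 1) = true ∧ mu (k - 1) ≠ mu 1 := by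
  have key : ∃ mu, CW (Fl H R k x y Φ κ) k mu ∧ mu (k - 1) ≠ mu 1 := by
    refine ct1 (Fl H R k x y Φ κ) k hk (Fl_dep hG h hl hK) ?_ ?_ ?_ ?_ ?_ ?_ ?_
    · intro g
      have e : cst H R Φ (x 1) + (κ (x 1) g ∪ κ (x 1) g).card ≤ 0 := by
        rw [hK.x1, k1]; simp
      have := Fl_common (k := k) le_rfl (by omega) g g e (costy hG h hl hK le_rfl (by omega) g g)
      rw [Finset.inter_self] at this
      omega
    · intro g; exact Fl4' hG h hl hK (by omega) (by omega) g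
    · intro g g'
      rw [Fl_in (by omega) (by omega), Fl_in (by omega) (by omega), (hK.st2 g g').1, (hK.st2 g g').2]
    · intro i h1 h2 g g'
      exact Fl4 hG h hl hK (by omega) (by omega) g g'
    · intro g g'; exact Fl_prev hG h hl hK (by omega) g g'
    · intro g; exact Fl4' hG h hl hK (by omega) le_rfl g
    · intro g g'
      rw [Fl_in (by omega) le_rfl, Fl_in (by omega) le_rfl, hK.lastx, hK.lastx, hK.lasty, hK.lasty]
  obtain ⟨mu, hmu, hne⟩ := key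
  refine ⟨mu, fun i h1 h2 => ?_, hmu.walk, hmu.cyc, hne⟩
  have := hmu.mem i h1 h2
  rw [Fl_in h1 h2] at this
  simp only [mem_sdiff, mem_union, not_or] at this
  exact ⟨this.1, this.2.1, this.2.2⟩

/-- The second way: a conflict between the units `k - 2` and `k`. -/
theorem asm2 (ct2 : Ct2H) (hk : 6 ≤ k) (cx : cst H R Φ (x k) = 0)
    (cy : cst H R Φ (y (k - 2)) = 0) (ky : ∀ g, κ (y (k - 2)) g = ∅) :
    ∃ mu : ℕ → Q, (∀ i, 1 ≤ i → i ≤ k → mu i ∈ lst H R x y Φ i ∧ mu i ∉ κ (x i) mu ∧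
      mu i ∉ κ (y i) mu) ∧ (∀ i, 1 ≤ i → i < k → nr (mu i) (mu (i + 1)) = true) ∧
      nr (mu k) (mu 1) = true ∧ mu (k - 1) ≠ mu 1 ∧ mu k ≠ mu (k - 2) := by
  have key : ∃ mu, CW (Fl H R k x y Φ κ) k mu ∧ mu (k - 1) ≠ mu 1 ∧ mu k ≠ mu (k - 2) := by
    refine ct2 (Fl H R k x y Φ κ) k hk (Fl_dep hG h hl hK) ?_ ?_ ?_ ?_ ?_ ?_ ?_ ?_
    · intro g
      have e : cst H R Φ (x 1) + (κ (x 1) g ∪ κ (x 1) g).card ≤ 1 := by
        rw [hK.x1, Finset.union_self]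
        have := hK.one (x 1) g
        omega
      have := Fl_common (k := k) le_rfl (by omega) g g e (costy hG h hl hK le_rfl (by omega) g g)
      rw [Finset.inter_self] at this
      omega
    · intro g; exact Fl4' hG h hl hK (by omega) (by omega) g
    · intro g g'
      rw [Fl_in (by omega) (by omega), Fl_in (by omega) (by omega), (hK.st2 g g').1, (hK.st2 g g').2]
    · intro i h1 h2 g g'
      exact Fl4 hG h hl hK (by omega) (by omega) g g'
    · intro g g'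
      have e : cst H R Φ (y (k - 2)) + (κ (y (k - 2)) g ∪ κ (y (k - 2)) g').card ≤ 0 := by
        rw [cy, ky, ky]; simp
      have := Fl_common (k := k) (show 1 ≤ k - 2 by omega) (by omega) g g'
        (costx hG h hl hK (show 1 ≤ k - 2 by omega) (by omega) g g') e
      omega
    · intro g g'; exact Fl_prev hG h hl hK (by omega) g g'
    · intro g
      have e : cst H R Φ (x k) + (κ (x k) g ∪ κ (x k) g).card ≤ 0 := by
        rw [cx, hK.lastx]; simp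
      have := Fl_common (k := k) (by omega) le_rfl g g e (costy hG h hl hK (by omega) le_rfl g g)
      rw [Finset.inter_self] at this
      omega
    · intro g g'
      rw [Fl_in (by omega) le_rfl, Fl_in (by omega) le_rfl, hK.lastx, hK.lastx, hK.lasty, hK.lasty]
  obtain ⟨mu, hmu, hne, hne2⟩ := key
  refine ⟨mu, fun i h1 h2 => ?_, hmu.walk, hmu.cyc, hne, hne2⟩
  have := hmu.mem i h1 h2
  rw [Fl_in h1 h2] at this
  simp only [mem_sdiff, mem_union, not_or] at this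
  exact ⟨this.1, this.2.1, this.2.2⟩

end

end CLB.H86
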