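import Pool.Agent.Helper86_DA.Asm

/-!
Closed chains: statements of the assembly modules.
-/

set_option autoImplicit false
set_option linter.unusedSectionVars false

namespace CLB.H86

open Finset Classical
open H3DA (Q neg nr)
open CLB.H95
open CLB.H3 (CExt Cat IsTwo)

variable {V : Type*}

/-- Static components. -/
def StatZ (X Y : ℤ → V) (m : ℕ) (c : ℕ → V) : Prop :=
  (m = 1 → ∀ i j, i ≤ 2 → j ≤ 2 → InZ X Y (c i) → InZ X Y (c j) → i = j) ∧
  (2 ≤ m → ¬ (InZ X Y (c 0) ∧ InZ X Y (c 1)) ∧ ¬ (InZ X Y (c m) ∧ InZ X Y (c (m + 1))) ∧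
    (InZ X Y (c 0) ∨ InZ X Y (c 1) → InZ X Y (c m) ∨ InZ X Y (c (m + 1)) → 3 ≤ m))

/-- A vertex of degree two between `Y i` and `X (i + 2)`. -/
def L2 (H : SimpleGraph V) (R : V → Bool) (X Y : ℤ → V) (i : ℤ) : Prop :=
  ∃ v, IsTwo H R v (Y i) (X (i + 2))

/-- One caterpillar with the first fork between the units `-1` and `1`; all others are static. -/
structure KS (H : SimpleGraph V) (R : V → Bool) (k : ℕ) (X Y : ℤ → V) (m : ℕ) (z c : ℕ → V) : Prop where
  cc : CC H R k X Y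
  k4 : 4 ≤ k
  cat : Cat H R m z c
  m3 : 3 ≤ m
  e0 : c 0 = Y (-1)
  e1 : c 1 = X 1
  full : ∀ j, Prt m c (Y j) ↔ ¬ Prt m c (X (j + 1))
  ns : ¬ (Prt m c (X (-1)) ∧ Prt m c (Y 1))
  oth : ∀ m' z' c', Cat H R m' z' c' → cSupp m' z' ≠ cSupp m z → StatZ X Y m' c'

/-- Module A2: no fork of a caterpillar in the chain. -/
def ThmAH : Prop := ∀ (V : Type) [Fintype V] (H : SimpleGraph V) (R : V → Bool) (k : ℕ) (X Y : ℤ → V),
  ClassC H R → Crit H R → CC H R k X Y → 4 ≤ k → (∀ m z c, Cat H R m z c → StatZ X Y m c) → False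

/-- Module A4: one caterpillar with a fork in the chain, four units. -/
def OneK4H : Prop := ∀ (V : Type) [Fintype V] (H : SimpleGraph V) (R : V → Bool) (X Y : ℤ → V),
  ClassC H R → Crit H R → ∀ m z c, KS H R 4 X Y m z c → False

/-- Module A3: the same for at least six units. -/
def OneK6H : Prop := ∀ (V : Type) [Fintype V] (H : SimpleGraph V) (R : V → Bool) (k : ℕ) (X Y : ℤ → V),
  ClassC H R → Crit H R → 6 ≤ k → ∀ m z c, KS H R k X Y m z c → False

/-- Module A5: two caterpillars with forks in the chain. -/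
def TwoKH : Prop := ∀ (V : Type) [Fintype V] (H : SimpleGraph V) (R : V → Bool) (k : ℕ) (X Y : ℤ → V),
  ClassC H R → Crit H R → CC H R k X Y → 4 ≤ k → ∀ m z c m' z' c', Cat H R m z c → Cat H R m' z' c' →
  cSupp m z ≠ cSupp m' z' → 3 ≤ m → 3 ≤ m' → InZ X Y (c 0) → InZ X Y (c 1) → InZ X Y (c' 0) →
  InZ X Y (c' 1) → (∀ j, Prt m c (Y j) ↔ ¬ Prt m c (X (j + 1))) →
  (∀ j, Prt m' c' (Y j) ↔ ¬ Prt m' c' (X (j + 1))) → False

end CLB.H86
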