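import Pool.Agent.Helper86_DA.Gst
import Pool.Agent.Helper3_DA.Struct

/-!
Closed chains with integer indices: shift, mirror image, conversion to and from chains, sides, the unique
uncovered neighbour; reversal of caterpillars and exchange of the ports of the first fork.
-/

set_option autoImplicit false
set_option linter.unusedSectionVars false

namespace CLB.H86

open Finset Classical
open H3DA (Q neg nr)
open CLB.H95
open CLB.H3 (CExt Cat IsTwo mmS llS eU zs OpenFalse pos cat_side_c)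

variable {V : Type*} {H : SimpleGraph V} {R : V → Bool} {k : ℕ} {X Y : ℤ → V}

namespace CC

lemma per_mul (h : CC H R k X Y) (i n : ℤ) : X (i + n * k) = X i ∧ Y (i + n * k) = Y i := by
  induction n using Int.induction_on with
  | zero => simp
  | succ n ih =>
    have e : i + ((n : ℤ) + 1) * k = i + n * k + k := by ring
    rw [e, h.perX, h.perY]
    exact ih
  | pred n ih =>
    have e : i + (-(n : ℤ)) * k = i + (-(n : ℤ) - 1) * k + k := by ring
    rw [e, h.perX, h.perY] at ih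
    exact ih

lemma eqX (h : CC H R k X Y) {i j : ℤ} (hd : (k : ℤ) ∣ i - j) : X i = X j ∧ Y i = Y j := by
  obtain ⟨n, hn⟩ := hd
  have e : i = j + n * k := by rw [mul_comm]; omega
  rw [e]
  exact h.per_mul j n

lemma X_iff (h : CC H R k X Y) {i j : ℤ} : X i = X j ↔ (k : ℤ) ∣ i - j :=
  ⟨h.injX i j, fun hd => (h.eqX hd).1⟩

lemma Y_iff (h : CC H R k X Y) {i j : ℤ} : Y i = Y j ↔ (k : ℤ) ∣ i - j :=
  ⟨h.injY i j, fun hd => (h.eqX hd).2⟩

lemma not_dvd {k : ℕ} {i j : ℤ} (h1 : i < j) (h2 : j < i + k) : ¬ (k : ℤ) ∣ i - j := by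
  intro h
  have h3 : (k : ℤ) ∣ j - i := by
    have := (dvd_neg (a := (k : ℤ)) (b := i - j)).2 h
    rwa [neg_sub] at this
  have := Int.le_of_dvd (by omega) h3
  omega

lemma neX (h : CC H R k X Y) {i j : ℤ} (h1 : i < j) (h2 : j < i + k) : X i ≠ X j :=
  fun he => not_dvd h1 h2 (h.injX i j he)

lemma neY (h : CC H R k X Y) {i j : ℤ} (h1 : i < j) (h2 : j < i + k) : Y i ≠ Y j :=
  fun he => not_dvd h1 h2 (h.injY i j he)

/-- Shift. -/
lemma shift (h : CC H R k X Y) (s : ℤ) : CC H R k (fun i => X (i + s)) (fun i => Y (i + s)) where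
  k2 := h.k2
  even := h.even
  perX i := by
    show X (i + k + s) = X (i + s)
    rw [show i + (k : ℤ) + s = i + s + k by ring]; exact h.perX _
  perY i := by
    show Y (i + k + s) = Y (i + s)
    rw [show i + (k : ℤ) + s = i + s + k by ring]; exact h.perY _
  me i := h.me _
  lk i := by
    show Lk H R (Y (i + s)) (X (i + 1 + s))
    rw [show i + 1 + s = i + s + 1 by ring]; exact h.lk _
  injX i j he := by
    have := h.injX _ _ he
    rwa [show i + s - (j + s) = i - j by ring] at this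
  injY i j he := by
    have := h.injY _ _ he
    rwa [show i + s - (j + s) = i - j by ring] at this
  xy i j := h.xy _ _

/-- Mirror image. -/
lemma mir (h : CC H R k X Y) : CC H R k (fun i => Y (-i)) (fun i => X (-i)) where
  k2 := h.k2
  even := h.even
  perX i := by
    show Y (-(i + k)) = Y (-i)
    have := h.perY (-(i + k))
    rw [show -(i + (k : ℤ)) + k = -i by ring] at this
    exact this.symm
  perY i := by
    show X (-(i + k)) = X (-i)
    have := h.perX (-(i + k))
    rw [show -(i + (k : ℤ)) + k = -i by ring] at this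
    exact this.symm
  me i := (h.me _).symm
  lk i := by
    have := h.lk (-(i + 1))
    rw [show -(i + 1) + 1 = -i by ring] at this
    exact this.symm
  injX i j he := by
    have := h.injY _ _ he
    have h2 := (dvd_neg (a := (k : ℤ)) (b := -i - -j)).2 this
    rwa [show -(-i - -j) = i - j by ring] at h2
  injY i j he := by
    have := h.injX _ _ he
    have h2 := (dvd_neg (a := (k : ℤ)) (b := -i - -j)).2 this
    rwa [show -(-i - -j) = i - j by ring] at h2
  xy i j he := h.xy _ _ he.symm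

/-- The chain of the units `1, ..., k`. -/
lemma chn (h : CC H R k X Y) : Chn H R k (fun i : ℕ => X i) (fun i : ℕ => Y i) where
  pos := by have := h.k2; omega
  me i _ _ := h.me _
  lk i _ _ := by
    have := h.lk i
    show Lk H R (Y i) (X ((i + 1 : ℕ) : ℤ))
    push_cast
    exact this
  injx i j h1 h2 h3 h4 he := by
    by_contra hne
    rcases Nat.lt_or_gt_of_ne hne with hlt | hlt
    · exact h.neX (by omega) (by omega) he
    · exact h.neX (i := j) (j := i) (by omega) (by omega) he.symm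
  injy i j h1 h2 h3 h4 he := by
    by_contra hne
    rcases Nat.lt_or_gt_of_ne hne with hlt | hlt
    · exact h.neY (by omega) (by omega) he
    · exact h.neY (i := j) (j := i) (by omega) (by omega) he.symm
  xy i j _ _ _ _ := h.xy _ _

lemma lkc (h : CC H R k X Y) : Lk H R (Y (k : ℤ)) (X 1) := by
  have h1 := h.lk 0
  have h2 := h.perY 0
  rw [zero_add] at h1 h2
  rw [h2]; exact h1

/-- Every index has a representative in `1, ..., k`. -/
lemma repr (h : CC H R k X Y) (i : ℤ) : ∃ n : ℕ, 1 ≤ n ∧ n ≤ k ∧ (k : ℤ) ∣ i - n := by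
  have hk := h.k2
  refine ⟨((i - 1) % k).toNat + 1, by omega, ?_, ?_⟩
  · have h1 := Int.emod_lt_of_pos (i - 1) (show (0 : ℤ) < k by omega)
    have h2 := Int.emod_nonneg (i - 1) (show (k : ℤ) ≠ 0 by omega)
    omega
  · have h2 := Int.emod_nonneg (i - 1) (show (k : ℤ) ≠ 0 by omega)
    have h3 : ((((i - 1) % k).toNat + 1 : ℕ) : ℤ) = (i - 1) % k + 1 := by
      push_cast
      rw [Int.toNat_of_nonneg h2]
    rw [h3]
    have h4 := Int.emod_add_mul_ediv (i - 1) k
    refine ⟨(i - 1) / k, ?_⟩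
    omega

lemma inC_iff (h : CC H R k X Y) {v : V} :
    InC k (fun i : ℕ => X i) (fun i : ℕ => Y i) v ↔ InZ X Y v := by
  constructor
  · rintro ⟨i, -, -, hi⟩
    exact ⟨i, hi⟩
  · rintro ⟨i, hi⟩
    obtain ⟨n, h1, h2, h3⟩ := h.repr i
    have e := h.eqX h3
    refine ⟨n, h1, h2, ?_⟩
    rcases hi with hi | hi
    · exact Or.inl (hi.trans e.1)
    · exact Or.inr (hi.trans e.2)

end CC

lemma inZ_X (X Y : ℤ → V) (i : ℤ) : InZ X Y (X i) := ⟨i, Or.inl rfl⟩
lemma inZ_Y (X Y : ℤ → V) (i : ℤ) : InZ X Y (Y i) := ⟨i, Or.inr rfl⟩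

lemma inZ_shift (s : ℤ) {v : V} : InZ (fun i => X (i + s)) (fun i => Y (i + s)) v ↔ InZ X Y v := by
  constructor
  · rintro ⟨i, hi⟩; exact ⟨i + s, hi⟩
  · rintro ⟨i, hi⟩
    refine ⟨i - s, ?_⟩
    show v = X (i - s + s) ∨ v = Y (i - s + s)
    rw [sub_add_cancel]; exact hi

lemma inZ_mir {v : V} : InZ (fun i => Y (-i)) (fun i => X (-i)) v ↔ InZ X Y v := by
  constructor
  · rintro ⟨i, hi⟩; exact ⟨-i, hi.symm⟩
  · rintro ⟨i, hi⟩
    refine ⟨-i, ?_⟩
    show v = Y (- -i) ∨ v = X (- -i)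
    rw [_root_.neg_neg]; exact hi.symm

/-- From a chain to integer indices. -/
theorem exists_cc {x y : ℕ → V} (h : Chn H R k x y) (hk : 2 ≤ k) (hl : Lk H R (y k) (x 1)) :
    ∃ X Y : ℤ → V, CC H R k X Y ∧ ∀ i : ℕ, 1 ≤ i → i ≤ k → X i = x i ∧ Y i = y i := by
  have hpos : (0 : ℤ) < k := by omega
  let r : ℤ → ℕ := fun i => ((i - 1) % k).toNat + 1
  have hr : ∀ i, ((r i : ℕ) : ℤ) = (i - 1) % k + 1 := by
    intro i
    have h2 := Int.emod_nonneg (i - 1) (show (k : ℤ) ≠ 0 by omega)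
    show ((((i - 1) % k).toNat + 1 : ℕ) : ℤ) = _
    push_cast
    rw [Int.toNat_of_nonneg h2]
  have hr1 : ∀ i, 1 ≤ r i ∧ r i ≤ k := by
    intro i
    have h1 := Int.emod_lt_of_pos (i - 1) hpos
    have h2 := Int.emod_nonneg (i - 1) (show (k : ℤ) ≠ 0 by omega)
    have := hr i
    omega
  have hper : ∀ i, r (i + k) = r i := by
    intro i
    have h1 := hr i
    have h2 := hr (i + k)
    rw [show i + (k : ℤ) - 1 = i - 1 + k by ring, Int.add_emod_right] at h2
    omega
  have hid : ∀ i : ℕ, 1 ≤ i → i ≤ k → r i = i := by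
    intro i h1 h2
    have h3 := hr i
    rw [Int.emod_eq_of_lt (by omega) (by omega)] at h3
    omega
  have hsucc : ∀ i, r (i + 1) = if r i = k then 1 else r i + 1 := by
    intro i
    have h1 := hr i
    have h2 := hr (i + 1)
    have h3 := hr1 i
    have h4 := Int.emod_lt_of_pos (i - 1) hpos
    have h5 := Int.emod_nonneg (i - 1) (show (k : ℤ) ≠ 0 by omega)
    have h6 := Int.emod_add_mul_ediv (i - 1) k
    by_cases hk' : r i = k
    · rw [if_pos hk']
      have h7 : (i - 1) % k = k - 1 := by omega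
      have h8 : i + 1 - 1 = 0 + (k : ℤ) * ((i - 1) / k + 1) := by
        rw [mul_add]; omega
      rw [h8, Int.add_mul_emod_self_left, Int.zero_emod] at h2
      omega
    · rw [if_neg hk']
      have h8 : i + 1 - 1 = ((i - 1) % k + 1) + (k : ℤ) * ((i - 1) / k) := by omega
      rw [h8, Int.add_mul_emod_self_left, Int.emod_eq_of_lt (by omega) (by omega)] at h2
      omega
  have hdvd : ∀ i j, r i = r j → (k : ℤ) ∣ i - j := by
    intro i j he
    have h1 := hr i
    have h2 := hr j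
    have h3 : (i - 1) % k = (j - 1) % k := by rw [he] at h1; omega
    have h4 := Int.emod_emod_of_dvd
    have := Int.emod_eq_emod_iff_emod_sub_eq_zero.1 h3
    have h5 := Int.dvd_of_emod_eq_zero this
    rwa [show i - 1 - (j - 1) = i - j by ring] at h5
  refine ⟨fun i => x (r i), fun i => y (r i), ⟨hk, h.even_of_closed hl, ?_, ?_, ?_, ?_, ?_, ?_, ?_⟩, ?_⟩
  · intro i; show x (r (i + k)) = x (r i); rw [hper]
  · intro i; show y (r (i + k)) = y (r i); rw [hper]
  · intro i; exact h.me _ (hr1 i).1 (hr1 i).2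
  · intro i
    show Lk H R (y (r i)) (x (r (i + 1)))
    rw [hsucc]
    split_ifs with hki
    · rw [hki]; exact hl
    · exact h.lk _ (hr1 i).1 (by have := (hr1 i).2; omega)
  · intro i j he
    exact hdvd i j (h.injx _ _ (hr1 i).1 (hr1 i).2 (hr1 j).1 (hr1 j).2 he)
  · intro i j he
    exact hdvd i j (h.injy _ _ (hr1 i).1 (hr1 i).2 (hr1 j).1 (hr1 j).2 he)
  · intro i j
    exact h.xy _ _ (hr1 i).1 (hr1 i).2 (hr1 j).1 (hr1 j).2
  · intro i h1 h2
    exact ⟨congrArg x (hid i h1 h2), congrArg y (hid i h1 h2)⟩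

namespace CC

/-- Sides. -/
lemma side (h : CC H R k X Y) (i : ℤ) : R (X (i + 1)) = !(R (X i)) ∧ R (Y i) = R (X i) := by
  have h1 := (h.me i).2
  have h2 := (h.lk i).1.2
  refine ⟨?_, h1.symm⟩
  revert h1 h2
  cases R (X i) <;> cases R (Y i) <;> cases R (X (i + 1)) <;> simp

lemma side_even (h : CC H R k X Y) (i n : ℤ) : R (X (i + 2 * n)) = R (X i) := by
  induction n using Int.induction_on with
  | zero => simp
  | succ n ih =>
    rw [show i + 2 * ((n : ℤ) + 1) = i + 2 * n + 1 + 1 by ring, (h.side _).1, (h.side _).1,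
      Bool.not_not]
    exact ih
  | pred n ih =>
    rw [show i + 2 * (-(n : ℤ)) = i + 2 * (-(n : ℤ) - 1) + 1 + 1 by ring, (h.side _).1, (h.side _).1,
      Bool.not_not] at ih
    exact ih

/-- The sides determine the parities. -/
lemma side_iff (h : CC H R k X Y) (i j : ℤ) : R (X i) = R (X j) ↔ i % 2 = j % 2 := by
  constructor
  · intro he
    by_contra hne
    have h1 := h.side_even j ((i - j - 1) / 2)
    have h2 : j + 2 * ((i - j - 1) / 2) + 1 = i := by omega
    have h3 := (h.side (j + 2 * ((i - j - 1) / 2))).1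
    rw [h2, h1] at h3
    rw [h3] at he
    cases R (X j) <;> simp at he
  · intro he
    have h1 := h.side_even j ((i - j) / 2)
    have h2 : j + 2 * ((i - j) / 2) = i := by omega
    rw [h2] at h1
    exact h1

lemma sideY (h : CC H R k X Y) (i : ℤ) : R (Y i) = R (X i) := (h.side i).2

lemma covX (h : CC H R k X Y) (i : ℤ) : Cov H R (X i) := (h.me i).cov

lemma covY (h : CC H R k X Y) (i : ℤ) : Cov H R (Y i) := (h.me i).cov'

lemma cov (h : CC H R k X Y) {v : V} (hv : InZ X Y v) : Cov H R v := by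
  obtain ⟨i, rfl | rfl⟩ := hv
  · exact h.covX i
  · exact h.covY i

lemma lkd (h : CC H R k X Y) {v : V} (hv : InZ X Y v) : ∃ w, Lk H R v w := by
  obtain ⟨i, rfl | rfl⟩ := hv
  · have := (h.lk (i - 1)).symm
    rw [sub_add_cancel] at this
    exact ⟨_, this⟩
  · exact ⟨_, h.lk i⟩

/-- The chain is closed under mates and links. -/
lemma adj (h : CC H R k X Y) [Fintype V] (hG : ClassC H R) {v w : V} (hv : InZ X Y v)
    (hw : Cov H R w) (hvw : H.Adj v w) : InZ X Y w := by
  rcases adj_iff.1 hvw with hm | hh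
  · obtain ⟨i, rfl | rfl⟩ := hv
    · rw [hG.matching hm (h.me i)]; exact inZ_Y X Y i
    · rw [hG.matching hm (h.me i).symm]; exact inZ_X X Y i
  · have hl : Lk H R v w := ⟨hh, h.cov hv, hw⟩
    obtain ⟨i, rfl | rfl⟩ := hv
    · have := (h.lk (i - 1)).symm
      rw [sub_add_cancel] at this
      rw [hl.unique hG this]; exact inZ_Y X Y _
    · rw [hl.unique hG (h.lk i)]; exact inZ_X X Y _

/-- At most one uncovered neighbour. -/
lemma unc_unique (h : CC H R k X Y) [Fintype V] (hG : ClassC H R) {v a b : V} (hv : InZ X Y v)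
    (ha : H.Adj v a) (hb : H.Adj v b) (ha' : ¬ Cov H R a) (hb' : ¬ Cov H R b) : a = b := by
  obtain ⟨w, hw⟩ := h.lkd hv
  exact CLB.H3.third_unique hG hw ha hb ha' hb'

/-- At most one port edge of a caterpillar. -/
lemma port_inj (h : CC H R k X Y) [Fintype V] (hG : ClassC H R) {m : ℕ} {z c : ℕ → V}
    (hcat : Cat H R m z c) {i j : ℕ} (hi : i ≤ m + 1) (hj : j ≤ m + 1) (hv : InZ X Y (c i))
    (he : c i = c j) : i = j := by
  have a1 := cl_mem hcat.pos hi
  have a2 := cl_mem hcat.pos hj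
  refine port_unique hcat hi hj he ?_
  refine h.unc_unique hG hv (cat_adj_cl hcat hi) ?_ (hcat.unc _ a1.1 a1.2) (hcat.unc _ a2.1 a2.2)
  rw [he]; exact cat_adj_cl hcat hj

/-- A vertex of the chain is a port of at most one component. -/
lemma port_comp (h : CC H R k X Y) [Fintype V] (hG : ClassC H R) {m m' : ℕ} {z c z' c' : ℕ → V}
    (hcat : Cat H R m z c) (hcat' : Cat H R m' z' c') {v : V} (hv : InZ X Y v) (h1 : Prt m c v)
    (h2 : Prt m' c' v) : cSupp m z = cSupp m' z' := by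
  obtain ⟨i, hi, e1⟩ := h1
  obtain ⟨j, hj, e2⟩ := h2
  have a1 := cl_mem hcat.pos hi
  have a2 := cl_mem hcat'.pos hj
  have b1 : H.Adj v (z (cl m i)) := by rw [← e1]; exact cat_adj_cl hcat hi
  have b2 : H.Adj v (z' (cl m' j)) := by rw [← e2]; exact cat_adj_cl hcat' hj
  have := h.unc_unique hG hv b1 b2 (hcat.unc _ a1.1 a1.2) (hcat'.unc _ a2.1 a2.2)
  exact cSupp_eq hcat hcat' (mem_cSupp a1.1 a1.2) (by rw [this]; exact mem_cSupp a2.1 a2.2)

/-- Parity of the position at a caterpillar and of the unit. -/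
lemma parity (h : CC H R k X Y) {m : ℕ} {z c : ℕ → V} (hcat : Cat H R m z c) {i i' : ℤ} {j j' : ℕ}
    (hj : j ≤ m + 1) (hj' : j' ≤ m + 1) (e : c j = X i ∨ c j = Y i) (e' : c j' = X i' ∨ c j' = Y i') :
    (i + pos m j) % 2 = (i' + pos m j') % 2 := by
  have h1 : R (c j) = R (X i) := by
    rcases e with e | e
    · rw [e]
    · rw [e, h.sideY]
  have h2 : R (c j') = R (X i') := by
    rcases e' with e | e
    · rw [e]
    · rw [e, h.sideY]
  have h3 := cat_side_c hcat hj
  have h4 := cat_side_c hcat hj'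
  have h5 := h.side_iff i i'
  rw [h1] at h3
  rw [h2] at h4
  have h6 : (R (X i) = R (X i')) ↔ (pos m j % 2 = pos m j' % 2) := by
    rw [h3, h4]
    rcases Nat.mod_two_eq_zero_or_one (pos m j) with h7 | h7 <;>
      rcases Nat.mod_two_eq_zero_or_one (pos m j') with h8 | h8 <;> rw [h7, h8] <;>
      cases R (z 1) <;> decide
  have h7 := h5.symm.trans h6
  omega

end CC

/-! ### Caterpillars -/

lemma cat_rev {m : ℕ} {z c : ℕ → V} (h : Cat H R m z c) :
    Cat H R m (fun i => z (m + 1 - i)) (fun j => c (m + 1 - j)) where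
  pos := h.pos
  inj i j h1 h2 h3 h4 he := by
    have := h.inj _ _ (by omega) (by omega) (by omega) (by omega) he
    omega
  unc i h1 h2 := h.unc _ (by omega) (by omega)
  cov j hj := h.cov _ (by omega)
  adjz i h1 h2 := by
    have := h.adjz (m - i) (by omega) (by omega)
    rw [show m - i + 1 = m + 1 - i by omega] at this
    show H.Adj (z (m + 1 - i)) (z (m + 1 - (i + 1)))
    rw [show m + 1 - (i + 1) = m - i by omega]
    exact this.symm
  adjc i h1 h2 := h.adjc _ (by omega) (by omega)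
  adj0 := by
    show H.Adj (z (m + 1 - 1)) (c (m + 1 - 0))
    rw [Nat.add_sub_cancel, Nat.sub_zero]
    exact h.adjm
  adjm := by
    show H.Adj (z (m + 1 - m)) (c (m + 1 - (m + 1)))
    rw [show m + 1 - m = 1 by omega, Nat.sub_self]
    exact h.adj0
  ne0 := by
    show c (m + 1 - 0) ≠ c (m + 1 - 1)
    rw [Nat.sub_zero, Nat.add_sub_cancel]
    exact h.nem.symm
  nem := by
    show c (m + 1 - m) ≠ c (m + 1 - (m + 1))
    rw [show m + 1 - m = 1 by omega, Nat.sub_self]
    exact h.ne0.symm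
  ne1 hm := by
    subst hm
    exact (h.ne1 rfl).symm
  nbr i h1 h2 w hw := by
    have := h.nbr (m + 1 - i) (by omega) (by omega) w hw
    rcases this with e | ⟨e1, e⟩ | ⟨e1, e⟩ | ⟨e1, e⟩ | ⟨e1, e⟩
    · exact Or.inl e
    · refine Or.inr (Or.inr (Or.inl ⟨by omega, ?_⟩))
      rw [e]; show c 0 = c (m + 1 - (m + 1)); rw [Nat.sub_self]
    · refine Or.inr (Or.inl ⟨by omega, ?_⟩)
      rw [e]; show c (m + 1) = c (m + 1 - 0); rw [Nat.sub_zero]
    · refine Or.inr (Or.inr (Or.inr (Or.inr ⟨by omega, ?_⟩)))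
      rw [e]; show z (m + 1 - i - 1) = z (m + 1 - (i + 1))
      rw [show m + 1 - i - 1 = m + 1 - (i + 1) by omega]
    · refine Or.inr (Or.inr (Or.inr (Or.inl ⟨by omega, ?_⟩)))
      rw [e]; show z (m + 1 - i + 1) = z (m + 1 - (i - 1))
      rw [show m + 1 - i + 1 = m + 1 - (i - 1) by omega]

/-- Exchange of the ports of the first fork. -/
lemma cat_sw {m : ℕ} {z c : ℕ → V} (h : Cat H R m z c) (hm : 2 ≤ m) :
    Cat H R m z (fun j => c (swL j)) where
  pos := h.pos
  inj := h.inj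
  unc := h.unc
  cov j hj := h.cov _ (by unfold swL; split_ifs <;> omega)
  adjz := h.adjz
  adjc i h1 h2 := by
    by_cases hi : i = 1
    · subst hi; exact h.adj0
    · show H.Adj (z i) (c (swL i))
      rw [swL_of (by omega)]
      exact h.adjc i h1 h2
  adj0 := h.adjc 1 le_rfl (by omega)
  adjm := by
    show H.Adj (z m) (c (swL (m + 1)))
    rw [swL_of (by omega)]; exact h.adjm
  ne0 := h.ne0.symm
  nem := by
    show c (swL m) ≠ c (swL (m + 1))
    rw [swL_of hm, swL_of (by omega)]; exact h.nem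
  ne1 hm1 := by omega
  nbr i h1 h2 w hw := by
    by_cases hi : i = 1
    · subst hi
      rcases h.nbr 1 h1 h2 w hw with e | ⟨e1, e⟩ | ⟨e1, e⟩ | ⟨e1, e⟩ | ⟨e1, e⟩
      · exact Or.inr (Or.inl ⟨rfl, e⟩)
      · exact Or.inl e
      · omega
      · omega
      · exact Or.inr (Or.inr (Or.inr (Or.inr ⟨e1, e⟩)))
    · rcases h.nbr i h1 h2 w hw with e | ⟨e1, e⟩ | ⟨e1, e⟩ | ⟨e1, e⟩ | ⟨e1, e⟩
      · left
        show w = c (swL i)
        rw [swL_of (by omega)]; exact e
      · omega
      · refine Or.inr (Or.inr (Or.inl ⟨e1, ?_⟩))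
        show w = c (swL (m + 1))
        rw [swL_of (by omega)]; exact e
      · exact Or.inr (Or.inr (Or.inr (Or.inl ⟨e1, e⟩)))
      · exact Or.inr (Or.inr (Or.inr (Or.inr ⟨e1, e⟩)))

lemma cSupp_rev {m : ℕ} {z : ℕ → V} : cSupp m (fun i => z (m + 1 - i)) = cSupp m z := by
  ext v
  constructor
  · rintro ⟨i, h1, h2, rfl⟩
    exact mem_cSupp (by omega) (by omega)
  · rintro ⟨i, h1, h2, rfl⟩
    refine ⟨m + 1 - i, by omega, by omega, ?_⟩
    show z (m + 1 - (m + 1 - i)) = z i
    rw [show m + 1 - (m + 1 - i) = i by omega]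

lemma prt_rev {m : ℕ} {c : ℕ → V} {v : V} : Prt m (fun j => c (m + 1 - j)) v ↔ Prt m c v := by
  constructor
  · rintro ⟨j, hj, e⟩; exact ⟨m + 1 - j, by omega, e⟩
  · rintro ⟨j, hj, e⟩
    refine ⟨m + 1 - j, by omega, ?_⟩
    show c (m + 1 - (m + 1 - j)) = v
    rw [show m + 1 - (m + 1 - j) = j by omega]; exact e

lemma swL_le {m j : ℕ} (hm : 1 ≤ m) (hj : j ≤ m + 1) : swL j ≤ m + 1 := by
  unfold swL; split_ifs <;> omega

lemma prt_sw {m : ℕ} (hm : 1 ≤ m) {c : ℕ → V} {v : V} : Prt m (fun j => c (swL j)) v ↔ Prt m c v := by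
  constructor
  · rintro ⟨j, hj, e⟩; exact ⟨swL j, swL_le hm hj, e⟩
  · rintro ⟨j, hj, e⟩
    refine ⟨swL j, swL_le hm hj, ?_⟩
    show c (swL (swL j)) = v
    rw [swL_swL]; exact e

end CLB.H86
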