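import Pool.Agent.Helper86_DA.K6

/-!
One caterpillar with a fork in the chain, at least six units: the case distinction.
-/

set_option autoImplicit false
set_option linter.unusedSectionVars false

namespace CLB.H86

open Finset Classical
open H3DA (Q neg nr)
open CLB.H95
open CLB.H3 (CExt Cat IsTwo cat_structure he_of_unc pos)

variable {V : Type} [Fintype V] {H : SimpleGraph V} {R : V → Bool} {k : ℕ} {X Y : ℤ → V}
  {m : ℕ} {z c : ℕ → V}

/-- A port of the caterpillar is not seen by a vertex of degree two. -/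
lemma port_not_two (hG : ClassC H R) (ks : KS H R k X Y m z c) {v a b : V} (hT : IsTwo H R v a b)
    (ha : InZ X Y a) (hp : Prt m c a) : False := by
  obtain ⟨j, hj, e⟩ := hp
  have a1 := cl_mem ks.cat.pos hj
  have a2 := cat_adj_cl ks.cat hj
  rw [e] at a2
  have := ks.cc.unc_unique hG ha hT.2.1.symm a2 hT.1 (ks.cat.unc _ a1.1 a1.2)
  rw [this] at hT
  exact isTwo_not_cat ks.cat a1.1 a1.2 hT

/-- The mirror image. -/
lemma KS.mir (ks : KS H R k X Y m z c) :
    KS H R k (fun i => Y (-i)) (fun i => X (-i)) m z (fun j => c (swL j)) := by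
  have hm3 := ks.m3
  have hP : ∀ v, Prt m (fun j => c (swL j)) v ↔ Prt m c v := fun v => prt_sw (by omega)
  refine ⟨ks.cc.mir, ks.k4, cat_sw ks.cat (by omega), hm3, ?_, ?_, ?_, ?_, ?_⟩
  · show c (swL 0) = X (- -1)
    have : swL 0 = 1 := rfl
    rw [this, _root_.neg_neg]; exact ks.e1
  · show c (swL 1) = Y (-1)
    have : swL 1 = 0 := rfl
    rw [this]; exact ks.e0
  · intro j
    show Prt m _ (X (-j)) ↔ ¬ Prt m _ (Y (-(j + 1)))
    rw [hP, hP]
    have := ks.full (-(j + 1))
    rw [show -(j + 1) + 1 = -j by ring] at this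
    tauto
  · show ¬ (Prt m _ (Y (- -1)) ∧ Prt m _ (X (-1)))
    rw [hP, hP, _root_.neg_neg]
    exact fun h => ks.ns ⟨h.2, h.1⟩
  · intro m' z' c' h1 h2
    obtain ⟨s1, s2⟩ := ks.oth m' z' c' h1 h2
    refine ⟨fun hm' a b ha hb ha' hb' => s1 hm' a b ha hb (inZ_mir.1 ha') (inZ_mir.1 hb'),
      fun hm' => ?_⟩
    simp only [inZ_mir]
    exact s2 hm'

/-- Both leaves and the inner ports. -/
lemma port_cases {v : V} (hp : Prt m c v) (h0 : v ≠ c 0) (h1 : v ≠ c 1) :
    (∃ p, 2 ≤ p ∧ p + 1 ≤ m ∧ c p = v) ∨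
      ∃ a b, ((a = m ∧ b = m + 1) ∨ (a = m + 1 ∧ b = m)) ∧ c a = v := by
  obtain ⟨j, hj, rfl⟩ := hp
  have n0 : j ≠ 0 := by rintro rfl; exact h0 rfl
  have n1 : j ≠ 1 := by rintro rfl; exact h1 rfl
  by_cases h2 : j + 1 ≤ m
  · exact Or.inl ⟨j, by omega, h2, rfl⟩
  · right
    by_cases h3 : j = m
    · exact ⟨m, m + 1, Or.inl ⟨rfl, rfl⟩, by rw [h3]⟩
    · have : j = m + 1 := by omega
      exact ⟨m + 1, m, Or.inr ⟨rfl, rfl⟩, by rw [this]⟩

section

variable (ct1 : Ct1H) (ct2 : Ct2H) (tn : TwoNH) (hG : ClassC H R) (hc : Crit H R)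
  (ks : KS H R k X Y m z c) (hk : 6 ≤ k)

include ct1 ct2 tn hG hc ks hk

/-- The second way to kill. -/
theorem caseB {p : ℕ} (hp : 2 ≤ p) (hpm : p + 1 ≤ m) (hcp : c p = Y (-2))
    (hX : ¬ Prt m c (X (-1))) (hf1 : c m ≠ X (-2)) (hf2 : c (m + 1) ≠ X (-2))
    (hno : ¬ L2 H R X Y 0) : False := by
  have cc := ks.cc
  refine run ct1 ct2 tn hG hc ks hk (w := Y (-2)) (u := k - 2) ⟨by omega, by omega, by omega,
    ⟨p, by omega, hcp⟩, Or.inr ks.Yk2.symm, ?_, ?_, ?_⟩
    (fun f _ => killB hG ks hk hp hpm hcp hX hf1 hf2) hno (Or.inr ?_)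
  · rw [ks.e0]
    exact cc.neY (by omega) (by omega)
  · rintro n ⟨-, -, e, -⟩
    exact cc.xy _ _ e.symm
  · rintro b ⟨-, h⟩
    have hin : InZ X Y (c p) := by rw [hcp]; exact inZ_Y X Y _
    rcases h with ⟨e, -⟩ | ⟨e, -⟩
    · have := cc.port_inj hG ks.cat (i := p) (j := m) (by omega) (by omega) hin (hcp.trans e)
      omega
    · have := cc.port_inj hG ks.cat (i := p) (j := m + 1) (by omega) (by omega) hin (hcp.trans e)
      omega
  · exact (cc.xy _ _).symm

/-- The unit `-1` is full. -/
theorem case1 (hX : Prt m c (X (-1))) : False := by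
  have cc := ks.cc
  have hm3 := ks.m3
  have hk4 := ks.k4
  have hcat := ks.cat
  have hY1 : ¬ Prt m c (Y 1) := fun h => ks.ns ⟨hX, h⟩
  have hX2 : Prt m c (X 2) := by
    by_contra h
    have := (ks.full 1).2 (by rwa [show (1 : ℤ) + 1 = 2 by ring])
    exact hY1 this
  have hno : ¬ L2 H R X Y 0 := by
    rintro ⟨v, hv⟩
    rw [show (0 : ℤ) + 2 = 2 by ring] at hv
    exact port_not_two hG ks (isTwo_symm hv) (inZ_X X Y _) hX2
  have n0 : X (-1) ≠ c 0 := by rw [ks.e0]; exact cc.xy _ _
  have n1 : X (-1) ≠ c 1 := by rw [ks.e1]; exact cc.neX (by omega) (by omega)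
  rcases port_cases hX n0 n1 with ⟨p, hp, hpm, hcp⟩ | ⟨a, b, hab, hca⟩
  · -- inner
    refine run ct1 ct2 tn hG hc ks hk (w := X (-1)) (u := k - 1) ⟨by omega, by omega, by omega, hX,
      Or.inl ks.Xk1.symm, n0, ?_, ?_⟩ (fun f _ => killA hG ks hp hpm hcp) hno (Or.inr ?_)
    · rintro n ⟨n1, n2, n3, v, v1, v2, v3⟩
      rw [← n3] at v3
      have e := cc.unc_unique hG (inZ_X X Y (-1)) v3.symm (by
        have := cat_adj_cl hcat (j := p) (by omega)
        rw [hcp] at this; exact this) v1 (hcat.unc _ (cl_mem hcat.pos (by omega)).1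
          (cl_mem hcat.pos (by omega)).2)
      rw [e] at v2
      have e2 : cl m p = p := by unfold cl; rw [if_neg (by omega), if_neg (by omega)]
      rw [e2] at v2
      obtain ⟨q, q1, q2, q3⟩ := port_exists hcat (by omega) (by omega) (cc.covY _) v2
      have : q = p := by
        unfold cl at q3
        split_ifs at q3 <;> omega
      rw [this, hcp] at q2
      exact cc.xy _ _ q2
    · rintro d ⟨-, h⟩
      have hin : InZ X Y (c p) := by rw [hcp]; exact inZ_X X Y _
      rcases h with ⟨e, -⟩ | ⟨e, -⟩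
      · have := cc.port_inj hG ks.cat (i := p) (j := m) (by omega) (by omega) hin (hcp.trans e)
        omega
      · have := cc.port_inj hG ks.cat (i := p) (j := m + 1) (by omega) (by omega) hin (hcp.trans e)
        omega
    · exact cc.neX (by omega) (by omega)
  · -- far leaf
    by_cases hb : InZ X Y (c b)
    · -- a second fork in the chain
      have hadj : H.Adj (z m) (c a) ∧ H.Adj (z m) (c b) ∧ c a ≠ c b := by
        rcases hab with ⟨rfl, rfl⟩ | ⟨rfl, rfl⟩
        · exact ⟨hcat.adjc _ (by omega) le_rfl, hcat.adjm, hcat.nem⟩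
        · exact ⟨hcat.adjm, hcat.adjc _ (by omega) le_rfl, hcat.nem.symm⟩
      have haZ : InZ X Y (c a) := by rw [hca]; exact inZ_X X Y _
      have hcb : c b = Y (-3) := by
        obtain ⟨i, ⟨e1, e2⟩ | ⟨e1, e2⟩⟩ := tn V H R k X Y hG cc (z m) (c a) (c b)
          (hcat.unc m (by omega) le_rfl) hadj.2.2 hadj.1 hadj.2.1 haZ hb
        · exact absurd (hca.symm.trans e1) (cc.xy _ _)
        · rw [e1]
          have := cc.injX _ _ (hca.symm.trans e2)
          refine (cc.eqX (i := i) (j := -3) ?_).2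
          have h2 := (dvd_neg (a := (k : ℤ)) (b := -1 - (i + 2))).2 this
          rwa [show -(-1 - (i + 2)) = i - -3 by ring] at h2
      refine run ct1 ct2 tn hG hc ks hk (w := Y (-3)) (u := k - 3) ⟨by omega, by omega, by omega,
        ⟨b, by omega, hcb⟩, Or.inr ?_, ?_, ?_, ?_⟩
        (fun f _ => killD hG ks hk hab hca hcb) hno (Or.inr (cc.xy _ _).symm)
      · exact (cc.eqX (i := ((k - 3 : ℕ) : ℤ)) (j := -3) ⟨1, by omega⟩).2.symm
      · rw [ks.e0]; exact cc.neY (by omega) (by omega)
      · rintro n ⟨-, -, e, -⟩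
        exact cc.xy _ _ e.symm
      · rintro d ⟨hd, h⟩
        have hbZ : InZ X Y (c b) := hb
        have hbd : d = c a := by
          rcases h with ⟨e, e'⟩ | ⟨e, e'⟩
          · have := cc.port_inj hG ks.cat (i := b) (j := m) (by omega) (by omega) hbZ (hcb.trans e)
            rcases hab with ⟨g1, g2⟩ | ⟨g1, g2⟩
            · omega
            · rw [g1]; exact e'
          · have := cc.port_inj hG ks.cat (i := b) (j := m + 1) (by omega) (by omega) hbZ
              (hcb.trans e)
            rcases hab with ⟨g1, g2⟩ | ⟨g1, g2⟩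
            · rw [g1]; exact e'
            · omega
        rw [hbd] at hd
        exact hd haZ
    · by_cases hL : L2 H R X Y (-2)
      · -- kill at the first unit
        refine run ct1 ct2 tn hG hc ks hk (w := X 1) (u := 1) ⟨by omega, by omega, by omega,
          ks.p1, Or.inl rfl, ?_, ?_, ?_⟩ (fun f _ => killC hG ks hab hca hb) hno (Or.inl hL)
        · rw [ks.e0]; exact cc.xy _ _
        · rintro n ⟨n1, n2, n3, -⟩
          exact absurd n3 (cc.neX (i := 1) (j := n) (by omega) (by omega))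
        · rintro d ⟨-, h⟩
          have hin : InZ X Y (c 1) := by rw [ks.e1]; exact inZ_X X Y _
          rcases h with ⟨e, -⟩ | ⟨e, -⟩
          · have := cc.port_inj hG ks.cat (i := 1) (j := m) (by omega) (by omega) hin (ks.e1.trans e)
            omega
          · have := cc.port_inj hG ks.cat (i := 1) (j := m + 1) (by omega) (by omega) hin
              (ks.e1.trans e)
            omega
      · -- the mirror image
        have ks' := ks.mir
        have m0 : X 2 ≠ c 0 := by rw [ks.e0]; exact cc.xy _ _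
        have m1 : X 2 ≠ c 1 := by rw [ks.e1]; exact (cc.neX (by omega) (by omega)).symm
        have hne2 : ∀ i j, i ≤ m + 1 → j ≤ m + 1 → c i = c j → InZ X Y (c i) → i = j :=
          fun i j hi hj e h => cc.port_inj hG ks.cat hi hj h e
        rcases port_cases hX2 m0 m1 with ⟨p, hp, hpm, hcp⟩ | ⟨a', b', hab', hca'⟩
        · refine caseB (X := fun i => Y (-i)) (Y := fun i => X (-i)) (c := fun j => c (swL j)) ct1 ct2
            tn hG hc ks' hk (p := p) hp hpm ?_ ?_ ?_ ?_ ?_
          · show c (swL p) = X (- -2)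
            rw [swL_of hp, _root_.neg_neg]; exact hcp
          · show ¬ Prt m (fun j => c (swL j)) (Y (- -1))
            rw [prt_sw (by omega), _root_.neg_neg]; exact hY1
          · show c (swL m) ≠ Y (- -2)
            rw [swL_of (by omega), _root_.neg_neg]
            intro e
            rcases hab with ⟨g1, g2⟩ | ⟨g1, g2⟩
            · rw [g1] at hca
              exact cc.xy _ _ (hca.symm.trans e)
            · rw [g2] at hb
              exact hb (e ▸ inZ_Y X Y _)
          · show c (swL (m + 1)) ≠ Y (- -2)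
            rw [swL_of (by omega), _root_.neg_neg]
            intro e
            rcases hab with ⟨g1, g2⟩ | ⟨g1, g2⟩
            · rw [g2] at hb
              exact hb (e ▸ inZ_Y X Y _)
            · rw [g1] at hca
              exact cc.xy _ _ (hca.symm.trans e)
          · rintro ⟨v, hv⟩
            apply hL
            refine ⟨v, ?_⟩
            have e1 : (-0 : ℤ) = 0 := by ring
            have e2 : (-(0 + 2) : ℤ) = -2 := by ring
            simp only [e1, e2] at hv
            rw [show (-2 : ℤ) + 2 = 0 by ring]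
            exact isTwo_symm hv
        · exfalso
          -- `X 2` is not a far leaf
          rcases hab with ⟨g1, g2⟩ | ⟨g1, g2⟩ <;> rcases hab' with ⟨g3, g4⟩ | ⟨g3, g4⟩
          · rw [g1] at hca
            rw [g3] at hca'
            exact cc.neX (i := -1) (j := 2) (by omega) (by omega) (hca.symm.trans hca')
          · rw [g2] at hb
            rw [g3] at hca'
            exact hb (hca' ▸ inZ_X X Y _)
          · rw [g2] at hb
            rw [g3] at hca'
            exact hb (hca' ▸ inZ_X X Y _)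
          · rw [g1] at hca
            rw [g3] at hca'
            exact cc.neX (i := -1) (j := 2) (by omega) (by omega) (hca.symm.trans hca')

end

/-- **Module A3.** -/
theorem oneK6 (ct1 : Ct1H) (ct2 : Ct2H) (tn : TwoNH) (sw : SwapH) : OneK6H := by
  intro V _ H R k X Y hG hc hk m z c ks
  have cc := ks.cc
  have hm3 := ks.m3
  have hk4 := ks.k4
  have hcat := ks.cat
  by_cases hX : Prt m c (X (-1))
  · exact case1 ct1 ct2 tn hG hc ks hk hX
  by_cases hY : Prt m c (Y 1)
  · refine case1 ct1 ct2 tn hG hc ks.mir hk ?_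
    show Prt m (fun j => c (swL j)) (Y (- -1))
    rw [prt_sw (by omega), _root_.neg_neg]; exact hY
  -- both units half seen
  have hX2 : Prt m c (X 2) := by
    by_contra h
    have := (ks.full 1).2 (by rwa [show (1 : ℤ) + 1 = 2 by ring])
    exact hY this
  have hY2 : Prt m c (Y (-2)) := by
    rw [ks.full, show (-2 : ℤ) + 1 = -1 by ring]; exact hX
  have hno : ¬ L2 H R X Y 0 := by
    rintro ⟨v, hv⟩
    rw [show (0 : ℤ) + 2 = 2 by ring] at hv
    exact port_not_two hG ks (isTwo_symm hv) (inZ_X X Y _) hX2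
  have hno2 : ¬ L2 H R X Y (-2) := by
    rintro ⟨v, hv⟩
    exact port_not_two hG ks hv (inZ_Y X Y _) hY2
  have m0 : X 2 ≠ c 0 := by rw [ks.e0]; exact cc.xy _ _
  have m1 : X 2 ≠ c 1 := by rw [ks.e1]; exact (cc.neX (by omega) (by omega)).symm
  have l0 : Y (-2) ≠ c 0 := by rw [ks.e0]; exact cc.neY (by omega) (by omega)
  have l1 : Y (-2) ≠ c 1 := by rw [ks.e1]; exact (cc.xy _ _).symm
  -- left side
  have left : ∃ a, (a = m ∨ a = m + 1) ∧ (c a = Y (-2) ∨ c a = X (-2)) := by
    by_contra hcon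
    push Not at hcon
    have g1 := hcon m (Or.inl rfl)
    have g2 := hcon (m + 1) (Or.inr rfl)
    rcases port_cases hY2 l0 l1 with ⟨p, hp, hpm, hcp⟩ | ⟨a, b, hab, hca⟩
    · exact caseB ct1 ct2 tn hG hc ks hk hp hpm hcp hX g1.2 g2.2 hno
    · rcases hab with ⟨h1, -⟩ | ⟨h1, -⟩
      · exact g1.1 (by rw [← h1]; exact hca)
      · exact g2.1 (by rw [← h1]; exact hca)
  have right : ∃ a, (a = m ∨ a = m + 1) ∧ (c a = X 2 ∨ c a = Y 2) := by
    by_contra hcon
    push Not at hcon
    have g1 := hcon m (Or.inl rfl)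
    have g2 := hcon (m + 1) (Or.inr rfl)
    rcases port_cases hX2 m0 m1 with ⟨p, hp, hpm, hcp⟩ | ⟨a, b, hab, hca⟩
    · refine caseB (X := fun i => Y (-i)) (Y := fun i => X (-i)) (c := fun j => c (swL j)) ct1 ct2
        tn hG hc ks.mir hk (p := p) hp hpm ?_ ?_ ?_ ?_ ?_
      · show c (swL p) = X (- -2)
        rw [swL_of hp, _root_.neg_neg]; exact hcp
      · show ¬ Prt m (fun j => c (swL j)) (Y (- -1))
        rw [prt_sw (by omega), _root_.neg_neg]; exact hY
      · show c (swL m) ≠ Y (- -2)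
        rw [swL_of (by omega), _root_.neg_neg]; exact g1.2
      · show c (swL (m + 1)) ≠ Y (- -2)
        rw [swL_of (by omega), _root_.neg_neg]; exact g2.2
      · rintro ⟨v, hv⟩
        apply hno2
        refine ⟨v, ?_⟩
        have e1 : (-0 : ℤ) = 0 := by ring
        have e2 : (-(0 + 2) : ℤ) = -2 := by ring
        simp only [e1, e2] at hv
        rw [show (-2 : ℤ) + 2 = 0 by ring]
        exact isTwo_symm hv
    · rcases hab with ⟨h1, -⟩ | ⟨h1, -⟩
      · exact g1.1 (by rw [← h1]; exact hca)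
      · exact g2.1 (by rw [← h1]; exact hca)
  obtain ⟨a, ha, hca⟩ := left
  obtain ⟨b, hb, hcb⟩ := right
  -- the far fork is between the units `-2` and `2`
  have haZ : InZ X Y (c a) := by
    rcases hca with h | h <;> rw [h]
    · exact inZ_Y X Y _
    · exact inZ_X X Y _
  have hbZ : InZ X Y (c b) := by
    rcases hcb with h | h <;> rw [h]
    · exact inZ_X X Y _
    · exact inZ_Y X Y _
  have hne : c a ≠ c b := by
    intro e
    rcases hca with h | h <;> rcases hcb with h' | h' <;> rw [h, h'] at e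
    · exact cc.xy _ _ e.symm
    · exact cc.neY (by omega) (by omega) e
    · exact cc.neX (by omega) (by omega) e
    · exact cc.xy _ _ e
  have hab : a ≠ b := fun e => hne (by rw [e])
  have hadj : ∀ j, (j = m ∨ j = m + 1) → H.Adj (z m) (c j) := by
    intro j hj
    rcases hj with rfl | rfl
    · exact hcat.adjc _ (by omega) le_rfl
    · exact hcat.adjm
  obtain ⟨i, hi⟩ := tn V H R k X Y hG cc (z m) (c a) (c b) (hcat.unc m (by omega) le_rfl) hne
    (hadj a ha) (hadj b hb) haZ hbZ
  have key : c a = X (-2) ∧ c b = Y 2 ∧ (k : ℤ) ∣ 6 := by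
    rcases hi with ⟨e1, e2⟩ | ⟨e1, e2⟩
    · -- `c a = Y i`, `c b = X (i + 2)`
      exfalso
      rcases hca with h | h
      · rcases hcb with h' | h'
        · have d1 := cc.injY _ _ (h.symm.trans e1)
          have d2 := cc.injX _ _ (h'.symm.trans e2)
          have d3 := dvd_sub d1 d2
          rw [show (-2 - i - (2 - (i + 2)) : ℤ) = -2 by ring] at d3
          have d4 := (dvd_neg (a := (k : ℤ)) (b := -2)).2 d3
          rw [_root_.neg_neg] at d4
          have := Int.le_of_dvd (by norm_num) d4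
          omega
        · exact cc.xy _ _ (e2.symm.trans h')
      · exact cc.xy _ _ (h.symm.trans e1)
    · -- `c b = Y i`, `c a = X (i + 2)`
      rcases hca with h | h
      · exact absurd (e2.symm.trans h) (cc.xy _ _)
      · rcases hcb with h' | h'
        · exact absurd (h'.symm.trans e1) (cc.xy _ _)
        · refine ⟨h, h', ?_⟩
          have d1 := cc.injX _ _ (h.symm.trans e2)
          have d2 := cc.injY _ _ (h'.symm.trans e1)
          have d3 := dvd_sub d2 d1
          rw [show (2 - i - (-2 - (i + 2)) : ℤ) = 6 by ring] at d3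
          exact d3
  obtain ⟨hca', hcb', hk6⟩ := key
  have hk6' : k = 6 := by
    have := Int.le_of_dvd (by norm_num) hk6
    omega
  subst hk6'
  have e4 : X (-2) = X (2 + 2) := (cc.eqX (i := -2) (j := 2 + 2) ⟨-1, by norm_num⟩).1
  have e5 : Y (-2) = Y (2 + 2) := (cc.eqX (i := -2) (j := 2 + 2) ⟨-1, by norm_num⟩).2
  have hrev := cat_rev hcat
  have pr : ∀ v, Prt m (fun j => c (m + 1 - j)) v ↔ Prt m c v := fun v => prt_rev
  have hsw := cat_sw hrev (by omega)
  have ps : ∀ v, Prt m (fun j => (fun j => c (m + 1 - j)) (swL j)) v ↔ Prt m c v := fun v =>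
    (prt_sw (by omega)).trans (pr v)
  rcases ha with ha | ha <;> rcases hb with hb | hb
  · exact hab (ha.trans hb.symm)
  · -- `c m = X (-2)`, `c (m + 1) = Y 2`
    refine sw V H R 6 X Y hG hc cc (by omega) m _ _ hrev 2 ?_ ?_ ((pr _).2 hX2)
      ((pr _).2 (e5 ▸ hY2))
    · show c (m + 1 - 0) = Y 2
      rw [Nat.sub_zero, ← hb]; exact hcb'
    · show c (m + 1 - 1) = X (2 + 2)
      rw [Nat.add_sub_cancel, ← e4, ← ha]; exact hca'
  · refine sw V H R 6 X Y hG hc cc (by omega) m _ _ hsw 2 ?_ ?_ ((ps _).2 hX2)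
      ((ps _).2 (e5 ▸ hY2))
    · show c (m + 1 - swL 0) = Y 2
      have : swL 0 = 1 := rfl
      rw [this, Nat.add_sub_cancel, ← hb]; exact hcb'
    · show c (m + 1 - swL 1) = X (2 + 2)
      have : swL 1 = 0 := rfl
      rw [this, Nat.sub_zero, ← e4, ← ha]; exact hca'
  · exact hab (ha.trans hb.symm)

end CLB.H86
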