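import Pool.Agent.Helper86_DA.Cc
import Pool.Agent.Helper4_DA.S1

/-!
Module S4: the ports outside a closed chain have their share in the inequality of maximum cuts.
-/

set_option autoImplicit false
set_option linter.unusedSectionVars false

namespace CLB.H56

open Finset Classical
open H3DA (Q neg nr)
open CLB.H95
open CLB.H86
open CLB.H3 (CExt Cat IsTwo mmS llS eU zs eU_sum_ge)

variable {V : Type*} {H : SimpleGraph V} {R : V → Bool}

/-- The number of ports in a set. -/
noncomputable def pt (m : ℕ) (c : ℕ → V) (T : Finset V) : ℕ :=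
  ((range (m + 2)).filter (fun j => c j ∈ T)).card

/-- The local inequality. -/
def Loc (H : SimpleGraph V) (R : V → Bool) (m : ℕ) (z c : ℕ → V) (B : Finset V) : Prop :=
  ∃ O : Finset V, O ⊆ B ∧
    pt m c B + O.card + mmS H R O ≤ 2 * ∑ w ∈ O, eU H (zs m z) w + llS H R O

/-- Sets of covered vertices closed under adjacency. -/
def Clo (H : SimpleGraph V) (R : V → Bool) (B : Finset V) : Prop :=
  (∀ v ∈ B, Cov H R v) ∧ ∀ v ∈ B, ∀ w, Cov H R w → H.Adj v w → w ∈ B

variable {m : ℕ} {z c : ℕ → V}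

lemma pt_union (A B : Finset V) : pt m c (A ∪ B) ≤ pt m c A + pt m c B := by
  unfold pt
  refine (Finset.card_le_card ?_).trans (Finset.card_union_le _ _)
  intro j hj
  rw [mem_filter, mem_union] at hj
  rw [mem_union, mem_filter, mem_filter]
  rcases hj.2 with h | h
  · exact Or.inl ⟨hj.1, h⟩
  · exact Or.inr ⟨hj.1, h⟩

lemma pt_mono {A B : Finset V} (h : A ⊆ B) : pt m c A ≤ pt m c B := by
  unfold pt
  refine Finset.card_le_card fun j hj => ?_
  rw [mem_filter] at hj ⊢
  exact ⟨hj.1, h hj.2⟩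

lemma pt_le [Fintype V] (hcat : Cat H R m z c) (S : Finset V) :
    pt m c S ≤ ∑ w ∈ S, eU H (zs m z) w := by
  unfold pt
  refine eU_sum_ge hcat (fun j hj => ?_) (fun j hj => ?_)
  · rw [mem_filter, mem_range] at hj; omega
  · exact (mem_filter.1 hj).2

/-- Two closed sets add. -/
lemma loc_add {A B : Finset V} (hA : Clo H R A) (hd : Disjoint A B) (h1 : Loc H R m z c A)
    (h2 : Loc H R m z c B) : Loc H R m z c (A ∪ B) := by
  obtain ⟨O1, s1, e1⟩ := h1
  obtain ⟨O2, s2, e2⟩ := h2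
  have hdO : Disjoint O1 O2 := Finset.disjoint_of_subset_left s1 (Finset.disjoint_of_subset_right s2 hd)
  refine ⟨O1 ∪ O2, Finset.union_subset_union s1 s2, ?_⟩
  have a1 := pt_union (m := m) (c := c) A B
  have a2 : (O1 ∪ O2).card = O1.card + O2.card := Finset.card_union_of_disjoint hdO
  have a3 : ∑ w ∈ O1 ∪ O2, eU H (zs m z) w = ∑ w ∈ O1, eU H (zs m z) w + ∑ w ∈ O2, eU H (zs m z) w :=
    Finset.sum_union hdO
  have cross : ∀ u ∈ O1, ∀ v ∈ O2, ¬ Me H R u v := by
    intro u hu v hv hm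
    exact Finset.disjoint_left.1 hd (hA.2 u (s1 hu) v hm.cov' hm.1) (s2 hv)
  have a4 : mmS H R (O1 ∪ O2) = mmS H R O1 + mmS H R O2 := by
    unfold mmS
    rw [Finset.sum_union hdO]
    congr 1
    · refine Finset.sum_congr rfl fun u hu => ?_
      congr 1
      ext v
      rw [mem_filter, mem_filter, mem_union]
      constructor
      · rintro ⟨h | h, h'⟩
        · exact ⟨h, h'⟩
        · exact absurd h' (cross u hu v h)
      · rintro ⟨h, h'⟩; exact ⟨Or.inl h, h'⟩
    · refine Finset.sum_congr rfl fun u hu => ?_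
      congr 1
      ext v
      rw [mem_filter, mem_filter, mem_union]
      constructor
      · rintro ⟨h | h, h'⟩
        · exact absurd h'.symm (cross v h u hu)
        · exact ⟨h, h'⟩
      · rintro ⟨h, h'⟩; exact ⟨Or.inr h, h'⟩
  have a5 : llS H R O1 + llS H R O2 ≤ llS H R (O1 ∪ O2) := by
    unfold llS
    rw [Finset.sum_union hdO]
    refine Nat.add_le_add (Finset.sum_le_sum fun u _ => Finset.card_le_card ?_)
      (Finset.sum_le_sum fun u _ => Finset.card_le_card ?_)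
    · exact Finset.filter_subset_filter _ Finset.subset_union_left
    · exact Finset.filter_subset_filter _ Finset.subset_union_right
  rw [a2, a3, a4]
  omega

/-- One half of a closed chain. -/
noncomputable def half [Fintype V] (X Y : ℤ → V) (s : ℤ) : Finset V :=
  univ.filter (fun v => ∃ i, (v = Y i ∧ (i + s) % 2 = 1) ∨ (v = X i ∧ (i + s) % 2 = 0))

lemma mem_half [Fintype V] {X Y : ℤ → V} {s : ℤ} {v : V} : v ∈ half X Y s ↔
    ∃ i, (v = Y i ∧ (i + s) % 2 = 1) ∨ (v = X i ∧ (i + s) % 2 = 0) := by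
  unfold half
  rw [mem_filter]
  simp only [mem_univ, true_and]

lemma half_mm [Fintype V] (hG : ClassC H R) {k : ℕ} {X Y : ℤ → V} (h : CC H R k X Y) (s : ℤ) :
    mmS H R (half X Y s) = 0 := by
  by_contra hne
  obtain ⟨u, hu, v, hv, huv⟩ := CLB.H4.exists_mates (Nat.pos_of_ne_zero hne)
  rw [mem_half] at hu hv
  have hk : (2 : ℤ) ∣ (k : ℤ) := by
    have := h.even
    omega
  obtain ⟨i, ⟨rfl, hi⟩ | ⟨rfl, hi⟩⟩ := hu
  · have e := hG.matching huv (h.me i).symm
    subst e
    obtain ⟨j, ⟨hj, hj'⟩ | ⟨hj, hj'⟩⟩ := hv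
    · exact h.xy _ _ hj
    · have h1 := h.injX _ _ hj
      have h2 := dvd_trans hk h1
      omega
  · have e := hG.matching huv (h.me i)
    subst e
    obtain ⟨j, ⟨hj, hj'⟩ | ⟨hj, hj'⟩⟩ := hv
    · have h1 := h.injY _ _ hj
      have h2 := dvd_trans hk h1
      omega
    · exact h.xy _ _ hj.symm

lemma half_ll [Fintype V] {k : ℕ} {X Y : ℤ → V} (h : CC H R k X Y) (s : ℤ) :
    (half X Y s).card ≤ llS H R (half X Y s) := by
  refine CLB.H4.card_le_llS fun u hu => ?_
  rw [mem_half] at hu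
  obtain ⟨i, ⟨rfl, hi⟩ | ⟨rfl, hi⟩⟩ := hu
  · refine ⟨X (i + 1), ?_, (h.lk i).1⟩
    rw [mem_half]
    exact ⟨i + 1, Or.inr ⟨rfl, by omega⟩⟩
  · refine ⟨Y (i - 1), ?_, ?_⟩
    · rw [mem_half]
      exact ⟨i - 1, Or.inl ⟨rfl, by omega⟩⟩
    · have := (h.lk (i - 1)).1.symm
      rw [sub_add_cancel] at this
      exact this

/-- The vertices of a closed chain. -/
noncomputable def blk [Fintype V] (X Y : ℤ → V) : Finset V := univ.filter (fun v => InZ X Y v)

lemma mem_blk [Fintype V] {X Y : ℤ → V} {v : V} : v ∈ blk X Y ↔ InZ X Y v := by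
  unfold blk
  rw [mem_filter]
  simp only [mem_univ, true_and]

lemma blk_half [Fintype V] {X Y : ℤ → V} : blk X Y ⊆ half X Y 0 ∪ half X Y 1 := by
  intro v hv
  rw [mem_blk] at hv
  rw [mem_union, mem_half, mem_half]
  obtain ⟨i, rfl | rfl⟩ := hv
  · rcases Int.emod_two_eq_zero_or_one i with h | h
    · exact Or.inl ⟨i, Or.inr ⟨rfl, by omega⟩⟩
    · exact Or.inr ⟨i, Or.inr ⟨rfl, by omega⟩⟩
  · rcases Int.emod_two_eq_zero_or_one i with h | h
    · exact Or.inr ⟨i, Or.inl ⟨rfl, by omega⟩⟩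
    · exact Or.inl ⟨i, Or.inl ⟨rfl, by omega⟩⟩

lemma half_sub [Fintype V] {X Y : ℤ → V} (s : ℤ) : half X Y s ⊆ blk X Y := by
  intro v hv
  rw [mem_half] at hv
  rw [mem_blk]
  obtain ⟨i, ⟨rfl, hi⟩ | ⟨rfl, hi⟩⟩ := hv
  · exact ⟨i, Or.inr rfl⟩
  · exact ⟨i, Or.inl rfl⟩

lemma blk_loc [Fintype V] (hG : ClassC H R) (hcat : Cat H R m z c) {k : ℕ} {X Y : ℤ → V}
    (h : CC H R k X Y) : Loc H R m z c (blk X Y) := by
  have h1 : pt m c (blk X Y) ≤ pt m c (half X Y 0) + pt m c (half X Y 1) :=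
    (pt_mono blk_half).trans (pt_union _ _)
  have key : ∀ s, pt m c (blk X Y) ≤ 2 * pt m c (half X Y s) → Loc H R m z c (blk X Y) := by
    intro s hs
    refine ⟨half X Y s, half_sub s, ?_⟩
    have h2 := half_mm hG h s
    have h3 := half_ll h s
    have h4 := pt_le hcat (half X Y s)
    omega
  by_cases h2 : pt m c (half X Y 0) ≤ pt m c (half X Y 1)
  · exact key 1 (by omega)
  · exact key 0 (by omega)

lemma blk_clo [Fintype V] (hG : ClassC H R) {k : ℕ} {X Y : ℤ → V} (h : CC H R k X Y) :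
    Clo H R (blk X Y) := by
  refine ⟨fun v hv => h.cov (mem_blk.1 hv), fun v hv w hw hvw => ?_⟩
  rw [mem_blk] at hv ⊢
  exact h.adj hG hv hw hvw

lemma blk_sub [Fintype V] {k : ℕ} {X Y : ℤ → V} (h : CC H R k X Y)
    {B : Finset V} (hB : Clo H R B) {v : V} (hv : v ∈ B) (hv' : InZ X Y v) : blk X Y ⊆ B := by
  have e1 : ∀ i, X i ∈ B ↔ Y i ∈ B := fun i =>
    ⟨fun hi => hB.2 _ hi _ (h.covY i) (h.me i).1, fun hi => hB.2 _ hi _ (h.covX i) (h.me i).1.symm⟩
  have e2 : ∀ i, Y i ∈ B ↔ X (i + 1) ∈ B := fun i =>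
    ⟨fun hi => hB.2 _ hi _ (h.covX _) (h.lk i).1.1, fun hi => hB.2 _ hi _ (h.covY i) (h.lk i).1.1.symm⟩
  obtain ⟨i, hi⟩ : ∃ i, X i ∈ B := by
    obtain ⟨i, rfl | rfl⟩ := hv'
    · exact ⟨i, hv⟩
    · exact ⟨i, (e1 i).2 hv⟩
  have all : ∀ n : ℤ, X (i + n) ∈ B := by
    intro n
    induction n using Int.induction_on with
    | zero => rw [add_zero]; exact hi
    | succ n ih =>
      rw [← add_assoc]
      exact (e2 _).1 ((e1 _).1 ih)
    | pred n ih =>
      have e : i + -(n : ℤ) = i + (-(n : ℤ) - 1) + 1 := by ring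
      rw [e] at ih
      exact (e1 _).2 ((e2 _).2 ih)
  intro w hw
  rw [mem_blk] at hw
  obtain ⟨j, rfl | rfl⟩ := hw
  · have := all (j - i)
    rwa [add_sub_cancel] at this
  · have := all (j - i)
    rw [add_sub_cancel] at this
    exact (e1 j).1 this

/-- An unlinked unit. -/
lemma unit_loc {V : Type} {H : SimpleGraph V} {R : V → Bool} {z c : ℕ → V} [Fintype V] (lf : LfH)
    (hG : ClassC H R) (hc : Crit H R)
    (hcat : Cat H R m z c) {v v' : V} (hm : Me H R v v') (h0 : c 0 ≠ v ∧ c 0 ≠ v') (h1 : c 1 ≠ v ∧ c 1 ≠ v')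
    (hl : ∀ u, ¬ Lk H R v u) (hl' : ∀ u, ¬ Lk H R v' u) : Loc H R m z c {v, v'} := by
  have hpos := hcat.pos
  have hne := hm.ne
  have k1 : pt m c {v, v'} ≤ pt m c {v} + pt m c {v'} := by
    have := pt_union (m := m) (c := c) {v} {v'}
    have e : ({v, v'} : Finset V) = {v} ∪ {v'} := rfl
    rw [e]; exact this
  have k2 := pt_le hcat {v}
  have k3 := pt_le hcat {v'}
  rw [Finset.sum_singleton] at k2 k3
  have single : ∀ u : V, mmS H R {u} = 0 := by
    intro u
    by_contra hne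
    obtain ⟨a, ha, b, hb, hab⟩ := CLB.H4.exists_mates (Nat.pos_of_ne_zero hne)
    rw [mem_singleton] at ha hb
    rw [ha, hb] at hab
    exact hab.ne rfl
  by_cases c1 : pt m c {v} = 0 ∧ pt m c {v'} = 0
  · refine ⟨∅, Finset.empty_subset _, ?_⟩
    have : mmS H R ∅ = 0 := rfl
    rw [this, Finset.card_empty]
    omega
  by_cases c2 : pt m c {v} + pt m c {v'} + 1 ≤ 2 * pt m c {v}
  · refine ⟨{v}, by simp, ?_⟩
    rw [single, Finset.sum_singleton, Finset.card_singleton]
    omega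
  by_cases c3 : pt m c {v} + pt m c {v'} + 1 ≤ 2 * pt m c {v'}
  · refine ⟨{v'}, by simp, ?_⟩
    rw [single, Finset.sum_singleton, Finset.card_singleton]
    omega
  by_cases c4 : 4 ≤ pt m c {v} + pt m c {v'}
  · refine ⟨{v, v'}, Finset.Subset.refl _, ?_⟩
    rw [Finset.sum_pair hne, Finset.card_pair hne]
    have : mmS H R {v, v'} ≤ 2 := by
      unfold mmS
      rw [Finset.sum_pair hne]
      have a : ∀ u u', Me H R u u' → (({v, v'} : Finset V).filter (fun w => Me H R u w)).card ≤ 1 := by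
        intro u u' huu
        refine (Finset.card_le_card (t := {u'}) fun w hw => ?_).trans (by simp)
        rw [mem_filter] at hw
        rw [mem_singleton]
        exact hG.matching hw.2 huu
      have a1 := a v v' hm
      have a2 := a v' v hm.symm
      omega
    omega
  exfalso
  have d1 : pt m c {v} = 1 := by omega
  have d2 : pt m c {v'} = 1 := by omega
  have ext : ∀ u : V, pt m c {u} = 1 → ∃ p, p ≤ m + 1 ∧ c p = u ∧ ∀ j ≤ m + 1, c j = u → j = p := by
    intro u hu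
    unfold pt at hu
    rw [Finset.card_eq_one] at hu
    obtain ⟨p, hp⟩ := hu
    have hp1 : p ∈ (range (m + 2)).filter (fun j => c j ∈ ({u} : Finset V)) := by
      rw [hp]; exact mem_singleton_self _
    rw [mem_filter, mem_range, mem_singleton] at hp1
    refine ⟨p, by omega, hp1.2, fun j hj hju => ?_⟩
    have : j ∈ (range (m + 2)).filter (fun j => c j ∈ ({u} : Finset V)) := by
      rw [mem_filter, mem_range, mem_singleton]
      exact ⟨by omega, hju⟩
    rw [hp, mem_singleton] at this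
    exact this
  obtain ⟨p, hp, ep, up⟩ := ext v d1
  obtain ⟨q, hq, eq, uq⟩ := ext v' d2
  have hp2 : 2 ≤ p := by
    by_contra hlt
    have : p = 0 ∨ p = 1 := by omega
    rcases this with rfl | rfl
    · exact h0.1 ep
    · exact h1.1 ep
  have hq2 : 2 ≤ q := by
    by_contra hlt
    have : q = 0 ∨ q = 1 := by omega
    rcases this with rfl | rfl
    · exact h0.2 eq
    · exact h1.2 eq
  by_cases i1 : p + 1 ≤ m
  · exact lf V H R hG hc m z c hcat v v' hm hl hl' p q ep eq hp2 i1 hq2 hq up uq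
  by_cases i2 : q + 1 ≤ m
  · exact lf V H R hG hc m z c hcat v' v hm.symm hl' hl q p eq ep hq2 i2 hp2 hp uq up
  have adj : ∀ r, r ≤ m + 1 → ¬ (r + 1 ≤ m) → H.Adj (z m) (c r) := by
    intro r h1 h2
    have : r = m ∨ r = m + 1 := by omega
    rcases this with rfl | rfl
    · exact hcat.adjc _ hpos le_rfl
    · exact hcat.adjm
  have a1 := adj p hp i1
  have a2 := adj q hq i2
  rw [ep] at a1
  rw [eq] at a2
  exact hG.tri _ _ _ a1 hm.1 a2

/-- All closed sets outside the chain. -/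
lemma all_loc {V : Type} {H : SimpleGraph V} {R : V → Bool} {z c : ℕ → V} [Fintype V] (lf : LfH)
    (hG : ClassC H R) (hc : Crit H R)
    (hall : ∀ u v, Lk H R u v → ∃ k X Y, CC H R k X Y ∧ InZ X Y u)
    (hcat : Cat H R m z c) : ∀ n : ℕ, ∀ B : Finset V, B.card = n → Clo H R B → c 0 ∉ B → c 1 ∉ B →
    Loc H R m z c B := by
  intro n
  induction n using Nat.strong_induction_on with
  | _ n ih =>
    intro B hBn hB h0 h1
    rcases B.eq_empty_or_nonempty with rfl | ⟨v, hv⟩
    · refine ⟨∅, Finset.empty_subset _, ?_⟩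
      have e1 : mmS H R ∅ = 0 := rfl
      have e2 : pt m c ∅ = 0 := by unfold pt; simp
      rw [e1, e2, Finset.card_empty]
      omega
    obtain ⟨A, hAB, hAc, hA, hvA⟩ : ∃ A, A ⊆ B ∧ Clo H R A ∧ Loc H R m z c A ∧ v ∈ A := by
      obtain ⟨v', hm⟩ := hB.1 v hv
      have hv' : v' ∈ B := hB.2 v hv v' hm.cov' hm.1
      by_cases hl : ∃ u, Lk H R v u
      · obtain ⟨u, hu⟩ := hl
        obtain ⟨k, X, Y, hcc, hin⟩ := hall v u hu
        exact ⟨blk X Y, blk_sub hcc hB hv hin, blk_clo hG hcc, blk_loc hG hcat hcc, mem_blk.2 hin⟩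
      by_cases hl' : ∃ u, Lk H R v' u
      · obtain ⟨u, hu⟩ := hl'
        obtain ⟨k, X, Y, hcc, hin⟩ := hall v' u hu
        refine ⟨blk X Y, blk_sub hcc hB hv' hin, blk_clo hG hcc, blk_loc hG hcat hcc, mem_blk.2 ?_⟩
        exact hcc.adj hG hin hm.cov hm.1.symm
      push Not at hl hl'
      have hne0 : ∀ u ∈ B, c 0 ≠ u := fun u hu he => h0 (he ▸ hu)
      have hne1 : ∀ u ∈ B, c 1 ≠ u := fun u hu he => h1 (he ▸ hu)
      refine ⟨{v, v'}, ?_, ⟨?_, ?_⟩, unit_loc lf hG hc hcat hm ⟨hne0 v hv, hne0 v' hv'⟩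
        ⟨hne1 v hv, hne1 v' hv'⟩ hl hl', by simp⟩
      · intro w hw
        rw [mem_insert, mem_singleton] at hw
        rcases hw with rfl | rfl
        · exact hv
        · exact hv'
      · intro w hw
        rw [mem_insert, mem_singleton] at hw
        rcases hw with rfl | rfl
        · exact hm.cov
        · exact hm.cov'
      · intro w hw x hx hwx
        rw [mem_insert, mem_singleton] at hw ⊢
        rcases hw with rfl | rfl
        · rcases adj_iff.1 hwx with h | h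
          · exact Or.inr (hG.matching h hm)
          · exact absurd ⟨h, hm.cov, hx⟩ (hl x)
        · rcases adj_iff.1 hwx with h | h
          · exact Or.inl (hG.matching h hm.symm)
          · exact absurd ⟨h, hm.cov', hx⟩ (hl' x)
    have hlt : (B \ A).card < n := by
      rw [← hBn]
      exact Finset.card_lt_card ⟨Finset.sdiff_subset, fun h => (mem_sdiff.1 (h hv)).2 hvA⟩
    have hC : Clo H R (B \ A) := by
      refine ⟨fun w hw => hB.1 w (mem_sdiff.1 hw).1, fun w hw x hx hwx => ?_⟩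
      rw [mem_sdiff] at hw ⊢
      refine ⟨hB.2 w hw.1 x hx hwx, fun hxA => hw.2 ?_⟩
      exact hAc.2 x hxA w (hB.1 w hw.1) hwx.symm
    have h2 := ih _ hlt (B \ A) rfl hC (fun h => h0 (mem_sdiff.1 h).1) (fun h => h1 (mem_sdiff.1 h).1)
    have h3 := loc_add hAc Finset.disjoint_sdiff hA h2
    rwa [Finset.union_sdiff_of_subset hAB] at h3

end CLB.H56

namespace CLB.H86

open Finset Classical
open H3DA (Q neg nr)
open CLB.H95
open CLB.H3 (CExt Cat IsTwo mmS llS eU zs)

/-- Module S4. -/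
theorem out (lf : LfH) : OutH := by
  intro V _ H R hG hc hall k X Y hcc m z c hcat h0 h1
  have hcl : CLB.H56.Clo H R (univ.filter (fun v => Cov H R v ∧ ¬ InZ X Y v)) := by
    refine ⟨fun v hv => (mem_filter.1 hv).2.1, fun v hv w hw hvw => ?_⟩
    rw [mem_filter] at hv ⊢
    exact ⟨mem_univ _, hw, fun hin => hv.2.2 (hcc.adj hG hin hv.2.1 hvw.symm)⟩
  obtain ⟨O, hO, hle⟩ := CLB.H56.all_loc lf hG hc hall hcat _ _ rfl hcl
    (fun h => (mem_filter.1 h).2.2 h0) (fun h => (mem_filter.1 h).2.2 h1)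
  refine ⟨O, fun w hw => (mem_filter.1 (hO hw)).2, ?_⟩
  refine le_trans ?_ hle
  refine Nat.add_le_add_right (Nat.add_le_add_right (Finset.card_le_card fun j hj => ?_) _) _
  rw [mem_filter, mem_range] at hj
  rw [mem_filter, mem_range, mem_filter]
  exact ⟨hj.1, mem_univ _, hcat.cov j (by omega), hj.2⟩

end CLB.H86
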