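import Pool.Agent.Helper86_DA.Cc

/-!
Closed chains, module S5: a half seen unit implies that every link has exactly one end at the caterpillar.
-/

set_option autoImplicit false
set_option linter.unusedSectionVars false

namespace CLB.H86

open Finset Classical
open H3DA (Q neg nr)
open CLB.H95
open CLB.H3 (CExt Cat IsTwo mmS llS eU zs uuS rlaw_sets zs_unc zs_card uuS_cat mem_zs)

/-! ### The pure part -/

/-- Next unit. -/
def nx (k i : ℕ) : ℕ := if i = k then 1 else i + 1

/-- Previous unit. -/
def pv (k i : ℕ) : ℕ := if i = 1 then k else i - 1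

/-- The contribution of a unit. -/
def ctr (k : ℕ) (p q : ℕ → ℤ) (A B : ℕ → Bool) (i : ℕ) : ℤ :=
  (if A i then 2 * p i + (if B (pv k i) then 1 else 0) - 1 else 0) +
  (if B i then 2 * q i + (if A (nx k i) then 1 else 0) - 1 else 0) -
  (if A i && B i then 2 else 0) - p i - q i

lemma split_sum (k v : ℕ) (h2 : 2 ≤ v) (hv : v ≤ k) (f : ℕ → ℤ) :
    ∑ i ∈ Ico 1 (k + 1), f i = f 1 + ∑ i ∈ Ico 2 v, f i + f v + ∑ i ∈ Ico (v + 1) (k + 1), f i := by
  rw [← Finset.sum_Ico_consecutive f (show 1 ≤ 2 by omega) (show 2 ≤ k + 1 by omega),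
    ← Finset.sum_Ico_consecutive f h2 (show v ≤ k + 1 by omega),
    Finset.sum_eq_sum_Ico_succ_bot (show v < k + 1 by omega)]
  simp only [Nat.Ico_succ_singleton, Finset.sum_singleton]
  ring

variable {k : ℕ} {p q : ℕ → ℤ} {A B : ℕ → Bool} {i : ℕ}

lemma ctr_ff (hA : A i = false) (hB : B i = false) : ctr k p q A B i = - p i - q i := by
  unfold ctr; rw [hA, hB]; simp

lemma ctr_tf (hA : A i = true) (hB : B i = false) (h : B (pv k i) = true) :
    ctr k p q A B i = p i - q i := by
  unfold ctr; rw [hA, hB, h]; simp; ring

lemma ctr_ft (hA : A i = false) (hB : B i = true) (h : A (nx k i) = true) :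
    ctr k p q A B i = q i - p i := by
  unfold ctr; rw [hA, hB, h]; simp; ring

lemma ctr_tf' (hA : A i = true) (hB : B i = false) (h : B (pv k i) = false) :
    ctr k p q A B i = p i - q i - 1 := by
  unfold ctr; rw [hA, hB, h]; simp; ring

lemma ctr_ft' (hA : A i = false) (hB : B i = true) (h : A (nx k i) = false) :
    ctr k p q A B i = q i - p i - 1 := by
  unfold ctr; rw [hA, hB, h]; simp; ring

lemma ctr_tt (hA : A i = true) (hB : B i = true) (h : B (pv k i) = true)
    (h' : A (nx k i) = true) : ctr k p q A B i = p i + q i - 2 := by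
  unfold ctr; rw [hA, hB, h, h']; simp; ring

lemma ctr_tt' (hA : A i = true) (hB : B i = true) (h : B (pv k i) = true)
    (h' : A (nx k i) = false) : ctr k p q A B i = p i + q i - 3 := by
  unfold ctr; rw [hA, hB, h, h']; simp; ring

theorem pure (k : ℕ) (hk : 4 ≤ k) (he : k % 2 = 0) (p q : ℕ → ℤ)
    (hp : ∀ i, p i = 0 ∨ p i = 1) (hq : ∀ i, q i = 0 ∨ q i = 1)
    (law : ∀ A B : ℕ → Bool, ∑ i ∈ Ico 1 (k + 1), ctr k p q A B i ≤ 0)
    (p1 : p 1 = 0) (q1 : q 1 = 1) : ∀ j, 1 ≤ j → j ≤ k → q j + p (nx k j) = 1 := by
  set g : ℕ → ℤ := fun i => if i % 2 = 1 then q i - p i else p i - q i with hg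
  -- the total is zero
  have t0 : ∑ i ∈ Ico 1 (k + 1), g i = 0 := by
    have h1 := law (fun i => decide (i % 2 = 0)) (fun i => decide (i % 2 = 1))
    have h2 := law (fun i => decide (i % 2 = 1)) (fun i => decide (i % 2 = 0))
    have e1 : ∑ i ∈ Ico 1 (k + 1), ctr k p q (fun i => decide (i % 2 = 0))
        (fun i => decide (i % 2 = 1)) i = ∑ i ∈ Ico 1 (k + 1), g i := by
      refine Finset.sum_congr rfl fun i hi => ?_
      rw [mem_Ico] at hi
      have a1 : i % 2 = 0 → pv k i % 2 = 1 := by intro h; unfold pv; split_ifs <;> omega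
      have a2 : i % 2 = 1 → nx k i % 2 = 0 := by intro h; unfold nx; split_ifs <;> omega
      unfold ctr
      rw [hg]
      simp only [decide_eq_true_eq, Bool.and_eq_true]
      split_ifs <;> omega
    have e2 : ∑ i ∈ Ico 1 (k + 1), ctr k p q (fun i => decide (i % 2 = 1))
        (fun i => decide (i % 2 = 0)) i = -∑ i ∈ Ico 1 (k + 1), g i := by
      rw [← Finset.sum_neg_distrib]
      refine Finset.sum_congr rfl fun i hi => ?_
      rw [mem_Ico] at hi
      have a1 : i % 2 = 1 → pv k i % 2 = 0 := by intro h; unfold pv; split_ifs <;> omega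
      have a2 : i % 2 = 0 → nx k i % 2 = 1 := by intro h; unfold nx; split_ifs <;> omega
      unfold ctr
      rw [hg]
      simp only [decide_eq_true_eq, Bool.and_eq_true]
      split_ifs <;> omega
    omega
  have g1 : g 1 = 1 := by rw [hg]; simp only [Nat.one_mod, if_true]; omega
  -- the value of the partial sums
  have key : ∀ v, 2 ≤ v → v ≤ k →
      ∑ i ∈ Ico 2 v, g i = if v % 2 = 0 then - p v else p v - 1 := by
    intro v h2 hv
    set A : ℕ → Bool := fun i => if i = v then decide (v % 2 = 1) else if i = 1 then false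
      else if i < v then decide (i % 2 = 1) else decide (i % 2 = 0) with hA
    set B : ℕ → Bool := fun i => if i = v then decide (v % 2 = 1) else if i = 1 then true
      else if i < v then decide (i % 2 = 0) else decide (i % 2 = 1) with hB
    set A' : ℕ → Bool := fun i => if i = v then decide (v % 2 = 0) else if i = 1 then false
      else if i < v then decide (i % 2 = 0) else decide (i % 2 = 1) with hA'
    set B' : ℕ → Bool := fun i => if i = v then decide (v % 2 = 0) else if i = 1 then true
      else if i < v then decide (i % 2 = 1) else decide (i % 2 = 0) with hB'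
    have s1 := law A B
    have s2 := law A' B'
    have u0 := t0
    rw [split_sum k v h2 hv] at s1 s2 u0
    -- first pattern
    have f1 : ctr k p q A B 1 = 0 := by
      rw [ctr_ft' (by simp only [hA]; split_ifs <;> first | omega | (simp; done) | (simp; omega))
        (by simp only [hB]; split_ifs <;> first | omega | (simp; done) | (simp; omega))
        (by rw [nx, if_neg (by omega)]; simp only [hA]; split_ifs <;> first | omega | (simp; done) | (simp; omega))]
      omega
    have f2 : ∑ i ∈ Ico 2 v, ctr k p q A B i = -∑ i ∈ Ico 2 v, g i := by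
      rw [← Finset.sum_neg_distrib]
      refine Finset.sum_congr rfl fun i hi => ?_
      rw [mem_Ico] at hi
      by_cases hi2 : i % 2 = 0
      · rw [ctr_ft (by simp only [hA]; split_ifs <;> first | omega | (simp; done) | (simp; omega))
          (by simp only [hB]; split_ifs <;> first | omega | (simp; done) | (simp; omega))
          (by rw [nx, if_neg (by omega)]; simp only [hA]; split_ifs <;> first | omega | (simp; done) | (simp; omega))]
        simp only [hg]
        rw [if_neg (by omega)]; ring
      · rw [ctr_tf (by simp only [hA]; split_ifs <;> first | omega | (simp; done) | (simp; omega))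
          (by simp only [hB]; split_ifs <;> first | omega | (simp; done) | (simp; omega))
          (by rw [pv, if_neg (by omega)]; simp only [hB]; split_ifs <;> first | omega | (simp; done) | (simp; omega))]
        simp only [hg]
        rw [if_pos (by omega)]; ring
    have f3 : ctr k p q A B v = if v % 2 = 0 then - p v - q v else p v + q v - 2 := by
      split_ifs with hv2
      · rw [ctr_ff (by simp only [hA]; split_ifs <;> first | omega | (simp; done) | (simp; omega))
          (by simp only [hB]; split_ifs <;> first | omega | (simp; done) | (simp; omega))]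
      · rw [ctr_tt (by simp only [hA]; split_ifs <;> first | omega | (simp; done) | (simp; omega))
          (by simp only [hB]; split_ifs <;> first | omega | (simp; done) | (simp; omega))
          (by rw [pv, if_neg (by omega)]; simp only [hB]; split_ifs <;> first | omega | (simp; done) | (simp; omega))
          (by rw [nx, if_neg (by omega)]; simp only [hA]; split_ifs <;> first | omega | (simp; done) | (simp; omega))]
    have f4 : ∑ i ∈ Ico (v + 1) (k + 1), ctr k p q A B i = ∑ i ∈ Ico (v + 1) (k + 1), g i := by
      refine Finset.sum_congr rfl fun i hi => ?_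
      rw [mem_Ico] at hi
      by_cases hi2 : i % 2 = 0
      · rw [ctr_tf (by simp only [hA]; split_ifs <;> first | omega | (simp; done) | (simp; omega))
          (by simp only [hB]; split_ifs <;> first | omega | (simp; done) | (simp; omega))
          (by rw [pv, if_neg (by omega)]; simp only [hB]; split_ifs <;> first | omega | (simp; done) | (simp; omega))]
        simp only [hg]
        rw [if_neg (by omega)]
      · rw [ctr_ft (by simp only [hA]; split_ifs <;> first | omega | (simp; done) | (simp; omega))
          (by simp only [hB]; split_ifs <;> first | omega | (simp; done) | (simp; omega))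
          (by rw [nx, if_neg (by omega)]; simp only [hA]; split_ifs <;> first | omega | (simp; done) | (simp; omega))]
        simp only [hg]
        rw [if_pos (by omega)]
    -- second pattern
    have f1' : ctr k p q A' B' 1 = 1 := by
      rw [ctr_ft (by simp only [hA']; split_ifs <;> first | omega | (simp; done) | (simp; omega))
        (by simp only [hB']; split_ifs <;> first | omega | (simp; done) | (simp; omega))
        (by rw [nx, if_neg (by omega)]; simp only [hA']; split_ifs <;> first | omega | (simp; done) | (simp; omega))]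
      omega
    have f2' : ∑ i ∈ Ico 2 v, ctr k p q A' B' i = ∑ i ∈ Ico 2 v, g i := by
      refine Finset.sum_congr rfl fun i hi => ?_
      rw [mem_Ico] at hi
      by_cases hi2 : i % 2 = 0
      · rw [ctr_tf (by simp only [hA']; split_ifs <;> first | omega | (simp; done) | (simp; omega))
          (by simp only [hB']; split_ifs <;> first | omega | (simp; done) | (simp; omega))
          (by rw [pv, if_neg (by omega)]; simp only [hB']; split_ifs <;> first | omega | (simp; done) | (simp; omega))]
        simp only [hg]
        rw [if_neg (by omega)]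
      · rw [ctr_ft (by simp only [hA']; split_ifs <;> first | omega | (simp; done) | (simp; omega))
          (by simp only [hB']; split_ifs <;> first | omega | (simp; done) | (simp; omega))
          (by rw [nx, if_neg (by omega)]; simp only [hA']; split_ifs <;> first | omega | (simp; done) | (simp; omega))]
        simp only [hg]
        rw [if_pos (by omega)]
    have f3' : ctr k p q A' B' v = (if v % 2 = 0 then p v + q v - 2 else - p v - q v)
        - (if k = v then 1 else 0) := by
      by_cases hv2 : v % 2 = 0
      · rw [if_pos hv2]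
        by_cases hvk : k = v
        · rw [if_pos hvk, ctr_tt' (by simp only [hA']; split_ifs <;> first | omega | (simp; done) | (simp; omega))
            (by simp only [hB']; split_ifs <;> first | omega | (simp; done) | (simp; omega))
            (by rw [pv, if_neg (by omega)]; simp only [hB']; split_ifs <;> first | omega | (simp; done) | (simp; omega))
            (by rw [nx, if_pos (by omega)]; simp only [hA']; split_ifs <;> first | omega | (simp; done) | (simp; omega))]
          ring
        · rw [if_neg hvk, ctr_tt (by simp only [hA']; split_ifs <;> first | omega | (simp; done) | (simp; omega))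
            (by simp only [hB']; split_ifs <;> first | omega | (simp; done) | (simp; omega))
            (by rw [pv, if_neg (by omega)]; simp only [hB']; split_ifs <;> first | omega | (simp; done) | (simp; omega))
            (by rw [nx, if_neg (by omega)]; simp only [hA']; split_ifs <;> first | omega | (simp; done) | (simp; omega))]
          ring
      · rw [if_neg hv2, if_neg (by omega), ctr_ff (by simp only [hA']; split_ifs <;> first | omega | (simp; done) | (simp; omega))
          (by simp only [hB']; split_ifs <;> first | omega | (simp; done) | (simp; omega))]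
        ring
    have f4' : ∑ i ∈ Ico (v + 1) (k + 1), ctr k p q A' B' i = -∑ i ∈ Ico (v + 1) (k + 1), g i
        - (if k = v then 0 else 1) := by
      have e1 : ∑ i ∈ Ico (v + 1) (k + 1), (if i = k then (1 : ℤ) else 0) =
          if k = v then 0 else 1 := by
        rw [Finset.sum_ite_eq']
        by_cases hvk : k = v
        · rw [if_pos hvk, if_neg (by rw [mem_Ico]; omega)]
        · rw [if_neg hvk, if_pos (by rw [mem_Ico]; omega)]
      rw [← e1, ← Finset.sum_neg_distrib, ← Finset.sum_sub_distrib]
      refine Finset.sum_congr rfl fun i hi => ?_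
      rw [mem_Ico] at hi
      by_cases hi2 : i % 2 = 0
      · by_cases hik : i = k
        · rw [if_pos hik, ctr_ft' (by simp only [hA']; split_ifs <;> first | omega | (simp; done) | (simp; omega))
            (by simp only [hB']; split_ifs <;> first | omega | (simp; done) | (simp; omega))
            (by rw [nx, if_pos hik]; simp only [hA']; split_ifs <;> first | omega | (simp; done) | (simp; omega))]
          simp only [hg]
          rw [if_neg (by omega)]; ring
        · rw [if_neg hik, ctr_ft (by simp only [hA']; split_ifs <;> first | omega | (simp; done) | (simp; omega))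
            (by simp only [hB']; split_ifs <;> first | omega | (simp; done) | (simp; omega))
            (by rw [nx, if_neg hik]; simp only [hA']; split_ifs <;> first | omega | (simp; done) | (simp; omega))]
          simp only [hg]
          rw [if_neg (by omega)]; ring
      · rw [if_neg (by omega), ctr_tf (by simp only [hA']; split_ifs <;> first | omega | (simp; done) | (simp; omega))
          (by simp only [hB']; split_ifs <;> first | omega | (simp; done) | (simp; omega))
          (by rw [pv, if_neg (by omega)]; simp only [hB']; split_ifs <;> first | omega | (simp; done) | (simp; omega))]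
        simp only [hg]
        rw [if_pos (by omega)]; ring
    have f5 : g v = if v % 2 = 0 then p v - q v else q v - p v := by
      simp only [hg]
      split_ifs <;> omega
    rw [f1, f2, f3, f4] at s1
    rw [f1', f2', f3', f4'] at s2
    rw [f5] at u0
    have h3 := hp v
    have h4 := hq v
    generalize ∑ i ∈ Ico 2 v, g i = a at s1 s2 u0 ⊢
    generalize ∑ i ∈ Ico (v + 1) (k + 1), g i = b at s1 s2 u0
    split_ifs at s1 s2 u0 ⊢ <;> omega
  intro j h1 hjk
  by_cases hk' : j = k
  · -- the last link
    subst hk'
    have h5 := key j (by omega) le_rfl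
    have u0 := t0
    rw [split_sum j j (by omega) le_rfl, h5, if_pos he, Finset.Ico_self, Finset.sum_empty] at u0
    have f5 : g j = p j - q j := by
      simp only [hg]
      rw [if_neg (by omega)]
    rw [nx, if_pos rfl]
    omega
  · have e0 : nx k j = j + 1 := by rw [nx, if_neg hk']
    rw [e0]
    by_cases hj1 : j = 1
    · subst hj1
      have h5 := key 2 le_rfl (by omega)
      rw [Finset.Ico_self, Finset.sum_empty, if_pos rfl] at h5
      show q 1 + p 2 = 1
      omega
    · have h5 := key j (by omega) hjk
      have h6 := key (j + 1) (by omega) (by omega)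
      rw [Finset.sum_Ico_succ_top (by omega), h5] at h6
      have f5 : g j = if j % 2 = 0 then p j - q j else q j - p j := by
        simp only [hg]
        split_ifs <;> omega
      rw [f5] at h6
      split_ifs at h6 <;> omega

/-! ### The inequality -/

section law

variable {V : Type*} [Fintype V] {H : SimpleGraph V} {R : V → Bool} {k m : ℕ} {X Y : ℤ → V}
  {z c : ℕ → V}

/-- The chosen vertices of the chain. -/
noncomputable def TT (k : ℕ) (X Y : ℤ → V) (A B : ℕ → Bool) : Finset V :=
  ((Ico 1 (k + 1)).filter (fun i => A i = true)).image (fun i : ℕ => X i) ∪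
  ((Ico 1 (k + 1)).filter (fun i => B i = true)).image (fun i : ℕ => Y i)

lemma X_nx (h : CC H R k X Y) (i : ℕ) : X ((nx k i : ℕ) : ℤ) = X ((i : ℤ) + 1) := by
  unfold nx
  split_ifs with h1
  · subst h1
    rw [add_comm, h.perX]; rfl
  · push_cast; rfl

lemma Y_pv (h : CC H R k X Y) {i : ℕ} (hi : 1 ≤ i) : Y ((pv k i : ℕ) : ℤ) = Y ((i : ℤ) - 1) := by
  unfold pv
  split_ifs with h1
  · subst h1
    have := h.perY 0
    rw [zero_add] at this
    rw [this]; rfl
  · congr 1
    omega

lemma nx_mem {i : ℕ} (hk : 1 ≤ k) (h1 : 1 ≤ i) (h2 : i ≤ k) : 1 ≤ nx k i ∧ nx k i ≤ k := by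
  unfold nx; split_ifs <;> omega

lemma pv_mem {i : ℕ} (hk : 1 ≤ k) (h1 : 1 ≤ i) (h2 : i ≤ k) : 1 ≤ pv k i ∧ pv k i ≤ k := by
  unfold pv; split_ifs <;> omega

variable {A B : ℕ → Bool}

lemma X_mem (h : CC H R k X Y) {i : ℕ} (h1 : 1 ≤ i) (h2 : i ≤ k) :
    X (i : ℤ) ∈ TT k X Y A B ↔ A i = true := by
  unfold TT
  rw [mem_union, mem_image, mem_image]
  constructor
  · rintro (⟨j, hj, he⟩ | ⟨j, hj, he⟩)
    · rw [mem_filter, mem_Ico] at hj
      have := h.chn.injx j i hj.1.1 (by omega) h1 h2 he
      rw [← this]; exact hj.2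
    · exact absurd he.symm (h.xy _ _)
  · intro hA
    exact Or.inl ⟨i, by rw [mem_filter, mem_Ico]; exact ⟨⟨h1, by omega⟩, hA⟩, rfl⟩

lemma Y_mem (h : CC H R k X Y) {i : ℕ} (h1 : 1 ≤ i) (h2 : i ≤ k) :
    Y (i : ℤ) ∈ TT k X Y A B ↔ B i = true := by
  unfold TT
  rw [mem_union, mem_image, mem_image]
  constructor
  · rintro (⟨j, hj, he⟩ | ⟨j, hj, he⟩)
    · exact absurd he (h.xy _ _)
    · rw [mem_filter, mem_Ico] at hj
      have := h.chn.injy j i hj.1.1 (by omega) h1 h2 he
      rw [← this]; exact hj.2
  · intro hA
    exact Or.inr ⟨i, by rw [mem_filter, mem_Ico]; exact ⟨⟨h1, by omega⟩, hA⟩, rfl⟩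

lemma TT_inZ {v : V} (hv : v ∈ TT k X Y A B) : InZ X Y v := by
  unfold TT at hv
  rw [mem_union, mem_image, mem_image] at hv
  rcases hv with ⟨j, -, he⟩ | ⟨j, -, he⟩
  · exact ⟨j, Or.inl he.symm⟩
  · exact ⟨j, Or.inr he.symm⟩

lemma sum_TT (h : CC H R k X Y) (f : V → ℕ) : ∑ w ∈ TT k X Y A B, f w =
    ∑ i ∈ Ico 1 (k + 1), ((if A i = true then f (X i) else 0) + (if B i = true then f (Y i) else 0)) := by
  unfold TT
  rw [Finset.sum_union, Finset.sum_image, Finset.sum_image, Finset.sum_filter, Finset.sum_filter,
    ← Finset.sum_add_distrib]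
  · intro i hi j hj he
    simp only [coe_filter, mem_Ico, Set.mem_setOf_eq] at hi hj
    exact h.chn.injy i j hi.1.1 (by omega) hj.1.1 (by omega) he
  · intro i hi j hj he
    simp only [coe_filter, mem_Ico, Set.mem_setOf_eq] at hi hj
    exact h.chn.injx i j hi.1.1 (by omega) hj.1.1 (by omega) he
  · rw [Finset.disjoint_left]
    intro v hv hv'
    rw [mem_image] at hv hv'
    obtain ⟨i, -, hi⟩ := hv
    obtain ⟨j, -, hj⟩ := hv'
    exact h.xy _ _ (hi.trans hj.symm)

lemma card_TT (h : CC H R k X Y) : (TT k X Y A B).card =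
    ∑ i ∈ Ico 1 (k + 1), ((if A i = true then 1 else 0) + (if B i = true then 1 else 0)) := by
  rw [Finset.card_eq_sum_ones, sum_TT h]

lemma mm_TT (hG : ClassC H R) (h : CC H R k X Y) : mmS H R (TT k X Y A B) ≤
    ∑ i ∈ Ico 1 (k + 1), (if A i = true ∧ B i = true then 2 else 0) := by
  unfold mmS
  rw [sum_TT h]
  refine Finset.sum_le_sum fun i hi => ?_
  rw [mem_Ico] at hi
  have e1 : ((TT k X Y A B).filter (fun v => Me H R (X i) v)).card ≤ if B i = true then 1 else 0 := by
    split_ifs with hb
    · rw [Finset.card_le_one]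
      intro a ha b hb'
      rw [mem_filter] at ha hb'
      exact hG.matching ha.2 hb'.2
    · rw [Nat.le_zero, Finset.card_eq_zero, Finset.eq_empty_iff_forall_notMem]
      intro v hv
      rw [mem_filter] at hv
      have := hG.matching hv.2 (h.me i)
      rw [this, Y_mem h hi.1 (by omega)] at hv
      exact hb hv.1
  have e2 : ((TT k X Y A B).filter (fun v => Me H R (Y i) v)).card ≤ if A i = true then 1 else 0 := by
    split_ifs with hb
    · rw [Finset.card_le_one]
      intro a ha b hb'
      rw [mem_filter] at ha hb'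
      exact hG.matching ha.2 hb'.2
    · rw [Nat.le_zero, Finset.card_eq_zero, Finset.eq_empty_iff_forall_notMem]
      intro v hv
      rw [mem_filter] at hv
      have := hG.matching hv.2 (h.me i).symm
      rw [this, X_mem h hi.1 (by omega)] at hv
      exact hb hv.1
  by_cases ha : A i = true <;> by_cases hb : B i = true <;> simp only [ha, hb] at e1 e2 ⊢ <;>
    simp at e1 e2 ⊢ <;> omega

lemma ll_TT (h : CC H R k X Y) : ∑ i ∈ Ico 1 (k + 1),
      ((if A i = true then (if B (pv k i) = true then 1 else 0) else 0) +
        (if B i = true then (if A (nx k i) = true then 1 else 0) else 0)) ≤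
    llS H R (TT k X Y A B) := by
  have hk := h.k2
  unfold llS
  rw [sum_TT h]
  refine Finset.sum_le_sum fun i hi => ?_
  rw [mem_Ico] at hi
  have m1 := pv_mem (k := k) (by omega) hi.1 (by omega)
  have m2 := nx_mem (k := k) (by omega) hi.1 (by omega)
  have e1 : (if B (pv k i) = true then 1 else 0) ≤
      ((TT k X Y A B).filter (fun v => He H R (X i) v)).card := by
    split_ifs with hb
    · refine Finset.card_pos.2 ⟨Y ((pv k i : ℕ) : ℤ), ?_⟩
      rw [mem_filter]
      refine ⟨(Y_mem h m1.1 m1.2).2 hb, ?_⟩
      rw [Y_pv h hi.1]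
      have := (h.lk ((i : ℤ) - 1)).symm
      rw [sub_add_cancel] at this
      exact this.1
    · exact Nat.zero_le _
  have e2 : (if A (nx k i) = true then 1 else 0) ≤
      ((TT k X Y A B).filter (fun v => He H R (Y i) v)).card := by
    split_ifs with hb
    · refine Finset.card_pos.2 ⟨X ((nx k i : ℕ) : ℤ), ?_⟩
      rw [mem_filter]
      refine ⟨(X_mem h m2.1 m2.2).2 hb, ?_⟩
      rw [X_nx h]
      exact (h.lk (i : ℤ)).1
    · exact Nat.zero_le _
  refine add_le_add ?_ ?_
  · by_cases ha : A i = true
    · rw [if_pos ha, if_pos ha]; exact e1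
    · rw [if_neg ha, if_neg ha]
  · by_cases ha : B i = true
    · rw [if_pos ha, if_pos ha]; exact e2
    · rw [if_neg ha, if_neg ha]

lemma eU_prt (hcat : Cat H R m z c) (v : V) : (if Prt m c v then 1 else 0) ≤ eU H (zs m z) v := by
  split_ifs with hp
  · obtain ⟨j, hj, rfl⟩ := hp
    unfold eU
    refine Finset.card_pos.2 ⟨z (cl m j), ?_⟩
    rw [mem_filter, mem_zs]
    have := cl_mem hcat.pos hj
    exact ⟨⟨cl m j, this.1, this.2, rfl⟩, cat_adj_cl hcat hj⟩
  · exact Nat.zero_le _

lemma eU_TT (h : CC H R k X Y) (hcat : Cat H R m z c) : ∑ i ∈ Ico 1 (k + 1),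
      ((if A i = true then (if Prt m c (X i) then 1 else 0) else 0) +
        (if B i = true then (if Prt m c (Y i) then 1 else 0) else 0)) ≤
    ∑ w ∈ TT k X Y A B, eU H (zs m z) w := by
  rw [sum_TT h]
  refine Finset.sum_le_sum fun i _ => ?_
  refine add_le_add ?_ ?_
  · by_cases ha : A i = true
    · rw [if_pos ha, if_pos ha]; exact eU_prt hcat _
    · rw [if_neg ha, if_neg ha]
  · by_cases ha : B i = true
    · rw [if_pos ha, if_pos ha]; exact eU_prt hcat _
    · rw [if_neg ha, if_neg ha]

/-- The number of ports in the chain. -/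
lemma ports_le (hG : ClassC H R) (h : CC H R k X Y) (hcat : Cat H R m z c) :
    ((range (m + 2)).filter (fun j => InZ X Y (c j))).card ≤ ∑ i ∈ Ico 1 (k + 1),
      ((if Prt m c (X i) then 1 else 0) + (if Prt m c (Y i) then 1 else 0)) := by
  have e0 : ∑ w ∈ TT k X Y (fun _ => true) (fun _ => true), (if Prt m c w then 1 else 0) =
      ∑ i ∈ Ico 1 (k + 1), ((if Prt m c (X i) then 1 else 0) + (if Prt m c (Y i) then 1 else 0)) := by
    rw [sum_TT h]
    simp only [if_true]
  rw [← e0, Finset.sum_boole, Nat.cast_id]
  refine Finset.card_le_card_of_injOn c ?_ ?_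
  · intro j hj
    simp only [coe_filter, mem_range, Set.mem_setOf_eq] at hj
    simp only [coe_filter, Set.mem_setOf_eq]
    refine ⟨?_, j, by omega, rfl⟩
    obtain ⟨i, hi⟩ := hj.2
    obtain ⟨n, h1, h2, h3⟩ := h.repr i
    have e := h.eqX h3
    rcases hi with hi | hi
    · rw [hi, e.1]; exact (X_mem h h1 h2).2 rfl
    · rw [hi, e.2]; exact (Y_mem h h1 h2).2 rfl
  · intro i hi j hj he
    simp only [coe_filter, mem_range, Set.mem_setOf_eq] at hi hj
    exact h.port_inj hG hcat (by omega) (by omega) hi.2 he

theorem law (hG : ClassC H R) (h : CC H R k X Y) (hcat : Cat H R m z c)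
    (hout : OutI H R m z c X Y) (A B : ℕ → Bool) : ∑ i ∈ Ico 1 (k + 1),
    ctr k (fun i => if Prt m c (X i) then 1 else 0) (fun i => if Prt m c (Y i) then 1 else 0) A B i
      ≤ 0 := by
  obtain ⟨O, hO, hOut⟩ := hout
  set T := TT k X Y A B with hT
  have hd : Disjoint T O := by
    rw [Finset.disjoint_left]
    intro v hv hv'
    exact (hO v hv').2 (TT_inZ hv)
  have key := rlaw_sets hG (zs m z) (T ∪ O) (zs_unc hcat) (fun w hw => by
    rw [mem_union] at hw
    rcases hw with hw | hw
    · exact h.cov (TT_inZ hw)
    · exact (hO w hw).1)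
  rw [Finset.card_union_of_disjoint hd, Finset.sum_union hd, zs_card hcat] at key
  have k1 : llS H R T + llS H R O ≤ llS H R (T ∪ O) := by
    unfold llS
    rw [Finset.sum_union hd]
    refine add_le_add (Finset.sum_le_sum fun w _ => Finset.card_le_card ?_)
      (Finset.sum_le_sum fun w _ => Finset.card_le_card ?_)
    · exact Finset.filter_subset_filter _ Finset.subset_union_left
    · exact Finset.filter_subset_filter _ Finset.subset_union_right
  have k2 : mmS H R (T ∪ O) ≤ mmS H R T + mmS H R O := by
    unfold mmS
    rw [Finset.sum_union hd]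
    refine add_le_add (Finset.sum_le_sum fun w hw => Finset.card_le_card ?_)
      (Finset.sum_le_sum fun w hw => Finset.card_le_card ?_)
    · intro v hv
      rw [mem_filter, mem_union] at hv
      rw [mem_filter]
      refine ⟨hv.1.resolve_right fun hv' => ?_, hv.2⟩
      exact (hO v hv').2 (h.adj hG (TT_inZ hw) hv.2.cov' hv.2.1)
    · intro v hv
      rw [mem_filter, mem_union] at hv
      rw [mem_filter]
      refine ⟨hv.1.resolve_left fun hv' => ?_, hv.2⟩
      exact (hO w hw).2 (h.adj hG (TT_inZ hv') hv.2.cov hv.2.1.symm)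
  have k3 := uuS_cat hcat
  have hm := hcat.pos
  have k4 : ((range (m + 2)).filter (fun j => InZ X Y (c j))).card
      + ((range (m + 2)).filter (fun j => ¬ InZ X Y (c j))).card = m + 2 := by
    rw [Finset.card_filter_add_card_filter_not, card_range]
  have k5 := ports_le hG h hcat
  have k6 := eU_TT (A := A) (B := B) h hcat
  have k7 := ll_TT (A := A) (B := B) h
  have k8 := mm_TT (A := A) (B := B) hG h
  have k9 := card_TT (A := A) (B := B) h
  rw [← hT] at k6 k7 k8 k9
  have fin : ∑ i ∈ Ico 1 (k + 1),
      ((if A i = true then (if B (pv k i) = true then 1 else 0) else 0) +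
        (if B i = true then (if A (nx k i) = true then 1 else 0) else 0)) +
      2 * ∑ i ∈ Ico 1 (k + 1),
      ((if A i = true then (if Prt m c (X i) then 1 else 0) else 0) +
        (if B i = true then (if Prt m c (Y i) then 1 else 0) else 0)) ≤
      ∑ i ∈ Ico 1 (k + 1),
      ((if Prt m c (X i) then 1 else 0) + (if Prt m c (Y i) then 1 else 0)) +
      ∑ i ∈ Ico 1 (k + 1), ((if A i = true then 1 else 0) + (if B i = true then 1 else 0)) +
      ∑ i ∈ Ico 1 (k + 1), (if A i = true ∧ B i = true then 2 else 0) := by
    omega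
  have fin' : ((∑ i ∈ Ico 1 (k + 1),
      ((if A i = true then (if B (pv k i) = true then 1 else 0) else 0) +
        (if B i = true then (if A (nx k i) = true then 1 else 0) else 0)) +
      2 * ∑ i ∈ Ico 1 (k + 1),
      ((if A i = true then (if Prt m c (X i) then 1 else 0) else 0) +
        (if B i = true then (if Prt m c (Y i) then 1 else 0) else 0)) : ℕ) : ℤ) ≤
      ((∑ i ∈ Ico 1 (k + 1),
      ((if Prt m c (X i) then 1 else 0) + (if Prt m c (Y i) then 1 else 0)) +
      ∑ i ∈ Ico 1 (k + 1), ((if A i = true then 1 else 0) + (if B i = true then 1 else 0)) +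
      ∑ i ∈ Ico 1 (k + 1), (if A i = true ∧ B i = true then 2 else 0) : ℕ) : ℤ) := by
    exact_mod_cast fin
  rw [← sub_nonpos] at fin'
  refine le_trans (le_of_eq ?_) fin'
  push_cast
  rw [Finset.mul_sum, ← Finset.sum_add_distrib, ← Finset.sum_add_distrib, ← Finset.sum_add_distrib,
    ← Finset.sum_sub_distrib]
  refine Finset.sum_congr rfl fun i _ => ?_
  unfold ctr
  by_cases ha : A i = true <;> by_cases hb : B i = true <;> by_cases hp : Prt m c (X i) <;>
    by_cases hq : Prt m c (Y i) <;> simp [ha, hb, hp, hq] <;> ring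

end law

lemma ite01 (p : Prop) : (if p then (1 : ℤ) else 0) = 0 ∨ (if p then (1 : ℤ) else 0) = 1 := by
  by_cases hp : p
  · rw [if_pos hp]; exact Or.inr rfl
  · rw [if_neg hp]; exact Or.inl rfl

lemma ite_iff {p q : Prop} (h : (if p then (1 : ℤ) else 0) + (if q then (1 : ℤ) else 0) = 1) :
    p ↔ ¬ q := by
  by_cases hp : p <;> by_cases hq : q
  · rw [if_pos hp, if_pos hq] at h; omega
  · exact ⟨fun _ => hq, fun _ => hp⟩
  · exact ⟨fun h => absurd h hp, fun h => absurd hq h⟩
  · rw [if_neg hp, if_neg hq] at h; omega

section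

variable {V : Type*} [Fintype V] {H : SimpleGraph V} {R : V → Bool} {k m : ℕ} {X Y : ℤ → V}
  {z c : ℕ → V}

theorem full1 (hG : ClassC H R) (h : CC H R k X Y) (hk : 4 ≤ k) (hcat : Cat H R m z c)
    (hout : OutI H R m z c X Y) (hY : Prt m c (Y 1)) (hX : ¬ Prt m c (X 1)) (n : ℕ) (h1 : 1 ≤ n)
    (h2 : n ≤ k) : Prt m c (Y n) ↔ ¬ Prt m c (X ((n : ℤ) + 1)) := by
  have hlaw := law hG h hcat hout
  have hpure := pure k hk h.even _ _ (fun j => ite01 _) (fun j => ite01 _) hlaw (if_neg hX)
    (if_pos hY) n h1 h2
  rw [← X_nx h n]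
  exact ite_iff hpure

end

theorem full : FullH := by
  intro V _ H R k X Y hG h hk m z c hcat hout i hY hX j
  have hs := h.shift (i - 1)
  have hout' : OutI H R m z c (fun j => X (j + (i - 1))) (fun j => Y (j + (i - 1))) := by
    unfold OutI at hout ⊢
    simpa only [inZ_shift] using hout
  obtain ⟨n, h1, h2, h3⟩ := h.repr (j - (i - 1))
  have key := full1 hG hs hk hcat hout'
    (by
      show Prt m c (Y (1 + (i - 1)))
      rw [show (1 : ℤ) + (i - 1) = i by ring]; exact hY)
    (by
      show ¬ Prt m c (X (1 + (i - 1)))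
      rw [show (1 : ℤ) + (i - 1) = i by ring]; exact hX) n h1 h2
  have e1 : Y j = Y ((n : ℤ) + (i - 1)) := (h.eqX (by
    rw [show j - ((n : ℤ) + (i - 1)) = j - (i - 1) - n by ring]; exact h3)).2
  have e2 : X (j + 1) = X ((n : ℤ) + 1 + (i - 1)) := (h.eqX (by
    rw [show j + 1 - ((n : ℤ) + 1 + (i - 1)) = j - (i - 1) - n by ring]; exact h3)).1
  rw [e1, e2]
  exact key

end CLB.H86
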