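import Pool.Agent.Helper86_DA.K6

/-!
Two units whose four vertices are ports of one caterpillar: relabelling.
-/

set_option autoImplicit false
set_option linter.unusedSectionVars false

namespace CLB.H86

open Finset Classical
open H3DA (Q neg nr)
open CLB.H95
open CLB.H3 (CExt Cat IsTwo KTight exists_ktight no_cext fits_other mates_dist pos one_le_pos
  pos_le pos_mid pos_zero pos_one pos_last)

variable {V : Type} [Fintype V] {H : SimpleGraph V} {R : V → Bool} {k : ℕ} {X Y : ℤ → V}
  {m : ℕ} {z c : ℕ → V}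

namespace S7

/-- New labels at two units. -/
noncomputable def sw2 (X Y : ℤ → V) (i : ℤ) (f : V → Q) (t u : Q) (v : V) : Q :=
  if v = X i then neg t else if v = Y i then t else if v = X (i + 2) then neg u
  else if v = Y (i + 2) then u else f v

/-- The four vertices. -/
def Fr (X Y : ℤ → V) (i : ℤ) (v : V) : Prop := v = X i ∨ v = Y i ∨ v = X (i + 2) ∨ v = Y (i + 2)

lemma sw_out {i : ℤ} {f : V → Q} {t u : Q} {v : V} (h : ¬ Fr X Y i v) : sw2 X Y i f t u v = f v := by
  unfold Fr at h
  push Not at h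
  unfold sw2
  rw [if_neg h.1, if_neg h.2.1, if_neg h.2.2.1, if_neg h.2.2.2]

section
variable (cc : CC H R k X Y) (hk : 4 ≤ k) (i : ℤ) (f : V → Q) (t u : Q)
include cc hk

lemma sw_x : sw2 X Y i f t u (X i) = neg t := by
  unfold sw2; rw [if_pos rfl]

lemma sw_y : sw2 X Y i f t u (Y i) = t := by
  unfold sw2; rw [if_neg (cc.xy _ _).symm, if_pos rfl]

lemma sw_x2 : sw2 X Y i f t u (X (i + 2)) = neg u := by
  unfold sw2
  rw [if_neg (cc.neX (by omega) (by omega)).symm, if_neg (cc.xy _ _), if_pos rfl]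

lemma sw_y2 : sw2 X Y i f t u (Y (i + 2)) = u := by
  unfold sw2
  rw [if_neg (cc.xy _ _).symm, if_neg (cc.neY (by omega) (by omega)).symm, if_neg (cc.xy _ _).symm,
    if_pos rfl]

end

/-- A port in the chain is not seen by a vertex of degree two. -/
lemma prt_not_two (hG : ClassC H R) (cc : CC H R k X Y) (hcat : Cat H R m z c) {v a b : V}
    (hT : IsTwo H R v a b) (ha : InZ X Y a) (hp : Prt m c a) : False := by
  obtain ⟨j, hj, e⟩ := hp
  have a1 := cl_mem hcat.pos hj
  have a2 := (cat_adj_cl hcat hj)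
  rw [e] at a2
  have := cc.unc_unique hG ha hT.2.1.symm a2 hT.1 (hcat.unc _ a1.1 a1.2)
  rw [this] at hT
  exact isTwo_not_cat hcat a1.1 a1.2 hT

/-- Relabelling of the units `i`, `i + 2`, all of whose vertices are ports of the caterpillar. -/
theorem move2 (hG : ClassC H R) (hc : Crit H R) (cc : CC H R k X Y) (hk : 4 ≤ k)
    (hcat : Cat H R m z c) {i : ℤ} (hp : ∀ v, Fr X Y i v → Prt m c v) {f : V → Q}
    (hf : ∀ u v, H.Adj u v → ¬ (u ∈ cSupp m z ∧ v ∈ cSupp m z) → okE R f u v)
    {t u : Q} (h1 : nr (f (X (i - 1))) t = true) (h2 : nr t (f (X (i + 1))) = true)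
    (h3 : nr (f (X (i + 1))) u = true) (h4 : nr u (f (X (i + 3))) = true) :
    ¬ CExt m (fun j => sw2 X Y i f t u (c j)) := by
  obtain ⟨f1, f2, f3, f4⟩ := fits_other hcat hf
  have hin : ∀ v, Fr X Y i v → InZ X Y v := by
    rintro v (rfl | rfl | rfl | rfl)
    · exact inZ_X X Y _
    · exact inZ_Y X Y _
    · exact inZ_X X Y _
    · exact inZ_Y X Y _
  have gx := sw_x cc hk i f t u
  have gy := sw_y cc hk i f t u
  have gx2 := sw_x2 cc hk i f t u
  have gy2 := sw_y2 cc hk i f t u
  have hx : X i ≠ X (i + 2) := cc.neX (by omega) (by omega)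
  have hy : Y i ≠ Y (i + 2) := cc.neY (by omega) (by omega)
  refine no_cext hG hc hcat (f := sw2 X Y i f t u) ?_ ?_ ?_ ?_
  · intro a b hab
    by_cases ha : Fr X Y i a
    · rcases ha with rfl | rfl | rfl | rfl
      · rw [hG.matching hab (cc.me i), gx, gy, H3DA.neg_neg]
      · rw [hG.matching hab (cc.me i).symm, gx, gy]
      · rw [hG.matching hab (cc.me (i + 2)), gx2, gy2, H3DA.neg_neg]
      · rw [hG.matching hab (cc.me (i + 2)).symm, gx2, gy2]
    · have hb : ¬ Fr X Y i b := by
        rintro (rfl | rfl | rfl | rfl)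
        · exact ha (Or.inr (Or.inl (hG.matching hab.symm (cc.me i))))
        · exact ha (Or.inl (hG.matching hab.symm (cc.me i).symm))
        · exact ha (Or.inr (Or.inr (Or.inr (hG.matching hab.symm (cc.me (i + 2))))))
        · exact ha (Or.inr (Or.inr (Or.inl (hG.matching hab.symm (cc.me (i + 2)).symm))))
      rw [sw_out ha, sw_out hb]
      exact f1 a b hab
  · have n0 : ¬ Fr X Y i (Y (i - 1)) := by
      rintro (h | h | h | h)
      · exact cc.xy _ _ h.symm
      · exact cc.neY (by omega) (by omega) h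
      · exact cc.xy _ _ h.symm
      · exact cc.neY (by omega) (by omega) h
    have n1 : ¬ Fr X Y i (X (i + 1)) := by
      rintro (h | h | h | h)
      · exact cc.neX (by omega) (by omega) h.symm
      · exact cc.xy _ _ h
      · exact cc.neX (by omega) (by omega) h
      · exact cc.xy _ _ h
    have n2 : ¬ Fr X Y i (Y (i + 1)) := by
      rintro (h | h | h | h)
      · exact cc.xy _ _ h.symm
      · exact cc.neY (by omega) (by omega) h.symm
      · exact cc.xy _ _ h.symm
      · exact cc.neY (by omega) (by omega) h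
    have n3 : ¬ Fr X Y i (X (i + 3)) := by
      rintro (h | h | h | h)
      · exact cc.neX (by omega) (by omega) h.symm
      · exact cc.xy _ _ h
      · exact cc.neX (by omega) (by omega) h.symm
      · exact cc.xy _ _ h
    have m0 : f (Y (i - 1)) = neg (f (X (i - 1))) := f1 _ _ (cc.me _)
    have m1 : f (Y (i + 1)) = neg (f (X (i + 1))) := f1 _ _ (cc.me _)
    have key : ∀ a b, Lk H R a b → Fr X Y i a →
        nr (sw2 X Y i f t u a) (sw2 X Y i f t u b) = true := by
      rintro a b hab (rfl | rfl | rfl | rfl)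
      · have e : Lk H R (X i) (Y (i - 1)) := by
          have := (cc.lk (i - 1)).symm
          rwa [sub_add_cancel] at this
        rw [hab.unique hG e, gx, sw_out n0, m0]
        rw [nr_neg, nr_neg', H3DA.nr_comm, h1]
        rfl
      · rw [hab.unique hG (cc.lk i), gy, sw_out n1]
        exact h2
      · have e : Lk H R (X (i + 2)) (Y (i + 1)) := by
          have := (cc.lk (i + 1)).symm
          rwa [show i + 1 + 1 = i + 2 by ring] at this
        rw [hab.unique hG e, gx2, sw_out n2, m1]
        rw [nr_neg, nr_neg', H3DA.nr_comm, h3]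
        rfl
      · have e : Lk H R (Y (i + 2)) (X (i + 3)) := by
          have := cc.lk (i + 2)
          rwa [show i + 2 + 1 = i + 3 by ring] at this
        rw [hab.unique hG e, gy2, sw_out n3]
        exact h4
    intro a b hab
    by_cases ha : Fr X Y i a
    · exact key a b hab ha
    · by_cases hb : Fr X Y i b
      · exact nr_symm (key b a hab.symm hb)
      · rw [sw_out ha, sw_out hb]
        exact f2 a b hab
  · intro v a b hT
    have ha : ¬ Fr X Y i a := fun h => prt_not_two hG cc hcat hT (hin a h) (hp a h)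
    have hb : ¬ Fr X Y i b := fun h => prt_not_two hG cc hcat (isTwo_symm hT) (hin b h) (hp b h)
    rw [sw_out ha, sw_out hb]
    exact f3 v a b hT
  · intro m' z' c' hC hd
    refine (f4 m' z' c' hC hd).congr hC.pos (fun l hl => ?_)
    show f (c' l) = sw2 X Y i f t u (c' l)
    have hn : ¬ Fr X Y i (c' l) := by
      intro h
      have e := cc.port_comp hG hcat hC (hin _ h) (hp _ h) ⟨l, hl, rfl⟩
      have h1 : z 1 ∈ cSupp m z := mem_cSupp le_rfl hcat.pos
      exact hd _ h1 (e ▸ h1)
    rw [sw_out hn]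

lemma key_sw : ∀ (D : Ty) (a b s : Q), frk D a (neg b) = true → stp D (neg (neg b)) s = true →
    nr b s = true ∧ nr (neg a) s = true := by decide +kernel

lemma lk_pred (cc : CC H R k X Y) (i : ℤ) : Lk H R (Y (i - 1)) (X i) := by
  have := cc.lk (i - 1)
  rwa [sub_add_cancel] at this

/-- The mate of the first port is an inner port. -/
theorem swap_inner (hG : ClassC H R) (hc : Crit H R) (cc : CC H R k X Y) (hk : 4 ≤ k)
    (hcat : Cat H R m z c) {i : ℤ} (e0 : c 0 = Y i) (e1 : c 1 = X (i + 2)) {p q : ℕ} (hp : 2 ≤ p)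
    (hpm : p + 1 ≤ m) (hcp : c p = X i) (hq : q ≤ m + 1) (hcq : c q = Y (i + 2)) : False := by
  have hm := hcat.pos
  have c0 : pos m 0 = 1 := pos_zero
  have c1 : pos m 1 = 1 := pos_one hm
  have cp : pos m p = p := pos_mid (by omega) (by omega)
  have d1 := mates_dist hG hc hcat (i := 0) (j := p) (by omega) (by omega)
    (by rw [e0, hcp]; exact (cc.me i).symm)
  have d2 := mates_dist hG hc hcat (i := 1) (j := q) (by omega) hq
    (by rw [e1, hcq]; exact cc.me (i + 2))
  rw [c0, cp] at d1
  rw [c1] at d2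
  have hp5 : 5 ≤ p := by omega
  have hq5 : 5 ≤ pos m q := by omega
  have hqq : 5 ≤ q := by
    unfold CLB.H3.pos at hq5
    split_ifs at hq5 <;> omega
  have inj : ∀ j j', j ≤ m + 1 → j' ≤ m + 1 → InZ X Y (c j') → c j = c j' → j = j' := by
    intro j j' hj hj' h1 h2
    exact (cc.port_inj hG hcat hj' hj h1 h2.symm).symm
  obtain ⟨f, D, hK⟩ := exists_ktight hG hc hcat (by omega)
  obtain ⟨f1, f2, f3, f4⟩ := fits_other hcat hK.ok
  -- the labels
  have m0 : f (Y (i - 1)) = neg (f (X (i - 1))) := f1 _ _ (cc.me _)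
  have m1 : f (X i) = neg (f (Y i)) := f1 _ _ (cc.me _).symm
  have m2 : f (Y (i + 1)) = neg (f (X (i + 1))) := f1 _ _ (cc.me _)
  have m3 : f (X (i + 2)) = neg (f (Y (i + 2))) := f1 _ _ (cc.me _).symm
  have l0 := f2 _ _ (lk_pred cc i)
  have l1 := f2 _ _ (cc.lk i)
  have l2 := f2 _ _ (cc.lk (i + 1))
  have l3 := f2 _ _ (cc.lk (i + 2))
  rw [show i + 1 + 1 = i + 2 by ring] at l2
  rw [show i + 2 + 1 = i + 3 by ring] at l3
  rw [m0, m1, nr_neg, nr_neg', Bool.not_not] at l0
  rw [m2, m3, nr_neg, nr_neg', Bool.not_not] at l2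
  generalize hT0 : f (X (i - 1)) = t0 at *
  generalize hT1 : f (Y i) = t1 at *
  generalize hT2 : f (X (i + 1)) = t2 at *
  generalize hT3 : f (Y (i + 2)) = t3 at *
  generalize hT4 : f (X (i + 3)) = t4 at *
  have hT : Tight D (fun j => f (c j)) m := hK.tight
  have hfr : ∀ v, Fr X Y i v → Prt m c v := by
    rintro v (rfl | rfl | rfl | rfl)
    · exact ⟨p, by omega, hcp⟩
    · exact ⟨0, by omega, e0⟩
    · exact ⟨1, by omega, e1⟩
    · exact ⟨q, hq, hcq⟩
  have mv : ∀ t u, nr t0 t = true → nr t t2 = true → nr t2 u = true → nr u t4 = true →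
      ¬ CExt m (fun j => sw2 X Y i f t u (c j)) := by
    intro t u h1 h2 h3 h4
    exact move2 hG hc cc hk hcat hfr hK.ok (by rw [hT0]; exact h1) (by rw [hT2]; exact h2)
      (by rw [hT2]; exact h3) (by rw [hT4]; exact h4)
  -- the values at the ports
  have vo : ∀ t u j, j ≤ m + 1 → j ≠ 0 → j ≠ 1 → j ≠ p → j ≠ q → sw2 X Y i f t u (c j) = f (c j) := by
    intro t u j hj n0 n1 np nq
    refine sw_out (fun h => ?_)
    rcases h with h | h | h | h
    · exact np (inj j p hj (by omega) (by rw [hcp]; exact inZ_X X Y _) (h.trans hcp.symm))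
    · exact n0 (inj j 0 hj (by omega) (by rw [e0]; exact inZ_Y X Y _) (h.trans e0.symm))
    · exact n1 (inj j 1 hj (by omega) (by rw [e1]; exact inZ_X X Y _) (h.trans e1.symm))
    · exact nq (inj j q hj hq (by rw [hcq]; exact inZ_Y X Y _) (h.trans hcq.symm))
  have v0 : ∀ t u, sw2 X Y i f t u (c 0) = t := fun t u => by rw [e0]; exact sw_y cc hk i f t u
  have v1 : ∀ t u, sw2 X Y i f t u (c 1) = neg u := fun t u => by rw [e1]; exact sw_x2 cc hk i f t u
  have vp : ∀ t u, sw2 X Y i f t u (c p) = neg t := fun t u => by rw [hcp]; exact sw_x cc hk i f t u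
  have vq : ∀ t u, sw2 X Y i f t u (c q) = u := fun t u => by rw [hcq]; exact sw_y2 cc hk i f t u
  have s0 : f (c 0) = t1 := by rw [e0, hT1]
  have s1 : f (c 1) = neg t3 := by rw [e1, m3]
  have sp : f (c p) = neg t1 := by rw [hcp, m1]
  have sq : f (c q) = t3 := by rw [hcq, hT3]
  have hpq : p ≠ q := by
    rintro rfl
    exact cc.xy _ _ (hcp.symm.trans hcq)
  -- first step
  have step1 : nr t0 t3 = true := by
    by_contra hno
    have hb := ball_inter_card t0 t2 (H3DA.nr_common (nr_symm l0) l1)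
    obtain ⟨t, ht, htne⟩ := Finset.exists_mem_ne (show 1 < (ball t0 ∩ ball t2).card by omega) t1
    rw [mem_inter, mem_ball, mem_ball] at ht
    have h3 : t ≠ t3 := by
      rintro rfl
      exact hno ht.1
    have eq : ∀ j, j ≤ m + 1 → j ≠ 0 → j ≠ p → sw2 X Y i f t t3 (c j) = f (c j) := by
      intro j hj n0 np
      by_cases n1 : j = 1
      · subst n1; rw [v1, s1]
      · by_cases nq : j = q
        · subst nq; rw [vq, sq]
        · exact vo _ _ j hj n0 n1 np nq
    refine mv t t3 ht.1 (nr_symm ht.2) l2 l3 ?_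
    rw [cext_iff hm]
    refine ⟨?_, ?_, fun D' hD' => ?_⟩
    · show sw2 X Y i f t t3 (c 0) ≠ neg (sw2 X Y i f t t3 (c 1))
      rw [v0, v1, H3DA.neg_neg]
      exact h3
    · show sw2 X Y i f t t3 (c m) ≠ neg (sw2 X Y i f t t3 (c (m + 1)))
      rw [eq m (by omega) (by omega) (by omega), eq (m + 1) le_rfl (by omega) (by omega)]
      exact (frk_ne _ _ _ hT.2.2).2
    · have hDD : D' = D := type_far hD' hT (eq m (by omega) (by omega) (by omega))
        (eq (m + 1) le_rfl (by omega) (by omega))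
      subst hDD
      have key := label_inner hD' hT hp hpm (eq (p - 1) (by omega) (by omega) (by omega))
        (eq (p + 1) (by omega) (by omega) (by omega))
      have key' : sw2 X Y i f t t3 (c p) = f (c p) := key
      rw [vp, sp] at key'
      exact htne (H3DA.neg_inj key')
  -- second step
  have hb := ball_inter_card t2 t4 (H3DA.nr_common (nr_symm l2) l3)
  obtain ⟨o, ho, hone⟩ := Finset.exists_mem_ne (show 1 < (ball t2 ∩ ball t4).card by omega) t3
  rw [mem_inter, mem_ball, mem_ball] at ho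
  refine mv t3 o step1 (nr_symm l2) ho.1 (nr_symm ho.2) ?_
  rw [cext_iff hm]
  refine ⟨?_, ?_, fun D' hD' => ?_⟩
  · show sw2 X Y i f t3 o (c 0) ≠ neg (sw2 X Y i f t3 o (c 1))
    rw [v0, v1, H3DA.neg_neg]
    exact hone.symm
  · show sw2 X Y i f t3 o (c m) ≠ neg (sw2 X Y i f t3 o (c (m + 1)))
    have hnear : frk D (f (c 0)) (f (c 1)) = true := hT.1
    rw [s0, s1, frk_symm] at hnear
    have hpar : pos m q = m → altT D (m + 1) = co D := by
      intro h
      unfold altT; rw [if_neg (by omega)]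
    have hfar : frk (altT D (m + 1)) (f (c m)) (f (c (m + 1))) = true := hT.2.2
    by_cases hq1 : q = m
    · have ea := hpar (by rw [hq1]; exact pos_mid (by omega) le_rfl)
      have g1 : f (c m) = t3 := by rw [← hq1]; exact sq
      rw [ea, g1] at hfar
      have g2 : f (c (m + 1)) = t1 := ml_key D (neg t3) t1 _ hnear (by rw [H3DA.neg_neg]; exact hfar)
      have g3 : sw2 X Y i f t3 o (c m) = o := by rw [← hq1]; exact vq _ _
      rw [g3, vo _ _ (m + 1) le_rfl (by omega) (by omega) (by omega) (by omega), g2]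
      exact H3DA.nr_common ho.1 (nr_symm l1)
    · by_cases hq2 : q = m + 1
      · have ea := hpar (by rw [hq2]; exact pos_last)
        have g1 : f (c (m + 1)) = t3 := by rw [← hq2]; exact sq
        rw [ea, g1, frk_symm] at hfar
        have g2 : f (c m) = t1 := ml_key D (neg t3) t1 _ hnear (by rw [H3DA.neg_neg]; exact hfar)
        have g3 : sw2 X Y i f t3 o (c (m + 1)) = o := by rw [← hq2]; exact vq _ _
        rw [g3, vo _ _ m (by omega) (by omega) (by omega) (by omega) (by omega), g2]
        exact H3DA.nr_common (nr_symm l1) ho.1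
      · rw [vo _ _ m (by omega) (by omega) (by omega) (by omega) (by omega),
          vo _ _ (m + 1) le_rfl (by omega) (by omega) (by omega) (by omega)]
        exact (frk_ne _ _ _ hfar).2
  · have a1 : frk D' (sw2 X Y i f t3 o (c 0)) (sw2 X Y i f t3 o (c 1)) = true := hD'.1
    have a2 : stp (altT D' 1) (neg (sw2 X Y i f t3 o (c 1))) (sw2 X Y i f t3 o (c (1 + 1))) = true :=
      hD'.2.1 1 le_rfl (by omega)
    have b1 : frk D (f (c 0)) (f (c 1)) = true := hT.1
    have b2 : stp (altT D 1) (neg (f (c 1))) (f (c (1 + 1))) = true := hT.2.1 1 le_rfl (by omega)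
    rw [altT_one, vo _ _ (1 + 1) (by omega) (by omega) (by omega) (by omega) (by omega)] at a2
    rw [altT_one] at b2
    rw [v0, v1] at a1
    rw [v1] at a2
    rw [s0, s1] at b1
    rw [s1] at b2
    have k1 := (key_sw _ _ _ _ a1 a2).2
    have k2 := (key_sw _ _ _ _ b1 b2).1
    rw [nr_neg, k2] at k1
    exact absurd k1 (by decide)

end S7

open S7 in
/-- **Module S7.** -/
theorem swapT : SwapH := by
  intro V _ H R k X Y hG hc cc hk m z c hcat i e0 e1 hpx hpy
  have hm := hcat.pos
  obtain ⟨p, hp, hcp⟩ := hpx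
  obtain ⟨q, hq, hcq⟩ := hpy
  have hp0 : p ≠ 0 := by rintro rfl; exact cc.xy _ _ (hcp.symm.trans e0)
  have hp1 : p ≠ 1 := by
    rintro rfl
    exact cc.neX (i := i) (j := i + 2) (by omega) (by omega) (hcp.symm.trans e1)
  have hq1 : q ≠ 1 := by rintro rfl; exact cc.xy _ _ (e1.symm.trans hcq)
  have hq0 : q ≠ 0 := by
    rintro rfl
    exact cc.neY (i := i) (j := i + 2) (by omega) (by omega) (e0.symm.trans hcq)
  have d1 := mates_dist hG hc hcat (i := 0) (j := p) (by omega) hp
    (by rw [e0, hcp]; exact (cc.me i).symm)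
  have d2 := mates_dist hG hc hcat (i := 1) (j := q) (by omega) hq
    (by rw [e1, hcq]; exact cc.me (i + 2))
  have c0 : pos m 0 = 1 := pos_zero
  have c1 : pos m 1 = 1 := pos_one hm
  rw [c0] at d1
  rw [c1] at d2
  have hm5 : 5 ≤ m := by
    have h1 := pos_le hm hp
    have h2 := one_le_pos (m := m) (j := p) hm
    omega
  by_cases h1 : p + 1 ≤ m
  · exact swap_inner hG hc cc hk hcat e0 e1 (by omega) h1 hcp hq hcq
  by_cases h2 : q + 1 ≤ m
  · have hs : ∀ j, 2 ≤ j → c (swL j) = c j := fun j hj => by rw [swL_of hj]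
    refine swap_inner hG hc cc.mir hk (cat_sw hcat (by omega)) (i := -(i + 2)) (p := q) (q := p)
      ?_ ?_ (by omega) h2 ?_ hp ?_
    · show c (swL 0) = X (- -(i + 2))
      rw [_root_.neg_neg]; exact e1
    · show c (swL 1) = Y (-(-(i + 2) + 2))
      rw [show -(-(i + 2) + 2) = i by ring]; exact e0
    · show c (swL q) = Y (- -(i + 2))
      rw [_root_.neg_neg, hs q (by omega)]; exact hcq
    · show c (swL p) = X (-(-(i + 2) + 2))
      rw [show -(-(i + 2) + 2) = i by ring, hs p (by omega)]; exact hcp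
  -- both are leaves of the last fork
  obtain ⟨f, D, hK⟩ := exists_ktight hG hc hcat (by omega)
  obtain ⟨f1, f2, f3, f4⟩ := fits_other hcat hK.ok
  have hT : Tight D (fun j => f (c j)) m := hK.tight
  have m1 : f (c p) = neg (f (c 0)) := by
    rw [hcp, e0]; exact f1 _ _ (cc.me _).symm
  have m3 : f (c 1) = neg (f (c q)) := by
    rw [hcq, e1]; exact f1 _ _ (cc.me _).symm
  have hpq : p ≠ q := by
    rintro rfl
    exact cc.xy _ _ (hcp.symm.trans hcq)
  have hmod : m % 2 = 1 := by
    have hpm : pos m p = m := by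
      unfold CLB.H3.pos
      split_ifs <;> omega
    omega
  have key := mates_far (b := q) hT hmod (a := p) (by omega) m1
  have key' : f (c q) = f (c 1) := key
  rw [m3] at key'
  exact H3DA.neg_ne _ key'.symm

end CLB.H86
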