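import Pool.Agent.Helper86_DA.Wst
import Pool.Agent.Helper95_CLB.CycWalk

/-!
Closed chains, module W1: closed walks through history dependent lists.
-/

set_option autoImplicit false
set_option linter.unusedSectionVars false

namespace CLB.H86

open Finset Classical
open H3DA (Q neg nr)
open CLB.H95

/-- A walk through the first `n` lists. -/
structure PF (F : ℕ → (ℕ → Q) → Finset Q) (n : ℕ) (h : ℕ → Q) : Prop where
  mem : ∀ i, 1 ≤ i → i ≤ n → h i ∈ F i h
  walk : ∀ i, 1 ≤ i → i < n → nr (h i) (h (i + 1)) = true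

variable {F : ℕ → (ℕ → Q) → Finset Q}

/-- Appending a label. -/
lemma PF.snoc (hd : DepF F) {n : ℕ} {h : ℕ → Q} (hp : PF F n h) {a : Q} (ha : a ∈ F (n + 1) h)
    (hna : 1 ≤ n → nr (h n) a = true) :
    ∃ w, PF F (n + 1) w ∧ w (n + 1) = a ∧ Same (n + 1) h w := by
  have hs : ∀ i, i ≤ n + 1 → Same i h (fun i => if i ≤ n then h i else a) := by
    intro i hi j h1 h2
    have : j ≤ n := by omega
    simp only [this, if_true]
  refine ⟨fun i => if i ≤ n then h i else a, ⟨fun i h1 h2 => ?_, fun i h1 h2 => ?_⟩, ?_, hs _ le_rfl⟩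
  · rw [← hd i _ _ (hs i h2)]
    by_cases h3 : i ≤ n
    · simp only [h3, if_true]
      exact hp.mem i h1 h3
    · have h4 : i = n + 1 := by omega
      subst h4
      simp only [h3, if_false]
      exact ha
  · by_cases h3 : i + 1 ≤ n
    · have h4 : i ≤ n := by omega
      simp only [h3, h4, if_true]
      exact hp.walk i h1 (by omega)
    · have h4 : i = n := by omega
      subst h4
      have h5 : ¬ i + 1 ≤ i := by omega
      simp only [le_refl, h5, if_true, if_false]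
      exact hna h1
  · have h5 : ¬ n + 1 ≤ n := by omega
    simp only [h5, if_false]

/-- Extending one of two histories. -/
lemma ext2 (hd : DepF F) {n : ℕ} (h1 : 1 ≤ n) {g g' : ℕ → Q} (hg : PF F n g) (hg' : PF F n g')
    {a : Q} (ha : a ∈ nb {g n, g' n} ∩ (F (n + 1) g ∩ F (n + 1) g')) :
    ∃ w, PF F (n + 1) w ∧ w (n + 1) = a ∧ (Same (n + 1) g w ∨ Same (n + 1) g' w) := by
  rw [mem_inter, mem_nb, mem_inter] at ha
  obtain ⟨⟨t, ht, hta⟩, ha1, ha2⟩ := ha
  simp only [mem_insert, mem_singleton] at ht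
  rcases ht with rfl | rfl
  · obtain ⟨w, w1, w2, w3⟩ := hg.snoc hd ha1 (fun _ => hta)
    exact ⟨w, w1, w2, Or.inl w3⟩
  · obtain ⟨w, w1, w2, w3⟩ := hg'.snoc hd ha2 (fun _ => hta)
    exact ⟨w, w1, w2, Or.inr w3⟩

/-- The labels reached from two histories. -/
lemma reach_card {n : ℕ} {g g' : ℕ → Q} (hne : g n ≠ g' n) (m : ℕ)
    (hc : m + 2 ≤ (F (n + 1) g ∩ F (n + 1) g').card) :
    m ≤ (nb {g n, g' n} ∩ (F (n + 1) g ∩ F (n + 1) g')).card := by
  have e2 : 6 ≤ (nb {g n, g' n}).card := nb_card2 (by rw [Finset.card_pair hne])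
  have e3 := card_inter_ge (nb {g n, g' n}) (F (n + 1) g ∩ F (n + 1) g')
  omega

/-- Two histories with different last labels. -/
lemma two_hist (hd : DepF F) (S : Finset Q) {m : ℕ} (hm : 1 ≤ m)
    (h0 : ∃ g g', PF F m g ∧ PF F m g' ∧ g 1 ∈ S ∧ g' 1 ∈ S ∧ g m ≠ g' m) {n : ℕ} (hn : m ≤ n) :
    (∀ i, m < i → i ≤ n → ∀ h h', 4 ≤ (F i h ∩ F i h').card) →
    ∃ g g', PF F n g ∧ PF F n g' ∧ g 1 ∈ S ∧ g' 1 ∈ S ∧ g n ≠ g' n := by
  induction n, hn using Nat.le_induction with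
  | base => exact fun _ => h0
  | succ n hn ih =>
    intro hc
    obtain ⟨g, g', hg, hg', s1, s2, hne⟩ := ih (fun i h1 h2 => hc i h1 (by omega))
    have e1 := reach_card hne 2 (hc (n + 1) (by omega) le_rfl g g')
    obtain ⟨a, ha, b, hb, hab⟩ := Finset.one_lt_card.1 (show 1 < _ from e1)
    have key : ∀ w : ℕ → Q, (Same (n + 1) g w ∨ Same (n + 1) g' w) → w 1 ∈ S := by
      intro w hw
      rcases hw with hw | hw
      · rw [← hw 1 le_rfl (by omega)]; exact s1
      · rw [← hw 1 le_rfl (by omega)]; exact s2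
    obtain ⟨w, w1, w2, w3⟩ := ext2 hd (by omega) hg hg' ha
    obtain ⟨w', w1', w2', w3'⟩ := ext2 hd (by omega) hg hg' hb
    exact ⟨w, w', w1, w1', key w w3, key w' w3', by rw [w2, w2']; exact hab⟩

/-- Two histories with the same origin on the first two units. -/
lemma start2 (hd : DepF F) {c : Q} (hc : ∀ h, c ∈ F 1 h) (h2 : ∀ h h', F 2 h = F 2 h')
    (hb : ∀ h, 2 ≤ (ball c ∩ F 2 h).card) :
    ∃ g g', PF F 2 g ∧ PF F 2 g' ∧ g 1 ∈ ({c} : Finset Q) ∧ g' 1 ∈ ({c} : Finset Q) ∧ g 2 ≠ g' 2 := by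
  have hp : PF F 0 (fun _ => c) := ⟨fun i h1 h2 => by omega, fun i h1 h2 => by omega⟩
  obtain ⟨g0, p0, q0, -⟩ := hp.snoc hd (hc _) (fun h => by omega)
  obtain ⟨a, ha, b, hb', hab⟩ := Finset.one_lt_card.1 (show 1 < _ from hb g0)
  rw [mem_inter, mem_ball] at ha hb'
  obtain ⟨w, w1, w2, w3⟩ := p0.snoc hd ha.2 (fun _ => by rw [q0]; exact ha.1)
  obtain ⟨w', w1', w2', w3'⟩ := p0.snoc hd hb'.2 (fun _ => by rw [q0]; exact hb'.1)
  refine ⟨w, w', w1, w1', ?_, ?_, by rw [w2, w2']; exact hab⟩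
  · rw [mem_singleton, ← w3 1 le_rfl (by omega), q0]
  · rw [mem_singleton, ← w3' 1 le_rfl (by omega), q0]

/-- Two histories with different origins on the first unit. -/
lemma start1 (hd : DepF F) {c c' : Q} (hc : ∀ h, c ∈ F 1 h) (hc' : ∀ h, c' ∈ F 1 h) (hne : c ≠ c') :
    ∃ g g', PF F 1 g ∧ PF F 1 g' ∧ g 1 ∈ ({c, c'} : Finset Q) ∧ g' 1 ∈ ({c, c'} : Finset Q) ∧
      g 1 ≠ g' 1 := by
  have hp : PF F 0 (fun _ => c) := ⟨fun i h1 h2 => by omega, fun i h1 h2 => by omega⟩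
  obtain ⟨w, w1, w2, -⟩ := hp.snoc hd (hc _) (fun h => by omega)
  obtain ⟨w', w1', w2', -⟩ := hp.snoc hd (hc' _) (fun h => by omega)
  exact ⟨w, w', w1, w1', by rw [w2]; simp, by rw [w2']; simp, by rw [w2, w2']; exact hne⟩

/-- The last label. -/
lemma close (hd : DepF F) {k : ℕ} (hk : 2 ≤ k) {w : ℕ → Q} (hw : PF F (k - 1) w) {v : Q}
    (hv : v ∈ F k w) (h1 : nr (w (k - 1)) v = true) (h2 : nr v (w 1) = true) :
    ∃ mu, CW F k mu ∧ Same k w mu ∧ mu k = v := by
  obtain ⟨m, rfl⟩ : ∃ m, k = m + 1 := ⟨k - 1, by omega⟩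
  rw [show m + 1 - 1 = m by omega] at hw h1
  obtain ⟨mu, m1, m2, m3⟩ := hw.snoc hd hv (fun _ => h1)
  refine ⟨mu, ⟨m1.mem, m1.walk, ?_⟩, m3, m2⟩
  rw [m2, ← m3 1 le_rfl (by omega)]
  exact h2

/-- Option two: one origin. -/
lemma opt2 (hd : DepF F) {k : ℕ} (hk : 4 ≤ k) (c2 : ∀ h h', F 2 h = F 2 h')
    (hi : ∀ i, 3 ≤ i → i + 2 ≤ k → ∀ h h', 4 ≤ (F i h ∩ F i h').card)
    (hk1 : ∀ h h', 6 ≤ (F (k - 1) h ∩ F (k - 1) h').card) (ck : ∀ h h', F k h = F k h')
    {c : Q} (hc : ∀ h, c ∈ F 1 h) (hb2 : ∀ h, 2 ≤ (ball c ∩ F 2 h).card)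
    (hbk : ∀ h, 2 ≤ (ball c ∩ F k h).card) : ∃ mu, CW F k mu ∧ mu (k - 1) ≠ mu 1 := by
  obtain ⟨g, g', hg, hg', s1, s2, hne⟩ := two_hist hd {c} (by norm_num) (start2 hd hc c2 hb2)
    (n := k - 2) (by omega) (fun i h1 h2 => hi i (by omega) (by omega))
  rw [mem_singleton] at s1 s2
  have ek : k - 2 + 1 = k - 1 := by omega
  have e1 := reach_card (F := F) hne 4 (by rw [ek]; exact hk1 g g')
  set S := nb {g (k - 2), g' (k - 2)} ∩ (F (k - 2 + 1) g ∩ F (k - 2 + 1) g') with hS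
  have e2 : 3 ≤ (S.erase c).card := by
    have := Finset.pred_card_le_card_erase (s := S) (a := c)
    omega
  have e3 := nb_card3 e2
  have e4 := card_inter_ge (nb (S.erase c)) (ball c ∩ F k g)
  have e5 := hbk g
  obtain ⟨v, hv⟩ : ∃ v, v ∈ nb (S.erase c) ∩ (ball c ∩ F k g) := Finset.card_pos.1 (by omega)
  rw [mem_inter, mem_nb, mem_inter, mem_ball] at hv
  obtain ⟨⟨a, ha, hav⟩, hcv, hvk⟩ := hv
  rw [mem_erase] at ha
  obtain ⟨w, w1, w2, w3⟩ := ext2 hd (by omega) hg hg' ha.2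
  have w4 : w 1 = c := by
    rcases w3 with h | h
    · rw [← h 1 le_rfl (by omega), s1]
    · rw [← h 1 le_rfl (by omega), s2]
  rw [ek] at w1 w2
  obtain ⟨mu, m1, m2, m3⟩ := close hd (by omega) w1 (v := v) (by rw [ck w g]; exact hvk)
    (by rw [w2]; exact hav) (by rw [w4]; exact nr_symm hcv)
  refine ⟨mu, m1, ?_⟩
  rw [← m2 (k - 1) (by omega) (by omega), ← m2 1 le_rfl (by omega), w2, w4]
  exact ha.1

/-- Option one: two origins. -/
lemma opt1 (hd : DepF F) {k : ℕ} (hk : 4 ≤ k) (h2 : ∀ h, 4 ≤ (F 2 h).card)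
    (c2 : ∀ h h', F 2 h = F 2 h')
    (hi : ∀ i, 3 ≤ i → i + 2 ≤ k → ∀ h h', 4 ≤ (F i h ∩ F i h').card)
    (hk1 : ∀ h h', 6 ≤ (F (k - 1) h ∩ F (k - 1) h').card) (ck : ∀ h h', F k h = F k h')
    {c c' : Q} (hne0 : c ≠ c')
    (hc : ∀ h, c ∈ F 1 h) (hc' : ∀ h, c' ∈ F 1 h) (hbk : ∀ h, 3 ≤ (ball c ∩ F k h).card)
    (hbk' : ∀ h, 3 ≤ (ball c' ∩ F k h).card) : ∃ mu, CW F k mu ∧ mu (k - 1) ≠ mu 1 := by
  obtain ⟨g, g', hg, hg', s1, s2, hne⟩ := two_hist hd {c, c'} le_rfl (start1 hd hc hc' hne0)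
    (n := k - 2) (by omega) (fun i h1 h3 h h' => by
      by_cases h4 : i = 2
      · subst h4
        rw [c2 h' h, Finset.inter_self]
        exact h2 h
      · exact hi i (by omega) (by omega) h h')
  have ek : k - 2 + 1 = k - 1 := by omega
  have hbo : ∀ h, 3 ≤ (ball (g 1) ∩ F k h).card := by
    intro h
    rw [mem_insert, mem_singleton] at s1
    rcases s1 with s1 | s1 <;> rw [s1]
    · exact hbk h
    · exact hbk' h
  have e1 := card_inter_ge (ball (g (k - 2))) (F (k - 1) g)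
  rw [ball_card] at e1
  have e2 : 6 ≤ (F (k - 1) g).card := by
    have := hk1 g g
    rwa [Finset.inter_self] at this
  obtain ⟨a, ha, b, hb, hab⟩ := Finset.one_lt_card.1
    (show 1 < (ball (g (k - 2)) ∩ F (k - 1) g).card by omega)
  obtain ⟨a, ha, ha1, ha2⟩ : ∃ a ∈ ball (g (k - 2)) ∩ F (k - 1) g, a ≠ g 1 ∧ a ≠ neg (g 1) := by
    by_contra hcon
    push Not at hcon
    have h3 := hcon a ha
    have h4 := hcon b hb
    rw [mem_inter, mem_ball] at ha hb
    by_cases h5 : a = g 1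
    · have h6 : b ≠ g 1 := fun h => hab (by rw [h5, h])
      have h7 := h4 h6
      have h8 := hb.1
      rw [h7, nr_neg', ← h5, ha.1] at h8
      simp at h8
    · have h7 := h3 h5
      by_cases h6 : b = g 1
      · have h8 := ha.1
        rw [h7, nr_neg', ← h6, hb.1] at h8
        simp at h8
      · exact hab (by rw [h7, h4 h6])
  rw [mem_inter, mem_ball] at ha
  have e3 := ball_inter_card (g 1) a (by
    intro h
    apply ha2
    rw [h, H3DA.neg_neg])
  have e4 := Finset.card_union_add_card_inter (ball (g 1) ∩ ball a) (ball (g 1) ∩ F k g)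
  have e5 : ((ball (g 1) ∩ ball a) ∪ (ball (g 1) ∩ F k g)).card ≤ 4 := by
    rw [← ball_card (g 1)]
    exact Finset.card_le_card (Finset.union_subset Finset.inter_subset_left Finset.inter_subset_left)
  have e6 := hbo g
  obtain ⟨v, hv⟩ : ∃ v, v ∈ (ball (g 1) ∩ ball a) ∩ (ball (g 1) ∩ F k g) :=
    Finset.card_pos.1 (by omega)
  simp only [mem_inter, mem_ball] at hv
  obtain ⟨w, w1, w2, w3⟩ := hg.snoc hd (a := a) (by rw [ek]; exact ha.2) (fun _ => ha.1)
  rw [ek] at w1 w2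
  have w4 : w 1 = g 1 := (w3 1 le_rfl (by omega)).symm
  obtain ⟨mu, m1, m2, m3⟩ := close hd (by omega) w1 (v := v) (by rw [ck w g]; exact hv.2.2)
    (by rw [w2]; exact hv.1.2) (by rw [w4]; exact nr_symm hv.1.1)
  refine ⟨mu, m1, ?_⟩
  rw [← m2 (k - 1) (by omega) (by omega), ← m2 1 le_rfl (by omega), w2, w4]
  exact ha1

/-- The first list does not depend on the history. -/
lemma const1 (hd : DepF F) (h h' : ℕ → Q) : F 1 h = F 1 h' :=
  hd 1 h h' fun j h1 h2 => by omega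

theorem ct1 : Ct1H := by
  intro F k hk hd h1 h2 c2 hi hk1 hkk ck
  set h0 : ℕ → Q := fun _ => (false, false, false)
  by_cases hO : ∃ c ∈ F 1 h0, 2 ≤ (ball c ∩ F 2 h0).card ∧ 2 ≤ (ball c ∩ F k h0).card
  · obtain ⟨c, hc, e1, e2⟩ := hO
    exact opt2 hd hk c2 hi hk1 ck (c := c) (fun h => by rw [const1 hd h h0]; exact hc)
      (fun h => by rw [c2 h h0]; exact e1) (fun h => by rw [ck h h0]; exact e2)
  · push Not at hO
    set P := F 1 h0 ∩ negS (F 1 h0) with hP
    set G := P.filter (fun z => 3 ≤ (ball z ∩ F k h0).card) with hG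
    have e1 : 4 ≤ P.card := by
      have := card_inter_ge (F 1 h0) (negS (F 1 h0))
      rw [negS_card, ← hP] at this
      have := h1 h0
      omega
    have e2 : P ⊆ G ∪ negS G := by
      intro z hz
      have hz' : neg z ∈ P := by
        rw [hP, mem_inter, mem_negS] at hz ⊢
        rw [H3DA.neg_neg]
        exact ⟨hz.2, hz.1⟩
      have a1 := ball_inter_add z (F k h0)
      have a2 := ball_inter_add z (F 2 h0)
      have a3 := hkk h0
      have a4 := h2 h0
      have a5 := hO z (mem_inter.1 hz).1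
      have a6 := hO (neg z) (mem_inter.1 hz').1
      rw [mem_union, mem_negS, hG, mem_filter, mem_filter]
      by_cases a7 : 3 ≤ (ball z ∩ F k h0).card
      · exact Or.inl ⟨hz, a7⟩
      · refine Or.inr ⟨hz', ?_⟩
        by_contra a8
        have a9 : (ball z ∩ F 2 h0).card < 2 := by
          by_contra a9
          have := a5 (by omega)
          omega
        have a10 : (ball (neg z) ∩ F 2 h0).card < 2 := by
          by_contra a9
          have := a6 (by omega)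
          omega
        omega
    have e3 : 2 ≤ G.card := by
      have a1 := Finset.card_le_card e2
      have a2 := Finset.card_union_le G (negS G)
      rw [negS_card] at a2
      omega
    obtain ⟨c, hc, c', hc', hne⟩ := Finset.one_lt_card.1 (show 1 < _ from e3)
    rw [hG, mem_filter, hP, mem_inter] at hc hc'
    exact opt1 hd hk h2 c2 hi hk1 ck hne (fun h => by rw [const1 hd h h0]; exact hc.1.1)
      (fun h => by rw [const1 hd h h0]; exact hc'.1.1) (fun h => by rw [ck h h0]; exact hc.2)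
      (fun h => by rw [ck h h0]; exact hc'.2)

theorem ct2 : Ct2H := by
  intro F k hk hd h1 h2 c2 hi hk2 hk1 hkk ck
  set h0 : ℕ → Q := fun _ => (false, false, false)
  obtain ⟨c, hc, hc2⟩ : ∃ c ∈ F 1 h0, 2 ≤ (ball c ∩ F 2 h0).card := by
    by_contra hcon
    push Not at hcon
    have e1 : F 1 h0 ∩ negS (F 1 h0) = ∅ := by
      rw [Finset.eq_empty_iff_forall_notMem]
      intro z hz
      rw [mem_inter, mem_negS] at hz
      have a1 := hcon z hz.1
      have a2 := hcon _ hz.2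
      have a3 := ball_inter_add z (F 2 h0)
      have a4 := h2 h0
      omega
    have e2 := card_inter_ge (F 1 h0) (negS (F 1 h0))
    rw [negS_card, e1, Finset.card_empty] at e2
    have := h1 h0
    omega
  obtain ⟨g, g', hg, hg', s1, s2, hne⟩ := two_hist hd {c} (by norm_num)
    (start2 hd (fun h => by rw [const1 hd h h0]; exact hc) c2
      (fun h => by rw [c2 h h0]; exact hc2))
    (n := k - 3) (by omega) (fun i h1 h2 => hi i (by omega) (by omega))
  rw [mem_singleton] at s1 s2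
  have ek3 : k - 3 + 1 = k - 2 := by omega
  have ek : k - 2 + 1 = k - 1 := by omega
  have e1 := reach_card (F := F) hne 4 (by rw [ek3]; exact hk2 g g')
  set T := nb {g (k - 3), g' (k - 3)} ∩ (F (k - 3 + 1) g ∩ F (k - 3 + 1) g') with hT
  have e2 := card_inter_ge (ball c) (F k g)
  rw [ball_card] at e2
  have e2' := hkk g
  obtain ⟨V, hV, hV2⟩ := Finset.exists_subset_card_eq (show 2 ≤ (ball c ∩ F k g).card by omega)
  have e3 := card_sdiff_ge T V
  obtain ⟨b, hb, b', hb', hbb⟩ := Finset.one_lt_card.1 (show 1 < (T \ V).card by omega)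
  rw [mem_sdiff] at hb hb'
  obtain ⟨w, w1, w2, w3⟩ := ext2 hd (by omega) hg hg' hb.1
  obtain ⟨w', w1', w2', w3'⟩ := ext2 hd (by omega) hg hg' hb'.1
  rw [ek3] at w1 w2 w1' w2'
  have o1 : w 1 = c := by
    rcases w3 with h | h
    · rw [← h 1 le_rfl (by omega), s1]
    · rw [← h 1 le_rfl (by omega), s2]
  have o2 : w' 1 = c := by
    rcases w3' with h | h
    · rw [← h 1 le_rfl (by omega), s1]
    · rw [← h 1 le_rfl (by omega), s2]
  have e4 := reach_card (F := F) (g := w) (g' := w') (n := k - 2) (by rw [w2, w2']; exact hbb) 4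
    (by rw [ek]; exact hk1 w w')
  set S := nb {w (k - 2), w' (k - 2)} ∩ (F (k - 2 + 1) w ∩ F (k - 2 + 1) w') with hS
  have e5 : 3 ≤ (S.erase c).card := by
    have := Finset.pred_card_le_card_erase (s := S) (a := c)
    omega
  have e6 := nb_card2 (show 2 ≤ V.card by omega)
  have e7 := card_inter_ge (nb V) (S.erase c)
  obtain ⟨a, ha⟩ : ∃ a, a ∈ nb V ∩ S.erase c := Finset.card_pos.1 (by omega)
  rw [mem_inter, mem_nb, mem_erase] at ha
  obtain ⟨⟨v, hv, hva⟩, hac, haS⟩ := ha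
  obtain ⟨w'', q1, q2, q3⟩ := ext2 hd (by omega) w1 w1' haS
  rw [ek] at q1 q2
  have q4 : w'' 1 = c := by
    rcases q3 with h | h
    · rw [← h 1 le_rfl (by omega), o1]
    · rw [← h 1 le_rfl (by omega), o2]
  have q5 : w'' (k - 2) ∉ V := by
    rcases q3 with h | h
    · rw [← h (k - 2) (by omega) (by omega), w2]; exact hb.2
    · rw [← h (k - 2) (by omega) (by omega), w2']; exact hb'.2
  have hv' := hV hv
  rw [mem_inter, mem_ball] at hv'
  obtain ⟨mu, m1, m2, m3⟩ := close hd (by omega) q1 (v := v) (by rw [ck w'' g]; exact hv'.2)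
    (by rw [q2]; exact nr_symm hva) (by rw [q4]; exact nr_symm hv'.1)
  refine ⟨mu, m1, ?_, ?_⟩
  · rw [← m2 (k - 1) (by omega) (by omega), ← m2 1 le_rfl (by omega), q2, q4]
    exact hac
  · rw [m3, ← m2 (k - 2) (by omega) (by omega)]
    intro h
    exact q5 (h ▸ hv)

end CLB.H86
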