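import Pool.Agent.Helper86_DA.Wst
import Pool.Agent.Helper95_CLB.CycWalk

/-!
Closed chains, module W2: closed walks of length four.
-/

set_option autoImplicit false
set_option linter.unusedSectionVars false

namespace CLB.H86.W2

section dec

open H3DA (Q neg nr)

/-- Translation. -/
def tr (a b : Q) : Q := (xor a.1 b.1, xor a.2.1 b.2.1, xor a.2.2 b.2.2)

lemma tr_near : ∀ c s a : Q, nr c s = true → nr s a = true → a ≠ c →
    nr a (tr a (tr s c)) = true ∧ nr c (tr a (tr s c)) = true ∧ tr a (tr s c) ≠ s := by decide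

lemma tr_inj : ∀ b a a' : Q, tr a b = tr a' b → a = a' := by decide

/-- Directions. -/
def dirs : List Q := [(true, false, false), (false, true, false), (false, false, true)]

lemma dir_exists : ∀ x y x' y' : Q, ∃ e ∈ dirs, tr x e ≠ y ∧ tr x' e ≠ y' := by decide +kernel

lemma dir_near : ∀ e ∈ dirs, ∀ t : Q, nr t (tr t e) = true ∧ nr (tr t e) t = true ∧ t ≠ tr t e ∧
    tr (tr t e) e = t := by decide

lemma nr_self : ∀ t : Q, nr t t = true := by decide

lemma classify : ∀ x y : Q, x ≠ y → (∃ e ∈ dirs, y = tr x e) ∨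
    (∃ e ∈ dirs, ∃ e' ∈ dirs, e ≠ e' ∧ y = tr (tr x e) e') ∨ y = neg x := by decide

/-- Rotation of the hexagon around `x`. -/
def rot (x t : Q) : Q := tr x ((!(tr t x).2.1), (!(tr t x).2.2), (!(tr t x).1))

lemma rot_inj : ∀ x a b : Q, rot x a = rot x b → a = b := by decide

lemma rot_near1 : ∀ x t : Q, t ≠ x → t ≠ neg x → nr t (rot x t) = true ∧
    t ≠ rot x t := by decide

lemma rot_near2 : ∀ x t : Q, t ≠ x → t ≠ neg x → rot x t ≠ x ∧ rot x t ≠ neg x := by decide

lemma nr_sw : ∀ x y : Q, nr x y = true → nr y x = true := by decide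

lemma rot_near (x t : Q) (h : t ≠ x) (h' : t ≠ neg x) : nr t (rot x t) = true ∧
    nr (rot x t) t = true ∧ t ≠ rot x t ∧ rot x t ≠ x ∧ rot x t ≠ neg x :=
  ⟨(rot_near1 x t h h').1, nr_sw _ _ (rot_near1 x t h h').1, (rot_near1 x t h h').2,
    (rot_near2 x t h h').1, (rot_near2 x t h h').2⟩

lemma face_near : ∀ e ∈ dirs, ∀ e' ∈ dirs, e ≠ e' → ∀ t : Q, nr t (tr t e) = true ∧
    nr (tr t e) (tr (tr t e) e') = true ∧ nr (tr (tr t e) e') (tr t e') = true ∧
    nr (tr t e') t = true ∧ t ≠ tr (tr t e) e' ∧ tr t e ≠ tr t e' := by decide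

lemma tr_swap : ∀ t e x : Q, tr t e = x → t = tr x e := by decide

lemma face_swap : ∀ t e e' x : Q, (tr t e = tr (tr x e) e' → t = tr x e') ∧
    (tr t e' = tr (tr x e) e' → t = tr x e) := by decide +kernel

end dec

open Finset Classical
open H3DA (Q neg nr)
open CLB.H95

/-- Two 2-subsets match. -/
lemma match22 {c s : Q} (hcs : nr c s = true) {T W : Finset Q} (hT : ∀ a ∈ T, nr s a = true ∧ a ≠ c)
    (hW : ∀ v ∈ W, nr c v = true ∧ v ≠ s) (h1 : 2 ≤ T.card) (h2 : 2 ≤ W.card) :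
    ∃ a ∈ T, ∃ v ∈ W, nr a v = true := by
  set I := T.image (fun a => tr a (tr s c)) with hI
  have e1 : I.card = T.card := Finset.card_image_of_injective _ (fun a a' h => tr_inj _ _ _ h)
  have e2 : I ∪ W ⊆ (ball c).erase s := by
    intro v hv
    rw [mem_union] at hv
    rw [mem_erase, mem_ball]
    rcases hv with hv | hv
    · rw [hI, mem_image] at hv
      obtain ⟨a, ha, rfl⟩ := hv
      have := tr_near c s a hcs (hT a ha).1 (hT a ha).2
      exact ⟨this.2.2, this.2.1⟩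
    · exact ⟨(hW v hv).2, (hW v hv).1⟩
  have e3 := Finset.card_le_card e2
  rw [Finset.card_erase_of_mem (mem_ball.2 hcs), ball_card] at e3
  have e4 := Finset.card_union_add_card_inter I W
  obtain ⟨v, hv⟩ : ∃ v, v ∈ I ∩ W := Finset.card_pos.1 (by omega)
  rw [mem_inter, hI, mem_image] at hv
  obtain ⟨⟨a, ha, rfl⟩, hv⟩ := hv
  exact ⟨a, ha, _, hv, (tr_near c s a hcs (hT a ha).1 (hT a ha).2).1⟩

/-- The third labels. -/
lemma third {c s : Q} {B : Finset Q} (hB : 7 ≤ B.card) : 2 ≤ ((ball s ∩ B).erase c).card := by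
  have h1 := card_inter_ge (ball s) B
  rw [ball_card] at h1
  have := Finset.pred_card_le_card_erase (s := ball s ∩ B) (a := c)
  omega

theorem sh : ShH := by
  intro A1 A2 A4 F h1 h2 h4 hF
  obtain ⟨c, hc, hc4⟩ : ∃ c ∈ A1, 2 ≤ (ball c ∩ A4).card := by
    by_contra hcon
    push Not at hcon
    have e1 : A1 ∩ negS A1 = ∅ := by
      rw [Finset.eq_empty_iff_forall_notMem]
      intro z hz
      rw [mem_inter, mem_negS] at hz
      have a1 := hcon z hz.1
      have a2 := hcon _ hz.2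
      have a3 := ball_inter_add z A4
      omega
    have e2 := card_inter_ge A1 (negS A1)
    rw [negS_card, e1, Finset.card_empty] at e2
    omega
  have e1 := card_inter_ge (ball c) A2
  rw [ball_card] at e1
  obtain ⟨s, hs⟩ : ∃ s, s ∈ ball c ∩ A2 := Finset.card_pos.1 (by omega)
  rw [mem_inter, mem_ball] at hs
  have e2 := third (c := c) (s := s) (hF c s)
  by_cases hs4 : s ∈ A4
  · obtain ⟨a, ha⟩ : ∃ a, a ∈ (ball s ∩ F c s).erase c := Finset.card_pos.1 (by omega)
    rw [mem_erase, mem_inter, mem_ball] at ha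
    exact ⟨c, hc, s, hs.2, a, ha.2.2, s, hs4, hs.1, ha.2.1, nr_symm ha.2.1, nr_symm hs.1, ha.1.symm⟩
  · obtain ⟨a, ha, v, hv, hav⟩ := match22 hs.1 (T := (ball s ∩ F c s).erase c) (W := ball c ∩ A4)
      (fun a ha => by
        rw [mem_erase, mem_inter, mem_ball] at ha
        exact ⟨ha.2.1, ha.1⟩)
      (fun v hv => by
        rw [mem_inter, mem_ball] at hv
        exact ⟨hv.1, fun h => hs4 (h ▸ hv.2)⟩) e2 hc4
    rw [mem_erase, mem_inter, mem_ball] at ha
    rw [mem_inter, mem_ball] at hv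
    exact ⟨c, hc, s, hs.2, a, ha.2.2, v, hv.2, hs.1, ha.2.1, hav, nr_symm hv.1, ha.1.symm⟩

theorem shx : ShxH := by
  intro A1 A2 A4 F h1 h2 h4 hF
  obtain ⟨c, hc⟩ : ∃ c, c ∈ A1 := Finset.card_pos.1 (by omega)
  have e1 := card_inter_ge (ball c) A2
  rw [ball_card] at e1
  have e4 := card_inter_ge (ball c) A4
  rw [ball_card] at e4
  obtain ⟨s, hs, hs4⟩ : ∃ s ∈ ball c ∩ A2, 2 ≤ ((ball c ∩ A4).erase s).card := by
    by_cases h3 : 3 ≤ (ball c ∩ A4).card
    · obtain ⟨s, hs⟩ : ∃ s, s ∈ ball c ∩ A2 := Finset.card_pos.1 (by omega)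
      refine ⟨s, hs, ?_⟩
      have := Finset.pred_card_le_card_erase (s := ball c ∩ A4) (a := s)
      omega
    · have e5 := card_sdiff_ge (ball c ∩ A2) (ball c ∩ A4)
      obtain ⟨s, hs⟩ : ∃ s, s ∈ (ball c ∩ A2) \ (ball c ∩ A4) := Finset.card_pos.1 (by omega)
      rw [mem_sdiff] at hs
      refine ⟨s, hs.1, ?_⟩
      rw [Finset.erase_eq_of_notMem hs.2]
      omega
  rw [mem_inter, mem_ball] at hs
  have e2 := third (c := c) (s := s) (hF c s)
  obtain ⟨a, ha, v, hv, hav⟩ := match22 hs.1 (T := (ball s ∩ F c s).erase c)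
    (W := (ball c ∩ A4).erase s)
    (fun a ha => by
      rw [mem_erase, mem_inter, mem_ball] at ha
      exact ⟨ha.2.1, ha.1⟩)
    (fun v hv => by
      rw [mem_erase, mem_inter, mem_ball] at hv
      exact ⟨hv.2.1, hv.1⟩) e2 hs4
  rw [mem_erase, mem_inter, mem_ball] at ha hv
  exact ⟨c, hc, s, hs.2, a, ha.2.2, v, hv.2.2, hs.1, ha.2.1, hav, nr_symm hv.2.1, ha.1.symm,
    hv.1.symm⟩

theorem shq : ShqH := by
  intro A1 A2 A3 A4 q h1 h2 h3 h4
  have e1 := card_sdiff_ge A3 (ball q)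
  rw [ball_card] at e1
  obtain ⟨b, hb, b', hb', hbb⟩ := Finset.one_lt_card.1 (show 1 < (A3 \ ball q).card by omega)
  have e2 : 6 ≤ (nb {b, b'}).card := nb_card2 (by rw [Finset.card_pair hbb])
  have e3 := card_inter_ge (nb {b, b'}) A4
  obtain ⟨p, hp⟩ : ∃ p, p ∈ nb {b, b'} ∩ A4 := Finset.card_pos.1 (by omega)
  rw [mem_inter, mem_nb] at hp
  obtain ⟨⟨t, ht, htp⟩, hp4⟩ := hp
  obtain ⟨ht3, htq⟩ : t ∈ A3 ∧ nr q t = false := by
    have : t ∈ A3 \ ball q := by
      rw [mem_insert, mem_singleton] at ht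
      rcases ht with rfl | rfl
      · exact hb
      · exact hb'
    rw [mem_sdiff, mem_ball] at this
    exact ⟨this.1, by simpa using this.2⟩
  have e4 := card_inter_ge (ball p) A1
  rw [ball_card] at e4
  have e5 := Finset.pred_card_le_card_erase (s := ball p ∩ A1) (a := t)
  obtain ⟨a, ha⟩ : ∃ a, a ∈ (ball p ∩ A1).erase t := Finset.card_pos.1 (by omega)
  rw [mem_erase, mem_inter, mem_ball] at ha
  have e6 := ball_inter_card a t (by
    intro h
    have h8 := ha.2.1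
    rw [h, nr_neg', nr_symm htp] at h8
    simp at h8)
  have e7 := card_inter_ge (ball a ∩ ball t) A2
  obtain ⟨x, hx⟩ : ∃ x, x ∈ (ball a ∩ ball t) ∩ A2 := Finset.card_pos.1 (by omega)
  rw [mem_inter, mem_inter, mem_ball, mem_ball] at hx
  exact ⟨a, ha.2.2, x, hx.2, t, ht3, p, hp4, hx.1.1, nr_symm hx.1.2, htp, ha.2.1, ha.1, htq⟩

/-! ### Four lists with six labels -/

lemma match5 (f : Q → Q) {S A1 A3 : Finset Q} (hf : ∀ a ∈ S, ∀ b ∈ S, f a = f b → a = b)
    (hS : 5 ≤ S.card) (h1 : 6 ≤ A1.card) (h3 : 6 ≤ A3.card) : ∃ t ∈ S, t ∈ A1 ∧ f t ∈ A3 := by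
  have e1 := card_inter_ge S A1
  have e2 : ((S ∩ A1).image f).card = (S ∩ A1).card :=
    Finset.card_image_of_injOn fun a ha b hb h =>
      hf a (mem_inter.1 ha).1 b (mem_inter.1 hb).1 h
  have e3 := card_inter_ge ((S ∩ A1).image f) A3
  obtain ⟨x, hx⟩ : ∃ x, x ∈ (S ∩ A1).image f ∩ A3 := Finset.card_pos.1 (by omega)
  rw [mem_inter, mem_image] at hx
  obtain ⟨⟨t, ht, rfl⟩, hx⟩ := hx
  rw [mem_inter] at ht
  exact ⟨t, ht.1, ht.2, hx⟩

/-- The complement of a set with six labels is contained in a pair. -/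
lemma pair_of_six {A : Finset Q} (h : 6 ≤ A.card) : ∃ x y, ∀ t, t ≠ x → t ≠ y → t ∈ A := by
  have e1 : (Aᶜ).card ≤ 2 := by
    rw [Finset.card_compl]
    have : Fintype.card Q = 8 := by decide
    omega
  by_cases h0 : Aᶜ = ∅
  · refine ⟨(false, false, false), (false, false, false), fun t _ _ => ?_⟩
    by_contra ht
    have : t ∈ Aᶜ := mem_compl.2 ht
    rw [h0] at this
    exact absurd this (Finset.notMem_empty t)
  · obtain ⟨x, hx⟩ := Finset.nonempty_iff_ne_empty.2 h0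
    have e2 : ((Aᶜ).erase x).card ≤ 1 := by
      rw [Finset.card_erase_of_mem hx]; omega
    by_cases h2 : (Aᶜ).erase x = ∅
    · refine ⟨x, x, fun t ht _ => ?_⟩
      by_contra htA
      have : t ∈ (Aᶜ).erase x := mem_erase.2 ⟨ht, mem_compl.2 htA⟩
      rw [h2] at this
      exact absurd this (Finset.notMem_empty t)
    · obtain ⟨y, hy⟩ := Finset.nonempty_iff_ne_empty.2 h2
      refine ⟨x, y, fun t ht ht' => ?_⟩
      by_contra htA
      have : t ∈ (Aᶜ).erase x := mem_erase.2 ⟨ht, mem_compl.2 htA⟩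
      exact ht' (Finset.card_le_one.1 e2 t this y hy)

/-- The conclusion of `FsH`. -/
def Concl (A1 A2 A3 A4 : Finset Q) : Prop :=
  ∃ t1 ∈ A1, ∃ t2 ∈ A2, ∃ t3 ∈ A3, ∃ t4 ∈ A4, nr t1 t2 = true ∧ nr t2 t3 = true ∧ nr t3 t4 = true ∧
    nr t4 t1 = true ∧ t1 ≠ t3 ∧ t2 ≠ t4

/-- The edge case. -/
lemma edge_case {A1 A2 A3 A4 : Finset Q} (h1 : 6 ≤ A1.card) (h3 : 6 ≤ A3.card) {e : Q}
    (he : e ∈ dirs) {S : Finset Q} (hS : 5 ≤ S.card)
    (hg : ∀ t ∈ S, (t ∈ A2 ∧ tr t e ∈ A4) ∨ (tr t e ∈ A2 ∧ t ∈ A4)) : Concl A1 A2 A3 A4 := by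
  obtain ⟨t, ht, ht1, ht3⟩ := match5 (fun t => tr t e) (fun a _ b _ h => tr_inj _ _ _ h) hS h1 h3
  obtain ⟨n1, n2, n3, -⟩ := dir_near e he t
  rcases hg t ht with ⟨g1, g2⟩ | ⟨g1, g2⟩
  · exact ⟨t, ht1, t, g1, _, ht3, _, g2, nr_self t, n1, nr_self _, n2, n3, n3⟩
  · exact ⟨t, ht1, _, g1, _, ht3, t, g2, n1, nr_self _, n2, nr_self t, n3, n3.symm⟩

lemma card_pair_le (x y : Q) : ({x, y} : Finset Q).card ≤ 2 := Finset.card_le_two

theorem fs : FsH := by
  intro A1 A2 A3 A4 h1 h2 h3 h4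
  show Concl A1 A2 A3 A4
  obtain ⟨x, y, hA2⟩ := pair_of_six h2
  obtain ⟨x', y', hA4⟩ := pair_of_six h4
  set C : Finset Q := {x, y} ∩ {x', y'} with hC
  have hcu : (univ : Finset Q).card = 8 := by decide
  by_cases hC1 : C.card ≤ 1
  · obtain ⟨e, he, n1, n2⟩ := dir_exists x y x' y'
    have e1 := card_sdiff_ge univ (C ∪ C.image (fun t => tr t e))
    have e2 := Finset.card_union_le C (C.image (fun t => tr t e))
    have e3 : (C.image (fun t => tr t e)).card ≤ C.card := Finset.card_image_le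
    refine edge_case h1 h3 he (S := univ \ (C ∪ C.image (fun t => tr t e))) (by omega) ?_
    intro t ht
    rw [mem_sdiff, mem_union, not_or, mem_image] at ht
    obtain ⟨-, ht1, ht2⟩ := ht
    obtain ⟨d1, d2, d3, d4⟩ := dir_near e he t
    have c1 : ¬ ((t = x ∨ t = y) ∧ (t = x' ∨ t = y')) := by
      rintro ⟨a1, a2⟩
      apply ht1
      rw [hC, mem_inter, mem_insert, mem_singleton, mem_insert, mem_singleton]
      exact ⟨a1, a2⟩
    have c2 : ¬ ((tr t e = x ∨ tr t e = y) ∧ (tr t e = x' ∨ tr t e = y')) := by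
      rintro ⟨a1, a2⟩
      apply ht2
      refine ⟨tr t e, ?_, d4⟩
      rw [hC, mem_inter, mem_insert, mem_singleton, mem_insert, mem_singleton]
      exact ⟨a1, a2⟩
    have c3 : ¬ ((t = x ∨ t = y) ∧ (tr t e = x ∨ tr t e = y)) := by
      rintro ⟨a1 | a1, a2 | a2⟩
      · exact d3 (a1.trans a2.symm)
      · rw [a1] at a2; exact n1 a2
      · have := d4
        rw [a2, a1] at this
        exact n1 this
      · exact d3 (a1.trans a2.symm)
    have c4 : ¬ ((t = x' ∨ t = y') ∧ (tr t e = x' ∨ tr t e = y')) := by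
      rintro ⟨a1 | a1, a2 | a2⟩
      · exact d3 (a1.trans a2.symm)
      · rw [a1] at a2; exact n2 a2
      · have := d4
        rw [a2, a1] at this
        exact n2 this
      · exact d3 (a1.trans a2.symm)
    have m1 : ¬ (t = x ∨ t = y) → t ∈ A2 := fun h => by
      rw [not_or] at h; exact hA2 t h.1 h.2
    have m2 : ¬ (t = x' ∨ t = y') → t ∈ A4 := fun h => by
      rw [not_or] at h; exact hA4 t h.1 h.2
    have m3 : ¬ (tr t e = x ∨ tr t e = y) → tr t e ∈ A2 := fun h => by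
      rw [not_or] at h; exact hA2 _ h.1 h.2
    have m4 : ¬ (tr t e = x' ∨ tr t e = y') → tr t e ∈ A4 := fun h => by
      rw [not_or] at h; exact hA4 _ h.1 h.2
    by_cases a1 : t = x ∨ t = y
    · right
      exact ⟨m3 fun h => c3 ⟨a1, h⟩, m2 fun h => c1 ⟨a1, h⟩⟩
    · by_cases a2 : tr t e = x' ∨ tr t e = y'
      · right
        exact ⟨m3 fun h => c2 ⟨h, a2⟩, m2 fun h => c4 ⟨h, a2⟩⟩
      · left
        exact ⟨m1 a1, m4 a2⟩
  · -- both pairs agree
    have e1 : C.card ≤ ({x, y} : Finset Q).card := Finset.card_le_card Finset.inter_subset_left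
    have e2 : C.card ≤ ({x', y'} : Finset Q).card := Finset.card_le_card Finset.inter_subset_right
    have e3 := card_pair_le x y
    have e4 := card_pair_le x' y'
    have s1 : C = {x, y} := Finset.eq_of_subset_of_card_le Finset.inter_subset_left (by omega)
    have s2 : C = {x', y'} := Finset.eq_of_subset_of_card_le Finset.inter_subset_right (by omega)
    have hxy : x ≠ y := by
      rintro rfl
      rw [Finset.pair_eq_singleton, Finset.card_singleton] at e1
      omega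
    have hB : ∀ t, t ≠ x → t ≠ y → t ∈ A2 ∧ t ∈ A4 := by
      intro t t1 t2
      refine ⟨hA2 t t1 t2, ?_⟩
      have : t ∉ C := by
        rw [s1, mem_insert, mem_singleton, not_or]; exact ⟨t1, t2⟩
      rw [s2, mem_insert, mem_singleton, not_or] at this
      exact hA4 t this.1 this.2
    have hD : 6 ≤ (univ \ ({x, y} : Finset Q)).card := by
      have := card_sdiff_ge univ ({x, y} : Finset Q)
      omega
    rcases classify x y hxy with ⟨e, he, hy⟩ | ⟨e, he, e', he', hee, hy⟩ | hy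
    · refine edge_case h1 h3 he (S := univ \ {x, y}) (by omega) ?_
      intro t ht
      rw [mem_sdiff, mem_insert, mem_singleton, not_or] at ht
      have t1 : tr t e ≠ x := fun h => ht.2.2 (by rw [hy]; exact tr_swap t e x h)
      have t2 : tr t e ≠ y := fun h => ht.2.1 (by
        rw [hy] at h; exact tr_inj _ _ _ h)
      exact Or.inl ⟨(hB t ht.2.1 ht.2.2).1, (hB _ t1 t2).2⟩
    · have e5 := card_sdiff_ge univ ({tr x e, tr x e'} : Finset Q)
      have e6 := card_pair_le (tr x e) (tr x e')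
      obtain ⟨t, ht, ht1, ht3⟩ := match5 (fun t => tr (tr t e) e')
        (S := univ \ {tr x e, tr x e'}) (fun a _ b _ h => tr_inj _ _ _ (tr_inj _ _ _ h))
        (by omega) h1 h3
      rw [mem_sdiff, mem_insert, mem_singleton, not_or] at ht
      obtain ⟨d1, d2, d3, d4, d5, d6⟩ := face_near e he e' he' hee t
      have f1 : tr t e ≠ x := fun h => ht.2.1 (tr_swap t e x h)
      have f2 : tr t e' ≠ x := fun h => ht.2.2 (tr_swap t e' x h)
      have f3 : tr t e ≠ y := fun h => ht.2.2 ((face_swap t e e' x).1 (by rw [← hy]; exact h))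
      have f4 : tr t e' ≠ y := fun h => ht.2.1 ((face_swap t e e' x).2 (by rw [← hy]; exact h))
      exact ⟨t, ht1, _, (hB _ f1 f3).1, _, ht3, _, (hB _ f2 f4).2, d1, d2, d3, d4, d5, d6⟩
    · obtain ⟨t, ht, ht1, ht3⟩ := match5 (rot x) (S := univ \ {x, y})
        (fun a _ b _ h => rot_inj _ _ _ h) (by omega) h1 h3
      rw [mem_sdiff, mem_insert, mem_singleton, not_or] at ht
      obtain ⟨d1, d2, d3, d4, d5⟩ := rot_near x t ht.2.1 (by rw [← hy]; exact ht.2.2)
      exact ⟨t, ht1, t, (hB t ht.2.1 ht.2.2).1, _, ht3, _, (hB _ d4 (by rw [hy]; exact d5)).2,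
        nr_self t, d1, nr_self _, d2, d3, d3⟩

end CLB.H86.W2
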