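import Pool.Agent.Helper86_DA.Fin
import Pool.Agent.Helper86_DA.K6b
import Pool.Agent.Helper86_DA.S4
import Pool.Agent.Helper86_DA.S5
import Pool.Agent.Helper86_DA.S7
import Pool.Agent.Helper86_DA.A5
import Pool.Agent.Helper86_DA.W1
import Pool.Agent.Helper86_DA.W2
import Pool.Agent.Helper26_DA.W3
import Pool.Agent.Helper63_DA.A4
import Pool.Agent.Helper65_DA.A2
import Pool.Agent.Helper66_DA.K2
import Pool.Agent.Helper7_DA.S3
import Pool.Agent.Helper4_DA.S1
import Pool.Agent.Helper4_DA.Lf

/-!
Closed chains of links do not exist, once open ones do not exist.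
-/

set_option autoImplicit false

namespace CLB.H86

open CLB.H3 (OpenFalse ClosedFalse)

/-- Two units. -/
theorem k2T : K2H := by
  intro V _ H R x y hG hc h hl
  exact CLB.H66.k2_false hG hc h hl

/-- **Closed chains.** -/
theorem closedFalse_of (hO : OpenFalse) : ClosedFalse :=
  closed_false k2T H7.thr (out H4.lf) full swapT H4.twoN H4.m2
    (H65.thmA ct1 ct2 W2.fs H26.allc H4.twoN) (K4.oneK4 W2.sh W2.shx W2.shq H4.twoN)
    (oneK6 ct1 ct2 H4.twoN swapT) (twoK H26.tv H26.col' H4.twoN) hO

end CLB.H86
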