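import Pool.Agent.Helper86_DA.Ast

/-!
One caterpillar with a fork in the chain: the further forbidden labels and the contradiction from a kill
unit.
-/

set_option autoImplicit false
set_option linter.unusedSectionVars false

namespace CLB.H86

open Finset Classical
open H3DA (Q neg nr)
open CLB.H95
open CLB.H3 (CExt Cat IsTwo cat_structure)

variable {V : Type*} {H : SimpleGraph V} {R : V → Bool} {k : ℕ} {X Y : ℤ → V}
  {m : ℕ} {z c : ℕ → V}

/-- The unit `u` has at most one label for which the caterpillar can become tight. -/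
def KillU (k : ℕ) (x y : ℕ → V) (m : ℕ) (c : ℕ → V) (f : V → Q) (u : ℕ) : Prop :=
  ∀ D D' g g', Same u g g' → Tight D (fun j => lbl k x y g f (c j)) m →
    Tight D' (fun j => lbl k x y g' f (c j)) m → g u = g' u

/-- The units as a chain. -/
def xN (X : ℤ → V) : ℕ → V := fun i => X i

/-- The labels `t` of unit `u` for which the caterpillar can become tight. -/
noncomputable def killS (k : ℕ) (x y : ℕ → V) (m : ℕ) (c : ℕ → V) (f : V → Q) (u : ℕ) (g : ℕ → Q) :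
    Finset Q :=
  univ.filter (fun t => ∃ D g', Same u g g' ∧ g' u = t ∧ Tight D (fun j => lbl k x y g' f (c j)) m)

lemma killS_card {x y : ℕ → V} {f : V → Q} {u : ℕ} (hu : KillU k x y m c f u) (g : ℕ → Q) :
    (killS k x y m c f u g).card ≤ 1 := by
  refine Finset.card_le_one.2 fun a ha b hb => ?_
  unfold killS at ha hb
  simp only [mem_filter, mem_univ, true_and] at ha hb
  obtain ⟨D, g1, s1, e1, t1⟩ := ha
  obtain ⟨D', g2, s2, e2, t2⟩ := hb
  rw [← e1, ← e2]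
  exact hu D D' g1 g2 (s1.symm.trans s2) t1 t2

lemma killS_congr {x y : ℕ → V} {f : V → Q} {u : ℕ} {g g' : ℕ → Q} (hs : Same u g g') :
    killS k x y m c f u g = killS k x y m c f u g' := by
  unfold killS
  ext t
  simp only [mem_filter, mem_univ, true_and]
  constructor
  · rintro ⟨D, g1, s1, e1, t1⟩; exact ⟨D, g1, hs.symm.trans s1, e1, t1⟩
  · rintro ⟨D, g1, s1, e1, t1⟩; exact ⟨D, g1, hs.trans s1, e1, t1⟩

lemma not_tight_of_killS {x y : ℕ → V} {f : V → Q} {u : ℕ} {g : ℕ → Q}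
    (h : g u ∉ killS k x y m c f u g) (D : Ty) : ¬ Tight D (fun j => lbl k x y g f (c j)) m := by
  intro ht
  apply h
  unfold killS
  simp only [mem_filter, mem_univ, true_and]
  exact ⟨D, g, Same.rfl', rfl, ht⟩

/-- A conflict with an earlier unit at `X n`. -/
def LC (H : SimpleGraph V) (R : V → Bool) (k : ℕ) (X Y : ℤ → V) (v : V) (n : ℕ) : Prop :=
  3 ≤ n ∧ n + 1 ≤ k ∧ v = X n ∧ ∃ u, ¬ Cov H R u ∧ H.Adj u (Y ((n : ℤ) - 2)) ∧ H.Adj u (X n)

/-- The far leaf `v` has its partner `b` outside the chain. -/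
def FC (X Y : ℤ → V) (m : ℕ) (c : ℕ → V) (v b : V) : Prop :=
  ¬ InZ X Y b ∧ ((v = c m ∧ b = c (m + 1)) ∨ (v = c (m + 1) ∧ b = c m))

/-- The further forbidden labels. -/
noncomputable def kap (H : SimpleGraph V) (R : V → Bool) (k : ℕ) (X Y : ℤ → V) (m : ℕ) (c : ℕ → V)
    (f : V → Q) (w : V) (u : ℕ) (v : V) (g : ℕ → Q) : Finset Q :=
  if v = w then killS k (xN X) (xN Y) m c f u g
  else if ∃ n, LC H R k X Y v n then univ.filter (fun t => ∃ n, LC H R k X Y v n ∧ t = g (n - 2))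
  else univ.filter (fun t => ∃ b, FC X Y m c v b ∧ ∃ i, 1 ≤ i ∧ i ≤ k ∧
    ((v = X i ∧ sg i t = neg (f b)) ∨ (v = Y i ∧ neg (sg i t) = neg (f b))))

/-- A kill witness. -/
structure KW (H : SimpleGraph V) (R : V → Bool) (k : ℕ) (X Y : ℤ → V) (m : ℕ) (c : ℕ → V) (w : V)
    (u : ℕ) : Prop where
  u1 : 1 ≤ u
  uk : u + 1 ≤ k
  u2 : u ≠ 2
  prt : Prt m c w
  wu : w = X u ∨ w = Y u
  w0 : w ≠ c 0
  nl : ∀ n, ¬ LC H R k X Y w n
  nf : ∀ b, ¬ FC X Y m c w b

lemma sg_inj {i : ℕ} {a b : Q} (h : sg i a = sg i b) : a = b := by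
  have := congrArg (sg i) h
  rwa [sg_sg, sg_sg] at this

lemma neg_inj' {a b : Q} (h : neg a = neg b) : a = b := by
  have := congrArg neg h
  rwa [H3DA.neg_neg, H3DA.neg_neg] at this

section

variable [Fintype V]

lemma xN_apply (X : ℤ → V) (i : ℕ) : xN X i = X i := rfl

lemma LC_unique (cc : CC H R k X Y) {v : V} {n n' : ℕ} (h : LC H R k X Y v n)
    (h' : LC H R k X Y v n') : n = n' := by
  obtain ⟨a1, a2, a3, -⟩ := h
  obtain ⟨b1, b2, b3, -⟩ := h'
  by_contra hne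
  rcases Nat.lt_or_gt_of_ne hne with hlt | hlt
  · exact cc.neX (i := n) (j := n') (by omega) (by omega) (a3.symm.trans b3)
  · exact cc.neX (i := n') (j := n) (by omega) (by omega) (b3.symm.trans a3)

lemma kap_card (hG : ClassC H R) (cc : CC H R k X Y) (hcat : Cat H R m z c) (hm : 2 ≤ m) {f : V → Q}
    {w : V} {u : ℕ}
    (hu : KillU k (xN X) (xN Y) m c f u) (v : V) (g : ℕ → Q) : (kap H R k X Y m c f w u v g).card ≤ 1 := by
  unfold kap
  split_ifs with h1 h2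
  · exact killS_card hu g
  · refine Finset.card_le_one.2 fun a ha b hb => ?_
    simp only [mem_filter, mem_univ, true_and] at ha hb
    obtain ⟨n, h3, rfl⟩ := ha
    obtain ⟨n', h4, rfl⟩ := hb
    rw [LC_unique cc h3 h4]
  · refine Finset.card_le_one.2 fun a ha b hb => ?_
    simp only [mem_filter, mem_univ, true_and] at ha hb
    obtain ⟨d, hd, i, i1, i2, hi⟩ := ha
    obtain ⟨d', hd', j, j1, j2, hj⟩ := hb
    have hdd : d = d' := by
      rcases hd.2 with ⟨e1, e2⟩ | ⟨e1, e2⟩ <;> rcases hd'.2 with ⟨e3, e4⟩ | ⟨e3, e4⟩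
      · rw [e2, e4]
      · exact absurd (e1.symm.trans e3) hcat.nem
      · exact absurd (e3.symm.trans e1) hcat.nem
      · rw [e2, e4]
    have hij : i = j := by
      by_contra hne
      rcases hi with ⟨e1, -⟩ | ⟨e1, -⟩ <;> rcases hj with ⟨e2, -⟩ | ⟨e2, -⟩
      · rcases Nat.lt_or_gt_of_ne hne with hlt | hlt
        · exact cc.neX (i := i) (j := j) (by omega) (by omega) (e1.symm.trans e2)
        · exact cc.neX (i := j) (j := i) (by omega) (by omega) (e2.symm.trans e1)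
      · exact cc.xy _ _ (e1.symm.trans e2)
      · exact cc.xy _ _ (e2.symm.trans e1)
      · rcases Nat.lt_or_gt_of_ne hne with hlt | hlt
        · exact cc.neY (i := i) (j := j) (by omega) (by omega) (e1.symm.trans e2)
        · exact cc.neY (i := j) (j := i) (by omega) (by omega) (e2.symm.trans e1)
    subst hdd hij
    rcases hi with ⟨e1, e3⟩ | ⟨e1, e3⟩ <;> rcases hj with ⟨e2, e4⟩ | ⟨e2, e4⟩
    · exact sg_inj (e3.trans e4.symm)
    · exact absurd (e1.symm.trans e2) (cc.xy _ _)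
    · exact absurd (e2.symm.trans e1) (cc.xy _ _)
    · exact sg_inj (neg_inj' (e3.trans e4.symm))

/-- Static caterpillars have no vertex with two neighbours in the chain. -/
lemma stat_no2 {m' : ℕ} {z' c' : ℕ → V} (hcat : Cat H R m' z' c') (hs : StatZ X Y m' c')
    (cc : CC H R k X Y) {i : ℕ} (h1 : 1 ≤ i) (h2 : i ≤ m') {a b : V} (hab : a ≠ b) (ha : InZ X Y a)
    (hb : InZ X Y b) (haz : H.Adj (z' i) a) (hbz : H.Adj (z' i) b) : False := by
  obtain ⟨p, hp, e1, e2⟩ := port_exists hcat h1 h2 (cc.cov ha) haz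
  obtain ⟨q, hq, e3, e4⟩ := port_exists hcat h1 h2 (cc.cov hb) hbz
  subst e1 e3
  have hpq : p ≠ q := fun h => hab (by rw [h])
  by_cases hm : m' = 1
  · exact hpq (hs.1 hm p q (by omega) (by omega) ha hb)
  · have hp' := hcat.pos
    obtain ⟨s1, s2, -⟩ := hs.2 (by omega)
    have : (p = 0 ∧ q = 1) ∨ (p = 1 ∧ q = 0) ∨ (p = m' ∧ q = m' + 1) ∨ (p = m' + 1 ∧ q = m') := by
      unfold cl at e2 e4
      split_ifs at e2 e4 <;> omega
    rcases this with ⟨rfl, rfl⟩ | ⟨rfl, rfl⟩ | ⟨rfl, rfl⟩ | ⟨rfl, rfl⟩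
    · exact s1 ⟨ha, hb⟩
    · exact s1 ⟨hb, ha⟩
    · exact s2 ⟨ha, hb⟩
    · exact s2 ⟨hb, ha⟩

/-- The exceptional vertices. -/
def ES (H : SimpleGraph V) (R : V → Bool) (X Y : ℤ → V) (m : ℕ) (z : ℕ → V) : Set V :=
  cSupp m z ∪ {v | ¬ Cov H R v ∧ ∃ a b, a ≠ b ∧ InZ X Y a ∧ InZ X Y b ∧ H.Adj v a ∧ H.Adj v b}

lemma cst_zero {Φ : V → V → Finset Q} {E : Set V} (hΦ : ∀ v z, z ∈ E → Φ v z = ∅) {v : V}
    (h : ∀ u, H.Adj v u → ¬ Cov H R u → u ∈ E) : cst H R Φ v = 0 := by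
  unfold cst
  refine Finset.sum_eq_zero fun u hu => ?_
  rw [mem_prt] at hu
  rw [hΦ v u (h u hu.1 hu.2), Finset.card_empty]

/-- Ports of the caterpillar are uncharged. -/
lemma cst_port (hG : ClassC H R) (cc : CC H R k X Y) (hcat : Cat H R m z c) {Φ : V → V → Finset Q}
    {E : Set V} (hΦ : ∀ v z, z ∈ E → Φ v z = ∅) (hE : cSupp m z ⊆ E) {v : V} (hv : InZ X Y v)
    (hp : Prt m c v) : cst H R Φ v = 0 := by
  refine cst_zero hΦ (fun u hu hu' => hE ?_)
  obtain ⟨j, hj, rfl⟩ := hp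
  have a1 := cl_mem hcat.pos hj
  rw [cc.unc_unique hG hv hu (cat_adj_cl hcat hj) hu' (hcat.unc _ a1.1 a1.2)]
  exact mem_cSupp a1.1 a1.2

/-- Vertices with a neighbour seeing two vertices of the chain are uncharged. -/
lemma cst_pair (hG : ClassC H R) (cc : CC H R k X Y) {Φ : V → V → Finset Q}
    (hΦ : ∀ v z', z' ∈ ES H R X Y m z → Φ v z' = ∅) {a b u : V} (hab : a ≠ b) (ha : InZ X Y a)
    (hb : InZ X Y b) (hu : ¬ Cov H R u) (hua : H.Adj u a) (hub : H.Adj u b) : cst H R Φ a = 0 := by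
  refine cst_zero hΦ (fun u' hu' hu'' => Or.inr ⟨hu'', ?_⟩)
  rw [cc.unc_unique hG ha hu' hua.symm hu'' hu]
  exact ⟨a, b, hab, ha, hb, hua, hub⟩

end

end CLB.H86
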