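import Pool.Agent.Helper86_DA.Core

/-!
One caterpillar with a fork in the chain: the contradiction from a closed walk which avoids the further
forbidden labels.
-/

set_option autoImplicit false
set_option linter.unusedSectionVars false

namespace CLB.H86

open Finset Classical
open H3DA (Q neg nr)
open CLB.H95
open CLB.H3 (CExt Cat IsTwo cat_structure he_of_unc)

variable {V : Type} [Fintype V] {H : SimpleGraph V} {R : V → Bool} {k : ℕ} {X Y : ℤ → V}
  {m : ℕ} {z c : ℕ → V}

namespace KS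

lemma p0 (ks : KS H R k X Y m z c) : Prt m c (Y (-1)) := ⟨0, by omega, ks.e0⟩
lemma p1 (ks : KS H R k X Y m z c) : Prt m c (X 1) := ⟨1, by have := ks.m3; omega, ks.e1⟩

lemma nX0 (ks : KS H R k X Y m z c) : ¬ Prt m c (X 0) := by
  have := (ks.full (-1)).1 ks.p0
  rwa [show (-1 : ℤ) + 1 = 0 by ring] at this

lemma nY0 (ks : KS H R k X Y m z c) : ¬ Prt m c (Y 0) := by
  intro h
  have := (ks.full 0).1 h
  rw [zero_add] at this
  exact this ks.p1

lemma Xk (ks : KS H R k X Y m z c) : X (k : ℤ) = X 0 := by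
  have := ks.cc.perX 0
  rwa [zero_add] at this

lemma Yk (ks : KS H R k X Y m z c) : Y (k : ℤ) = Y 0 := by
  have := ks.cc.perY 0
  rwa [zero_add] at this

lemma Yk1 (ks : KS H R k X Y m z c) : Y ((k - 1 : ℕ) : ℤ) = Y (-1) := by
  have := ks.k4
  exact (ks.cc.eqX (i := ((k - 1 : ℕ) : ℤ)) (j := -1) ⟨1, by omega⟩).2

lemma Xk1 (ks : KS H R k X Y m z c) : X ((k - 1 : ℕ) : ℤ) = X (-1) := by
  have := ks.k4
  exact (ks.cc.eqX (i := ((k - 1 : ℕ) : ℤ)) (j := -1) ⟨1, by omega⟩).1

lemma Yk2 (ks : KS H R k X Y m z c) : Y ((k - 2 : ℕ) : ℤ) = Y (-2) := by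
  have := ks.k4
  exact (ks.cc.eqX (i := ((k - 2 : ℕ) : ℤ)) (j := -2) ⟨1, by omega⟩).2

lemma Xk2 (ks : KS H R k X Y m z c) : X ((k - 2 : ℕ) : ℤ) = X (-2) := by
  have := ks.k4
  exact (ks.cc.eqX (i := ((k - 2 : ℕ) : ℤ)) (j := -2) ⟨1, by omega⟩).1

end KS

/-- The further forbidden labels satisfy the requirements. -/
theorem kap_Kap (hG : ClassC H R) (ks : KS H R k X Y m z c) {w : V} {u : ℕ}
    (kw : KW H R k X Y m c w u) {f : V → Q} (hu : KillU k (xN X) (xN Y) m c f u)
    {Φ : V → V → Finset Q} (h2 : ∀ v z', (Φ v z').card ≤ 2)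
    (hΦ : ∀ v z', z' ∈ ES H R X Y m z → Φ v z' = ∅) :
    Kap H R k (xN X) (xN Y) Φ (kap H R k X Y m c f w u) := by
  have cc := ks.cc
  have hk4 := ks.k4
  have hm3 := ks.m3
  have hsub : cSupp m z ⊆ ES H R X Y m z := fun v hv => Or.inl hv
  have hport : ∀ v, InZ X Y v → Prt m c v → cst H R Φ v = 0 := fun v hv hp =>
    cst_port hG cc ks.cat hΦ hsub hv hp
  -- index of `w`
  have hwX : ∀ i : ℕ, 1 ≤ i → i ≤ k → X i = w → i = u := by
    intro i h1 h2 e
    have := kw.u1
    have := kw.uk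
    by_contra hne
    rcases kw.wu with h | h
    · rw [h] at e
      rcases Nat.lt_or_gt_of_ne hne with hlt | hlt
      · exact cc.neX (i := i) (j := u) (by omega) (by omega) e
      · exact cc.neX (i := u) (j := i) (by omega) (by omega) e.symm
    · rw [h] at e; exact cc.xy _ _ e
  have hwY : ∀ i : ℕ, 1 ≤ i → i ≤ k → Y i = w → i = u := by
    intro i h1 h2 e
    have := kw.u1
    have := kw.uk
    by_contra hne
    rcases kw.wu with h | h
    · rw [h] at e; exact cc.xy _ _ e.symm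
    · rw [h] at e
      rcases Nat.lt_or_gt_of_ne hne with hlt | hlt
      · exact cc.neY (i := i) (j := u) (by omega) (by omega) e
      · exact cc.neY (i := u) (j := i) (by omega) (by omega) e.symm
  -- conflict indices
  have hLX : ∀ i n : ℕ, 1 ≤ i → i ≤ k → LC H R k X Y (X i) n → n = i := by
    rintro i n h1 h2 ⟨a1, a2, a3, -⟩
    by_contra hne
    rcases Nat.lt_or_gt_of_ne hne with hlt | hlt
    · exact cc.neX (i := n) (j := i) (by omega) (by omega) a3.symm
    · exact cc.neX (i := i) (j := n) (by omega) (by omega) a3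
  have hLY : ∀ i : ℤ, ∀ n : ℕ, ¬ LC H R k X Y (Y i) n := by
    rintro i n ⟨a1, a2, a3, -⟩
    exact cc.xy _ _ a3.symm
  -- dependence
  have hdep : ∀ v g g', (v = w → Same u g g') → (∀ n, LC H R k X Y v n → g (n - 2) = g' (n - 2)) →
      kap H R k X Y m c f w u v g = kap H R k X Y m c f w u v g' := by
    intro v g g' hs1 hs2
    unfold kap
    split_ifs with h1 h2
    · exact killS_congr (hs1 h1)
    · ext t
      simp only [mem_filter, mem_univ, true_and]
      constructor
      · rintro ⟨n, hn, rfl⟩; exact ⟨n, hn, hs2 n hn⟩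
      · rintro ⟨n, hn, rfl⟩; exact ⟨n, hn, (hs2 n hn).symm⟩
    · rfl
  -- nonempty only at uncharged vertices
  have hun : ∀ v, InZ X Y v → ∀ g, kap H R k X Y m c f w u v g ≠ ∅ → cst H R Φ v = 0 := by
    intro v hv g hne
    unfold kap at hne
    split_ifs at hne with h1 h2
    · rw [h1] at hv ⊢
      exact hport _ hv kw.prt
    · obtain ⟨n, a1, a2, a3, u', a4, a5, a6⟩ := h2
      rw [a3]
      exact cst_pair hG cc hΦ (cc.xy _ _) (inZ_X X Y _) (inZ_Y X Y _) a4 a6 a5
    · obtain ⟨t, ht⟩ := Finset.nonempty_iff_ne_empty.2 hne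
      simp only [mem_filter, mem_univ, true_and] at ht
      obtain ⟨b, ⟨-, hb⟩, -⟩ := ht
      refine hport v hv ?_
      rcases hb with ⟨e, -⟩ | ⟨e, -⟩
      · exact ⟨m, by omega, e.symm⟩
      · exact ⟨m + 1, le_rfl, e.symm⟩
  -- empty at vertices which are not ports
  have hempty : ∀ v, ¬ Prt m c v → (∀ n, ¬ LC H R k X Y v n) → ∀ g,
      kap H R k X Y m c f w u v g = ∅ := by
    intro v hp hL g
    unfold kap
    split_ifs with h1 h2
    · exact absurd (h1 ▸ kw.prt) hp
    · obtain ⟨n, hn⟩ := h2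
      exact absurd hn (hL n)
    · refine Finset.eq_empty_iff_forall_notMem.2 fun t ht => ?_
      simp only [mem_filter, mem_univ, true_and] at ht
      obtain ⟨b, ⟨-, hb⟩, -⟩ := ht
      apply hp
      rcases hb with ⟨e, -⟩ | ⟨e, -⟩
      · exact ⟨m, by omega, e.symm⟩
      · exact ⟨m + 1, le_rfl, e.symm⟩
  refine ⟨h2, fun v g => kap_card hG cc ks.cat (by omega) hu v g, ?_, ?_, ?_, ?_, ?_, ?_, ?_, ?_⟩
  · intro i i1 i2 g g' hs
    refine ⟨hdep _ g g' (fun e => ?_) (fun n hn => ?_), hdep _ g g' (fun e => ?_) (fun n hn => ?_)⟩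
    · rw [← hwX i i1 i2 e]; exact hs
    · have e := hLX i n i1 i2 hn
      have h3 := hn.1
      exact hs _ (by omega) (by omega)
    · rw [← hwY i i1 i2 e]; exact hs
    · exact absurd hn (hLY _ n)
  · intro i i1 i2 g
    exact ⟨hun _ (inZ_X X Y _) g, hun _ (inZ_Y X Y _) g⟩
  · intro g g'
    refine ⟨hdep _ g g' (fun e => ?_) (fun n hn => ?_), hdep _ g g' (fun e => ?_) (fun n hn => ?_)⟩
    · exact absurd (hwX 2 (by omega) (by omega) e).symm kw.u2
    · have e := hLX 2 n (by omega) (by omega) hn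
      have h3 := hn.1
      omega
    · exact absurd (hwY 2 (by omega) (by omega) e).symm kw.u2
    · exact absurd hn (hLY _ n)
  · intro g
    refine hempty _ ?_ (fun n hn => ?_) g
    · show ¬ Prt m c (X (k : ℤ))
      rw [ks.Xk]; exact ks.nX0
    · have e := hLX k n (by omega) le_rfl hn
      have h3 := hn.2.1
      omega
  · intro g
    refine hempty _ ?_ (fun n hn => hLY _ n hn) g
    show ¬ Prt m c (Y (k : ℤ))
    rw [ks.Yk]; exact ks.nY0
  · show cst H R Φ (Y ((k - 1 : ℕ) : ℤ)) = 0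
    rw [ks.Yk1]
    exact hport _ (inZ_Y X Y _) ks.p0
  · intro g
    show kap H R k X Y m c f w u (Y ((k - 1 : ℕ) : ℤ)) g = ∅
    rw [ks.Yk1]
    unfold kap
    split_ifs with h1 h2
    · exact absurd (ks.e0.trans h1).symm kw.w0
    · obtain ⟨n, hn⟩ := h2
      exact absurd hn (hLY _ n)
    · refine Finset.eq_empty_iff_forall_notMem.2 fun t ht => ?_
      simp only [mem_filter, mem_univ, true_and] at ht
      obtain ⟨b, ⟨-, hb⟩, -⟩ := ht
      have hin : InZ X Y (c 0) := by rw [ks.e0]; exact inZ_Y X Y _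
      rcases hb with ⟨e, -⟩ | ⟨e, -⟩
      · have := cc.port_inj hG ks.cat (i := 0) (j := m) (by omega) (by omega) hin (ks.e0.trans e)
        omega
      · have := cc.port_inj hG ks.cat (i := 0) (j := m + 1) (by omega) (by omega) hin (ks.e0.trans e)
        omega
  · show cst H R Φ (X ((1 : ℕ) : ℤ)) = 0
    exact hport _ (inZ_X X Y _) ks.p1

/-- An uncovered vertex between `Y j` and `X (j + 2)`, one of them not a port. -/
lemma two_of (hG : ClassC H R) (hc : Crit H R) (ks : KS H R k X Y m z c) {v : V} (hv : ¬ Cov H R v)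
    {j : ℤ} (h1 : H.Adj v (Y j)) (h2 : H.Adj v (X (j + 2)))
    (hp : ¬ Prt m c (Y j) ∨ ¬ Prt m c (X (j + 2))) : IsTwo H R v (Y j) (X (j + 2)) := by
  have cc := ks.cc
  have hne : Y j ≠ X (j + 2) := (cc.xy _ _).symm
  rcases cat_structure hG hc hv with h | ⟨a, b, hT⟩ | ⟨m', z', c', hC, i, i1, i2, hi⟩
  · exact absurd h1 (h _)
  · have g1 := hT.2.2.2.2.2.2 _ h1
    have g2 := hT.2.2.2.2.2.2 _ h2
    rcases g1 with g1 | g1 <;> rcases g2 with g2 | g2
    · exact absurd (g1.trans g2.symm) hne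
    · rw [g1, g2]; exact hT
    · rw [g1, g2]; exact isTwo_symm hT
    · exact absurd (g1.trans g2.symm) hne
  · exfalso
    by_cases he : cSupp m' z' = cSupp m z
    · -- both are ports
      have hvm : v ∈ cSupp m z := by rw [← he, ← hi]; exact mem_cSupp i1 i2
      obtain ⟨l, l1, l2, l3⟩ := hvm
      rw [← l3] at h1 h2
      rcases hp with hp | hp
      · obtain ⟨p, hp1, hp2, -⟩ := port_exists ks.cat l1 l2 (cc.covY j) h1
        exact hp ⟨p, hp1, hp2⟩
      · obtain ⟨p, hp1, hp2, -⟩ := port_exists ks.cat l1 l2 (cc.covX (j + 2)) h2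
        exact hp ⟨p, hp1, hp2⟩
    · rw [← hi] at h1 h2
      exact stat_no2 hC (ks.oth m' z' c' hC he) cc i1 i2 hne (inZ_Y X Y _) (inZ_X X Y _) h1 h2

/-- The contradiction. -/
theorem core_fin (tn : TwoNH) (hG : ClassC H R) (hc : Crit H R) (ks : KS H R k X Y m z c) {w : V}
    {u : ℕ} (kw : KW H R k X Y m c w u) {f : V → Q} (hf : OffC H R k (xN X) (xN Y) f)
    {v₀ z₀ : V} {Φ : V → V → Finset Q}
    (hΦ : Forb H R k (xN X) (xN Y) f (ES H R X Y m z) v₀ z₀ Φ) {mu : ℕ → Q}
    (hmem : ∀ i, 1 ≤ i → i ≤ k → mu i ∈ lst H R (xN X) (xN Y) Φ i ∧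
      mu i ∉ kap H R k X Y m c f w u (xN X i) mu ∧ mu i ∉ kap H R k X Y m c f w u (xN Y i) mu)
    (hw : ∀ i, 1 ≤ i → i < k → nr (mu i) (mu (i + 1)) = true) (hcyc : nr (mu k) (mu 1) = true)
    (h1 : mu (k - 1) ≠ mu 1) (hno : ¬ L2 H R X Y 0) (hcr : L2 H R X Y (-2) → mu k ≠ mu (k - 2)) :
    False := by
  have cc := ks.cc
  have hk4 := ks.k4
  have hm3 := ks.m3
  have heven := cc.even
  have h : Chn H R k (xN X) (xN Y) := cc.chn
  have hl : Lk H R (xN Y k) (xN X 1) := cc.lkc
  have hin : ∀ v, InC k (xN X) (xN Y) v ↔ InZ X Y v := fun v => cc.inC_iff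
  set L : V → Q := lbl k (xN X) (xN Y) mu f with hL
  have LX : ∀ i : ℕ, 1 ≤ i → i ≤ k → L (X i) = sg i (mu i) := fun i i1 i2 => lbl_x h i1 i2
  have LY : ∀ i : ℕ, 1 ≤ i → i ≤ k → L (Y i) = neg (sg i (mu i)) := fun i i1 i2 => lbl_y h i1 i2
  have Lo : ∀ v, ¬ InZ X Y v → L v = f v := fun v hv => lbl_out (fun h' => hv ((hin v).1 h'))
  -- two neighbours of an uncovered vertex
  have hconf1 : ∀ v, ¬ Cov H R v → ∀ j, H.Adj v (Y j) → H.Adj v (X (j + 2)) →
      L (Y j) ≠ neg (L (X (j + 2))) := by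
    intro v hv j hj1 hj2
    obtain ⟨n, n1, n2, n3⟩ := cc.repr j
    have e1 : Y j = Y n := (cc.eqX n3).2
    have e2 : X (j + 2) = X (n + 2) := by
      refine (cc.eqX ?_).1
      rwa [show j + 2 - ((n : ℤ) + 2) = j - n by ring]
    rw [e1, e2]
    rw [e1] at hj1
    rw [e2] at hj2
    have hcase : n + 3 ≤ k ∨ n + 2 = k ∨ n + 1 = k ∨ n = k := by omega
    rcases hcase with hn | hn | hn | hn
    · -- an inner conflict
      have e3 : X ((n : ℤ) + 2) = X ((n + 2 : ℕ) : ℤ) := by push_cast; rfl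
      have hLC : LC H R k X Y (X ((n + 2 : ℕ) : ℤ)) (n + 2) := by
        refine ⟨by omega, by omega, rfl, v, hv, ?_, ?_⟩
        · rw [show ((n + 2 : ℕ) : ℤ) - 2 = n by push_cast; ring]; exact hj1
        · rw [← e3]; exact hj2
      have g1 := (hmem (n + 2) (by omega) (by omega)).2.1
      have g2 : X ((n + 2 : ℕ) : ℤ) ≠ w := fun e => kw.nl (n + 2) (e ▸ hLC)
      have g3 : mu (n + 2) ≠ mu n := by
        intro e
        apply g1
        show mu (n + 2) ∈ kap H R k X Y m c f w u (X ((n + 2 : ℕ) : ℤ)) mu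
        unfold kap
        rw [if_neg g2, if_pos ⟨n + 2, hLC⟩]
        simp only [mem_filter, mem_univ, true_and]
        exact ⟨n + 2, hLC, by rw [Nat.add_sub_cancel]; exact e⟩
      rw [e3, LY n n1 n2, LX (n + 2) (by omega) (by omega)]
      intro e
      have e4 := neg_inj' e
      rw [sg_succ, sg_succ, H3DA.neg_neg] at e4
      exact g3 (sg_inj e4).symm
    · -- the crossing
      have e3 : X ((n : ℤ) + 2) = X k := by rw [← hn]; push_cast; rfl
      have e4 : Y (n : ℤ) = Y (-2) := (cc.eqX (i := n) (j := -2) ⟨1, by omega⟩).2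
      have hT : L2 H R X Y (-2) := by
        refine ⟨v, two_of hG hc ks hv ?_ ?_ (Or.inr ?_)⟩
        · rw [← e4]; exact hj1
        · rw [show (-2 : ℤ) + 2 = 0 by ring, ← ks.Xk, ← e3]; exact hj2
        · rw [show (-2 : ℤ) + 2 = 0 by ring]; exact ks.nX0
      have g3 := hcr hT
      rw [e3, LY n n1 n2, LX k (by omega) le_rfl]
      intro e
      have e5 := neg_inj' e
      have e6 : n = k - 2 := by omega
      rw [← hn, sg_succ, sg_succ, H3DA.neg_neg, hn] at e5
      exact g3 (by rw [← e6]; exact (sg_inj e5).symm)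
    · -- the first fork
      have e3 : X ((n : ℤ) + 2) = X 1 := (cc.eqX (i := (n : ℤ) + 2) (j := 1) ⟨1, by omega⟩).1
      have e4 : X (1 : ℤ) = X ((1 : ℕ) : ℤ) := rfl
      have e6 : n = k - 1 := by omega
      rw [e3, e4, LY n n1 n2, LX 1 le_rfl (by omega), sg_odd (show n % 2 = 1 by omega),
        sg_odd (show 1 % 2 = 1 by rfl)]
      intro e
      rw [H3DA.neg_neg, H3DA.neg_neg] at e
      exact h1 (by rw [← e6]; exact e)
    · -- excluded
      exfalso
      apply hno
      have e3 : X ((n : ℤ) + 2) = X (0 + 2) := (cc.eqX (i := (n : ℤ) + 2) (j := 0 + 2) ⟨1, by omega⟩).1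
      have e4 : Y (n : ℤ) = Y 0 := (cc.eqX (i := n) (j := 0) ⟨1, by omega⟩).2
      refine ⟨v, two_of hG hc ks hv ?_ ?_ (Or.inl ks.nY0)⟩
      · rw [← e4]; exact hj1
      · rw [← e3]; exact hj2
  have hconf : ∀ v, ¬ Cov H R v → ∀ a b, a ≠ b → InZ X Y a → InZ X Y b → H.Adj v a → H.Adj v b →
      L a ≠ neg (L b) := by
    intro v hv a b hab ha hb hva hvb
    obtain ⟨i, ⟨rfl, rfl⟩ | ⟨rfl, rfl⟩⟩ := tn V H R k X Y hG cc v a b hv hab hva hvb ha hb
    · exact hconf1 v hv i hva hvb
    · exact H3DA.ne_neg_symm (hconf1 v hv i hvb hva)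
  -- the caterpillar
  have hcat := ks.cat
  have zu : ∀ i, 1 ≤ i → i ≤ m → ¬ Cov H R (z i) := hcat.unc
  -- a far leaf in the chain whose partner is outside
  have hfar : ∀ a b, FC X Y m c a b → InZ X Y a → L a ≠ neg (L b) := by
    intro a b hFC ha
    have hab : H.Adj (z m) a ∧ H.Adj (z m) b ∧ (a = c m ∨ a = c (m + 1)) := by
      rcases hFC.2 with ⟨e1, e2⟩ | ⟨e1, e2⟩
      · rw [e1, e2]; exact ⟨hcat.adjc m (by omega) le_rfl, hcat.adjm, Or.inl rfl⟩
      · rw [e1, e2]; exact ⟨hcat.adjm, hcat.adjc m (by omega) le_rfl, Or.inr rfl⟩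
    have hnw : a ≠ w := fun e => kw.nf b (e ▸ hFC)
    have hnL : ¬ ∃ n, LC H R k X Y a n := by
      rintro ⟨n, n1, n2, n3, v, v1, v2, v3⟩
      rw [← n3] at v3
      have e := cc.unc_unique hG ha v3.symm hab.1.symm v1 (zu m (by omega) le_rfl)
      subst e
      obtain ⟨p, p1, p2, p3⟩ := port_exists hcat (by omega) le_rfl (cc.covY _) v2
      have hp : p = m ∨ p = m + 1 := by
        unfold cl at p3; split_ifs at p3 <;> omega
      have hya : Y ((n : ℤ) - 2) ≠ a := by rw [n3]; exact (cc.xy _ _).symm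
      have hyb : Y ((n : ℤ) - 2) ≠ b := fun e => hFC.1 (e ▸ inZ_Y X Y _)
      rcases hFC.2 with ⟨e1, e2⟩ | ⟨e1, e2⟩ <;> rcases hp with rfl | rfl
      · exact hya (p2.symm.trans e1.symm)
      · exact hyb (p2.symm.trans e2.symm)
      · exact hyb (p2.symm.trans e2.symm)
      · exact hya (p2.symm.trans e1.symm)
    have hk' : ∀ i : ℕ, 1 ≤ i → i ≤ k → (a = X i ∨ a = Y i) → L a ≠ neg (f b) := by
      intro i i1 i2 hai he
      rcases hai with rfl | rfl
      · have g1 := (hmem i i1 i2).2.1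
        apply g1
        show mu i ∈ kap H R k X Y m c f w u (X i) mu
        unfold kap
        rw [if_neg hnw, if_neg hnL]
        simp only [mem_filter, mem_univ, true_and]
        exact ⟨b, hFC, i, i1, i2, Or.inl ⟨rfl, by rw [← LX i i1 i2]; exact he⟩⟩
      · have g1 := (hmem i i1 i2).2.2
        apply g1
        show mu i ∈ kap H R k X Y m c f w u (Y i) mu
        unfold kap
        rw [if_neg hnw, if_neg hnL]
        simp only [mem_filter, mem_univ, true_and]
        exact ⟨b, hFC, i, i1, i2, Or.inr ⟨rfl, by rw [← LY i i1 i2]; exact he⟩⟩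
    obtain ⟨i, i1, i2, hi⟩ := (hin a).2 ha
    rw [Lo b hFC.1]
    exact hk' i i1 i2 hi
  have hKext : CExt m (fun j => L (c j)) := by
    rw [cext_iff (by omega)]
    refine ⟨?_, ?_, fun D => ?_⟩
    · exact hconf (z 1) (zu 1 le_rfl (by omega)) _ _ hcat.ne0 (by rw [ks.e0]; exact inZ_Y X Y _)
        (by rw [ks.e1]; exact inZ_X X Y _) hcat.adj0 (hcat.adjc 1 le_rfl (by omega))
    · show L (c m) ≠ neg (L (c (m + 1)))
      by_cases ha : InZ X Y (c m)
      · by_cases hb : InZ X Y (c (m + 1))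
        · exact hconf (z m) (zu m (by omega) le_rfl) _ _ hcat.nem ha hb
            (hcat.adjc m (by omega) le_rfl) hcat.adjm
        · exact hfar _ _ ⟨hb, Or.inl ⟨rfl, rfl⟩⟩ ha
      · by_cases hb : InZ X Y (c (m + 1))
        · exact H3DA.ne_neg_symm (hfar _ _ ⟨ha, Or.inr ⟨rfl, rfl⟩⟩ hb)
        · rw [Lo _ ha, Lo _ hb]
          have hzn : ¬ InC k (xN X) (xN Y) (z m) := fun h' => zu m (by omega) le_rfl (h.cov h')
          have e1 := (hf _ _ (hcat.adjc m (by omega) le_rfl) hzn (fun h' => ha ((hin _).1 h'))).2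
            (he_of_unc (zu m (by omega) le_rfl) (hcat.adjc m (by omega) le_rfl)).2
          have e2 := (hf _ _ hcat.adjm hzn (fun h' => hb ((hin _).1 h'))).2
            (he_of_unc (zu m (by omega) le_rfl) hcat.adjm).2
          exact H3DA.nr_common e1 e2
    · have hu1 := kw.u1
      have huk := kw.uk
      have hg : mu u ∉ kap H R k X Y m c f w u w mu := by
        rcases kw.wu with e | e
        · have := (hmem u hu1 (by omega)).2.1
          rw [show xN X u = w from e.symm] at this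
          exact this
        · have := (hmem u hu1 (by omega)).2.2
          rw [show xN Y u = w from e.symm] at this
          exact this
      unfold kap at hg
      rw [if_pos rfl] at hg
      exact not_tight_of_killS hg D
  refine chain_contra hG hc h (Or.inl hl) hf (mu := mu) ?_
  refine fit_of_lists h hΦ (fun i i1 i2 => (hmem i i1 i2).1) hw (fun _ => hcyc) ?_ ?_
  · intro v a b hT ha hor
    have haZ := (hin a).1 ha
    have hbZ : InZ X Y b := by
      rcases hor with hE | hb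
      · rcases hE with hE | ⟨-, a', b', hab', ha', hb', hva, hvb⟩
        · obtain ⟨i, i1, i2, hi⟩ := hE
          exact absurd hT (fun hT => isTwo_not_cat hcat i1 i2 (hi ▸ hT))
        · rcases hT.2.2.2.2.2.2 _ hva with g1 | g1 <;> rcases hT.2.2.2.2.2.2 _ hvb with g2 | g2
          · exact absurd (g1.trans g2.symm) hab'
          · exact g2 ▸ hb'
          · exact g1 ▸ ha'
          · exact absurd (g1.trans g2.symm) hab'
      · exact (hin b).1 hb
    exact hconf v hT.1 a b hT.2.2.2.1 haZ hbZ hT.2.1 hT.2.2.1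
  · intro m' z' c' hC hex hor
    by_cases he : cSupp m' z' = cSupp m z
    · rw [cext_iff_fits hC, he, ← cext_iff_fits hcat]
      exact hKext
    · exfalso
      have hst := ks.oth m' z' c' hC he
      rcases hor with h3 | ⟨i, i1, i2, h3⟩
      · apply h3
        obtain ⟨s1, s2⟩ := hst
        refine ⟨fun hm' a b ha hb ha' hb' => s1 hm' a b ha hb ((hin _).1 ha') ((hin _).1 hb'),
          fun hm' => ?_⟩
        simp only [hin]
        exact s2 hm'
      · rcases h3 with h3 | ⟨-, a, b, hab, ha, hb, hva, hvb⟩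
        · exact he (cSupp_eq hC hcat (mem_cSupp i1 i2) h3)
        · exact stat_no2 hC hst cc i1 i2 hab ha hb hva hvb

end CLB.H86
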