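import Pool.Agent.Helper86_DA.Ast

/-!
Closed chains: the final case distinction.
-/

set_option autoImplicit false
set_option linter.unusedSectionVars false

namespace CLB.H86

open Finset Classical
open H3DA (Q neg nr)
open CLB.H95
open CLB.H3 (CExt Cat IsTwo mmS llS eU zs OpenFalse ClosedFalse pos)

/-- Module K2. -/
def K2H : Prop := ∀ (V : Type) [Fintype V] (H : SimpleGraph V) (R : V → Bool) (x y : ℕ → V),
  ClassC H R → Crit H R → Chn H R 2 x y → Lk H R (y 2) (x 1) → False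

section

variable {V : Type} [Fintype V] {H : SimpleGraph V} {R : V → Bool} {k : ℕ} {X Y : ℤ → V}

/-- The star with two ports exchanged. -/
lemma cat1_sw {z c : ℕ → V} (h : Cat H R 1 z c) :
    Cat H R 1 z (fun j => if j = 1 then c 2 else if j = 2 then c 1 else c j) where
  pos := h.pos
  inj := h.inj
  unc := h.unc
  cov j hj := by
    split_ifs with h1 h2
    · exact h.cov 2 le_rfl
    · exact h.cov 1 (by omega)
    · exact h.cov j hj
  adjz := h.adjz
  adjc i h1 h2 := by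
    have : i = 1 := by omega
    subst this
    exact h.adjm
  adj0 := h.adj0
  adjm := h.adjc 1 le_rfl le_rfl
  ne0 := h.ne1 rfl
  nem := h.nem.symm
  ne1 _ := h.ne0
  nbr i h1 h2 w hw := by
    have : i = 1 := by omega
    subst this
    rcases h.nbr 1 h1 h2 w hw with e | ⟨e1, e⟩ | ⟨e1, e⟩ | ⟨e1, e⟩ | ⟨e1, e⟩
    · exact Or.inr (Or.inr (Or.inl ⟨rfl, e⟩))
    · exact Or.inr (Or.inl ⟨rfl, e⟩)
    · exact Or.inl e
    · omega
    · omega

/-- A caterpillar without a fork in the chain is static. -/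
lemma stat_of_nofork (m2 : M2H) (hH : ClassC H R) (hc : Crit H R) (cc : CC H R k X Y) (hk : 4 ≤ k)
    {m : ℕ} {z c : ℕ → V} (hC : Cat H R m z c)
    (hno : ∀ z' c', Cat H R m z' c' → cSupp m z' = cSupp m z → InZ X Y (c' 0) → InZ X Y (c' 1) →
      False) : StatZ X Y m c := by
  have hrev := cat_rev hC
  have h01 : ¬ (InZ X Y (c 0) ∧ InZ X Y (c 1)) := fun h => hno z c hC rfl h.1 h.2
  have hm1 : ¬ (InZ X Y (c m) ∧ InZ X Y (c (m + 1))) := by
    intro h
    refine hno _ _ hrev cSupp_rev ?_ ?_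
    · show InZ X Y (c (m + 1 - 0))
      rw [Nat.sub_zero]; exact h.2
    · show InZ X Y (c (m + 1 - 1))
      rw [Nat.add_sub_cancel]; exact h.1
  refine ⟨fun hm i j hi hj h1 h2 => ?_, fun hm => ⟨h01, hm1, fun h1 h2 => ?_⟩⟩
  · subst hm
    have h02 : ¬ (InZ X Y (c 0) ∧ InZ X Y (c 2)) := by
      intro h
      exact hno z _ (cat1_sw hC) rfl h.1 h.2
    by_contra hne
    have : (i = 0 ∧ j = 1) ∨ (i = 0 ∧ j = 2) ∨ (i = 1 ∧ j = 0) ∨ (i = 1 ∧ j = 2) ∨ (i = 2 ∧ j = 0) ∨
      (i = 2 ∧ j = 1) := by omega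
    rcases this with ⟨rfl, rfl⟩ | ⟨rfl, rfl⟩ | ⟨rfl, rfl⟩ | ⟨rfl, rfl⟩ | ⟨rfl, rfl⟩ | ⟨rfl, rfl⟩
    · exact h01 ⟨h1, h2⟩
    · exact h02 ⟨h1, h2⟩
    · exact h01 ⟨h2, h1⟩
    · exact hm1 ⟨h1, h2⟩
    · exact h02 ⟨h2, h1⟩
    · exact hm1 ⟨h2, h1⟩
  · by_contra hlt
    have : m = 2 := by omega
    subst this
    obtain ⟨i, hi, h1⟩ : ∃ i ≤ 1, InZ X Y (c i) := by
      rcases h1 with h | h
      · exact ⟨0, by omega, h⟩
      · exact ⟨1, le_rfl, h⟩
    obtain ⟨j, hj, hj', h2⟩ : ∃ j, 2 ≤ j ∧ j ≤ 3 ∧ InZ X Y (c j) := by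
      rcases h2 with h | h
      · exact ⟨2, le_rfl, by omega, h⟩
      · exact ⟨3, by omega, le_rfl, h⟩
    rcases m2 V H R k X Y hH hc cc hk z c hC i j hi hj hj' h1 h2 with h | h
    · exact h01 h
    · exact hm1 h

/-- Number of ports. -/
lemma full_count (cc : CC H R k X Y) {m : ℕ} {c : ℕ → V}
    (hf : ∀ j, Prt m c (Y j) ↔ ¬ Prt m c (X (j + 1))) : k ≤ m + 2 := by
  have hch : ∀ n : ℕ, ∃ j, j ≤ m + 1 ∧ (c j = Y n ∨ c j = X (n + 1)) := by
    intro n
    by_cases h : Prt m c (Y n)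
    · obtain ⟨j, hj, e⟩ := h
      exact ⟨j, hj, Or.inl e⟩
    · have h2 : Prt m c (X (n + 1)) := by
        by_contra h3
        exact h ((hf n).2 h3)
      obtain ⟨j, hj, e⟩ := h2
      exact ⟨j, hj, Or.inr e⟩
  choose φ h1 h2 using hch
  have hinj : Function.Injective (fun n : Fin k => (⟨φ n, by have := h1 n; omega⟩ : Fin (m + 2))) := by
    intro a b hab
    have e : φ a = φ b := congrArg Fin.val hab
    have ha := h2 a
    have hb := h2 b
    rw [e] at ha
    by_contra hne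
    have hne' : (a : ℕ) ≠ b := fun h => hne (Fin.ext h)
    have haa := a.2
    have hbb := b.2
    rcases ha with ha | ha <;> rcases hb with hb | hb
    · have h3 := cc.injY _ _ (ha.symm.trans hb)
      rcases Nat.lt_or_gt_of_ne hne' with hlt | hlt
      · exact CC.not_dvd (by omega) (by omega) h3
      · have h4 := cc.injY _ _ (hb.symm.trans ha)
        exact CC.not_dvd (by omega) (by omega) h4
    · exact cc.xy _ _ (hb.symm.trans ha)
    · exact cc.xy _ _ (ha.symm.trans hb)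
    · have h3 := cc.injX _ _ (ha.symm.trans hb)
      rcases Nat.lt_or_gt_of_ne hne' with hlt | hlt
      · exact CC.not_dvd (k := k) (i := (a : ℕ) + 1) (j := (b : ℕ) + 1) (by omega) (by omega) h3
      · have h4 := cc.injX _ _ (hb.symm.trans ha)
        exact CC.not_dvd (k := k) (i := (b : ℕ) + 1) (j := (a : ℕ) + 1) (by omega) (by omega) h4
  have := Fintype.card_le_of_injective _ hinj
  simpa using this

/-- A mate of a port of a star is not a port. -/
lemma star_nomate (hH : ClassC H R) {z c : ℕ → V} (hC : Cat H R 1 z c) {v w : V} (hm : Me H R v w)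
    (hv : Prt 1 c v) (hw : Prt 1 c w) : False := by
  obtain ⟨i, hi, rfl⟩ := hv
  obtain ⟨j, hj, rfl⟩ := hw
  have a1 := cat_adj_cl hC hi
  have a2 := cat_adj_cl hC hj
  have e1 := cl_mem hC.pos hi
  have e2 := cl_mem hC.pos hj
  have e : cl 1 i = cl 1 j := by omega
  rw [← e] at a2
  exact hH.tri _ _ _ hm.1 a2 a1

/-- Structure of a caterpillar with its first fork in the chain. -/
theorem ldl_full (out : OutH) (fl : FullH) (sw : SwapH) (tn : TwoNH) (hH : ClassC H R)
    (hc : Crit H R) (hthr : ∀ u v, Lk H R u v → ∃ k X Y, CC H R k X Y ∧ InZ X Y u)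
    (cc : CC H R k X Y) (hk : 4 ≤ k) {m : ℕ} {z c : ℕ → V} (hC : Cat H R m z c)
    (h0 : InZ X Y (c 0)) (h1 : InZ X Y (c 1)) :
    3 ≤ m ∧ (∀ j, Prt m c (Y j) ↔ ¬ Prt m c (X (j + 1))) ∧
      ∃ i, ¬ (Prt m c (X i) ∧ Prt m c (Y (i + 2))) ∧
        ((c 0 = Y i ∧ c 1 = X (i + 2)) ∨ (c 1 = Y i ∧ c 0 = X (i + 2))) := by
  have hp := hC.pos
  have hO := out V H R hH hc hthr k X Y cc m z c hC h0 h1
  obtain ⟨i, hi⟩ := tn V H R k X Y hH cc (z 1) (c 0) (c 1) (hC.unc 1 le_rfl hp) hC.ne0 hC.adj0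
    (hC.adjc 1 le_rfl hp) h0 h1
  have hYi : Prt m c (Y i) := by
    rcases hi with ⟨e, -⟩ | ⟨e, -⟩
    · exact ⟨0, by omega, e⟩
    · exact ⟨1, by omega, e⟩
  have hXi : Prt m c (X (i + 2)) := by
    rcases hi with ⟨-, e⟩ | ⟨-, e⟩
    · exact ⟨1, by omega, e⟩
    · exact ⟨0, by omega, e⟩
  have hns : ¬ (Prt m c (X i) ∧ Prt m c (Y (i + 2))) := by
    rintro ⟨g1, g2⟩
    by_cases hm : m = 1
    · subst hm
      exact star_nomate hH hC (cc.me i) g1 hYi
    · rcases hi with ⟨e1, e2⟩ | ⟨e1, e2⟩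
      · exact sw V H R k X Y hH hc cc hk m z c hC i e1 e2 g1 g2
      · refine sw V H R k X Y hH hc cc hk m z _ (cat_sw hC (by omega)) i ?_ ?_
          ((prt_sw (by omega)).2 g1) ((prt_sw (by omega)).2 g2)
        · exact e1
        · exact e2
  have hfull : ∀ j, Prt m c (Y j) ↔ ¬ Prt m c (X (j + 1)) := by
    by_cases hX : Prt m c (X i)
    · have hY : ¬ Prt m c (Y (i + 2)) := fun h => hns ⟨hX, h⟩
      have hO' : OutI H R m z c (fun i => Y (-i)) (fun i => X (-i)) := by
        obtain ⟨O, o1, o2⟩ := hO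
        refine ⟨O, fun w hw => ⟨(o1 w hw).1, fun h => (o1 w hw).2 (inZ_mir.1 h)⟩, ?_⟩
        refine le_trans (le_of_eq ?_) o2
        congr 3
        ext j
        simp only [mem_filter, inZ_mir]
      have key := fl V H R k (fun i => Y (-i)) (fun i => X (-i)) hH cc.mir hk m z c hC hO' (-(i + 2))
        (by show Prt m c (X (- -(i + 2))); rw [_root_.neg_neg]; exact hXi)
        (by show ¬ Prt m c (Y (- -(i + 2))); rw [_root_.neg_neg]; exact hY)
      intro j
      have := key (-(j + 1))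
      have e1 : - -(j + 1) = j + 1 := by ring
      have e2 : -(-(j + 1) + 1) = j := by ring
      simp only [e1, e2] at this
      tauto
    · exact fl V H R k X Y hH cc hk m z c hC hO i hYi hX
  have hcount := full_count cc hfull
  have hm3 : 3 ≤ m := by
    by_contra hlt
    have hm2 : m = 2 := by omega
    subst hm2
    have hk4 : k = 4 := by omega
    subst hk4
    -- all ports are in the chain
    have hall : ∀ j ≤ 3, InZ X Y (c j) := by
      by_contra hcon
      push Not at hcon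
      obtain ⟨j0, hj0, hn0⟩ := hcon
      have hch : ∀ n : ℕ, ∃ j, j ≤ 3 ∧ (c j = Y n ∨ c j = X (n + 1)) := by
        intro n
        by_cases h : Prt 2 c (Y n)
        · obtain ⟨j, hj, e⟩ := h
          exact ⟨j, hj, Or.inl e⟩
        · have h2 : Prt 2 c (X (n + 1)) := by
            by_contra h3
            exact h ((hfull n).2 h3)
          obtain ⟨j, hj, e⟩ := h2
          exact ⟨j, hj, Or.inr e⟩
      choose φ g1 g2 using hch
      have hne : ∀ a b : ℕ, a < b → b < 4 → φ a ≠ φ b := by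
        intro a b hab hb4 e
        have ha := g2 a
        have hb := g2 b
        rw [e] at ha
        rcases ha with ha | ha <;> rcases hb with hb | hb
        · exact cc.neY (i := a) (j := b) (by omega) (by omega) (ha.symm.trans hb)
        · exact cc.xy _ _ (hb.symm.trans ha)
        · exact cc.xy _ _ (ha.symm.trans hb)
        · exact cc.neX (i := a + 1) (j := b + 1) (by omega) (by omega) (ha.symm.trans hb)
      have hin : ∀ n, φ n ≠ j0 := by
        intro n e
        rw [← e] at hn0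
        rcases g2 n with h | h
        · exact hn0 (h ▸ inZ_Y X Y _)
        · exact hn0 (h ▸ inZ_X X Y _)
      have := g1 0; have := g1 1; have := g1 2; have := g1 3
      have := hne 0 1 (by omega) (by omega); have := hne 0 2 (by omega) (by omega)
      have := hne 0 3 (by omega) (by omega); have := hne 1 2 (by omega) (by omega)
      have := hne 1 3 (by omega) (by omega); have := hne 2 3 (by omega) (by omega)
      have := hin 0; have := hin 1; have := hin 2; have := hin 3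
      omega
    obtain ⟨l, hl⟩ := tn V H R 4 X Y hH cc (z 2) (c 2) (c 3) (hC.unc 2 (by omega) le_rfl) hC.nem
      (hC.adjc 2 (by omega) le_rfl) hC.adjm (hall 2 (by omega)) (hall 3 le_rfl)
    have hYl : Prt 2 c (Y l) := by
      rcases hl with ⟨e, -⟩ | ⟨e, -⟩
      · exact ⟨2, by omega, e⟩
      · exact ⟨3, by omega, e⟩
    have hXl : Prt 2 c (X (l + 2)) := by
      rcases hl with ⟨-, e⟩ | ⟨-, e⟩
      · exact ⟨3, by omega, e⟩
      · exact ⟨2, by omega, e⟩
    have hpar : (i + 1) % 2 = (l + 2) % 2 := by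
      obtain ⟨j, hj, hj'⟩ : ∃ j, j ≤ 1 ∧ (c j = X i ∨ c j = Y i) := by
        rcases hi with ⟨e, -⟩ | ⟨e, -⟩
        · exact ⟨0, by omega, Or.inr e⟩
        · exact ⟨1, by omega, Or.inr e⟩
      obtain ⟨j', hj2, hj3, hj4⟩ : ∃ j', 2 ≤ j' ∧ j' ≤ 3 ∧ (c j' = X l ∨ c j' = Y l) := by
        rcases hl with ⟨e, -⟩ | ⟨e, -⟩
        · exact ⟨2, by omega, by omega, Or.inr e⟩
        · exact ⟨3, by omega, by omega, Or.inr e⟩
      have := cc.parity hC (j := j) (j' := j') (by omega) (by omega) hj' hj4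
      have p1 : pos 2 j = 1 := by
        unfold CLB.H3.pos; split_ifs <;> omega
      have p2 : pos 2 j' = 2 := by
        unfold CLB.H3.pos; split_ifs <;> omega
      rw [p1, p2] at this
      push_cast at this
      exact this
    -- the unit between is unseen
    have u1 : ¬ Prt 2 c (X (i + 1)) := (hfull i).1 hYi
    have u2 : ¬ Prt 2 c (Y (i + 1)) := by
      intro h
      have := (hfull (i + 1)).1 h
      rw [show i + 1 + 1 = i + 2 by ring] at this
      exact this hXi
    have hcase : (4 : ℤ) ∣ l - (i + 1) ∨ (4 : ℤ) ∣ l + 2 - (i + 1) := by omega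
    rcases hcase with hd | hd
    · exact u2 ((cc.eqX (i := l) (j := i + 1) hd).2 ▸ hYl)
    · exact u1 ((cc.eqX (i := l + 2) (j := i + 1) hd).1 ▸ hXl)
  exact ⟨hm3, hfull, i, hns, hi⟩

end

/-- **No closed chains.** -/
theorem closed_false (k2 : K2H) (thr : ThrH) (out : OutH) (fl : FullH) (sw : SwapH) (tn : TwoNH)
    (m2 : M2H) (ta : ThmAH) (o4 : OneK4H) (o6 : OneK6H) (tk : TwoKH) (hO : OpenFalse) :
    ClosedFalse := by
  intro V _ G H R k x y hR hG hle hc h hk hl
  have hH := hG.mono hle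
  by_cases hk2 : k = 2
  · subst hk2
    exact k2 V H R x y hH hc h hl
  have heven := h.even_of_closed hl
  have hk4 : 4 ≤ k := by omega
  obtain ⟨X, Y, cc, -⟩ := exists_cc h hk hl
  have hthr := thr hO V G H R hR hG hle hc
  by_cases hex : ∃ m z c, Cat H R m z c ∧ InZ X Y (c 0) ∧ InZ X Y (c 1)
  · obtain ⟨m, z, c, hC, h0, h1⟩ := hex
    obtain ⟨hm3, hfull, i, hns, hi⟩ := ldl_full out fl sw tn hH hc hthr cc hk4 hC h0 h1
    by_cases hex2 : ∃ m' z' c', Cat H R m' z' c' ∧ cSupp m' z' ≠ cSupp m z ∧ InZ X Y (c' 0) ∧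
        InZ X Y (c' 1)
    · obtain ⟨m', z', c', hC', hne, h0', h1'⟩ := hex2
      obtain ⟨hm3', hfull', -⟩ := ldl_full out fl sw tn hH hc hthr cc hk4 hC' h0' h1'
      exact tk V H R k X Y hH hc cc hk4 m z c m' z' c' hC hC' (Ne.symm hne) hm3 hm3' h0 h1 h0' h1'
        hfull hfull'
    · push Not at hex2
      have hoth : ∀ m' z' c', Cat H R m' z' c' → cSupp m' z' ≠ cSupp m z → StatZ X Y m' c' := by
        intro m' z' c' hC' hne
        refine stat_of_nofork m2 hH hc cc hk4 hC' (fun z'' c'' g1 g2 g3 g4 => ?_)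
        exact hex2 m' z'' c'' g1 (by rw [g2]; exact hne) g3 g4
      -- normal form
      obtain ⟨c₁, hC₁, e0, e1, hP⟩ : ∃ c₁ : ℕ → V, Cat H R m z c₁ ∧ c₁ 0 = Y i ∧ c₁ 1 = X (i + 2) ∧
          ∀ v, Prt m c₁ v ↔ Prt m c v := by
        rcases hi with ⟨e1, e2⟩ | ⟨e1, e2⟩
        · exact ⟨c, hC, e1, e2, fun _ => Iff.rfl⟩
        · exact ⟨_, cat_sw hC (by omega), e1, e2, fun v => prt_sw (by omega)⟩
      have ks : KS H R k (fun j => X (j + (i + 1))) (fun j => Y (j + (i + 1))) m z c₁ := by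
        refine ⟨cc.shift (i + 1), hk4, hC₁, hm3, ?_, ?_, ?_, ?_, ?_⟩
        · show c₁ 0 = Y (-1 + (i + 1))
          rw [show -1 + (i + 1) = i by ring]; exact e0
        · show c₁ 1 = X (1 + (i + 1))
          rw [show 1 + (i + 1) = i + 2 by ring]; exact e1
        · intro j
          show Prt m c₁ (Y (j + (i + 1))) ↔ ¬ Prt m c₁ (X (j + 1 + (i + 1)))
          rw [hP, hP, show j + 1 + (i + 1) = j + (i + 1) + 1 by ring]
          exact hfull _
        · show ¬ (Prt m c₁ (X (-1 + (i + 1))) ∧ Prt m c₁ (Y (1 + (i + 1))))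
          rw [hP, hP, show -1 + (i + 1) = i by ring, show 1 + (i + 1) = i + 2 by ring]
          exact hns
        · intro m' z' c' g1 g2
          obtain ⟨s1, s2⟩ := hoth m' z' c' g1 g2
          refine ⟨fun hm' a b ha hb ha' hb' => s1 hm' a b ha hb ((inZ_shift _).1 ha')
            ((inZ_shift _).1 hb'), fun hm' => ?_⟩
          simp only [inZ_shift]
          exact s2 hm'
      by_cases hk6 : k = 4
      · subst hk6
        exact o4 V H R _ _ hH hc m z c₁ ks
      · exact o6 V H R k _ _ hH hc (by omega) m z c₁ ks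
  · push Not at hex
    refine ta V H R k X Y hH hc cc hk4 (fun m z c hC => ?_)
    exact stat_of_nofork m2 hH hc cc hk4 hC (fun z' c' g1 _ g3 g4 => hex m z' c' g1 g3 g4)

end CLB.H86
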