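import Pool.Agent.Helper86_DA.GmDom
import Pool.Agent.Helper86_DA.Gm01
import Pool.Agent.Helper86_DA.Gm02
import Pool.Agent.Helper86_DA.Gm03
import Pool.Agent.Helper86_DA.Gm04
import Pool.Agent.Helper86_DA.Gm05
import Pool.Agent.Helper86_DA.Gm06
import Pool.Agent.Helper86_DA.Gm07
import Pool.Agent.Helper86_DA.Gm08
import Pool.Agent.Helper86_DA.Gm09
import Pool.Agent.Helper86_DA.Gm10
import Pool.Agent.Helper86_DA.Gm11

/-!
The list of the codes which are won.
-/

set_option autoImplicit false

namespace CLB.H86.Gm

open CLB.H95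

/-- The codes with a search tree. -/
def codes : List Code := [g01, g02, g03, g04, g05, g06, g07, g08, g09, g10, g11, g12, g13, g14, g15, g16, g17, g18, g19, g20, g21, g22, g23, g24, g25, g26, g27, g28, g29, g30, g31, g32, g33, g34, g35, g36, g37, g38, g39, g40, g41, g42, g43, g44, g45, g46, g47, g48, g49, g50, g51, g52, g53, g54, g55, g56, g57, g58, g59, g60, g61, g62, g63, g64, g65, g66, g67, g68, g69, g70, g71, g72, g73, g74, g75, g76, g77, g78, g79, g80, g81, g82, g83, g84, g85]

theorem codes_win : ∀ C ∈ codes, C.Win := by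
  intro C hC
  unfold codes at hC
  simp only [List.mem_cons, List.not_mem_nil, or_false] at hC
  rcases hC with rfl | rfl | rfl | rfl | rfl | rfl | rfl | rfl | rfl | rfl | rfl | rfl | rfl | rfl | rfl | rfl | rfl | rfl | rfl | rfl | rfl | rfl | rfl | rfl | rfl | rfl | rfl | rfl | rfl | rfl | rfl | rfl | rfl | rfl | rfl | rfl | rfl | rfl | rfl | rfl | rfl | rfl | rfl | rfl | rfl | rfl | rfl | rfl | rfl | rfl | rfl | rfl | rfl | rfl | rfl | rfl | rfl | rfl | rfl | rfl | rfl | rfl | rfl | rfl | rfl | rfl | rfl | rfl | rfl | rfl | rfl | rfl | rfl | rfl | rfl | rfl | rfl | rfl | rfl | rfl | rfl | rfl | rfl | rfl | rfl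
  · exact g01_win
  · exact g02_win
  · exact g03_win
  · exact g04_win
  · exact g05_win
  · exact g06_win
  · exact g07_win
  · exact g08_win
  · exact g09_win
  · exact g10_win
  · exact g11_win
  · exact g12_win
  · exact g13_win
  · exact g14_win
  · exact g15_win
  · exact g16_win
  · exact g17_win
  · exact g18_win
  · exact g19_win
  · exact g20_win
  · exact g21_win
  · exact g22_win
  · exact g23_win
  · exact g24_win
  · exact g25_win
  · exact g26_win
  · exact g27_win
  · exact g28_win
  · exact g29_win
  · exact g30_win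
  · exact g31_win
  · exact g32_win
  · exact g33_win
  · exact g34_win
  · exact g35_win
  · exact g36_win
  · exact g37_win
  · exact g38_win
  · exact g39_win
  · exact g40_win
  · exact g41_win
  · exact g42_win
  · exact g43_win
  · exact g44_win
  · exact g45_win
  · exact g46_win
  · exact g47_win
  · exact g48_win
  · exact g49_win
  · exact g50_win
  · exact g51_win
  · exact g52_win
  · exact g53_win
  · exact g54_win
  · exact g55_win
  · exact g56_win
  · exact g57_win
  · exact g58_win
  · exact g59_win
  · exact g60_win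
  · exact g61_win
  · exact g62_win
  · exact g63_win
  · exact g64_win
  · exact g65_win
  · exact g66_win
  · exact g67_win
  · exact g68_win
  · exact g69_win
  · exact g70_win
  · exact g71_win
  · exact g72_win
  · exact g73_win
  · exact g74_win
  · exact g75_win
  · exact g76_win
  · exact g77_win
  · exact g78_win
  · exact g79_win
  · exact g80_win
  · exact g81_win
  · exact g82_win
  · exact g83_win
  · exact g84_win
  · exact g85_win

/-- **A covered code is won.** -/
theorem win_cov {C : Code} (h : cov codes C = true) : C.Win := cov_sound codes_win h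

/-- The codes of the window statuses (list `good_codes` of helper95). -/
def good : List Code := [
  ⟨[⟨3, true, true, false, false⟩, ⟨5, true, true, false, false⟩, ⟨6, true, false, false, false⟩, ⟨6, true, false, false, false⟩], false⟩,
  ⟨[⟨3, true, true, false, false⟩, ⟨5, true, true, false, false⟩, ⟨6, true, false, false, false⟩, ⟨8, true, false, false, false⟩], false⟩,
  ⟨[⟨3, true, true, false, false⟩, ⟨5, true, true, false, true⟩, ⟨6, true, false, false, false⟩, ⟨8, true, false, false, false⟩], false⟩,
  ⟨[⟨3, true, true, false, false⟩, ⟨5, true, true, false, false⟩, ⟨8, true, false, false, false⟩], false⟩,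
  ⟨[⟨3, true, true, false, true⟩, ⟨5, true, true, false, false⟩, ⟨8, true, false, false, false⟩], false⟩,
  ⟨[⟨3, true, true, false, false⟩, ⟨6, true, false, false, false⟩, ⟨5, true, true, false, false⟩, ⟨6, true, false, false, false⟩], false⟩,
  ⟨[⟨3, true, true, false, false⟩, ⟨6, true, false, false, false⟩, ⟨5, true, true, false, false⟩, ⟨8, true, false, false, false⟩], false⟩,
  ⟨[⟨3, true, true, false, false⟩, ⟨6, true, false, false, true⟩, ⟨5, true, true, false, false⟩, ⟨8, true, false, false, false⟩], false⟩,
  ⟨[⟨3, true, true, false, false⟩, ⟨6, true, false, false, false⟩, ⟨6, true, false, false, false⟩], false⟩,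
  ⟨[⟨3, true, true, false, false⟩, ⟨6, true, true, false, false⟩, ⟨6, true, false, false, false⟩, ⟨6, true, true, false, false⟩], false⟩,
  ⟨[⟨3, true, true, false, false⟩, ⟨6, true, true, false, true⟩, ⟨6, true, false, false, false⟩, ⟨6, true, true, false, false⟩], false⟩,
  ⟨[⟨3, true, true, false, false⟩, ⟨6, true, true, false, false⟩, ⟨6, true, false, false, false⟩, ⟨8, true, true, false, false⟩], false⟩,
  ⟨[⟨3, true, true, false, false⟩, ⟨6, true, true, false, true⟩, ⟨6, true, false, false, false⟩, ⟨8, true, true, false, false⟩], false⟩,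
  ⟨[⟨3, true, true, false, false⟩, ⟨6, true, false, false, false⟩, ⟨7, true, true, false, false⟩], false⟩,
  ⟨[⟨3, true, true, false, true⟩, ⟨6, true, false, false, false⟩, ⟨7, true, true, false, false⟩], false⟩,
  ⟨[⟨3, true, true, false, false⟩, ⟨6, true, false, false, false⟩, ⟨8, true, false, false, false⟩], false⟩,
  ⟨[⟨3, true, true, false, true⟩, ⟨6, true, false, false, false⟩, ⟨8, true, false, false, false⟩], false⟩,
  ⟨[⟨3, true, true, false, false⟩, ⟨7, true, true, false, false⟩, ⟨4, false, false, false, false⟩, ⟨6, true, false, false, false⟩], false⟩,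
  ⟨[⟨3, true, true, false, false⟩, ⟨7, true, true, false, false⟩, ⟨4, false, false, false, false⟩, ⟨8, true, false, false, false⟩], false⟩,
  ⟨[⟨3, true, true, false, true⟩, ⟨7, true, true, false, false⟩, ⟨6, false, false, false, false⟩], false⟩,
  ⟨[⟨3, true, true, false, false⟩, ⟨7, true, true, false, false⟩, ⟨6, true, false, false, false⟩], false⟩,
  ⟨[⟨3, true, true, false, false⟩, ⟨7, true, true, false, false⟩, ⟨8, true, false, false, false⟩], false⟩,
  ⟨[⟨3, true, true, false, true⟩, ⟨7, true, true, false, false⟩, ⟨8, true, false, false, false⟩], false⟩,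
  ⟨[⟨3, true, true, false, false⟩, ⟨8, true, false, false, false⟩], false⟩,
  ⟨[⟨3, true, true, false, false⟩, ⟨8, true, true, false, false⟩, ⟨4, false, false, false, false⟩, ⟨6, true, true, false, false⟩], false⟩,
  ⟨[⟨3, true, true, false, false⟩, ⟨8, true, true, false, true⟩, ⟨4, false, false, false, false⟩, ⟨6, true, true, false, false⟩], false⟩,
  ⟨[⟨3, true, true, false, false⟩, ⟨8, true, true, false, false⟩, ⟨4, false, false, false, false⟩, ⟨8, true, true, false, false⟩], false⟩,
  ⟨[⟨3, true, true, false, false⟩, ⟨8, true, true, false, true⟩, ⟨4, false, false, false, false⟩, ⟨8, true, true, false, false⟩], false⟩,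
  ⟨[⟨4, false, false, true, false⟩, ⟨4, false, false, false, false⟩, ⟨6, true, false, false, false⟩, ⟨6, true, false, false, false⟩], false⟩,
  ⟨[⟨4, false, false, false, false⟩, ⟨4, false, false, false, false⟩, ⟨6, true, false, false, false⟩, ⟨8, true, false, false, false⟩], false⟩,
  ⟨[⟨4, false, false, true, false⟩, ⟨4, false, false, false, true⟩, ⟨6, true, false, false, false⟩, ⟨8, true, false, false, false⟩], false⟩,
  ⟨[⟨4, false, false, false, false⟩, ⟨4, false, false, false, false⟩, ⟨8, true, false, false, false⟩], false⟩,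
  ⟨[⟨4, false, false, true, true⟩, ⟨4, false, false, false, false⟩, ⟨8, true, false, false, false⟩], false⟩,
  ⟨[⟨4, true, false, false, false⟩, ⟨5, true, true, false, false⟩, ⟨5, true, true, false, false⟩, ⟨6, true, false, false, false⟩], false⟩,
  ⟨[⟨4, true, false, false, false⟩, ⟨5, true, true, false, false⟩, ⟨5, true, true, false, false⟩, ⟨8, true, false, false, false⟩], false⟩,
  ⟨[⟨4, true, false, false, false⟩, ⟨5, true, true, false, true⟩, ⟨5, true, true, false, false⟩, ⟨8, true, false, false, false⟩], false⟩,
  ⟨[⟨4, true, false, false, false⟩, ⟨5, true, true, false, false⟩, ⟨6, true, false, false, false⟩], false⟩,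
  ⟨[⟨4, true, true, false, false⟩, ⟨5, true, true, false, false⟩, ⟨6, true, true, false, false⟩], false⟩,
  ⟨[⟨4, true, true, false, true⟩, ⟨5, true, true, false, false⟩, ⟨6, true, true, false, false⟩, ⟨6, true, false, false, false⟩], false⟩,
  ⟨[⟨4, true, true, false, true⟩, ⟨5, true, true, false, false⟩, ⟨6, true, true, false, false⟩, ⟨8, true, false, false, false⟩], false⟩,
  ⟨[⟨4, true, true, false, true⟩, ⟨5, true, true, false, true⟩, ⟨6, true, true, false, false⟩, ⟨8, true, false, false, false⟩], false⟩,
  ⟨[⟨4, true, false, false, false⟩, ⟨5, true, true, false, false⟩, ⟨7, true, true, false, false⟩], false⟩,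
  ⟨[⟨4, true, false, false, true⟩, ⟨5, true, true, false, false⟩, ⟨7, true, true, false, false⟩], false⟩,
  ⟨[⟨4, true, false, false, false⟩, ⟨5, true, true, false, false⟩, ⟨8, true, false, false, false⟩], false⟩,
  ⟨[⟨4, true, false, false, true⟩, ⟨5, true, true, false, false⟩, ⟨8, true, false, false, false⟩], false⟩,
  ⟨[⟨4, true, true, false, false⟩, ⟨5, true, true, false, false⟩, ⟨8, true, true, false, false⟩], false⟩,
  ⟨[⟨4, true, true, true, true⟩, ⟨5, true, true, false, false⟩, ⟨8, true, true, true, false⟩], false⟩,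
  ⟨[⟨4, false, false, true, false⟩, ⟨6, true, false, false, false⟩, ⟨4, false, false, false, false⟩, ⟨6, true, false, false, false⟩], false⟩,
  ⟨[⟨4, false, false, false, false⟩, ⟨6, true, false, false, false⟩, ⟨4, false, false, false, false⟩, ⟨8, true, false, false, false⟩], false⟩,
  ⟨[⟨4, false, false, true, false⟩, ⟨6, true, false, false, true⟩, ⟨4, false, false, false, false⟩, ⟨8, true, false, false, false⟩], false⟩,
  ⟨[⟨4, true, false, false, false⟩, ⟨6, true, false, false, false⟩, ⟨5, true, true, false, false⟩, ⟨6, true, false, false, false⟩], false⟩,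
  ⟨[⟨4, true, false, false, false⟩, ⟨6, true, true, false, false⟩, ⟨5, true, true, false, false⟩, ⟨6, true, true, false, false⟩], false⟩,
  ⟨[⟨4, true, false, false, false⟩, ⟨6, true, true, false, true⟩, ⟨5, true, true, false, false⟩, ⟨6, true, true, false, false⟩], false⟩,
  ⟨[⟨4, true, false, false, false⟩, ⟨6, true, false, false, false⟩, ⟨5, true, true, false, false⟩, ⟨7, true, true, false, false⟩], false⟩,
  ⟨[⟨4, true, false, false, false⟩, ⟨6, true, false, false, true⟩, ⟨5, true, true, false, false⟩, ⟨7, true, true, false, false⟩], false⟩,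
  ⟨[⟨4, true, false, false, false⟩, ⟨6, true, false, false, false⟩, ⟨5, true, true, false, false⟩, ⟨8, true, false, false, false⟩], false⟩,
  ⟨[⟨4, true, false, false, false⟩, ⟨6, true, false, false, true⟩, ⟨5, true, true, false, false⟩, ⟨8, true, false, false, false⟩], false⟩,
  ⟨[⟨4, true, false, false, false⟩, ⟨6, true, true, false, false⟩, ⟨5, true, true, false, false⟩, ⟨8, true, true, false, false⟩], false⟩,
  ⟨[⟨4, true, false, false, false⟩, ⟨6, true, true, false, true⟩, ⟨5, true, true, false, false⟩, ⟨8, true, true, false, false⟩], false⟩,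
  ⟨[⟨4, false, false, true, false⟩, ⟨6, true, false, false, false⟩, ⟨6, true, false, false, false⟩], false⟩,
  ⟨[⟨4, true, false, false, false⟩, ⟨6, true, false, false, false⟩, ⟨6, true, false, false, false⟩], false⟩,
  ⟨[⟨4, true, true, false, false⟩, ⟨6, true, false, false, false⟩, ⟨6, true, true, false, false⟩], false⟩,
  ⟨[⟨4, true, true, false, true⟩, ⟨6, true, false, false, false⟩, ⟨6, true, true, false, false⟩], false⟩,
  ⟨[⟨4, false, false, false, true⟩, ⟨6, true, false, false, false⟩, ⟨6, false, false, false, false⟩, ⟨6, true, false, false, false⟩], false⟩,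
  ⟨[⟨4, true, true, false, true⟩, ⟨6, true, true, false, false⟩, ⟨6, true, true, false, false⟩, ⟨6, true, true, false, false⟩], false⟩,
  ⟨[⟨4, true, true, true, true⟩, ⟨6, true, true, false, true⟩, ⟨6, true, true, true, false⟩, ⟨6, true, true, false, false⟩], false⟩,
  ⟨[⟨4, false, false, false, true⟩, ⟨6, true, false, false, false⟩, ⟨6, false, false, false, false⟩, ⟨8, true, false, false, false⟩], false⟩,
  ⟨[⟨4, false, false, false, true⟩, ⟨6, true, false, false, true⟩, ⟨6, false, false, false, false⟩, ⟨8, true, false, false, false⟩], false⟩,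
  ⟨[⟨4, true, true, false, true⟩, ⟨6, true, true, false, false⟩, ⟨6, true, true, false, false⟩, ⟨8, true, true, false, false⟩], false⟩,
  ⟨[⟨4, true, true, false, true⟩, ⟨6, true, true, false, true⟩, ⟨6, true, true, false, false⟩, ⟨8, true, true, false, false⟩], false⟩,
  ⟨[⟨4, true, false, false, false⟩, ⟨6, true, false, false, false⟩, ⟨7, false, false, false, false⟩], false⟩,
  ⟨[⟨4, true, true, false, false⟩, ⟨6, true, false, false, false⟩, ⟨7, false, false, false, false⟩], false⟩,
  ⟨[⟨4, true, true, false, true⟩, ⟨6, true, false, false, false⟩, ⟨7, false, false, false, false⟩], false⟩,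
  ⟨[⟨4, true, false, false, false⟩, ⟨6, true, false, false, false⟩, ⟨7, true, true, false, false⟩], false⟩,
  ⟨[⟨4, true, false, false, true⟩, ⟨6, true, false, false, false⟩, ⟨7, true, true, false, false⟩], false⟩,
  ⟨[⟨4, false, false, false, false⟩, ⟨6, true, false, false, false⟩, ⟨8, true, false, false, false⟩], false⟩,
  ⟨[⟨4, false, false, true, true⟩, ⟨6, true, false, false, false⟩, ⟨8, true, false, false, false⟩], false⟩,
  ⟨[⟨4, true, false, false, false⟩, ⟨6, true, false, false, false⟩, ⟨8, true, false, false, false⟩], false⟩,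
  ⟨[⟨4, true, true, false, false⟩, ⟨6, true, false, false, false⟩, ⟨8, true, true, false, false⟩], false⟩,
  ⟨[⟨4, true, true, false, true⟩, ⟨6, true, false, false, false⟩, ⟨8, true, true, false, false⟩], false⟩,
  ⟨[⟨4, true, false, false, true⟩, ⟨6, true, false, false, false⟩, ⟨8, true, false, false, false⟩, ⟨6, true, false, false, false⟩], false⟩,
  ⟨[⟨4, true, false, false, true⟩, ⟨6, true, false, false, false⟩, ⟨8, true, false, false, false⟩, ⟨7, false, false, false, false⟩], false⟩,
  ⟨[⟨4, true, false, false, true⟩, ⟨6, true, false, false, false⟩, ⟨8, true, false, false, false⟩, ⟨7, true, true, false, false⟩], false⟩,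
  ⟨[⟨4, true, false, false, true⟩, ⟨6, true, false, false, true⟩, ⟨8, true, false, false, false⟩, ⟨7, true, true, false, false⟩], false⟩,
  ⟨[⟨4, true, false, false, true⟩, ⟨6, true, false, false, false⟩, ⟨8, true, false, false, false⟩, ⟨8, true, false, false, false⟩], false⟩,
  ⟨[⟨4, true, false, false, true⟩, ⟨6, true, false, false, true⟩, ⟨8, true, false, false, false⟩, ⟨8, true, false, false, false⟩], false⟩,
  ⟨[⟨4, true, false, false, false⟩, ⟨7, false, false, true, false⟩], false⟩,
  ⟨[⟨4, true, false, false, false⟩, ⟨7, true, true, false, false⟩], false⟩,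
  ⟨[⟨4, true, true, false, false⟩, ⟨7, true, true, false, false⟩, ⟨6, true, true, false, false⟩], false⟩,
  ⟨[⟨4, true, true, true, true⟩, ⟨7, true, true, false, false⟩, ⟨6, true, true, true, false⟩], false⟩,
  ⟨[⟨4, true, true, false, false⟩, ⟨7, true, true, false, false⟩, ⟨8, true, true, false, false⟩], false⟩,
  ⟨[⟨4, true, true, true, true⟩, ⟨7, true, true, false, false⟩, ⟨8, true, true, true, false⟩], false⟩,
  ⟨[⟨4, false, false, false, false⟩, ⟨8, true, false, false, false⟩], false⟩,
  ⟨[⟨4, true, false, false, false⟩, ⟨8, true, false, false, false⟩], false⟩,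
  ⟨[⟨5, true, true, false, false⟩, ⟨4, false, false, false, false⟩, ⟨5, true, true, false, false⟩, ⟨6, true, false, false, false⟩], false⟩,
  ⟨[⟨5, true, true, false, false⟩, ⟨4, false, false, false, false⟩, ⟨5, true, true, false, false⟩, ⟨8, true, false, false, false⟩], false⟩,
  ⟨[⟨5, true, true, false, false⟩, ⟨4, false, false, false, true⟩, ⟨5, true, true, false, false⟩, ⟨8, true, false, false, false⟩], false⟩,
  ⟨[⟨5, false, false, true, false⟩, ⟨4, false, false, false, false⟩, ⟨6, true, true, true, false⟩], false⟩,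
  ⟨[⟨5, true, true, false, false⟩, ⟨4, false, false, false, false⟩, ⟨6, true, false, false, false⟩], false⟩,
  ⟨[⟨5, false, false, false, false⟩, ⟨4, false, false, false, false⟩, ⟨6, true, true, false, false⟩, ⟨6, true, false, false, false⟩], false⟩,
  ⟨[⟨5, false, false, false, true⟩, ⟨4, false, false, false, false⟩, ⟨6, true, true, false, false⟩, ⟨6, true, false, false, false⟩], false⟩,
  ⟨[⟨5, false, false, false, false⟩, ⟨4, false, false, false, false⟩, ⟨6, true, true, false, false⟩, ⟨8, true, false, false, false⟩], false⟩,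
  ⟨[⟨5, false, false, false, true⟩, ⟨4, false, false, false, false⟩, ⟨6, true, true, false, false⟩, ⟨8, true, false, false, false⟩], false⟩,
  ⟨[⟨5, false, false, false, true⟩, ⟨4, false, false, false, true⟩, ⟨6, true, true, false, false⟩, ⟨8, true, false, false, false⟩], false⟩,
  ⟨[⟨5, false, false, false, false⟩, ⟨4, false, false, false, true⟩, ⟨6, true, true, false, false⟩, ⟨8, true, false, false, false⟩], false⟩,
  ⟨[⟨5, true, true, false, false⟩, ⟨4, false, false, false, false⟩, ⟨7, true, true, false, false⟩], false⟩,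
  ⟨[⟨5, true, true, false, true⟩, ⟨4, false, false, false, false⟩, ⟨7, true, true, false, false⟩], false⟩,
  ⟨[⟨5, false, false, false, false⟩, ⟨4, false, false, false, false⟩, ⟨8, true, true, false, false⟩], false⟩,
  ⟨[⟨5, false, false, false, true⟩, ⟨4, false, false, false, false⟩, ⟨8, true, true, false, false⟩], false⟩,
  ⟨[⟨5, true, true, false, false⟩, ⟨4, false, false, false, false⟩, ⟨8, true, false, false, false⟩], false⟩,
  ⟨[⟨5, true, true, false, true⟩, ⟨4, false, false, false, false⟩, ⟨8, true, false, false, false⟩], false⟩,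
  ⟨[⟨5, true, true, false, false⟩, ⟨5, true, true, false, false⟩, ⟨4, false, false, false, false⟩, ⟨6, true, false, false, false⟩], false⟩,
  ⟨[⟨5, true, true, false, false⟩, ⟨5, true, true, false, false⟩, ⟨4, false, false, false, false⟩, ⟨8, true, false, false, false⟩], false⟩,
  ⟨[⟨5, true, true, false, false⟩, ⟨5, true, true, false, true⟩, ⟨4, false, false, false, false⟩, ⟨8, true, false, false, false⟩], false⟩,
  ⟨[⟨5, true, true, false, true⟩, ⟨5, true, true, false, false⟩, ⟨6, false, false, false, false⟩], false⟩,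
  ⟨[⟨5, true, true, false, false⟩, ⟨5, true, true, false, false⟩, ⟨6, true, false, false, false⟩], false⟩,
  ⟨[⟨5, true, true, false, false⟩, ⟨5, true, true, false, false⟩, ⟨8, true, false, false, false⟩], false⟩,
  ⟨[⟨5, true, true, false, true⟩, ⟨5, true, true, false, false⟩, ⟨8, true, false, false, false⟩], false⟩,
  ⟨[⟨5, true, true, false, false⟩, ⟨6, true, false, false, false⟩], false⟩,
  ⟨[⟨5, true, true, false, false⟩, ⟨6, true, true, false, false⟩, ⟨4, false, false, false, false⟩, ⟨6, true, true, false, false⟩], false⟩,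
  ⟨[⟨5, true, true, false, false⟩, ⟨6, true, true, false, true⟩, ⟨4, false, false, false, false⟩, ⟨6, true, true, false, false⟩], false⟩,
  ⟨[⟨5, true, true, false, false⟩, ⟨6, true, true, false, false⟩, ⟨4, false, false, false, false⟩, ⟨8, true, true, false, false⟩], false⟩,
  ⟨[⟨5, true, true, false, false⟩, ⟨6, true, true, false, true⟩, ⟨4, false, false, false, false⟩, ⟨8, true, true, false, false⟩], false⟩,
  ⟨[⟨5, false, false, false, false⟩, ⟨6, true, false, false, false⟩, ⟨6, true, true, false, false⟩], false⟩,
  ⟨[⟨5, false, false, false, true⟩, ⟨6, true, false, false, false⟩, ⟨6, true, true, false, false⟩], false⟩,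
  ⟨[⟨5, false, false, false, false⟩, ⟨6, true, false, false, false⟩, ⟨8, true, true, false, false⟩], false⟩,
  ⟨[⟨5, false, false, false, true⟩, ⟨6, true, false, false, false⟩, ⟨8, true, true, false, false⟩], false⟩,
  ⟨[⟨5, true, true, false, false⟩, ⟨7, true, true, false, false⟩], false⟩,
  ⟨[⟨5, true, true, false, false⟩, ⟨8, true, false, false, false⟩], false⟩,
  ⟨[⟨6, true, false, false, false⟩], false⟩,
  ⟨[⟨6, true, true, false, false⟩, ⟨4, false, false, false, false⟩, ⟨6, true, true, false, false⟩], false⟩,
  ⟨[⟨6, true, true, false, true⟩, ⟨4, false, false, false, false⟩, ⟨6, true, true, false, false⟩, ⟨6, true, false, false, false⟩], false⟩,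
  ⟨[⟨6, true, true, false, true⟩, ⟨4, false, false, false, false⟩, ⟨6, true, true, false, false⟩, ⟨7, true, true, false, false⟩], false⟩,
  ⟨[⟨6, true, true, false, true⟩, ⟨4, false, false, false, true⟩, ⟨6, true, true, false, false⟩, ⟨7, true, true, false, false⟩], false⟩,
  ⟨[⟨6, true, true, false, true⟩, ⟨4, false, false, false, false⟩, ⟨6, true, true, false, false⟩, ⟨8, true, false, false, false⟩], false⟩,
  ⟨[⟨6, true, true, false, true⟩, ⟨4, false, false, false, true⟩, ⟨6, true, true, false, false⟩, ⟨8, true, false, false, false⟩], false⟩,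
  ⟨[⟨6, true, true, false, false⟩, ⟨4, false, false, false, false⟩, ⟨7, false, false, false, false⟩], false⟩,
  ⟨[⟨6, true, true, false, true⟩, ⟨4, false, false, false, false⟩, ⟨7, false, false, false, false⟩], false⟩,
  ⟨[⟨6, false, false, true, false⟩, ⟨4, false, false, false, false⟩, ⟨8, false, false, true, false⟩], false⟩,
  ⟨[⟨6, false, false, true, true⟩, ⟨4, false, false, false, false⟩, ⟨8, false, false, true, false⟩], false⟩,
  ⟨[⟨6, true, true, false, false⟩, ⟨4, false, false, false, false⟩, ⟨8, true, true, false, false⟩], false⟩,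
  ⟨[⟨6, true, true, false, true⟩, ⟨4, false, false, false, false⟩, ⟨8, true, true, false, false⟩], false⟩,
  ⟨[⟨6, true, true, false, false⟩, ⟨5, true, true, false, false⟩, ⟨6, true, true, false, false⟩], false⟩,
  ⟨[⟨6, true, true, false, true⟩, ⟨5, true, true, false, false⟩, ⟨6, true, true, false, false⟩], false⟩,
  ⟨[⟨6, true, true, false, false⟩, ⟨5, true, true, false, false⟩, ⟨8, true, true, false, false⟩], false⟩,
  ⟨[⟨6, true, true, false, true⟩, ⟨5, true, true, false, false⟩, ⟨8, true, true, false, false⟩], false⟩,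
  ⟨[⟨6, false, false, false, false⟩, ⟨6, true, false, false, false⟩, ⟨8, false, false, false, false⟩], false⟩,
  ⟨[⟨6, false, false, false, true⟩, ⟨6, true, false, false, false⟩, ⟨8, false, false, false, false⟩], false⟩,
  ⟨[⟨3, true, true, false, false⟩, ⟨5, true, true, false, false⟩, ⟨6, true, false, false, false⟩, ⟨6, true, false, false, false⟩], true⟩,
  ⟨[⟨3, true, true, false, false⟩, ⟨5, true, true, false, false⟩, ⟨6, true, false, false, false⟩, ⟨8, true, false, false, false⟩], true⟩,
  ⟨[⟨3, true, true, false, false⟩, ⟨5, true, true, false, true⟩, ⟨6, true, false, false, false⟩, ⟨8, true, false, false, false⟩], true⟩,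
  ⟨[⟨3, true, true, false, false⟩, ⟨5, true, true, false, false⟩, ⟨8, true, false, false, false⟩], true⟩,
  ⟨[⟨3, true, true, false, true⟩, ⟨5, true, true, false, false⟩, ⟨8, true, false, false, false⟩], true⟩,
  ⟨[⟨3, true, true, false, false⟩, ⟨6, true, false, false, false⟩, ⟨5, true, true, false, false⟩, ⟨6, true, false, false, false⟩], true⟩,
  ⟨[⟨3, true, true, false, false⟩, ⟨6, true, false, false, false⟩, ⟨5, true, true, false, false⟩, ⟨8, true, false, false, false⟩], true⟩,
  ⟨[⟨3, true, true, false, false⟩, ⟨6, true, false, false, true⟩, ⟨5, true, true, false, false⟩, ⟨8, true, false, false, false⟩], true⟩,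
  ⟨[⟨3, true, true, false, false⟩, ⟨6, true, false, false, false⟩, ⟨6, true, false, false, false⟩], true⟩,
  ⟨[⟨3, true, true, false, false⟩, ⟨6, true, true, false, false⟩, ⟨6, true, false, false, false⟩, ⟨6, true, true, false, false⟩], true⟩,
  ⟨[⟨3, true, true, false, false⟩, ⟨6, true, true, false, true⟩, ⟨6, true, false, false, false⟩, ⟨6, true, true, false, false⟩], true⟩,
  ⟨[⟨3, true, true, false, false⟩, ⟨6, true, true, false, false⟩, ⟨6, true, false, false, false⟩, ⟨8, true, true, false, false⟩], true⟩,
  ⟨[⟨3, true, true, false, false⟩, ⟨6, true, true, false, true⟩, ⟨6, true, false, false, false⟩, ⟨8, true, true, false, false⟩], true⟩,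
  ⟨[⟨3, true, true, false, false⟩, ⟨6, true, false, false, false⟩, ⟨7, true, true, false, false⟩], true⟩,
  ⟨[⟨3, true, true, false, true⟩, ⟨6, true, false, false, false⟩, ⟨7, true, true, false, false⟩], true⟩,
  ⟨[⟨3, true, true, false, false⟩, ⟨6, true, false, false, false⟩, ⟨8, true, false, false, false⟩], true⟩,
  ⟨[⟨3, true, true, false, true⟩, ⟨6, true, false, false, false⟩, ⟨8, true, false, false, false⟩], true⟩,
  ⟨[⟨4, false, false, true, false⟩, ⟨4, false, false, false, false⟩, ⟨6, true, false, false, false⟩, ⟨6, true, false, false, false⟩], true⟩,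
  ⟨[⟨4, false, false, false, false⟩, ⟨4, false, false, false, false⟩, ⟨6, true, false, false, false⟩, ⟨8, true, false, false, false⟩], true⟩,
  ⟨[⟨4, false, false, true, false⟩, ⟨4, false, false, false, true⟩, ⟨6, true, false, false, false⟩, ⟨8, true, false, false, false⟩], true⟩,
  ⟨[⟨4, false, false, false, false⟩, ⟨4, false, false, false, false⟩, ⟨8, true, false, false, false⟩], true⟩,
  ⟨[⟨4, false, false, true, true⟩, ⟨4, false, false, false, false⟩, ⟨8, true, false, false, false⟩, ⟨6, true, false, false, false⟩], true⟩,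
  ⟨[⟨4, false, false, false, true⟩, ⟨4, false, false, false, false⟩, ⟨8, true, false, false, false⟩, ⟨8, true, false, false, false⟩], true⟩,
  ⟨[⟨4, false, false, false, true⟩, ⟨4, false, false, false, true⟩, ⟨8, true, false, false, false⟩, ⟨8, true, false, false, false⟩], true⟩,
  ⟨[⟨4, true, false, false, false⟩, ⟨5, true, true, false, false⟩, ⟨5, true, true, false, false⟩, ⟨6, true, false, false, false⟩], true⟩,
  ⟨[⟨4, true, false, false, false⟩, ⟨5, true, true, false, false⟩, ⟨5, true, true, false, false⟩, ⟨8, true, false, false, false⟩], true⟩,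
  ⟨[⟨4, true, false, false, false⟩, ⟨5, true, true, false, true⟩, ⟨5, true, true, false, false⟩, ⟨8, true, false, false, false⟩], true⟩,
  ⟨[⟨4, true, false, false, false⟩, ⟨5, true, true, false, false⟩, ⟨6, true, false, false, false⟩], true⟩,
  ⟨[⟨4, true, true, false, false⟩, ⟨5, true, true, false, false⟩, ⟨6, true, true, false, false⟩, ⟨6, true, false, false, false⟩], true⟩,
  ⟨[⟨4, true, true, false, true⟩, ⟨5, true, true, false, false⟩, ⟨6, true, true, false, false⟩, ⟨6, true, false, false, false⟩], true⟩,
  ⟨[⟨4, true, true, false, false⟩, ⟨5, true, true, false, false⟩, ⟨6, true, true, false, false⟩, ⟨8, true, false, false, false⟩], true⟩,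
  ⟨[⟨4, true, true, false, true⟩, ⟨5, true, true, false, false⟩, ⟨6, true, true, false, false⟩, ⟨8, true, false, false, false⟩], true⟩,
  ⟨[⟨4, true, true, false, true⟩, ⟨5, true, true, false, true⟩, ⟨6, true, true, false, false⟩, ⟨8, true, false, false, false⟩], true⟩,
  ⟨[⟨4, true, true, false, false⟩, ⟨5, true, true, false, true⟩, ⟨6, true, true, false, false⟩, ⟨8, true, false, false, false⟩], true⟩,
  ⟨[⟨4, true, false, false, false⟩, ⟨5, true, true, false, false⟩, ⟨7, true, true, false, false⟩], true⟩,
  ⟨[⟨4, true, false, false, true⟩, ⟨5, true, true, false, false⟩, ⟨7, true, true, false, false⟩], true⟩,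
  ⟨[⟨4, true, false, false, false⟩, ⟨5, true, true, false, false⟩, ⟨8, true, false, false, false⟩], true⟩,
  ⟨[⟨4, true, false, false, true⟩, ⟨5, true, true, false, false⟩, ⟨8, true, false, false, false⟩], true⟩,
  ⟨[⟨4, true, true, false, false⟩, ⟨5, true, true, false, false⟩, ⟨8, true, true, false, false⟩], true⟩,
  ⟨[⟨4, true, true, true, true⟩, ⟨5, true, true, false, false⟩, ⟨8, true, true, true, false⟩], true⟩,
  ⟨[⟨4, false, false, true, false⟩, ⟨6, true, false, false, false⟩, ⟨4, false, false, false, false⟩, ⟨6, true, false, false, false⟩], true⟩,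
  ⟨[⟨4, false, false, false, false⟩, ⟨6, true, false, false, false⟩, ⟨4, false, false, false, false⟩, ⟨8, true, false, false, false⟩], true⟩,
  ⟨[⟨4, false, false, true, false⟩, ⟨6, true, false, false, true⟩, ⟨4, false, false, false, false⟩, ⟨8, true, false, false, false⟩], true⟩,
  ⟨[⟨4, true, false, false, false⟩, ⟨6, true, false, false, false⟩, ⟨5, true, true, false, false⟩, ⟨6, true, false, false, false⟩], true⟩,
  ⟨[⟨4, true, false, false, false⟩, ⟨6, true, true, false, false⟩, ⟨5, true, true, false, false⟩, ⟨6, true, true, false, false⟩], true⟩,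
  ⟨[⟨4, true, false, false, false⟩, ⟨6, true, true, false, true⟩, ⟨5, true, true, false, false⟩, ⟨6, true, true, false, false⟩], true⟩,
  ⟨[⟨4, true, false, false, false⟩, ⟨6, true, false, false, false⟩, ⟨5, true, true, false, false⟩, ⟨7, true, true, false, false⟩], true⟩,
  ⟨[⟨4, true, false, false, false⟩, ⟨6, true, false, false, true⟩, ⟨5, true, true, false, false⟩, ⟨7, true, true, false, false⟩], true⟩,
  ⟨[⟨4, true, false, false, false⟩, ⟨6, true, false, false, false⟩, ⟨5, true, true, false, false⟩, ⟨8, true, false, false, false⟩], true⟩,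
  ⟨[⟨4, true, false, false, false⟩, ⟨6, true, false, false, true⟩, ⟨5, true, true, false, false⟩, ⟨8, true, false, false, false⟩], true⟩,
  ⟨[⟨4, true, false, false, false⟩, ⟨6, true, true, false, false⟩, ⟨5, true, true, false, false⟩, ⟨8, true, true, false, false⟩], true⟩,
  ⟨[⟨4, true, false, false, false⟩, ⟨6, true, true, false, true⟩, ⟨5, true, true, false, false⟩, ⟨8, true, true, false, false⟩], true⟩,
  ⟨[⟨4, false, false, true, false⟩, ⟨6, true, false, false, false⟩, ⟨6, true, false, false, false⟩], true⟩,
  ⟨[⟨4, true, false, false, false⟩, ⟨6, true, false, false, false⟩, ⟨6, true, false, false, false⟩], true⟩,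
  ⟨[⟨4, true, true, false, false⟩, ⟨6, true, false, false, false⟩, ⟨6, true, true, false, false⟩], true⟩,
  ⟨[⟨4, true, true, false, true⟩, ⟨6, true, false, false, false⟩, ⟨6, true, true, false, false⟩], true⟩,
  ⟨[⟨4, false, false, false, true⟩, ⟨6, true, false, false, false⟩, ⟨6, false, false, false, false⟩, ⟨6, true, false, false, false⟩], true⟩,
  ⟨[⟨4, true, true, false, false⟩, ⟨6, true, true, false, false⟩, ⟨6, true, true, false, false⟩, ⟨6, true, true, false, false⟩], true⟩,
  ⟨[⟨4, true, true, false, true⟩, ⟨6, true, true, false, false⟩, ⟨6, true, true, false, false⟩, ⟨6, true, true, false, false⟩], true⟩,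
  ⟨[⟨4, true, true, false, false⟩, ⟨6, true, true, false, true⟩, ⟨6, true, true, false, false⟩, ⟨6, true, true, false, false⟩], true⟩,
  ⟨[⟨4, true, true, true, true⟩, ⟨6, true, true, false, true⟩, ⟨6, true, true, true, false⟩, ⟨6, true, true, false, false⟩], true⟩,
  ⟨[⟨4, false, false, false, true⟩, ⟨6, true, false, false, false⟩, ⟨6, false, false, false, false⟩, ⟨8, true, false, false, false⟩], true⟩,
  ⟨[⟨4, false, false, false, true⟩, ⟨6, true, false, false, true⟩, ⟨6, false, false, false, false⟩, ⟨8, true, false, false, false⟩], true⟩,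
  ⟨[⟨4, true, true, false, false⟩, ⟨6, true, true, false, false⟩, ⟨6, true, true, false, false⟩, ⟨8, true, true, false, false⟩], true⟩,
  ⟨[⟨4, true, true, false, true⟩, ⟨6, true, true, false, false⟩, ⟨6, true, true, false, false⟩, ⟨8, true, true, false, false⟩], true⟩,
  ⟨[⟨4, true, true, false, true⟩, ⟨6, true, true, false, true⟩, ⟨6, true, true, false, false⟩, ⟨8, true, true, false, false⟩], true⟩,
  ⟨[⟨4, true, true, false, false⟩, ⟨6, true, true, false, true⟩, ⟨6, true, true, false, false⟩, ⟨8, true, true, false, false⟩], true⟩,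
  ⟨[⟨4, true, false, false, false⟩, ⟨6, true, false, false, false⟩, ⟨7, false, false, false, false⟩], true⟩,
  ⟨[⟨4, true, true, false, false⟩, ⟨6, true, false, false, false⟩, ⟨7, false, false, false, false⟩], true⟩,
  ⟨[⟨4, true, true, false, true⟩, ⟨6, true, false, false, false⟩, ⟨7, false, false, false, false⟩], true⟩,
  ⟨[⟨4, true, false, false, false⟩, ⟨6, true, false, false, false⟩, ⟨7, true, true, false, false⟩], true⟩,
  ⟨[⟨4, true, false, false, true⟩, ⟨6, true, false, false, false⟩, ⟨7, true, true, false, false⟩], true⟩,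
  ⟨[⟨4, false, false, false, false⟩, ⟨6, true, false, false, false⟩, ⟨8, true, false, false, false⟩], true⟩,
  ⟨[⟨4, false, false, true, true⟩, ⟨6, true, false, false, false⟩, ⟨8, true, false, false, false⟩], true⟩,
  ⟨[⟨4, true, false, false, false⟩, ⟨6, true, false, false, false⟩, ⟨8, true, false, false, false⟩], true⟩,
  ⟨[⟨4, true, true, false, false⟩, ⟨6, true, false, false, false⟩, ⟨8, true, true, false, false⟩], true⟩,
  ⟨[⟨4, true, true, false, true⟩, ⟨6, true, false, false, false⟩, ⟨8, true, true, false, false⟩], true⟩,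
  ⟨[⟨4, true, false, false, true⟩, ⟨6, true, false, false, false⟩, ⟨8, true, false, false, false⟩, ⟨6, true, false, false, false⟩], true⟩,
  ⟨[⟨4, true, false, false, true⟩, ⟨6, true, false, false, false⟩, ⟨8, true, false, false, false⟩, ⟨7, false, false, false, false⟩], true⟩,
  ⟨[⟨4, true, false, false, true⟩, ⟨6, true, false, false, false⟩, ⟨8, true, false, false, false⟩, ⟨7, true, true, false, false⟩], true⟩,
  ⟨[⟨4, true, false, false, true⟩, ⟨6, true, false, false, true⟩, ⟨8, true, false, false, false⟩, ⟨7, true, true, false, false⟩], true⟩,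
  ⟨[⟨4, true, false, false, true⟩, ⟨6, true, false, false, false⟩, ⟨8, true, false, false, false⟩, ⟨8, true, false, false, false⟩], true⟩,
  ⟨[⟨4, true, false, false, true⟩, ⟨6, true, false, false, true⟩, ⟨8, true, false, false, false⟩, ⟨8, true, false, false, false⟩], true⟩,
  ⟨[⟨5, true, true, false, false⟩, ⟨4, false, false, false, false⟩, ⟨5, true, true, false, false⟩, ⟨6, true, false, false, false⟩], true⟩,
  ⟨[⟨5, true, true, false, false⟩, ⟨4, false, false, false, false⟩, ⟨5, true, true, false, false⟩, ⟨8, true, false, false, false⟩], true⟩,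
  ⟨[⟨5, true, true, false, false⟩, ⟨4, false, false, false, true⟩, ⟨5, true, true, false, false⟩, ⟨8, true, false, false, false⟩], true⟩,
  ⟨[⟨5, true, true, false, false⟩, ⟨4, false, false, false, false⟩, ⟨6, true, false, false, false⟩], true⟩,
  ⟨[⟨5, false, false, false, false⟩, ⟨4, false, false, false, false⟩, ⟨6, true, true, false, false⟩, ⟨6, true, false, false, false⟩], true⟩,
  ⟨[⟨5, false, false, false, true⟩, ⟨4, false, false, false, false⟩, ⟨6, true, true, false, false⟩, ⟨6, true, false, false, false⟩], true⟩,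
  ⟨[⟨5, false, false, false, false⟩, ⟨4, false, false, false, false⟩, ⟨6, true, true, false, false⟩, ⟨8, true, false, false, false⟩], true⟩,
  ⟨[⟨5, false, false, false, true⟩, ⟨4, false, false, false, false⟩, ⟨6, true, true, false, false⟩, ⟨8, true, false, false, false⟩], true⟩,
  ⟨[⟨5, false, false, false, true⟩, ⟨4, false, false, false, true⟩, ⟨6, true, true, false, false⟩, ⟨8, true, false, false, false⟩], true⟩,
  ⟨[⟨5, false, false, false, false⟩, ⟨4, false, false, false, true⟩, ⟨6, true, true, false, false⟩, ⟨8, true, false, false, false⟩], true⟩,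
  ⟨[⟨5, true, true, false, false⟩, ⟨4, false, false, false, false⟩, ⟨7, true, true, false, false⟩], true⟩,
  ⟨[⟨5, true, true, false, true⟩, ⟨4, false, false, false, false⟩, ⟨7, true, true, false, false⟩, ⟨6, true, false, false, false⟩], true⟩,
  ⟨[⟨5, true, true, false, true⟩, ⟨4, false, false, false, false⟩, ⟨7, true, true, false, false⟩, ⟨8, true, false, false, false⟩], true⟩,
  ⟨[⟨5, true, true, false, true⟩, ⟨4, false, false, false, true⟩, ⟨7, true, true, false, false⟩, ⟨8, true, false, false, false⟩], true⟩,
  ⟨[⟨5, false, false, false, false⟩, ⟨4, false, false, false, false⟩, ⟨8, true, true, false, false⟩], true⟩,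
  ⟨[⟨5, false, false, false, true⟩, ⟨4, false, false, false, false⟩, ⟨8, true, true, false, false⟩], true⟩,
  ⟨[⟨5, true, true, false, false⟩, ⟨4, false, false, false, false⟩, ⟨8, true, false, false, false⟩], true⟩,
  ⟨[⟨5, true, true, false, true⟩, ⟨4, false, false, false, false⟩, ⟨8, true, false, false, false⟩], true⟩,
  ⟨[⟨5, true, true, false, false⟩, ⟨5, true, true, false, false⟩, ⟨4, false, false, false, false⟩, ⟨6, true, false, false, false⟩], true⟩,
  ⟨[⟨5, true, true, false, false⟩, ⟨5, true, true, false, false⟩, ⟨4, false, false, false, false⟩, ⟨8, true, false, false, false⟩], true⟩,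
  ⟨[⟨5, true, true, false, false⟩, ⟨5, true, true, false, true⟩, ⟨4, false, false, false, false⟩, ⟨8, true, false, false, false⟩], true⟩,
  ⟨[⟨5, true, true, false, false⟩, ⟨5, true, true, false, false⟩, ⟨6, true, false, false, false⟩], true⟩,
  ⟨[⟨5, true, true, false, true⟩, ⟨5, true, true, false, false⟩, ⟨6, false, false, false, false⟩, ⟨6, true, false, false, false⟩], true⟩,
  ⟨[⟨5, true, true, false, true⟩, ⟨5, true, true, false, false⟩, ⟨6, false, false, false, false⟩, ⟨8, true, false, false, false⟩], true⟩,
  ⟨[⟨5, true, true, false, true⟩, ⟨5, true, true, false, true⟩, ⟨6, false, false, false, false⟩, ⟨8, true, false, false, false⟩], true⟩,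
  ⟨[⟨5, true, true, false, false⟩, ⟨5, true, true, false, false⟩, ⟨8, true, false, false, false⟩], true⟩,
  ⟨[⟨5, true, true, false, true⟩, ⟨5, true, true, false, false⟩, ⟨8, true, false, false, false⟩], true⟩,
  ⟨[⟨5, true, true, false, false⟩, ⟨6, true, false, false, false⟩], true⟩,
  ⟨[⟨5, true, true, false, false⟩, ⟨6, true, true, false, false⟩, ⟨4, false, false, false, false⟩, ⟨6, true, true, false, false⟩], true⟩,
  ⟨[⟨5, true, true, false, false⟩, ⟨6, true, true, false, true⟩, ⟨4, false, false, false, false⟩, ⟨6, true, true, false, false⟩], true⟩,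
  ⟨[⟨5, true, true, false, false⟩, ⟨6, true, true, false, false⟩, ⟨4, false, false, false, false⟩, ⟨8, true, true, false, false⟩], true⟩,
  ⟨[⟨5, true, true, false, false⟩, ⟨6, true, true, false, true⟩, ⟨4, false, false, false, false⟩, ⟨8, true, true, false, false⟩], true⟩,
  ⟨[⟨5, false, false, false, false⟩, ⟨6, true, false, false, false⟩, ⟨6, true, true, false, false⟩], true⟩,
  ⟨[⟨5, false, false, false, true⟩, ⟨6, true, false, false, false⟩, ⟨6, true, true, false, false⟩], true⟩,
  ⟨[⟨5, true, true, false, true⟩, ⟨6, true, true, false, false⟩, ⟨6, false, false, false, false⟩, ⟨6, true, true, false, false⟩], true⟩,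
  ⟨[⟨5, true, true, false, true⟩, ⟨6, true, true, false, true⟩, ⟨6, false, false, false, false⟩, ⟨6, true, true, false, false⟩], true⟩,
  ⟨[⟨5, true, true, false, true⟩, ⟨6, true, true, false, false⟩, ⟨6, false, false, false, false⟩, ⟨8, true, true, false, false⟩], true⟩,
  ⟨[⟨5, true, true, false, true⟩, ⟨6, true, true, false, true⟩, ⟨6, false, false, false, false⟩, ⟨8, true, true, false, false⟩], true⟩,
  ⟨[⟨5, false, false, false, false⟩, ⟨6, true, false, false, false⟩, ⟨8, true, true, false, false⟩], true⟩,
  ⟨[⟨5, false, false, false, true⟩, ⟨6, true, false, false, false⟩, ⟨8, true, true, false, false⟩], true⟩,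
  ⟨[⟨6, true, true, false, false⟩, ⟨4, false, false, false, false⟩, ⟨6, true, true, false, false⟩], true⟩,
  ⟨[⟨6, true, true, false, true⟩, ⟨4, false, false, false, false⟩, ⟨6, true, true, false, false⟩, ⟨6, true, false, false, false⟩], true⟩,
  ⟨[⟨6, true, true, false, true⟩, ⟨4, false, false, false, false⟩, ⟨6, true, true, false, false⟩, ⟨7, true, true, false, false⟩], true⟩,
  ⟨[⟨6, true, true, false, true⟩, ⟨4, false, false, false, true⟩, ⟨6, true, true, false, false⟩, ⟨7, true, true, false, false⟩], true⟩,
  ⟨[⟨6, true, true, false, true⟩, ⟨4, false, false, false, false⟩, ⟨6, true, true, false, false⟩, ⟨8, true, false, false, false⟩], true⟩,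
  ⟨[⟨6, true, true, false, true⟩, ⟨4, false, false, false, true⟩, ⟨6, true, true, false, false⟩, ⟨8, true, false, false, false⟩], true⟩,
  ⟨[⟨6, true, true, false, false⟩, ⟨4, false, false, false, false⟩, ⟨7, false, false, false, false⟩], true⟩,
  ⟨[⟨6, true, true, false, true⟩, ⟨4, false, false, false, false⟩, ⟨7, false, false, false, false⟩], true⟩,
  ⟨[⟨6, false, false, true, false⟩, ⟨4, false, false, false, false⟩, ⟨8, false, false, true, false⟩], true⟩,
  ⟨[⟨6, false, false, true, true⟩, ⟨4, false, false, false, false⟩, ⟨8, false, false, true, false⟩], true⟩,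
  ⟨[⟨6, true, true, false, false⟩, ⟨4, false, false, false, false⟩, ⟨8, true, true, false, false⟩], true⟩,
  ⟨[⟨6, true, true, false, true⟩, ⟨4, false, false, false, false⟩, ⟨8, true, true, false, false⟩], true⟩,
  ⟨[⟨6, true, true, false, false⟩, ⟨5, true, true, false, false⟩, ⟨6, true, true, false, false⟩], true⟩,
  ⟨[⟨6, true, true, false, true⟩, ⟨5, true, true, false, false⟩, ⟨6, true, true, false, false⟩], true⟩,
  ⟨[⟨6, true, true, false, false⟩, ⟨5, true, true, false, false⟩, ⟨8, true, true, false, false⟩], true⟩,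
  ⟨[⟨6, true, true, false, true⟩, ⟨5, true, true, false, false⟩, ⟨8, true, true, false, false⟩], true⟩,
  ⟨[⟨6, false, false, false, false⟩, ⟨6, true, false, false, false⟩, ⟨8, false, false, false, false⟩], true⟩,
  ⟨[⟨6, false, false, false, true⟩, ⟨6, true, false, false, false⟩, ⟨8, false, false, false, false⟩], true⟩]

lemma good_cov : good.all (fun C => cov codes C) = true := by decide +kernel

theorem good_win : ∀ C ∈ good, C.Win := fun C hC => win_cov (List.all_eq_true.1 good_cov C hC)

end CLB.H86.Gm
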