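import Pool.Agent.Helper95_CLB.Game2

/-!
Dominance of codes.
-/

set_option autoImplicit false

namespace CLB.H86.Gm

open Finset
open CLB.H95
open H3DA (Q neg nr)

/-- Unit by unit: smaller lists, fewer targets, more relations. -/
def domU (C C' : Code) (n : ℕ) : Bool :=
  (List.range n).all (fun j => decide ((C.u (j + 1)).s ≤ (C'.u (j + 1)).s) &&
    ((!(C.u (j + 1)).tg || (C'.u (j + 1)).tg) && (!(C'.u (j + 1)).rel || (C.u (j + 1)).rel)))

/-- The sums `phi` are the same or the first is not used. -/
def domL (C C' : Code) (n : ℕ) : Bool :=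
  (List.range n).all (fun j => !(C.u (j + 1)).ph) ||
    (List.range n).all (fun j => (C.u (j + 1)).ph == (C'.u (j + 1)).ph)

/-- The sums `psi` are the same or the first is not used. -/
def domP (C C' : Code) (n : ℕ) : Bool :=
  (List.range n).all (fun j => !(C.u (j + 1)).ps) ||
    (List.range n).all (fun j => (C.u (j + 1)).ps == (C'.u (j + 1)).ps)

/-- If `C` is won then `C'` is won. -/
def dom (C C' : Code) : Bool :=
  ((C.r == C'.r) && domU C C' C.r) && ((domL C C' C.r && domP C C' C.r) && (!C'.cp || C.cp))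

lemma range_all {n : ℕ} {p : ℕ → Bool} (h : (List.range n).all p = true) {i : ℕ} (h1 : 1 ≤ i)
    (h2 : i ≤ n) : p (i - 1) = true := by
  rw [List.all_eq_true] at h
  exact h (i - 1) (List.mem_range.2 (by omega))

lemma sumU_congr {b b' : ℕ → Bool} {mu : ℕ → Q} : ∀ {n : ℕ}, (∀ i, 1 ≤ i → i ≤ n → b i = b' i) →
    sumU b mu n = sumU b' mu n := by
  intro n
  induction n with
  | zero => intro _; rfl
  | succ n ih =>
    intro h
    unfold sumU
    rw [h (n + 1) (by omega) le_rfl, ih (fun i h1 h2 => h i h1 (by omega))]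

lemma sumU_none {b : ℕ → Bool} {mu : ℕ → Q} : ∀ {n : ℕ}, (∀ i, 1 ≤ i → i ≤ n → b i = false) →
    sumU b mu n = (false, false, false) := by
  intro n
  induction n with
  | zero => intro _; rfl
  | succ n ih =>
    intro h
    unfold sumU
    rw [h (n + 1) (by omega) le_rfl, if_neg (by simp), ih (fun i h1 h2 => h i h1 (by omega))]

theorem dom_sound {C C' : Code} (h : dom C C' = true) (hw : C.Win) : C'.Win := by
  unfold dom at h
  rw [Bool.and_eq_true, Bool.and_eq_true, Bool.and_eq_true, Bool.and_eq_true] at h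
  obtain ⟨⟨hr, hU⟩, ⟨hL, hP⟩, hc⟩ := h
  have hr' : C.r = C'.r := beq_iff_eq.1 hr
  have hu : ∀ i, 1 ≤ i → i ≤ C.r → (C.u i).s ≤ (C'.u i).s ∧ ((C.u i).tg = true → (C'.u i).tg = true) ∧
      ((C'.u i).rel = true → (C.u i).rel = true) := by
    intro i h1 h2
    have h3 := range_all hU h1 h2
    rw [show i - 1 + 1 = i by omega, Bool.and_eq_true, Bool.and_eq_true, decide_eq_true_eq] at h3
    refine ⟨h3.1, fun h4 => ?_, fun h4 => ?_⟩
    · have h5 := h3.2.1
      rw [h4] at h5
      simpa using h5
    · have h5 := h3.2.2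
      rw [h4] at h5
      simpa using h5
  have hV : ∀ {A : ℕ → Finset Q} {P : Q × Q} {mu : ℕ → Q}, VW C A P mu → VW C' A P mu := by
    intro A P mu h
    refine ⟨hr' ▸ h.nwk, fun i h1 h2 => h.mem i h1 (by omega), fun i h1 h2 h3 => ?_, fun h1 h2 => ?_⟩
    · exact h.rel i h1 (by omega) ((hu i h1 (by omega)).2.2 h3)
    · refine h.cpl ?_ (by omega)
      rw [h1] at hc
      simpa using hc
  intro A w P hA hball hrr H1 H2 H3
  refine hw A w P (fun i h1 h2 => (hu i h1 (by omega)).1.trans (hA i h1 (by omega))) (by rw [hr']; exact hball)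
    ?_ (fun mu mu' v hm hm' h1 h2 h3 h4 => H1 mu mu' v (hV hm) (hV hm') h1 (by omega)
      ((hu v h1 h2).2.1 h3) (fun i h5 h6 => h4 i h5 (by omega))) (fun mu mu' hm hm' => ?_) ?_
  · by_cases h0 : 1 ≤ C.r
    · have h1 := (hu C.r h0 le_rfl).1
      rw [hr'] at h1 ⊢
      exact h1.trans hrr
    · have h1 : C.r = 0 := by omega
      have h2 : C.us.getD (0 - 1) ⟨0, false, false, false, false⟩ = ⟨0, false, false, false, false⟩ := by
        have : C.us = [] := List.length_eq_zero_iff.1 h1
        rw [this]; rfl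
      unfold Code.u
      rw [h1, h2]
      exact Nat.zero_le _
  · unfold domL at hL
    rw [Bool.or_eq_true] at hL
    rcases hL with hL | hL
    · have h1 : ∀ i, 1 ≤ i → i ≤ C.r → (C.u i).ph = false := fun i h1 h2 => by
        have := range_all hL h1 h2
        rw [show i - 1 + 1 = i by omega] at this
        simpa using this
      rw [sumU_none h1, sumU_none h1]
    · have h1 : ∀ i, 1 ≤ i → i ≤ C.r → (C.u i).ph = (C'.u i).ph := fun i h1 h2 => by
        have := range_all hL h1 h2
        rw [show i - 1 + 1 = i by omega] at this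
        simpa using this
      rw [sumU_congr h1, sumU_congr h1, hr']
      exact H2 mu mu' (hV hm) (hV hm')
  · unfold domP at hP
    rw [Bool.or_eq_true] at hP
    rcases hP with hP | hP
    · have h1 : ∀ i, 1 ≤ i → i ≤ C.r → (C.u i).ps = false := fun i h1 h2 => by
        have := range_all hP h1 h2
        rw [show i - 1 + 1 = i by omega] at this
        simpa using this
      refine ⟨{(false, false, false)}, by rw [card_singleton]; norm_num, fun mu _ => ?_⟩
      rw [sumU_none h1, mem_singleton]
    · have h1 : ∀ i, 1 ≤ i → i ≤ C.r → (C.u i).ps = (C'.u i).ps := fun i h1 h2 => by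
        have := range_all hP h1 h2
        rw [show i - 1 + 1 = i by omega] at this
        simpa using this
      obtain ⟨S, hS, hm⟩ := H3
      refine ⟨S, hS, fun mu hmu => ?_⟩
      rw [sumU_congr h1, hr']
      exact hm mu (hV hmu)

/-- Some code of the list dominates. -/
def cov (L : List Code) (C' : Code) : Bool := L.any (fun C => dom C C')

theorem cov_sound {L : List Code} (hL : ∀ C ∈ L, C.Win) {C' : Code} (h : cov L C' = true) : C'.Win := by
  unfold cov at h
  rw [List.any_eq_true] at h
  obtain ⟨C, hC, hd⟩ := h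
  exact dom_sound hd (hL C hC)

end CLB.H86.Gm
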