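import Pool.Agent.Helper86_DA.GmSound

/-!
Codes of windows as hitting set problems.
-/

set_option autoImplicit false

namespace CLB.H86.Gm

open Finset
open CLB.H95
open H3DA (Q neg nr)

/-- The label with number `t`. -/
def q (t : ℕ) : Q := (t.testBit 0, t.testBit 1, t.testBit 2)

lemma q_inj : ∀ a, a < 8 → ∀ b, b < 8 → q a = q b → a = b := by decide

/-- Nearness of numbers. -/
def adj (a b : ℕ) : Bool :=
  Nat.beq (Nat.xor a b) 0 || (Nat.beq (Nat.xor a b) 1 || (Nat.beq (Nat.xor a b) 2 || Nat.beq (Nat.xor a b) 4))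

lemma adj_nr : ∀ a, a < 8 → ∀ b, b < 8 → adj a b = true → nr (q a) (q b) = true := by decide

lemma adj_zero : ∀ a, a < 8 → (adj 0 a = true ↔ nr (q 0) (q a) = true) := by decide

lemma q_xor : ∀ a, a < 8 → ∀ b, b < 8 → add (q a) (q b) = q (a ^^^ b) := by decide

lemma xor_lt8 : ∀ a, a < 8 → ∀ b, b < 8 → a ^^^ b < 8 := by decide

lemma nr_add : ∀ w a b : Q, nr (add w a) (add w b) = nr a b := by decide

lemma add_inj : ∀ w a b : Q, add w a = add w b → a = b := by decide

lemma add_zero' : ∀ w : Q, add w (q 0) = w := by decide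

lemma add_assoc4 : ∀ a b c d : Q, add (add a b) (add c d) = add (add a c) (add b d) := by decide

/-- The sum of numbers. -/
def sumN (b : ℕ → Bool) (f : ℕ → ℕ) : ℕ → ℕ
  | 0 => 0
  | n + 1 => cond (b (n + 1)) (Nat.xor (sumN b f n) (f (n + 1))) (sumN b f n)

lemma sumN_lt {b : ℕ → Bool} {f : ℕ → ℕ} (hf : ∀ i, f i < 8) : ∀ n, sumN b f n < 8 := by
  intro n
  induction n with
  | zero => exact (by decide : 0 < 8)
  | succ n ih =>
    unfold sumN
    cases b (n + 1) with
    | true => exact xor_lt8 _ ih _ (hf _)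
    | false => exact ih

lemma sumU_q {b : ℕ → Bool} {f : ℕ → ℕ} (hf : ∀ i, f i < 8) :
    ∀ n, sumU b (fun i => q (f i)) n = q (sumN b f n) := by
  intro n
  induction n with
  | zero => unfold sumU sumN; decide
  | succ n ih =>
    unfold sumU sumN
    cases hb : b (n + 1) with
    | true =>
      rw [if_pos rfl, ih]
      exact q_xor _ (sumN_lt hf n) _ (hf _)
    | false => rw [if_neg (by simp), ih]; rfl

lemma sumU_add {b : ℕ → Bool} (w : Q) (m : ℕ → Q) :
    ∀ n, sumU b (fun i => add w (m i)) n = add (sumU b m n) (sumU b (fun _ => w) n) := by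
  intro n
  induction n with
  | zero => rfl
  | succ n ih =>
    unfold sumU
    cases hb : b (n + 1) with
    | true =>
      rw [if_pos rfl, if_pos rfl, if_pos rfl, ih, CLB.H95.add_comm' w (m (n + 1)), add_assoc4]
    | false => rw [if_neg (by simp), if_neg (by simp), if_neg (by simp), ih]

/-- Labels of a token: unit `i` has the label `wf tk i`. -/
def wf (tk i : ℕ) : ℕ := Nat.mod (Nat.shiftRight tk (Nat.mul 3 i)) 8

/-- Change of one label. -/
def upd (f : ℕ → ℕ) (v t : ℕ) : ℕ → ℕ := fun i => cond (Nat.beq i v) t (f i)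

/-- Nearness along the units. -/
def adjs (f : ℕ → ℕ) : ℕ → Bool
  | 0 => true
  | n + 1 => adjs f n && adj (f (n + 1)) (f (n + 2))

/-- The relations. -/
def rels (C : Code) (f : ℕ → ℕ) : ℕ → Bool
  | 0 => true
  | n + 1 => rels C f n && (!(C.u (n + 1)).rel || !(Nat.beq (f (n + 1)) (f (n + 3))))

/-- The labels form a walk of the code. -/
def walkOK (C : Code) (f : ℕ → ℕ) : Bool :=
  (adj 0 (f C.r) && adjs f (C.r - 1)) && rels C f (C.r - 2)

/-- The elements of the units of a walk. -/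
def mku (f : ℕ → ℕ) : ℕ → ℕ
  | 0 => 0
  | n + 1 => Nat.lor (mku f n) (Nat.pow 2 (Nat.add (Nat.add 80 (Nat.mul 8 n)) (f (n + 1))))

/-- The elements of a walk. -/
def mk (C : Code) (f : ℕ → ℕ) : ℕ :=
  cond (C.cp && Nat.ble 2 C.r) (Nat.lor (mku f C.r) (Nat.pow 2 (Nat.add (Nat.mul 8 (f 1)) (f 2))))
    (mku f C.r)

/-- The token is valid. -/
def validT (C : Code) (tk : ℕ) : Bool :=
  walkOK C (wf tk) && (Nat.beq (Nat.mod tk 8) 6 || (Nat.beq (Nat.mod tk 8) 7 ||
    ((Nat.ble 1 (Nat.mod tk 8) && Nat.ble (Nat.mod tk 8) C.r) && ((C.u (Nat.mod tk 8)).tg &&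
      (!(Nat.beq (wf tk 6) (wf tk (Nat.mod tk 8))) &&
        walkOK C (upd (wf tk) (Nat.mod tk 8) (wf tk 6)))))))

/-- The elements of a token. -/
def maskT (C : Code) (tk : ℕ) : ℕ :=
  Nat.lor 1329227995784915872903807060280344576 (
  cond (Nat.beq (Nat.mod tk 8) 6)
    (Nat.lor (mk C (wf tk)) (Nat.pow 2 (Nat.add 64 (sumN (fun i => (C.u i).ph) (wf tk) C.r))))
    (cond (Nat.beq (Nat.mod tk 8) 7)
      (Nat.lor (mk C (wf tk)) (Nat.pow 2 (Nat.add 72 (sumN (fun i => (C.u i).ps) (wf tk) C.r))))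
      (Nat.lor (mk C (wf tk)) (mk C (upd (wf tk) (Nat.mod tk 8) (wf tk 6))))))

/-- The predicate of the elements which are hit. -/
def Xh (C : Code) (A : ℕ → Finset Q) (w : Q) (P : Q × Q) (e : ℕ) : Prop :=
  (e < 64 ∧ C.cp = true ∧ 2 ≤ C.r ∧ (add w (q (e / 8)), add w (q (e % 8))) = P) ∨
  (64 ≤ e ∧ e < 72 ∧ ∃ mu, VW C A P mu ∧
    sumU (fun i => (C.u i).ph) mu C.r = add (q (e - 64)) (sumU (fun i => (C.u i).ph) (fun _ => w) C.r)) ∨
  (72 ≤ e ∧ e < 80 ∧ ∃ mu, VW C A P mu ∧
    sumU (fun i => (C.u i).ps) mu C.r = add (q (e - 72)) (sumU (fun i => (C.u i).ps) (fun _ => w) C.r)) ∨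
  (80 ≤ e ∧ (e - 72) / 8 ≤ C.r ∧ ((e - 72) / 8 = C.r → adj 0 (e % 8) = true) ∧
    add w (q (e % 8)) ∉ A ((e - 72) / 8)) ∨ e = 120

lemma wf_lt (tk i : ℕ) : wf tk i < 8 := Nat.mod_lt _ (by norm_num)

lemma upd_lt {f : ℕ → ℕ} {v t : ℕ} (hf : ∀ i, f i < 8) (ht : t < 8) (i : ℕ) : upd f v t i < 8 := by
  unfold upd
  cases Nat.beq i v with
  | true => exact ht
  | false => exact hf i

variable {C : Code} {A : ℕ → Finset Q} {w : Q} {P : Q × Q}

lemma adjs_spec {f : ℕ → ℕ} : ∀ {n : ℕ}, adjs f n = true → ∀ i, 1 ≤ i → i ≤ n →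
    adj (f i) (f (i + 1)) = true := by
  intro n
  induction n with
  | zero => intro _ i h1 h2; omega
  | succ n ih =>
    intro h i h1 h2
    unfold adjs at h
    rw [Bool.and_eq_true] at h
    by_cases hi : i = n + 1
    · subst hi; exact h.2
    · exact ih h.1 i h1 (by omega)

lemma rels_spec {f : ℕ → ℕ} : ∀ {n : ℕ}, rels C f n = true → ∀ i, 1 ≤ i → i ≤ n →
    (C.u i).rel = true → f i ≠ f (i + 2) := by
  intro n
  induction n with
  | zero => intro _ i h1 h2; omega
  | succ n ih =>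
    intro h i h1 h2 hr
    unfold rels at h
    rw [Bool.and_eq_true] at h
    by_cases hi : i = n + 1
    · subst hi
      have h3 := h.2
      rw [hr] at h3
      intro hc
      rw [hc] at h3
      have h4 : Nat.beq (f (n + 1 + 2)) (f (n + 3)) = true := Nat.beq_refl _
      rw [h4] at h3
      exact absurd h3 (by simp)
    · exact ih h.1 i h1 (by omega) hr

lemma mku_spec {f : ℕ → ℕ} : ∀ {n : ℕ}, ∀ i, 1 ≤ i → i ≤ n →
    (mku f n).testBit (72 + 8 * i + f i) = true := by
  intro n
  induction n with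
  | zero => intro i h1 h2; omega
  | succ n ih =>
    intro i h1 h2
    unfold mku
    have hor : (mku f n ||| 2 ^ (80 + 8 * n + f (n + 1))).testBit (72 + 8 * i + f i) = true := by
      rw [tb_or_pow]
      by_cases hi : i = n + 1
      · right; subst hi; omega
      · left; exact ih i h1 (by omega)
    exact hor

lemma mk_spec {f : ℕ → ℕ} {i : ℕ} (h1 : 1 ≤ i) (h2 : i ≤ C.r) :
    (mk C f).testBit (72 + 8 * i + f i) = true := by
  unfold mk
  cases (C.cp && Nat.ble 2 C.r) with
  | true =>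
    have : (mku f C.r ||| 2 ^ (8 * f 1 + f 2)).testBit (72 + 8 * i + f i) = true := by
      rw [tb_or_pow]; exact Or.inl (mku_spec i h1 h2)
    exact this
  | false => exact mku_spec i h1 h2

lemma mk_spec2 {f : ℕ → ℕ} (hc : C.cp = true) (h2 : 2 ≤ C.r) :
    (mk C f).testBit (8 * f 1 + f 2) = true := by
  unfold mk
  have h3 : (C.cp && Nat.ble 2 C.r) = true := by
    rw [hc, Nat.ble_eq_true_of_le h2]; rfl
  rw [h3]
  have : (mku f C.r ||| 2 ^ (8 * f 1 + f 2)).testBit (8 * f 1 + f 2) = true := by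
    rw [tb_or_pow]; exact Or.inr rfl
  exact this

/-- A walk whose elements are not hit is valid. -/
lemma walk_valid (hr : 1 ≤ C.r) {f : ℕ → ℕ} (hf : ∀ i, f i < 8) (hw : walkOK C f = true)
    (hX : ∀ e, (mk C f).testBit e = true → ¬ Xh C A w P e) :
    VW C A P (fun i => add w (q (f i))) := by
  unfold walkOK at hw
  rw [Bool.and_eq_true, Bool.and_eq_true] at hw
  refine ⟨fun i h1 h2 => ?_, fun i h1 h2 => ?_, fun i h1 h2 h3 h4 => ?_, fun h1 h2 h3 => ?_⟩
  · show nr (add w (q (f i))) (add w (q (f (i + 1)))) = true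
    rw [nr_add]
    exact adj_nr _ (hf _) _ (hf _) (adjs_spec hw.1.2 i h1 (by omega))
  · by_contra hc
    refine hX _ (mk_spec h1 h2) (Or.inr (Or.inr (Or.inr (Or.inl ⟨by omega, ?_, ?_, ?_⟩))))
    · have := hf i; omega
    · intro h3
      have h4 := hf i
      have h5 : (72 + 8 * i + f i) % 8 = f i := by omega
      have h6 : i = C.r := by omega
      rw [h5, h6]
      exact hw.1.1
    · have h4 := hf i
      have h5 : (72 + 8 * i + f i) % 8 = f i := by omega
      have h6 : (72 + 8 * i + f i - 72) / 8 = i := by omega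
      rw [h5, h6]
      exact hc
  · have h5 := q_inj _ (hf _) _ (hf _) (add_inj _ _ _ h4)
    exact rels_spec hw.2 i h1 (by omega) h3 h5
  · refine hX _ (mk_spec2 h1 h2) (Or.inl ⟨?_, h1, h2, ?_⟩)
    · have := hf 1; have := hf 2; omega
    · have h4 := hf 1
      have h5 := hf 2
      have h6 : (8 * f 1 + f 2) / 8 = f 1 := by omega
      have h7 : (8 * f 1 + f 2) % 8 = f 2 := by omega
      rw [h6, h7]
      exact h3

/-- The hypotheses on targets. -/
def HT (C : Code) (A : ℕ → Finset Q) (P : Q × Q) : Prop :=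
  ∀ mu mu' v, VW C A P mu → VW C A P mu' → 1 ≤ v → v ≤ C.r → (C.u v).tg = true →
      (∀ i, 1 ≤ i → i ≤ C.r → i ≠ v → mu i = mu' i) → mu v = mu' v

lemma lor_left {a b e : ℕ} (h : a.testBit e = true) : (Nat.lor a b).testBit e = true := by
  have : (a ||| b).testBit e = true := by rw [Nat.testBit_or, h]; rfl
  exact this

lemma lor_right {a b e : ℕ} (h : b.testBit e = true) : (Nat.lor a b).testBit e = true := by
  have : (a ||| b).testBit e = true := by rw [Nat.testBit_or, h, Bool.or_true]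
  exact this

lemma mku_lt {f : ℕ → ℕ} (hf : ∀ i, f i < 8) : ∀ {n e : ℕ}, n ≤ 5 → (mku f n).testBit e = true →
    e < 120 := by
  intro n
  induction n with
  | zero => intro e _ h; unfold mku at h; rw [Nat.zero_testBit] at h; exact absurd h (by simp)
  | succ n ih =>
    intro e hn h
    unfold mku at h
    have h' : (mku f n ||| 2 ^ (80 + 8 * n + f (n + 1))).testBit e = true := h
    rw [tb_or_pow] at h'
    rcases h' with h' | h'
    · exact ih (by omega) h'
    · have := hf (n + 1); omega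

lemma mk_lt (h4 : C.r ≤ 5) {f : ℕ → ℕ} (hf : ∀ i, f i < 8) {e : ℕ} (h : (mk C f).testBit e = true) :
    e ≠ 120 := by
  unfold mk at h
  cases hc : (C.cp && Nat.ble 2 C.r) with
  | true =>
    rw [hc] at h
    have h' : (mku f C.r ||| 2 ^ (8 * f 1 + f 2)).testBit e = true := h
    rw [tb_or_pow] at h'
    rcases h' with h' | h'
    · have := mku_lt hf h4 h'; omega
    · have := hf 1; have := hf 2; omega
  | false =>
    rw [hc] at h
    have := mku_lt hf h4 h; omega

/-- Configurations are hit. -/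
lemma mask_hit (hr : 1 ≤ C.r) (h4 : C.r ≤ 5) (hT : HT C A P) {tk : ℕ} (hv : validT C tk = true) :
    ∃ e, e ≠ 120 ∧ (maskT C tk).testBit e = true ∧ Xh C A w P e := by
  by_contra hc
  have hc' : ∀ e, e ≠ 120 → (maskT C tk).testBit e = true → ¬ Xh C A w P e := by
    intro e h1 h2 h3
    exact hc ⟨e, h1, h2, h3⟩
  unfold validT at hv
  rw [Bool.and_eq_true] at hv
  have hk := Nat.mod_lt tk (y := 8) (by norm_num)
  cases h5 : Nat.beq (Nat.mod tk 8) 6 with
  | true =>
    have hm : maskT C tk = Nat.lor 1329227995784915872903807060280344576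
        (Nat.lor (mk C (wf tk)) (Nat.pow 2 (Nat.add 64 (sumN (fun i => (C.u i).ph) (wf tk) C.r)))) := by
      unfold maskT; rw [h5]; rfl
    rw [hm] at hc'
    have hw := walk_valid (w := w) (A := A) (P := P) hr (wf_lt tk) hv.1
      (fun e he => hc' e (mk_lt h4 (wf_lt tk) he) (lor_right (lor_left he)))
    have hs := sumN_lt (b := fun i => (C.u i).ph) (wf_lt tk) C.r
    refine hc' (64 + sumN (fun i => (C.u i).ph) (wf tk) C.r) (by omega)
      (lor_right (lor_right (tb_pow.2 rfl))) (Or.inr (Or.inl ⟨by omega, by omega, _, hw, ?_⟩))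
    rw [sumU_add, sumU_q (wf_lt tk), Nat.add_sub_cancel_left]
  | false =>
    cases h6 : Nat.beq (Nat.mod tk 8) 7 with
    | true =>
      have hm : maskT C tk = Nat.lor 1329227995784915872903807060280344576
          (Nat.lor (mk C (wf tk)) (Nat.pow 2 (Nat.add 72 (sumN (fun i => (C.u i).ps) (wf tk) C.r)))) := by
        unfold maskT; rw [h5, h6]; rfl
      rw [hm] at hc'
      have hw := walk_valid (w := w) (A := A) (P := P) hr (wf_lt tk) hv.1
        (fun e he => hc' e (mk_lt h4 (wf_lt tk) he) (lor_right (lor_left he)))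
      have hs := sumN_lt (b := fun i => (C.u i).ps) (wf_lt tk) C.r
      refine hc' (72 + sumN (fun i => (C.u i).ps) (wf tk) C.r) (by omega)
        (lor_right (lor_right (tb_pow.2 rfl))) (Or.inr (Or.inr (Or.inl ⟨by omega, by omega, _, hw, ?_⟩)))
      rw [sumU_add, sumU_q (wf_lt tk), Nat.add_sub_cancel_left]
    | false =>
      have hm : maskT C tk = Nat.lor 1329227995784915872903807060280344576
          (Nat.lor (mk C (wf tk)) (mk C (upd (wf tk) (Nat.mod tk 8) (wf tk 6)))) := by
        unfold maskT; rw [h5, h6]; rfl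
      rw [hm] at hc'
      have hv2 := hv.2
      rw [h5, h6, Bool.false_or, Bool.false_or, Bool.and_eq_true, Bool.and_eq_true, Bool.and_eq_true,
        Bool.and_eq_true] at hv2
      obtain ⟨⟨hk1, hk2⟩, htg, hne, hw2⟩ := hv2
      have hk1' : 1 ≤ Nat.mod tk 8 := Nat.le_of_ble_eq_true hk1
      have hk2' : Nat.mod tk 8 ≤ C.r := Nat.le_of_ble_eq_true hk2
      have hu := upd_lt (f := wf tk) (v := Nat.mod tk 8) (t := wf tk 6) (wf_lt tk) (wf_lt tk 6)
      have hwa := walk_valid (w := w) (A := A) (P := P) hr (wf_lt tk) hv.1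
        (fun e he => hc' e (mk_lt h4 (wf_lt tk) he) (lor_right (lor_left he)))
      have hwb := walk_valid (w := w) (A := A) (P := P) hr hu hw2
        (fun e he => hc' e (mk_lt h4 hu he) (lor_right (lor_right he)))
      have h7 := hT _ _ (Nat.mod tk 8) hwa hwb hk1' hk2' htg (fun i h1 h2 h3 => by
        show add w (q (wf tk i)) = add w (q (upd (wf tk) (Nat.mod tk 8) (wf tk 6) i))
        have h8 : Nat.beq i (Nat.mod tk 8) = false := by
          cases h9 : Nat.beq i (Nat.mod tk 8) with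
          | false => rfl
          | true => exact absurd (Nat.eq_of_beq_eq_true h9) h3
        unfold upd
        rw [h8]; rfl)
      have h8 : upd (wf tk) (Nat.mod tk 8) (wf tk 6) (Nat.mod tk 8) = wf tk 6 := by
        unfold upd
        rw [Nat.beq_refl]; rfl
      have h9 : add w (q (wf tk (Nat.mod tk 8))) = add w (q (wf tk 6)) := by
        rw [← h8]; exact h7
      have h10 := q_inj _ (wf_lt _ _) _ (wf_lt _ _) (add_inj _ _ _ h9)
      rw [h10, Nat.beq_refl] at hne
      exact absurd hne (by simp)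

/-- The table is correct. -/
def okT (C : Code) : ℕ → ℕ → ℕ → Bool
  | 0, tab, _ => Nat.beq tab 0
  | n + 1, tab, toks =>
    (validT C (Nat.mod toks 2097152) &&
      Nat.beq (Nat.mod tab 340282366920938463463374607431768211456) (maskT C (Nat.mod toks 2097152))) &&
    okT C n (Nat.shiftRight tab 128) (Nat.shiftRight toks 21)

lemma okT_spec : ∀ (n tab toks : ℕ), okT C n tab toks = true →
    ∀ j, (tab >>> (128 * j)) % 2 ^ 128 = 0 ∨ ∃ tk, validT C tk = true ∧
      (tab >>> (128 * j)) % 2 ^ 128 = maskT C tk := by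
  intro n
  induction n with
  | zero =>
    intro tab toks h j
    unfold okT at h
    left
    rw [Nat.eq_of_beq_eq_true h]; simp
  | succ n ih =>
    intro tab toks h j
    unfold okT at h
    rw [Bool.and_eq_true, Bool.and_eq_true] at h
    cases j with
    | zero => exact Or.inr ⟨_, h.1.1, Nat.eq_of_beq_eq_true h.1.2⟩
    | succ j =>
      have h1 := ih _ _ h.2 j
      have h2 : (Nat.shiftRight tab 128) >>> (128 * j) = tab >>> (128 * (j + 1)) := by
        show (tab >>> 128) >>> (128 * j) = _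
        rw [← Nat.shiftRight_add]
        congr 1
        omega
      rw [h2] at h1
      exact h1

end CLB.H86.Gm
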