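import Mathlib.Data.Nat.Bitwise

/-!
The machine of the finite games: search trees for hitting sets.
-/

set_option autoImplicit false

namespace CLB.H86.Gm

/-- Stack of open positions: remaining elements, hit elements, free elements. -/
inductive Stk where
  | nil : Stk
  | bad : Stk
  | cons (U H S : Nat) (k : Stk) : Stk

/-- The configuration of the table which is named by the token. -/
def cfg (tab T : Nat) : Nat :=
  Nat.mod (Nat.shiftRight tab (Nat.land T 262016)) 340282366920938463463374607431768211456

/-- Remove the `n` lowest bits. -/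
def clr : Nat → Nat → Nat
  | 0, h => h
  | n + 1, h => clr n (Nat.land h (Nat.sub h 1))

/-- The free elements after the element `e` was hit; at most `pb + 1` pairs (elements below `64`) are
hit. -/
def nxS (ex pb H' S e : Nat) : Nat :=
  cond (Nat.ble 64 e)
    (cond (Nat.beq (Nat.mod (Nat.shiftRight ex (Nat.add (Nat.mul 256 (Nat.div e 8))
        (Nat.mod (Nat.shiftRight H' (Nat.mul 8 (Nat.div e 8))) 256))) 2) 1)
      (Nat.lor S (Nat.shiftLeft 255 (Nat.mul 8 (Nat.div e 8)))) S)
    (cond (Nat.beq (clr pb (Nat.mod H' 18446744073709551616)) 0) S (Nat.lor S 18446744073709551615))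

/-- Push a position if it has remaining elements. -/
def push (U H S : Nat) (k : Stk) : Stk := cond (Nat.beq U 0) k (Stk.cons U H S k)

/-- The position after hitting `p = 2 ^ e`. -/
def kid (C H' S' : Nat) (k : Stk) : Stk :=
  cond (Nat.beq (Nat.land C H') 1329227995784915872903807060280344576)
    (push (Nat.xor C (Nat.land C S')) H' S' k) Stk.bad

/-- One step. -/
def nxt (tab ex pb T U H S e p : Nat) (k : Stk) : Stk :=
  kid (cfg tab T) (Nat.lor H p) (nxS ex pb (Nat.lor H p) S e) (push (Nat.xor U p) H (Nat.lor S p) k)

/-- The machine. -/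
def run (tab ex pb n : Nat) : Nat → Stk → Stk :=
  Nat.rec (motive := fun _ => Nat → Stk → Stk) (fun _ k => k)
    (fun _ ih T k => Stk.casesOn (motive := fun _ => Stk) k Stk.nil Stk.bad (fun U H S k' =>
      ih (Nat.shiftRight T 18) (nxt tab ex pb T U H S (Nat.mod T 128) (Nat.pow 2 (Nat.mod T 128)) k'))) n

/-- Equality of stacks. -/
def eqS : Stk → Stk → Bool
  | Stk.nil, Stk.nil => true
  | Stk.cons U H S k, Stk.cons U' H' S' k' =>
    (Nat.beq U U' && Nat.beq H H') && (Nat.beq S S' && eqS k k')
  | _, _ => false

end CLB.H86.Gm
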