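import Pool.Agent.Helper95_CLB.Game2
import Pool.Agent.Helper86_DA.GmRun

/-!
Soundness of the machine of the finite games.
-/

set_option autoImplicit false

namespace CLB.H86.Gm

variable {X : ℕ → Prop} {tab ex pb : ℕ}

/-- The hit elements are hit, the free elements are not (or they are known to be hit). -/
def Sat (X : ℕ → Prop) (H S : ℕ) : Prop :=
  (∀ e, H.testBit e = true → X e) ∧ (∀ e, S.testBit e = true → X e → H.testBit e = true)

/-- The claim of a position. -/
def Fr (X : ℕ → Prop) (U H S : ℕ) : Prop := Sat X H S → (∃ e, U.testBit e = true ∧ X e) → False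

/-- The claims of a stack. -/
def All (X : ℕ → Prop) : Stk → Prop
  | Stk.nil => True
  | Stk.bad => False
  | Stk.cons U H S k => Fr X U H S ∧ All X k

/-- The predicate `X` is a model of the problem with the table `tab` and the exhaustion table `ex`. -/
structure Ok (X : ℕ → Prop) (tab ex pb : ℕ) : Prop where
  tb : ∀ j, ((tab >>> (128 * j)) % 2 ^ 128).testBit 120 = true →
    ∃ e, e ≠ 120 ∧ ((tab >>> (128 * j)) % 2 ^ 128).testBit e = true ∧ X e
  pr : ∀ s : Finset ℕ, (∀ e ∈ s, e < 64 ∧ X e) → s.card ≤ pb + 1
  gr : ∀ g, 8 ≤ g → ∀ h, h < 256 → ex.testBit (256 * g + h) = true →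
    (∀ t, t < 8 → h.testBit t = true → X (8 * g + t)) → ∀ t, t < 8 → X (8 * g + t) →
    h.testBit t = true

lemma tb_pow {e i : ℕ} : (2 ^ e).testBit i = true ↔ e = i := by
  rw [Nat.testBit_two_pow]; simp

lemma tb_or_pow {H e i : ℕ} : (H ||| 2 ^ e).testBit i = true ↔ H.testBit i = true ∨ e = i := by
  rw [Nat.testBit_or, Bool.or_eq_true, tb_pow]

lemma push_all {U H S : ℕ} {k : Stk} (h : All X (push U H S k)) : All X k ∧ Fr X U H S := by
  unfold push at h
  cases hb : Nat.beq U 0 with
  | true =>
    rw [hb] at h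
    have h0 : U = 0 := Nat.eq_of_beq_eq_true hb
    refine ⟨h, fun _ hU => ?_⟩
    obtain ⟨e, he, _⟩ := hU
    rw [h0, Nat.zero_testBit] at he
    exact absurd he (by simp)
  | false =>
    rw [hb] at h
    exact ⟨h.2, h.1⟩

lemma kid_all {C H' S' : ℕ} {k : Stk} (h : All X (kid C H' S' k))
    (hC : C.testBit 120 = true → ∃ e, e ≠ 120 ∧ C.testBit e = true ∧ X e) :
    All X k ∧ (Sat X H' S' → False) := by
  unfold kid at h
  cases hb : Nat.beq (Nat.land C H') 1329227995784915872903807060280344576 with
  | false => rw [hb] at h; exact h.elim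
  | true =>
    rw [hb] at h
    have h1 := push_all h
    have h2 : C &&& H' = 2 ^ 120 := Nat.eq_of_beq_eq_true hb
    refine ⟨h1.1, fun hs => h1.2 hs ?_⟩
    have h3 : (C &&& H').testBit 120 = true := by rw [h2, tb_pow]
    rw [Nat.testBit_and, Bool.and_eq_true] at h3
    obtain ⟨e, he, heC, heX⟩ := hC h3.1
    refine ⟨e, ?_, heX⟩
    have h4 : H'.testBit e = false := by
      cases hh : H'.testBit e with
      | false => rfl
      | true =>
        exfalso
        have h5 : (C &&& H').testBit e = true := by rw [Nat.testBit_and, heC, hh]; rfl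
        rw [h2, tb_pow] at h5
        exact he h5.symm
    have h6 : S'.testBit e = false := by
      cases hh : S'.testBit e with
      | false => rfl
      | true =>
        have := hs.2 e hh heX
        rw [h4] at this
        exact absurd this (by simp)
    show (C ^^^ (C &&& S')).testBit e = true
    rw [Nat.testBit_xor, Nat.testBit_and, heC, h6]; rfl

lemma cfg_eq (tab T : ℕ) : ∃ j, cfg tab T = (tab >>> (128 * j)) % 2 ^ 128 := by
  refine ⟨(T >>> 7) &&& 2047, ?_⟩
  have h : Nat.land T 262016 = 128 * ((T >>> 7) &&& 2047) := by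
    show T &&& (2047 <<< 7) = _
    have h1 : 128 * ((T >>> 7) &&& 2047) = ((T >>> 7) &&& 2047) <<< 7 := by
      rw [Nat.shiftLeft_eq, Nat.mul_comm]
    rw [h1]
    apply Nat.eq_of_testBit_eq
    intro i
    rw [Nat.testBit_and, Nat.testBit_shiftLeft, Nat.testBit_shiftLeft, Nat.testBit_and,
      Nat.testBit_shiftRight]
    by_cases hi : 7 ≤ i
    · simp only [hi, decide_true, Bool.true_and]
      congr 2
      omega
    · simp [hi]
  unfold cfg
  show (Nat.shiftRight tab (Nat.land T 262016)) % _ = _
  rw [h]
  rfl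

lemma tb_ones {n i : ℕ} : (2 ^ n - 1).testBit i = true ↔ i < n := by
  rw [Nat.testBit_two_pow_sub_one]; simp

lemma clr_spec : ∀ (n h : ℕ), clr n h ≠ 0 → ∃ s : Finset ℕ, n + 1 ≤ s.card ∧
    ∀ t ∈ s, h.testBit t = true := by
  intro n
  induction n with
  | zero =>
    intro h h0
    obtain ⟨t, ht⟩ := Nat.exists_testBit_of_ne_zero (show h ≠ 0 from h0)
    exact ⟨{t}, by simp, fun u hu => by rw [Finset.mem_singleton] at hu; rw [hu]; exact ht⟩
  | succ n ih =>
    intro h h0
    obtain ⟨s, hs1, hs2⟩ := ih (Nat.land h (Nat.sub h 1)) h0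
    have hne : h ≠ 0 := by
      rintro rfl
      obtain ⟨t, ht⟩ : s.Nonempty := Finset.card_pos.1 (by omega)
      have h1 : (0 &&& (0 - 1)).testBit t = true := hs2 t ht
      simp at h1
    have hlt : h &&& (h - 1) < h := lt_of_le_of_lt Nat.and_le_right (by omega)
    have hex : ∃ t, h.testBit t = true ∧ (h &&& (h - 1)).testBit t = false := by
      by_contra hcon
      push Not at hcon
      have he : h &&& (h - 1) = h := by
        apply Nat.eq_of_testBit_eq
        intro t
        cases ht : h.testBit t with
        | true =>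
          have := hcon t ht
          cases h1 : (h &&& (h - 1)).testBit t with
          | true => rfl
          | false => exact absurd h1 this
        | false => rw [Nat.testBit_and, ht, Bool.false_and]
      omega
    obtain ⟨t, ht1, ht2⟩ := hex
    have hsub : ∀ u ∈ s, h.testBit u = true := by
      intro u hu
      have h1 : (h &&& (h - 1)).testBit u = true := hs2 u hu
      rw [Nat.testBit_and, Bool.and_eq_true] at h1
      exact h1.1
    have hts : t ∉ s := by
      intro hc
      have h1 : (h &&& (h - 1)).testBit t = true := hs2 t hc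
      rw [ht2] at h1
      exact absurd h1 (by simp)
    refine ⟨insert t s, ?_, fun u hu => ?_⟩
    · rw [Finset.card_insert_of_notMem hts]; omega
    · rw [Finset.mem_insert] at hu
      rcases hu with rfl | hu
      · exact ht1
      · exact hsub u hu

lemma nxS_sat (hok : Ok X tab ex pb) {H S e : ℕ} (hs : Sat X H S) (hX : X e) :
    Sat X (H ||| 2 ^ e) (nxS ex pb (H ||| 2 ^ e) S e) := by
  have hH : ∀ i, (H ||| 2 ^ e).testBit i = true → X i := by
    intro i hi
    rw [tb_or_pow] at hi
    rcases hi with hi | hi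
    · exact hs.1 i hi
    · exact hi ▸ hX
  have hS : ∀ i, S.testBit i = true → X i → (H ||| 2 ^ e).testBit i = true := fun i h1 h2 => by
    rw [tb_or_pow]; exact Or.inl (hs.2 i h1 h2)
  refine ⟨hH, fun i hi hXi => ?_⟩
  unfold nxS at hi
  cases hb : Nat.ble 64 e with
  | false =>
    rw [hb] at hi
    have he : e < 64 := by
      by_contra hc
      have : Nat.ble 64 e = true := Nat.ble_eq_true_of_le (by omega)
      rw [hb] at this
      exact absurd this (by simp)
    cases hcl : Nat.beq (clr pb (Nat.mod (H ||| 2 ^ e) 18446744073709551616)) 0 with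
    | true => rw [hcl] at hi; exact hS i hi hXi
    | false =>
      rw [hcl] at hi
      have hi' : (S ||| (2 ^ 64 - 1)).testBit i = true := hi
      rw [Nat.testBit_or, Bool.or_eq_true, tb_ones] at hi'
      rcases hi' with hi' | hi'
      · exact hS i hi' hXi
      · by_contra hcon
        obtain ⟨s, hs1, hs2⟩ := clr_spec pb (Nat.mod (H ||| 2 ^ e) 18446744073709551616) (fun h0 => by
          rw [h0] at hcl
          exact absurd hcl (by simp))
        have hmod : ∀ t, (Nat.mod (H ||| 2 ^ e) 18446744073709551616).testBit t = true →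
            t < 64 ∧ (H ||| 2 ^ e).testBit t = true := by
          intro t ht
          have ht' : ((H ||| 2 ^ e) % 2 ^ 64).testBit t = true := ht
          rw [Nat.testBit_mod_two_pow, Bool.and_eq_true, decide_eq_true_eq] at ht'
          exact ht'
        have h1 := hok.pr (insert i s) (fun t ht => by
          rw [Finset.mem_insert] at ht
          rcases ht with rfl | ht
          · exact ⟨hi', hXi⟩
          · have h2 := hmod t (hs2 t ht)
            exact ⟨h2.1, hH t h2.2⟩)
        have h2 : i ∉ s := fun hc => hcon (hmod i (hs2 i hc)).2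
        rw [Finset.card_insert_of_notMem h2] at h1
        omega
  | true =>
    rw [hb] at hi
    have he : 64 ≤ e := Nat.le_of_ble_eq_true hb
    set g := e / 8 with hg
    set h := ((H ||| 2 ^ e) >>> (8 * g)) % 256 with hh
    have hht : ∀ t, t < 8 → h.testBit t = (H ||| 2 ^ e).testBit (8 * g + t) := by
      intro t ht
      rw [hh, show (256 : ℕ) = 2 ^ 8 from rfl, Nat.testBit_mod_two_pow, Nat.testBit_shiftRight]
      simp [ht]
    cases hx : Nat.beq (Nat.mod (Nat.shiftRight ex (Nat.add (Nat.mul 256 (Nat.div e 8))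
        (Nat.mod (Nat.shiftRight (H ||| 2 ^ e) (Nat.mul 8 (Nat.div e 8))) 256))) 2) 1 with
    | false => rw [hx] at hi; exact hS i hi hXi
    | true =>
      rw [hx] at hi
      have hi' : (S ||| (255 <<< (8 * g))).testBit i = true := hi
      rw [Nat.testBit_or, Bool.or_eq_true] at hi'
      rcases hi' with hi' | hi'
      · exact hS i hi' hXi
      · rw [Nat.testBit_shiftLeft, Bool.and_eq_true, decide_eq_true_eq] at hi'
        have h8 : i - 8 * g < 8 := by
          have := hi'.2
          rw [show (255 : ℕ) = 2 ^ 8 - 1 from rfl, tb_ones] at this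
          exact this
        have hex : ex.testBit (256 * g + h) = true := by
          have h1 : (ex >>> (256 * g + h)) % 2 = 1 := Nat.eq_of_beq_eq_true hx
          rw [Nat.testBit_eq_decide_div_mod_eq, ← Nat.shiftRight_eq_div_pow]
          exact decide_eq_true h1
        have h3 := hok.gr g (by omega) h (Nat.mod_lt _ (by norm_num)) hex
          (fun t ht h4 => by rw [hht t ht] at h4; exact hH _ h4) (i - 8 * g) h8
          (by rw [show 8 * g + (i - 8 * g) = i by omega]; exact hXi)
        rw [hht _ h8, show 8 * g + (i - 8 * g) = i by omega] at h3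
        exact h3

lemma nxt_all (hok : Ok X tab ex pb) {T U H S e : ℕ} {k : Stk}
    (h : All X (nxt tab ex pb T U H S e (2 ^ e) k)) : All X (Stk.cons U H S k) := by
  obtain ⟨j, hj⟩ := cfg_eq tab T
  have h1 := kid_all (X := X) h (by rw [hj]; exact hok.tb j)
  have h2 := push_all h1.1
  refine ⟨fun hs hU => ?_, h2.1⟩
  by_cases hX : X e
  · exact h1.2 (nxS_sat hok hs hX)
  · refine h2.2 ⟨hs.1, fun i hi hXi => ?_⟩ ?_
    · have hi' : (S ||| 2 ^ e).testBit i = true := hi
      rw [tb_or_pow] at hi'
      rcases hi' with hi' | hi'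
      · exact hs.2 i hi' hXi
      · exact absurd (hi' ▸ hXi) hX
    · obtain ⟨i, hi, hXi⟩ := hU
      refine ⟨i, ?_, hXi⟩
      show (U ^^^ 2 ^ e).testBit i = true
      have hne : e ≠ i := fun hc => hX (hc ▸ hXi)
      have h0 : (2 ^ e).testBit i = false := by
        cases hh : (2 ^ e).testBit i with
        | false => rfl
        | true => exact absurd (tb_pow.1 hh) hne
      rw [Nat.testBit_xor, hi, h0]; rfl

lemma run_all (hok : Ok X tab ex pb) : ∀ (n T : ℕ) (k : Stk), All X (run tab ex pb n T k) → All X k := by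
  intro n
  induction n with
  | zero => intro T k h; exact h
  | succ n ih =>
    intro T k h
    cases k with
    | nil => trivial
    | bad => exact h
    | cons U H S k' =>
      have h1 : All X (run tab ex pb n (Nat.shiftRight T 18)
        (nxt tab ex pb T U H S (Nat.mod T 128) (2 ^ (Nat.mod T 128)) k')) := h
      exact nxt_all hok (ih _ _ h1)

lemma eqS_eq : ∀ (a b : Stk), eqS a b = true → a = b
  | Stk.nil, Stk.nil, _ => rfl
  | Stk.cons U H S k, Stk.cons U' H' S' k', h => by
    unfold eqS at h
    rw [Bool.and_eq_true, Bool.and_eq_true, Bool.and_eq_true] at h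
    rw [Nat.eq_of_beq_eq_true h.1.1, Nat.eq_of_beq_eq_true h.1.2, Nat.eq_of_beq_eq_true h.2.1,
      eqS_eq k k' h.2.2]
  | Stk.nil, Stk.bad, h => by simp [eqS] at h
  | Stk.nil, Stk.cons _ _ _ _, h => by simp [eqS] at h
  | Stk.bad, _, h => by simp [eqS] at h
  | Stk.cons _ _ _ _, Stk.nil, h => by simp [eqS] at h
  | Stk.cons _ _ _ _, Stk.bad, h => by simp [eqS] at h

/-- The claims of the second stack imply the claims of the first. -/
def Imp (tab ex pb : ℕ) (k k' : Stk) : Prop := ∀ X, Ok X tab ex pb → All X k' → All X k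

lemma imp_run {n T : ℕ} {k k' : Stk} (h : eqS (run tab ex pb n T k) k' = true) : Imp tab ex pb k k' := by
  intro X hok h'
  rw [← eqS_eq _ _ h] at h'
  exact run_all hok n T k h'

lemma Imp.trans {a b c : Stk} (h : Imp tab ex pb a b) (h' : Imp tab ex pb b c) : Imp tab ex pb a c :=
  fun X hok hc => h X hok (h' X hok hc)

/-- The initial stack. -/
def ini (tab j s0 : ℕ) : Stk := kid (cfg tab j) 1329227995784915872903807060280344576 s0 Stk.nil

lemma ini_false (hok : Ok X tab ex pb) {j s0 : ℕ} (h : All X (ini tab j s0)) (h0 : Sat X (2 ^ 120) s0) :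
    False := by
  obtain ⟨i, hi⟩ := cfg_eq tab j
  exact (kid_all (X := X) h (by rw [hi]; exact hok.tb i)).2 h0

end CLB.H86.Gm
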