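import Pool.Agent.Helper86_DA.GmInst

/-!
From a checked search tree to `Code.Win`.
-/

set_option autoImplicit false

namespace CLB.H86.Gm

open Finset
open CLB.H95
open H3DA (Q neg nr)

/-- Tables: numbers below `256` with at least `b` bits. -/
def TBl : List ℕ := [0xffffffffffffffffffffffffffffffffffffffffffffffffffffffffffffffff,
  0xfffffffffffffffffffffffffffffffffffffffffffffffffffffffffffffffe,
  0xfffffffffffffffffffffffffffffffefffffffffffffffefffffffefffefee8,
  0xfffffffffffffffefffffffefffefee8fffffffefffefee8fffefee8fee8e880,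
  0xfffffffefffefee8fffefee8fee8e880fffefee8fee8e880fee8e880e8808000,
  0xfffefee8fee8e880fee8e880e8808000fee8e880e8808000e880800080000000,
  0xfee8e880e8808000e880800080000000e8808000800000008000000000000000,
  0xe880800080000000800000000000000080000000000000000000000000000000,
  0x8000000000000000000000000000000000000000000000000000000000000000]

/-- The table for `b`. -/
def TB (b : ℕ) : ℕ := TBl.getD b 0

/-- Number of bits of `h` below `n`. -/
def pcn (h : ℕ) : ℕ → ℕ
  | 0 => 0
  | n + 1 => Nat.add (pcn h n) (Nat.mod (Nat.shiftRight h n) 2)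

/-- The check of one table. -/
def tbc (b : ℕ) : ℕ → Bool
  | 0 => true
  | n + 1 => (Nat.beq (Nat.mod (Nat.shiftRight (TB b) n) 2) 0 || Nat.ble b (pcn n 8)) && tbc b n

lemma tbc0 : ((tbc 0 256 && tbc 1 256) && tbc 2 256) = true := by decide +kernel
lemma tbc3 : ((tbc 3 256 && tbc 4 256) && tbc 5 256) = true := by decide +kernel
lemma tbc6 : ((tbc 6 256 && tbc 7 256) && tbc 8 256) = true := by decide +kernel

lemma tbc_spec {b : ℕ} : ∀ {n : ℕ}, tbc b n = true → ∀ h, h < n → (TB b).testBit h = true →
    b ≤ pcn h 8 := by
  intro n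
  induction n with
  | zero => intro _ h hh; omega
  | succ n ih =>
    intro hb h hh ht
    unfold tbc at hb
    rw [Bool.and_eq_true, Bool.or_eq_true] at hb
    by_cases hn : h = n
    · subst hn
      rcases hb.1 with h1 | h1
      · exfalso
        have h2 : (TB b >>> h) % 2 = 0 := Nat.eq_of_beq_eq_true h1
        rw [Nat.testBit_eq_decide_div_mod_eq, ← Nat.shiftRight_eq_div_pow, h2] at ht
        exact absurd ht (by simp)
      · exact Nat.le_of_ble_eq_true h1
    · exact ih hb.2 h (by omega) ht

lemma TB_spec {b h : ℕ} (hb : b ≤ 8) (hh : h < 256) (ht : (TB b).testBit h = true) : b ≤ pcn h 8 := by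
  have h0 := tbc0
  have h3 := tbc3
  have h6 := tbc6
  rw [Bool.and_eq_true, Bool.and_eq_true] at h0 h3 h6
  have : tbc b 256 = true := by
    obtain rfl | rfl | rfl | rfl | rfl | rfl | rfl | rfl | rfl :
      b = 0 ∨ b = 1 ∨ b = 2 ∨ b = 3 ∨ b = 4 ∨ b = 5 ∨ b = 6 ∨ b = 7 ∨ b = 8 := by omega
    · exact h0.1.1
    · exact h0.1.2
    · exact h0.2
    · exact h3.1.1
    · exact h3.1.2
    · exact h3.2
    · exact h6.1.1
    · exact h6.1.2
    · exact h6.2
  exact tbc_spec this h hh ht

lemma pcn_card (h : ℕ) : ∀ n, pcn h n ≤ ((range n).filter (fun t => h.testBit t = true)).card := by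
  intro n
  induction n with
  | zero => exact Nat.zero_le _
  | succ n ih =>
    unfold pcn
    have h2 : Nat.add (pcn h n) (Nat.mod (Nat.shiftRight h n) 2) = pcn h n + (h >>> n) % 2 := rfl
    rw [h2, range_add_one, filter_insert]
    by_cases ht : h.testBit n = true
    · rw [if_pos ht, card_insert_of_notMem (by simp)]
      have := Nat.mod_lt (h >>> n) (y := 2) (by norm_num)
      omega
    · rw [if_neg ht]
      have h3 : (h >>> n) % 2 = 0 := by
        rw [Nat.testBit_eq_decide_div_mod_eq, ← Nat.shiftRight_eq_div_pow, decide_eq_true_eq] at ht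
        have := Nat.mod_lt (h >>> n) (y := 2) (by norm_num)
        omega
      omega

/-- A group is exhausted. -/
lemma exh {Y : ℕ → Prop} {b h : ℕ} (hY : ∀ s : Finset ℕ, (∀ t ∈ s, t < 8 ∧ Y t) → s.card ≤ b)
    (hb : b ≤ 8) (hh : h < 256) (ht : (TB b).testBit h = true)
    (hX : ∀ t, t < 8 → h.testBit t = true → Y t) : ∀ t, t < 8 → Y t → h.testBit t = true := by
  intro t ht8 hYt
  by_contra hc
  have h1 := hY (insert t ((range 8).filter (fun t => h.testBit t = true))) (fun u hu => by
    rw [mem_insert, mem_filter, mem_range] at hu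
    rcases hu with hu | hu
    · exact hu ▸ ⟨ht8, hYt⟩
    · exact ⟨hu.1, hX u hu.1 hu.2⟩)
  rw [card_insert_of_notMem (by simp only [mem_filter, mem_range, not_and]; exact fun _ => hc)] at h1
  have h2 := TB_spec hb hh ht
  have h3 := pcn_card h 8
  omega

/-- A part of the exhaustion table. -/
def part (ex g : ℕ) : ℕ :=
  Nat.mod (Nat.shiftRight ex (Nat.mul 256 g)) 115792089237316195423570985008687907853269984665640564039457584007913129639936

lemma part_bit {ex g h : ℕ} (hh : h < 256) (ht : ex.testBit (256 * g + h) = true) :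
    (part ex g).testBit h = true := by
  have h1 : part ex g = (ex >>> (256 * g)) % 2 ^ 256 := rfl
  rw [h1, Nat.testBit_mod_two_pow, Nat.testBit_shiftRight, ht]
  simp [hh]

/-- The parts of the units. -/
def okEu (C : Code) (ex : ℕ) : ℕ → Bool
  | 0 => true
  | n + 1 => Nat.beq (part ex (Nat.add 10 n)) (TB (Nat.sub 8 (C.u (n + 1)).s)) && okEu C ex n

lemma okEu_spec {C : Code} {ex : ℕ} : ∀ {n : ℕ}, okEu C ex n = true → ∀ i, 1 ≤ i → i ≤ n →
    part ex (9 + i) = TB (8 - (C.u i).s) := by
  intro n
  induction n with
  | zero => intro _ i h1 h2; omega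
  | succ n ih =>
    intro h i h1 h2
    unfold okEu at h
    rw [Bool.and_eq_true] at h
    by_cases hi : i = n + 1
    · subst hi
      have := Nat.eq_of_beq_eq_true h.1
      have h3 : 9 + (n + 1) = Nat.add 10 n := by
        show 9 + (n + 1) = 10 + n
        omega
      rw [h3]
      exact this
    · exact ih h.2 i h1 (by omega)

/-- The exhaustion table is correct. -/
def okE (C : Code) (ex : ℕ) : Bool :=
  (Nat.beq (part ex 8) (TB 1) && Nat.beq (part ex 9) (TB 2)) &&
    (okEu C ex C.r && Nat.beq (Nat.shiftRight ex 3840) 0)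

/-- The element is never hit. -/
def zb (C : Code) (e : ℕ) : Bool :=
  cond (Nat.ble 64 e)
    (Nat.ble 80 e && (Nat.ble (Nat.div (Nat.sub e 72) 8) C.r && Nat.ble 8 (C.u (Nat.div (Nat.sub e 72) 8)).s))
    (!C.cp)

/-- The free elements at the start. -/
def okSl (C : Code) (s0 : ℕ) : ℕ → Bool
  | 0 => true
  | n + 1 => (Nat.beq (Nat.mod (Nat.shiftRight s0 n) 2) 0 || zb C n) && okSl C s0 n

lemma okSl_spec {C : Code} {s0 : ℕ} : ∀ {n : ℕ}, okSl C s0 n = true → ∀ e, e < n →
    s0.testBit e = true → zb C e = true := by
  intro n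
  induction n with
  | zero => intro _ e he; omega
  | succ n ih =>
    intro h e he ht
    unfold okSl at h
    rw [Bool.and_eq_true, Bool.or_eq_true] at h
    by_cases hi : e = n
    · subst hi
      rcases h.1 with h1 | h1
      · exfalso
        have h2 : (s0 >>> e) % 2 = 0 := Nat.eq_of_beq_eq_true h1
        rw [Nat.testBit_eq_decide_div_mod_eq, ← Nat.shiftRight_eq_div_pow, h2] at ht
        exact absurd ht (by simp)
      · exact h1
    · exact ih h.2 e (by omega) ht

/-- The data of a code are correct. -/
def okC (C : Code) (tab ex s0 toks n : ℕ) : Bool :=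
  (okT C n tab toks && okE C ex) && ((okSl C s0 120 && Nat.beq (Nat.shiftRight s0 120) 1) &&
    (Nat.ble 1 C.r && Nat.ble C.r 5))

variable {C : Code} {A : ℕ → Finset Q} {w : Q} {P : Q × Q}

/-- The elements of a unit which are hit. -/
lemma unit_card (hA : ∀ i, 1 ≤ i → i < C.r → (C.u i).s ≤ (A i).card) (hb : A C.r ⊆ ball w)
    (hr : (C.u C.r).s ≤ (A C.r).card + 4) (h4 : C.r ≤ 5) {i : ℕ} (hi : 1 ≤ i) (hir : i ≤ C.r)
    (s : Finset ℕ) (hs : ∀ t ∈ s, t < 8 ∧ Xh C A w P (72 + 8 * i + t)) : s.card ≤ 8 - (C.u i).s := by
  have hs2 : ∀ t ∈ s, t < 8 ∧ (i = C.r → adj 0 t = true) ∧ add w (q t) ∉ A i := by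
    intro t ht
    obtain ⟨h8, hX⟩ := hs t ht
    have h5 : (72 + 8 * i + t) % 8 = t := by omega
    have h6 : (72 + 8 * i + t - 72) / 8 = i := by omega
    rcases hX with hX | hX | hX | hX | hX
    · omega
    · omega
    · omega
    · rw [h5, h6] at hX
      exact ⟨h8, hX.2.2.1, hX.2.2.2⟩
    · omega
  have hinj : ∀ a ∈ s, ∀ b ∈ s, add w (q a) = add w (q b) → a = b := fun a ha b hb' h =>
    q_inj _ (hs2 a ha).1 _ (hs2 b hb').1 (add_inj _ _ _ h)
  have hc : (s.image (fun t => add w (q t))).card = s.card := card_image_of_injOn hinj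
  by_cases h : i = C.r
  · have h1 : s.image (fun t => add w (q t)) ⊆ ball w \ A C.r := by
      intro y hy
      rw [mem_image] at hy
      obtain ⟨t, ht, rfl⟩ := hy
      obtain ⟨h8, ha, hn⟩ := hs2 t ht
      rw [mem_sdiff, mem_ball]
      refine ⟨?_, h ▸ hn⟩
      have h2 := (adj_zero t h8).1 (ha h)
      have h3 : nr w (add w (q t)) = nr (add w (q 0)) (add w (q t)) := by rw [add_zero']
      rw [h3, nr_add, h2]
    have h2 := card_le_card h1
    rw [hc, card_sdiff_of_subset hb, ball_card] at h2
    rw [h]
    omega
  · have h1 : s.image (fun t => add w (q t)) ⊆ (A i)ᶜ := by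
      intro y hy
      rw [mem_image] at hy
      obtain ⟨t, ht, rfl⟩ := hy
      rw [mem_compl]
      exact (hs2 t ht).2.2
    have h2 := card_le_card h1
    rw [hc, card_compl] at h2
    have h3 : Fintype.card Q = 8 := by decide
    have h5 := hA i hi (by omega)
    omega

/-- **A checked search tree wins the code.** -/
theorem win_of {tab ex s0 toks n j0 : ℕ} (h : okC C tab ex s0 toks n = true)
    (hi : Imp tab ex 0 (ini tab j0 s0) Stk.nil) : C.Win := by
  unfold okC okE at h
  simp only [Bool.and_eq_true] at h
  obtain ⟨⟨hT, ⟨hE8, hE9⟩, hEu, hE0⟩, ⟨hS, hS0⟩, hr1, hr4⟩ := h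
  have hr1' : 1 ≤ C.r := Nat.le_of_ble_eq_true hr1
  have hr4' : C.r ≤ 5 := Nat.le_of_ble_eq_true hr4
  intro A w P hA hball hr H1 H2 H3
  have hX120 : Xh C A w P 120 := Or.inr (Or.inr (Or.inr (Or.inr rfl)))
  have hok : Ok (Xh C A w P) tab ex 0 := by
    refine ⟨fun j hj => ?_, fun s hs => ?_, fun g hg h hh hx hX => ?_⟩
    · rcases okT_spec n tab toks hT j with h1 | ⟨tk, hv, h1⟩
      · rw [h1, Nat.zero_testBit] at hj
        exact absurd hj (by simp)
      · rw [h1]
        exact mask_hit hr1' hr4' H1 hv
    · rw [zero_add, card_le_one]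
      intro e hes e' hes'
      obtain ⟨he, hX⟩ := hs e hes
      obtain ⟨he', hX'⟩ := hs e' hes'
      have h1 : (add w (q (e / 8)), add w (q (e % 8))) = P := by
        rcases hX with hX | hX | hX | hX | hX
        · exact hX.2.2.2
        all_goals omega
      have h2 : (add w (q (e' / 8)), add w (q (e' % 8))) = P := by
        rcases hX' with hX | hX | hX | hX | hX
        · exact hX.2.2.2
        all_goals omega
      rw [← h2, Prod.mk.injEq] at h1
      have h3 := q_inj _ (by omega) _ (by omega) (add_inj _ _ _ h1.1)
      have h4 := q_inj _ (by omega) _ (by omega) (add_inj _ _ _ h1.2)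
      omega
    · have hp := part_bit hh hx
      by_cases g8 : g = 8
      · subst g8
        rw [Nat.eq_of_beq_eq_true hE8] at hp
        refine exh (b := 1) (fun s hs => ?_) (by norm_num) hh hp hX
        rw [card_le_one]
        intro a ha b hb
        obtain ⟨ha8, hXa⟩ := hs a ha
        obtain ⟨hb8, hXb⟩ := hs b hb
        have key : ∀ t, t < 8 → Xh C A w P (8 * 8 + t) → ∃ mu, VW C A P mu ∧
            sumU (fun i => (C.u i).ph) mu C.r =
              add (q t) (sumU (fun i => (C.u i).ph) (fun _ => w) C.r) := by
          intro t ht hXt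
          rcases hXt with hX | hX | hX | hX | hX
          · omega
          · obtain ⟨_, _, mu, hm, hs⟩ := hX
            refine ⟨mu, hm, ?_⟩
            rw [hs]
            congr 2
            omega
          all_goals omega
        obtain ⟨m1, hm1, hs1⟩ := key a ha8 hXa
        obtain ⟨m2, hm2, hs2⟩ := key b hb8 hXb
        have h1 := H2 m1 m2 hm1 hm2
        rw [hs1, hs2, CLB.H95.add_comm', CLB.H95.add_comm' (q b)] at h1
        exact q_inj _ ha8 _ hb8 (add_inj _ _ _ h1)
      by_cases g9 : g = 9
      · subst g9
        rw [Nat.eq_of_beq_eq_true hE9] at hp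
        refine exh (b := 2) (fun s hs => ?_) (by norm_num) hh hp hX
        obtain ⟨S, hS2, hSm⟩ := H3
        have key : ∀ t, t < 8 → Xh C A w P (8 * 9 + t) → ∃ mu, VW C A P mu ∧
            sumU (fun i => (C.u i).ps) mu C.r =
              add (q t) (sumU (fun i => (C.u i).ps) (fun _ => w) C.r) := by
          intro t ht hXt
          rcases hXt with hX | hX | hX | hX | hX
          · omega
          · omega
          · obtain ⟨_, _, mu, hm, hs⟩ := hX
            refine ⟨mu, hm, ?_⟩
            rw [hs]
            congr 2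
            omega
          all_goals omega
        have hsub : s.image (fun t => add (q t) (sumU (fun i => (C.u i).ps) (fun _ => w) C.r)) ⊆ S := by
          intro y hy
          rw [mem_image] at hy
          obtain ⟨t, ht, rfl⟩ := hy
          obtain ⟨mu, hm, hsm⟩ := key t (hs t ht).1 (hs t ht).2
          rw [← hsm]
          exact hSm mu hm
        have hinj : ∀ a ∈ s, ∀ b ∈ s,
            add (q a) (sumU (fun i => (C.u i).ps) (fun _ => w) C.r) =
              add (q b) (sumU (fun i => (C.u i).ps) (fun _ => w) C.r) → a = b := by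
          intro a ha b hb hab
          rw [CLB.H95.add_comm', CLB.H95.add_comm' (q b)] at hab
          exact q_inj _ (hs a ha).1 _ (hs b hb).1 (add_inj _ _ _ hab)
        have h1 := card_le_card hsub
        rw [card_image_of_injOn hinj] at h1
        exact h1.trans hS2
      by_cases g14 : 15 ≤ g
      · exfalso
        have h1 : ex >>> 3840 = 0 := Nat.eq_of_beq_eq_true hE0
        have h2 : (ex >>> 3840).testBit (256 * g + h - 3840) = true := by
          rw [Nat.testBit_shiftRight, show 3840 + (256 * g + h - 3840) = 256 * g + h by omega]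
          exact hx
        rw [h1, Nat.zero_testBit] at h2
        exact absurd h2 (by simp)
      · by_cases hgr : g - 9 ≤ C.r
        · have h1 := okEu_spec hEu (g - 9) (by omega) hgr
          rw [show 9 + (g - 9) = g by omega] at h1
          rw [h1] at hp
          have h3 : ∀ t, 8 * g + t = 72 + 8 * (g - 9) + t := fun t => by omega
          exact exh (Y := fun t => Xh C A w P (8 * g + t)) (b := 8 - (C.u (g - 9)).s) (fun s hs =>
            unit_card (P := P) hA hball hr hr4' (i := g - 9) (by omega) hgr s (fun t ht => by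
              have := hs t ht
              rw [h3] at this
              exact this)) (by omega) hh hp hX
        · intro t ht hXt
          exfalso
          rcases hXt with hX | hX | hX | hX | hX
          all_goals omega
  have hsat : Sat (Xh C A w P) (2 ^ 120) s0 := by
    refine ⟨fun e he => ?_, fun e he hX => ?_⟩
    · rw [tb_pow] at he
      rw [← he]
      exact hX120
    · rw [tb_pow]
      by_cases h112 : e < 120
      · exfalso
        have h1 := okSl_spec hS e h112 he
        unfold zb at h1
        cases hb : Nat.ble 64 e with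
        | false =>
          rw [hb] at h1
          have he : e < 64 := by
            by_contra hc
            have : Nat.ble 64 e = true := Nat.ble_eq_true_of_le (by omega)
            rw [hb] at this
            exact absurd this (by simp)
          rcases hX with hX | hX | hX | hX | hX
          · rw [hX.2.1] at h1
            exact absurd h1 (by simp)
          all_goals omega
        | true =>
          rw [hb] at h1
          have h1' : (Nat.ble 80 e && (Nat.ble ((e - 72) / 8) C.r &&
            Nat.ble 8 (C.u ((e - 72) / 8)).s)) = true := h1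
          rw [Bool.and_eq_true, Bool.and_eq_true] at h1'
          have h80 := Nat.le_of_ble_eq_true h1'.1
          have h3 := Nat.le_of_ble_eq_true h1'.2.1
          have h5 := Nat.le_of_ble_eq_true h1'.2.2
          have h6 := unit_card (P := P) hA hball hr hr4' (i := (e - 72) / 8) (by omega) h3 {e % 8}
            (fun t ht => by
              rw [mem_singleton] at ht
              subst ht
              refine ⟨by omega, ?_⟩
              rw [show 72 + 8 * ((e - 72) / 8) + e % 8 = e by omega]
              exact hX)
          rw [card_singleton] at h6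
          omega
      · have h1 : s0 >>> 120 = 1 := Nat.eq_of_beq_eq_true hS0
        have h2 : (s0 >>> 120).testBit (e - 120) = true := by
          rw [Nat.testBit_shiftRight, show 120 + (e - 120) = e by omega]
          exact he
        rw [h1, show (1 : ℕ) = 2 ^ 0 from rfl, tb_pow] at h2
        omega
  exact ini_false hok (hi _ hok trivial) hsat

end CLB.H86.Gm
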