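import Pool.Agent.Helper86_DA.GmWin

/-!
Special games with three units: the ternary component and the status X1.
-/

set_option autoImplicit false

namespace CLB.H86.Gm

open Finset
open CLB.H95
open H3DA (Q neg nr)

/-! ### The last unit with a wall, three units -/

/-- The labels of the walk with numbers `f`, translated by `w`. -/
def tw (w : Q) (f : ℕ → ℕ) : ℕ → Q := fun i => add w (q (f i))

/-- The predicate of the elements of the units which are hit (three units). -/
def U3 (A : ℕ → Finset Q) (w : Q) (e : ℕ) : Prop :=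
  80 ≤ e ∧ e < 104 ∧ ((e - 72) / 8 = 3 → adj 0 (e % 8) = true) ∧ add w (q (e % 8)) ∉ A ((e - 72) / 8)

/-- The walk is a near walk with three units in the ball. -/
def walk3 (f : ℕ → ℕ) : Bool := adj 0 (f 3) && (adj (f 1) (f 2) && adj (f 2) (f 3))

lemma tw_nwk {w : Q} {f : ℕ → ℕ} (hf : ∀ i, f i < 8) (h : walk3 f = true) : Nwk 3 (tw w f) := by
  unfold walk3 at h
  rw [Bool.and_eq_true, Bool.and_eq_true] at h
  intro i h1 h2
  show nr (add w (q (f i))) (add w (q (f (i + 1)))) = true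
  rw [nr_add]
  have h3 : i = 1 ∨ i = 2 := by omega
  rcases h3 with rfl | rfl
  · exact adj_nr _ (hf _) _ (hf _) h.2.1
  · exact adj_nr _ (hf _) _ (hf _) h.2.2

lemma u3_mem {A : ℕ → Finset Q} {w : Q} {f : ℕ → ℕ} (hf : ∀ i, f i < 8) (h : walk3 f = true) {i : ℕ}
    (h1 : 1 ≤ i) (h2 : i ≤ 3) (hX : ¬ U3 A w (72 + 8 * i + f i)) : tw w f i ∈ A i := by
  unfold walk3 at h
  rw [Bool.and_eq_true] at h
  by_contra hc
  have h4 := hf i
  have h5 : (72 + 8 * i + f i) % 8 = f i := by omega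
  have h6 : (72 + 8 * i + f i - 72) / 8 = i := by omega
  refine hX ⟨by omega, by omega, fun h3 => ?_, ?_⟩
  · rw [h5]
    have h7 : i = 3 := by omega
    rw [h7]
    exact h.1
  · rw [h5, h6]
    exact hc

/-- The number of labels of a unit which are hit. -/
lemma u3_card {A : ℕ → Finset Q} {w : Q} {i n : ℕ} (h1 : 1 ≤ i) (h2 : i < 3) (hA : n ≤ (A i).card)
    (s : Finset ℕ) (hs : ∀ t ∈ s, t < 8 ∧ U3 A w (72 + 8 * i + t)) : s.card ≤ 8 - n := by
  have hs2 : ∀ t ∈ s, t < 8 ∧ add w (q t) ∉ A i := by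
    intro t ht
    obtain ⟨h8, hX⟩ := hs t ht
    have h5 : (72 + 8 * i + t) % 8 = t := by omega
    have h6 : (72 + 8 * i + t - 72) / 8 = i := by omega
    have h7 := hX.2.2.2
    rw [h5, h6] at h7
    exact ⟨h8, h7⟩
  have hinj : ∀ a ∈ s, ∀ b ∈ s, add w (q a) = add w (q b) → a = b := fun a ha b hb' h =>
    q_inj _ (hs2 a ha).1 _ (hs2 b hb').1 (add_inj _ _ _ h)
  have hc : (s.image (fun t => add w (q t))).card = s.card := card_image_of_injOn hinj
  have h1 : s.image (fun t => add w (q t)) ⊆ (A i)ᶜ := by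
    intro y hy
    rw [mem_image] at hy
    obtain ⟨t, ht, rfl⟩ := hy
    rw [mem_compl]
    exact (hs2 t ht).2
  have h2 := card_le_card h1
  rw [hc, card_compl] at h2
  have h3 : Fintype.card Q = 8 := by decide
  omega

lemma u3_card_last {A : ℕ → Finset Q} {w : Q} {n : ℕ} (hb : A 3 ⊆ ball w) (hr : n ≤ (A 3).card + 4)
    (s : Finset ℕ) (hs : ∀ t ∈ s, t < 8 ∧ U3 A w (96 + t)) : s.card ≤ 8 - n := by
  have hs2 : ∀ t ∈ s, t < 8 ∧ adj 0 t = true ∧ add w (q t) ∉ A 3 := by
    intro t ht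
    obtain ⟨h8, hX⟩ := hs t ht
    have h5 : (96 + t) % 8 = t := by omega
    have h6 : (96 + t - 72) / 8 = 3 := by omega
    have h7 := hX.2.2
    rw [h5, h6] at h7
    exact ⟨h8, h7.1 rfl, h7.2⟩
  have hinj : ∀ a ∈ s, ∀ b ∈ s, add w (q a) = add w (q b) → a = b := fun a ha b hb' h =>
    q_inj _ (hs2 a ha).1 _ (hs2 b hb').1 (add_inj _ _ _ h)
  have hc : (s.image (fun t => add w (q t))).card = s.card := card_image_of_injOn hinj
  have h1 : s.image (fun t => add w (q t)) ⊆ ball w \ A 3 := by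
    intro y hy
    rw [mem_image] at hy
    obtain ⟨t, ht, rfl⟩ := hy
    obtain ⟨h8, ha, hn⟩ := hs2 t ht
    rw [mem_sdiff, mem_ball]
    refine ⟨?_, hn⟩
    have h2 := (adj_zero t h8).1 ha
    have h3 : nr w (add w (q t)) = nr (add w (q 0)) (add w (q t)) := by rw [add_zero']
    rw [h3, nr_add, h2]
  have h2 := card_le_card h1
  rw [hc, card_sdiff_of_subset hb, ball_card] at h2
  omega

/-! ### The checks of the tables -/

/-- The exhaustion table for three units with the given numbers of labels which may be hit. -/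
def okE3 (ex b1 b2 b3 : ℕ) : Bool :=
  ((Nat.beq (part ex 8) 0 && Nat.beq (part ex 9) 0) && (Nat.beq (part ex 10) (TB b1) &&
    Nat.beq (part ex 11) (TB b2))) && (Nat.beq (part ex 12) (TB b3) && Nat.beq (Nat.shiftRight ex 3328) 0)

/-- The table is correct. -/
def okG (mask : ℕ → ℕ) (valid : ℕ → Bool) : ℕ → ℕ → ℕ → Bool
  | 0, tab, _ => Nat.beq tab 0
  | n + 1, tab, toks =>
    (valid (Nat.mod toks 2097152) &&
      Nat.beq (Nat.mod tab 340282366920938463463374607431768211456) (mask (Nat.mod toks 2097152))) &&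
    okG mask valid n (Nat.shiftRight tab 128) (Nat.shiftRight toks 21)

lemma okG_spec {mask : ℕ → ℕ} {valid : ℕ → Bool} : ∀ (n tab toks : ℕ),
    okG mask valid n tab toks = true → ∀ j, (tab >>> (128 * j)) % 2 ^ 128 = 0 ∨
      ∃ tk, valid tk = true ∧ (tab >>> (128 * j)) % 2 ^ 128 = mask tk := by
  intro n
  induction n with
  | zero =>
    intro tab toks h j
    unfold okG at h
    left
    rw [Nat.eq_of_beq_eq_true h]; simp
  | succ n ih =>
    intro tab toks h j
    unfold okG at h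
    rw [Bool.and_eq_true, Bool.and_eq_true] at h
    cases j with
    | zero => exact Or.inr ⟨_, h.1.1, Nat.eq_of_beq_eq_true h.1.2⟩
    | succ j =>
      have h1 := ih _ _ h.2 j
      have h2 : (Nat.shiftRight tab 128) >>> (128 * j) = tab >>> (128 * (j + 1)) := by
        show (tab >>> 128) >>> (128 * j) = _
        rw [← Nat.shiftRight_add]
        congr 1
        omega
      rw [h2] at h1
      exact h1

/-- The free elements at the start: the sentinel and elements which are never hit. -/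
def okS3 (nz : ℕ → Bool) (s0 : ℕ) : ℕ → Bool
  | 0 => true
  | n + 1 => (Nat.beq (Nat.mod (Nat.shiftRight s0 n) 2) 0 || nz n) && okS3 nz s0 n

lemma okS3_spec {nz : ℕ → Bool} {s0 : ℕ} : ∀ {n : ℕ}, okS3 nz s0 n = true → ∀ e, e < n →
    s0.testBit e = true → nz e = true := by
  intro n
  induction n with
  | zero => intro _ e he; omega
  | succ n ih =>
    intro h e he ht
    unfold okS3 at h
    rw [Bool.and_eq_true, Bool.or_eq_true] at h
    by_cases hi : e = n
    · subst hi
      rcases h.1 with h1 | h1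
      · exfalso
        have h2 : (s0 >>> e) % 2 = 0 := Nat.eq_of_beq_eq_true h1
        rw [Nat.testBit_eq_decide_div_mod_eq, ← Nat.shiftRight_eq_div_pow, h2] at ht
        exact absurd ht (by simp)
      · exact h1
    · exact ih h.2 e (by omega) ht

/-- The model of a game with three units. -/
lemma ok3 {X : ℕ → Prop} {A : ℕ → Finset Q} {w : Q} {tab ex pb n1 n2 n3 b1 b2 b3 : ℕ}
    (hU : ∀ e, 64 ≤ e → X e → U3 A w e ∨ e = 120)
    (hpr : ∀ s : Finset ℕ, (∀ e ∈ s, e < 64 ∧ X e) → s.card ≤ pb + 1)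
    (htb : ∀ j, ((tab >>> (128 * j)) % 2 ^ 128).testBit 120 = true →
      ∃ e, e ≠ 120 ∧ ((tab >>> (128 * j)) % 2 ^ 128).testBit e = true ∧ X e)
    (hE : okE3 ex b1 b2 b3 = true) (c1 : n1 ≤ (A 1).card) (c2 : n2 ≤ (A 2).card)
    (hb : A 3 ⊆ ball w) (c3 : n3 ≤ (A 3).card + 4) (e1 : b1 = 8 - n1) (e2 : b2 = 8 - n2)
    (e3 : b3 = 8 - n3) : Ok X tab ex pb := by
  unfold okE3 at hE
  simp only [Bool.and_eq_true] at hE
  obtain ⟨⟨⟨hE8, hE9⟩, hE10, hE11⟩, hE12, hE0⟩ := hE
  refine ⟨htb, hpr, fun g hg h hh hx hX => ?_⟩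
  have hp := part_bit hh hx
  by_cases g8 : g = 8
  · subst g8
    rw [Nat.eq_of_beq_eq_true hE8, Nat.zero_testBit] at hp
    exact absurd hp (by simp)
  by_cases g9 : g = 9
  · subst g9
    rw [Nat.eq_of_beq_eq_true hE9, Nat.zero_testBit] at hp
    exact absurd hp (by simp)
  by_cases g10 : g = 10
  · subst g10
    rw [Nat.eq_of_beq_eq_true hE10, e1] at hp
    refine exh (b := 8 - n1) (fun s hs => u3_card (A := A) (w := w) (i := 1) le_rfl (by norm_num) c1 s
      (fun t ht => ?_)) (by omega) hh hp hX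
    obtain ⟨h8, h9⟩ := hs t ht
    rcases hU _ (by omega) h9 with h10 | h10
    · exact ⟨h8, h10⟩
    · omega
  by_cases g11 : g = 11
  · subst g11
    rw [Nat.eq_of_beq_eq_true hE11, e2] at hp
    refine exh (b := 8 - n2) (fun s hs => u3_card (A := A) (w := w) (i := 2) (by norm_num) (by norm_num)
      c2 s (fun t ht => ?_)) (by omega) hh hp hX
    obtain ⟨h8, h9⟩ := hs t ht
    rcases hU _ (by omega) h9 with h10 | h10
    · exact ⟨h8, h10⟩
    · omega
  by_cases g12 : g = 12
  · subst g12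
    rw [Nat.eq_of_beq_eq_true hE12, e3] at hp
    refine exh (b := 8 - n3) (fun s hs => u3_card_last (A := A) (w := w) hb c3 s
      (fun t ht => ?_)) (by omega) hh hp hX
    obtain ⟨h8, h9⟩ := hs t ht
    rcases hU _ (by omega) h9 with h10 | h10
    · exact ⟨h8, h10⟩
    · omega
  · exfalso
    have h1 : ex >>> 3328 = 0 := Nat.eq_of_beq_eq_true hE0
    have h2 : (ex >>> 3328).testBit (256 * g + h - 3328) = true := by
      rw [Nat.testBit_shiftRight, show 3328 + (256 * g + h - 3328) = 256 * g + h by omega]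
      exact hx
    rw [h1, Nat.zero_testBit] at h2
    exact absurd h2 (by simp)

/-- The start. -/
lemma sat3 {X : ℕ → Prop} {nz : ℕ → Bool} {s0 : ℕ} (h120 : X 120)
    (hnz : ∀ e, e < 120 → nz e = true → ¬ X e) (hS : okS3 nz s0 120 = true)
    (hS0 : Nat.beq (Nat.shiftRight s0 120) 1 = true) : Sat X (2 ^ 120) s0 := by
  refine ⟨fun e he => ?_, fun e he hX => ?_⟩
  · rw [tb_pow] at he
    rw [← he]
    exact h120
  · rw [tb_pow]
    by_cases h112 : e < 120
    · exact absurd hX (hnz e h112 (okS3_spec hS e h112 he))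
    · have h1 : s0 >>> 120 = 1 := Nat.eq_of_beq_eq_true hS0
      have h2 : (s0 >>> 120).testBit (e - 120) = true := by
        rw [Nat.testBit_shiftRight, show 120 + (e - 120) = e by omega]
        exact he
      rw [h1, show (1 : ℕ) = 2 ^ 0 from rfl, tb_pow] at h2
      omega

/-- A unit with all labels has no element which is hit. -/
lemma u3_free {A : ℕ → Finset Q} {w : Q} {i : ℕ} (h1 : 1 ≤ i) (h2 : i < 3) (hA : 8 ≤ (A i).card) {e : ℕ}
    (he : 72 + 8 * i ≤ e) (he' : e < 80 + 8 * i) : ¬ U3 A w e := by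
  intro hX
  have := u3_card (w := w) h1 h2 hA {e % 8} (fun t ht => by
    rw [mem_singleton] at ht
    subst ht
    refine ⟨by omega, ?_⟩
    rw [show 72 + 8 * i + e % 8 = e by omega]
    exact hX)
  rw [card_singleton] at this
  omega

lemma u3_free_last {A : ℕ → Finset Q} {w : Q} (hb : A 3 ⊆ ball w) (hA : 8 ≤ (A 3).card + 4) {e : ℕ}
    (he : 96 ≤ e) (he' : e < 104) : ¬ U3 A w e := by
  intro hX
  have := u3_card_last hb hA {e % 8} (fun t ht => by
    rw [mem_singleton] at ht
    subst ht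
    refine ⟨by omega, ?_⟩
    rw [show 96 + e % 8 = e by omega]
    exact hX)
  rw [card_singleton] at this
  omega

/-! ### Ternary games -/

/-- The valid walks of a ternary game. -/
structure TVW (rel : Bool) (A : ℕ → Finset Q) (q0 : Q) (mu : ℕ → Q) : Prop where
  nwk : Nwk 3 mu
  mem : ∀ i, 1 ≤ i → i ≤ 3 → mu i ∈ A i
  rel : rel = true → mu 1 ≠ mu 3
  ter : mu 1 = mu 3 ∨ add (add (mu 1) (mu 2)) (mu 3) ≠ q0

/-- The ternary game with target `v` is won. -/
def TWin (s1 s2 s3 v : ℕ) (rel : Bool) : Prop :=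
  ∀ (A : ℕ → Finset Q) (w q0 : Q), s1 ≤ (A 1).card → s2 ≤ (A 2).card → neg q0 ∉ A 2 →
    A 3 ⊆ ball w → s3 ≤ (A 3).card + 4 →
    (∀ mu mu', TVW rel A q0 mu → TVW rel A q0 mu' →
      (∀ i, 1 ≤ i → i ≤ 3 → i ≠ v → mu i = mu' i) → mu v = mu' v) → False

/-- The elements of a walk of a ternary game. -/
def mT (f : ℕ → ℕ) : ℕ :=
  Nat.lor (mku f 3) (Nat.lor (Nat.pow 2 (Nat.xor (f 2) 7))
    (cond (Nat.beq (f 1) (f 3)) 0 (Nat.pow 2 (Nat.xor (Nat.xor (f 1) (f 2)) (f 3)))))

/-- The elements of a token of a ternary game. -/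
def maskT3 (tk : ℕ) : ℕ :=
  Nat.lor 1329227995784915872903807060280344576
    (Nat.lor (mT (wf tk)) (mT (upd (wf tk) (Nat.mod tk 8) (wf tk 6))))

/-- Valid tokens of a ternary game. -/
def validT3 (v : ℕ) (rel : Bool) (tk : ℕ) : Bool :=
  (walk3 (wf tk) && walk3 (upd (wf tk) (Nat.mod tk 8) (wf tk 6))) &&
    ((Nat.beq (Nat.mod tk 8) v && !(Nat.beq (wf tk 6) (wf tk v))) &&
      (!rel || (!(Nat.beq (wf tk 1) (wf tk 3)) &&
        !(Nat.beq (upd (wf tk) (Nat.mod tk 8) (wf tk 6) 1) (upd (wf tk) (Nat.mod tk 8) (wf tk 6) 3)))))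

/-- The predicate of a ternary game. -/
def XT (A : ℕ → Finset Q) (w q0 : Q) (e : ℕ) : Prop :=
  (e < 8 ∧ q0 = add w (q e)) ∨ U3 (fun i => if i = 2 then insert (neg q0) (A 2) else A i) w e ∨ e = 120

lemma sum3 : ∀ w a b c : Q, add (add (add w a) (add w b)) (add w c) = add w (add (add a b) c) := by
  decide

lemma neg_q : ∀ t, t < 8 → ∀ w : Q, neg (add w (q t)) = add w (q (t ^^^ 7)) := by decide

lemma xor7_lt : ∀ t, t < 8 → t ^^^ 7 < 8 := by decide

lemma bne_of {a b : ℕ} (h : (!(Nat.beq a b)) = true) : a ≠ b := by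
  intro he
  rw [he, Nat.beq_refl] at h
  exact absurd h (by simp)

lemma beq_false_of {a b : ℕ} (h : a ≠ b) : Nat.beq a b = false := by
  cases h' : Nat.beq a b with
  | false => rfl
  | true => exact absurd (Nat.eq_of_beq_eq_true h') h

lemma mT_valid {A : ℕ → Finset Q} {w q0 : Q} {rel : Bool} {f : ℕ → ℕ} (hf : ∀ i, f i < 8)
    (hw : walk3 f = true) (hr : rel = true → f 1 ≠ f 3)
    (hX : ∀ e, (mT f).testBit e = true → ¬ XT A w q0 e) : TVW rel A q0 (tw w f) := by
  have h1 : ∀ i, 1 ≤ i → i ≤ 3 → tw w f i ∈ (fun i => if i = 2 then insert (neg q0) (A 2) else A i) i := by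
    intro i i1 i2
    refine u3_mem hf hw i1 i2 (fun hu => hX _ ?_ (Or.inr (Or.inl hu)))
    exact lor_left (mku_spec i i1 i2)
  refine ⟨tw_nwk hf hw, fun i i1 i2 => ?_, fun hrel he => ?_, ?_⟩
  · have h2 := h1 i i1 i2
    by_cases hi : i = 2
    · subst hi
      have h3 : tw w f 2 ∈ insert (neg q0) (A 2) := h2
      rw [mem_insert] at h3
      rcases h3 with h3 | h3
      · exfalso
        refine hX (f 2 ^^^ 7) (lor_right (lor_left (tb_pow.2 rfl))) (Or.inl ⟨xor7_lt _ (hf 2), ?_⟩)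
        rw [← neg_q _ (hf 2)]
        have h4 : add w (q (f 2)) = neg q0 := h3
        rw [h4, H3DA.neg_neg]
      · exact h3
    · have h3 : tw w f i ∈ (if i = 2 then insert (neg q0) (A 2) else A i) := h2
      rwa [if_neg hi] at h3
  · exact hr hrel (q_inj _ (hf 1) _ (hf 3) (add_inj _ _ _ he))
  · by_cases he : f 1 = f 3
    · left
      show add w (q (f 1)) = add w (q (f 3))
      rw [he]
    · right
      intro hs
      have h2 : add (add (add w (q (f 1))) (add w (q (f 2)))) (add w (q (f 3))) = q0 := hs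
      rw [sum3, q_xor _ (hf 1) _ (hf 2), q_xor _ (xor_lt8 _ (hf 1) _ (hf 2)) _ (hf 3)] at h2
      refine hX (f 1 ^^^ f 2 ^^^ f 3) ?_ (Or.inl ⟨xor_lt8 _ (xor_lt8 _ (hf 1) _ (hf 2)) _ (hf 3), h2.symm⟩)
      have h3 : mT f = Nat.lor (mku f 3) (Nat.lor (Nat.pow 2 (Nat.xor (f 2) 7))
          (Nat.pow 2 (Nat.xor (Nat.xor (f 1) (f 2)) (f 3)))) := by
        unfold mT
        rw [beq_false_of he]; rfl
      rw [h3]
      exact lor_right (lor_right (tb_pow.2 rfl))

lemma mT_ne {f : ℕ → ℕ} (hf : ∀ i, f i < 8) {e : ℕ} (h : (mT f).testBit e = true) : e ≠ 120 := by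
  have h' : (mku f 3 ||| (2 ^ (f 2 ^^^ 7) |||
      (cond (Nat.beq (f 1) (f 3)) 0 (2 ^ (f 1 ^^^ f 2 ^^^ f 3))))).testBit e = true := h
  rw [Nat.testBit_or, Bool.or_eq_true, Nat.testBit_or, Bool.or_eq_true] at h'
  rcases h' with h' | h' | h'
  · have := mku_lt hf (by norm_num) h'; omega
  · rw [tb_pow] at h'
    have := xor7_lt _ (hf 2); omega
  · cases hb : Nat.beq (f 1) (f 3) with
    | true => rw [hb] at h'; have h2 : (0 : ℕ).testBit e = true := h'; rw [Nat.zero_testBit] at h2; exact absurd h2 (by simp)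
    | false =>
      rw [hb] at h'
      have h2 : (2 ^ (f 1 ^^^ f 2 ^^^ f 3)).testBit e = true := h'
      rw [tb_pow] at h2
      have := xor_lt8 _ (xor_lt8 _ (hf 1) _ (hf 2)) _ (hf 3)
      omega

/-- Elements which are never hit. -/
def nzT (s1 s2 s3 : ℕ) (e : ℕ) : Bool :=
  (Nat.ble 8 e && Nat.ble e 79) || ((Nat.ble 8 s1 && (Nat.ble 80 e && Nat.ble e 87)) ||
    ((Nat.ble 7 s2 && (Nat.ble 88 e && Nat.ble e 95)) || (Nat.ble 8 s3 && (Nat.ble 96 e && Nat.ble e 103))))

/-- The data of a ternary game are correct. -/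
def okX (s1 s2 s3 v : ℕ) (rel : Bool) (tab ex s0 toks n : ℕ) : Bool :=
  (okG maskT3 (validT3 v rel) n tab toks && okE3 ex (8 - s1) (7 - s2) (8 - s3)) &&
    (okS3 (nzT s1 s2 s3) s0 120 && Nat.beq (Nat.shiftRight s0 120) 1)

/-- **A checked search tree wins the ternary game.** -/
theorem twin_of {s1 s2 s3 v : ℕ} {rel : Bool} {tab ex s0 toks n j0 : ℕ}
    (h2 : s2 ≤ 7) (h : okX s1 s2 s3 v rel tab ex s0 toks n = true)
    (hi : Imp tab ex 0 (ini tab j0 s0) Stk.nil) : TWin s1 s2 s3 v rel := by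
  unfold okX at h
  simp only [Bool.and_eq_true] at h
  obtain ⟨⟨hT, hE⟩, hS, hS0⟩ := h
  intro A w q0 c1 c2 hq hb c3 H
  set A' : ℕ → Finset Q := fun i => if i = 2 then insert (neg q0) (A 2) else A i with hA'
  have a1 : A' 1 = A 1 := by rw [hA']; exact if_neg (by norm_num)
  have a2 : A' 2 = insert (neg q0) (A 2) := by rw [hA']; exact if_pos rfl
  have a3 : A' 3 = A 3 := by rw [hA']; exact if_neg (by norm_num)
  have c2' : s2 + 1 ≤ (A' 2).card := by rw [a2, card_insert_of_notMem hq]; omega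
  have hok : Ok (XT A w q0) tab ex 0 := by
    refine ok3 (A := A') (w := w) (n1 := s1) (n2 := s2 + 1) (n3 := s3) (fun e he hX => ?_)
      (fun s hs => ?_) (fun j hj => ?_) hE (by rw [a1]; exact c1) c2' (by rw [a3]; exact hb)
      (by rw [a3]; exact c3) rfl (by omega) rfl
    · rcases hX with hX | hX | hX
      · omega
      · exact Or.inl hX
      · exact Or.inr hX
    · rw [zero_add, card_le_one]
      have key : ∀ e ∈ s, e < 8 ∧ q0 = add w (q e) := by
        intro e he
        obtain ⟨h64, hX⟩ := hs e he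
        rcases hX with hX | hX | hX
        · exact hX
        · exact absurd hX.1 (by omega)
        · omega
      intro a ha b hb
      exact q_inj _ (key a ha).1 _ (key b hb).1 (add_inj _ _ _ ((key a ha).2.symm.trans (key b hb).2))
    · rcases okG_spec n tab toks hT j with h1 | ⟨tk, hv, h1⟩
      · rw [h1, Nat.zero_testBit] at hj
        exact absurd hj (by simp)
      · rw [h1]
        by_contra hcon
        have hX : ∀ e, e ≠ 120 → (maskT3 tk).testBit e = true → ¬ XT A w q0 e :=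
          fun e e1 e2 e3 => hcon ⟨e, e1, e2, e3⟩
        unfold validT3 at hv
        simp only [Bool.and_eq_true] at hv
        obtain ⟨⟨w1, w2⟩, ⟨hk, hne⟩, hr⟩ := hv
        have hk' : Nat.mod tk 8 = v := Nat.eq_of_beq_eq_true hk
        have hu := upd_lt (f := wf tk) (v := Nat.mod tk 8) (t := wf tk 6) (wf_lt tk) (wf_lt tk 6)
        have m1 := mT_valid (w := w) (rel := rel) (A := A) (q0 := q0) (wf_lt tk) w1 (fun hrel => by
          rw [hrel, Bool.not_true, Bool.false_or, Bool.and_eq_true] at hr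
          exact bne_of hr.1) (fun e he => hX e (mT_ne (wf_lt tk) he) (lor_right (lor_left he)))
        have m2 := mT_valid (w := w) (rel := rel) (A := A) (q0 := q0) hu w2 (fun hrel => by
          rw [hrel, Bool.not_true, Bool.false_or, Bool.and_eq_true] at hr
          exact bne_of hr.2) (fun e he => hX e (mT_ne hu he) (lor_right (lor_right he)))
        have m3 := H _ _ m1 m2 (fun i i1 i2 i3 => by
          show add w (q (wf tk i)) = add w (q (upd (wf tk) (Nat.mod tk 8) (wf tk 6) i))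
          have h8 : Nat.beq i (Nat.mod tk 8) = false := beq_false_of (by rw [hk']; exact i3)
          unfold upd
          rw [h8]; rfl)
        have m4 : add w (q (wf tk v)) = add w (q (wf tk 6)) := by
          have e8 : upd (wf tk) (Nat.mod tk 8) (wf tk 6) v = wf tk 6 := by
            unfold upd
            rw [hk', Nat.beq_refl]; rfl
          rw [← e8]; exact m3
        exact bne_of hne (q_inj _ (wf_lt _ _) _ (wf_lt _ _) (add_inj _ _ _ m4)).symm
  have hsat : Sat (XT A w q0) (2 ^ 120) s0 := by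
    refine sat3 (Or.inr (Or.inr rfl)) (fun e he hz hX => ?_) hS hS0
    unfold nzT at hz
    simp only [Bool.or_eq_true, Bool.and_eq_true] at hz
    rcases hz with ⟨z1, z2⟩ | ⟨z0, z1, z2⟩ | ⟨z0, z1, z2⟩ | ⟨z0, z1, z2⟩
    · have y1 := Nat.le_of_ble_eq_true z1
      have y2 := Nat.le_of_ble_eq_true z2
      rcases hX with hX | hX | hX
      · omega
      · have := hX.1; omega
      · omega
    · have y0 := Nat.le_of_ble_eq_true z0
      have y1 := Nat.le_of_ble_eq_true z1
      have y2 := Nat.le_of_ble_eq_true z2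
      rcases hX with hX | hX | hX
      · omega
      · exact u3_free (A := A') (i := 1) le_rfl (by norm_num) (by rw [a1]; omega) (by omega) (by omega) hX
      · omega
    · have y0 := Nat.le_of_ble_eq_true z0
      have y1 := Nat.le_of_ble_eq_true z1
      have y2 := Nat.le_of_ble_eq_true z2
      rcases hX with hX | hX | hX
      · omega
      · exact u3_free (A := A') (i := 2) (by norm_num) (by norm_num) (by omega) (by omega) (by omega) hX
      · omega
    · have y0 := Nat.le_of_ble_eq_true z0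
      have y1 := Nat.le_of_ble_eq_true z1
      have y2 := Nat.le_of_ble_eq_true z2
      rcases hX with hX | hX | hX
      · omega
      · exact u3_free_last (A := A') (by rw [a3]; exact hb) (by rw [a3]; omega) (by omega) (by omega) hX
      · omega
  exact ini_false hok (hi _ hok trivial) hsat

/-! ### Games of the status X1 -/

/-- The valid walks of an X1 game. -/
structure XVW (A : ℕ → Finset Q) (PP : Finset (Q × Q)) (mu : ℕ → Q) : Prop where
  nwk : Nwk 3 mu
  mem : ∀ i, 1 ≤ i → i ≤ 3 → mu i ∈ A i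
  rel : mu 1 ≠ mu 3
  pp : (mu 1, mu 2) ∉ PP

/-- The X1 game is won. -/
def XWin (s1 s2 s3 np : ℕ) : Prop :=
  ∀ (A : ℕ → Finset Q) (w : Q) (PP : Finset (Q × Q)), s1 ≤ (A 1).card → s2 ≤ (A 2).card →
    A 3 ⊆ ball w → s3 ≤ (A 3).card + 4 → PP.card ≤ np →
    (∀ mu mu', XVW A PP mu → XVW A PP mu' → mu 2 = mu' 2 → mu 3 = mu' 3 → mu 1 = mu' 1) →
    (∀ mu mu', XVW A PP mu → XVW A PP mu' → mu 1 = mu' 1 → mu 2 = mu' 2 → mu 3 = mu' 3) →
    (∀ mu mu', XVW A PP mu → XVW A PP mu' → add (mu 1) (mu 3) = add (mu' 1) (mu' 3) → mu 1 = mu' 1) →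
    False

/-- The second walk of a token. -/
def wf2 (tk i : ℕ) : ℕ := wf tk (i + 3)

/-- The elements of a walk of an X1 game. -/
def mX (f : ℕ → ℕ) : ℕ := Nat.lor (mku f 3) (Nat.pow 2 (Nat.add (Nat.mul 8 (f 1)) (f 2)))

/-- The elements of a token of an X1 game. -/
def maskX3 (tk : ℕ) : ℕ :=
  Nat.lor 1329227995784915872903807060280344576 (Nat.lor (mX (wf tk)) (mX (wf2 tk)))

/-- The kinds of pairs of walks. -/
def kindX (f g : ℕ → ℕ) : Bool :=
  ((Nat.beq (f 2) (g 2) && Nat.beq (f 3) (g 3)) && !(Nat.beq (f 1) (g 1))) ||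
    (((Nat.beq (f 1) (g 1) && Nat.beq (f 2) (g 2)) && !(Nat.beq (f 3) (g 3))) ||
      (Nat.beq (Nat.xor (f 1) (f 3)) (Nat.xor (g 1) (g 3)) && !(Nat.beq (f 1) (g 1))))

/-- Valid tokens of an X1 game. -/
def validX3 (tk : ℕ) : Bool :=
  ((walk3 (wf tk) && walk3 (wf2 tk)) && (!(Nat.beq (wf tk 1) (wf tk 3)) &&
    !(Nat.beq (wf2 tk 1) (wf2 tk 3)))) && kindX (wf tk) (wf2 tk)

/-- The predicate of an X1 game. -/
def XX (A : ℕ → Finset Q) (w : Q) (PP : Finset (Q × Q)) (e : ℕ) : Prop :=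
  (e < 64 ∧ (add w (q (e / 8)), add w (q (e % 8))) ∈ PP) ∨ U3 A w e ∨ e = 120

lemma mX_valid {A : ℕ → Finset Q} {w : Q} {PP : Finset (Q × Q)} {f : ℕ → ℕ} (hf : ∀ i, f i < 8)
    (hw : walk3 f = true) (hr : f 1 ≠ f 3)
    (hX : ∀ e, (mX f).testBit e = true → ¬ XX A w PP e) : XVW A PP (tw w f) := by
  refine ⟨tw_nwk hf hw, fun i i1 i2 => ?_, fun he => ?_, fun he => ?_⟩
  · exact u3_mem hf hw i1 i2 (fun hu => hX _ (lor_left (mku_spec i i1 i2)) (Or.inr (Or.inl hu)))
  · exact hr (q_inj _ (hf 1) _ (hf 3) (add_inj _ _ _ he))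
  · refine hX (8 * f 1 + f 2) (lor_right (tb_pow.2 rfl)) (Or.inl ⟨?_, ?_⟩)
    · have := hf 1; have := hf 2; omega
    · have h4 := hf 1
      have h5 := hf 2
      have h6 : (8 * f 1 + f 2) / 8 = f 1 := by omega
      have h7 : (8 * f 1 + f 2) % 8 = f 2 := by omega
      rw [h6, h7]
      exact he

lemma mX_ne {f : ℕ → ℕ} (hf : ∀ i, f i < 8) {e : ℕ} (h : (mX f).testBit e = true) : e ≠ 120 := by
  have h' : (mku f 3 ||| 2 ^ (8 * f 1 + f 2)).testBit e = true := h
  rw [tb_or_pow] at h'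
  rcases h' with h' | h'
  · have := mku_lt hf (by norm_num) h'; omega
  · have := hf 1; have := hf 2; omega

/-- Elements which are never hit. -/
def nzX (np : ℕ) (e : ℕ) : Bool := (Nat.ble 64 e && Nat.ble e 79) || (Nat.beq np 0 && Nat.ble e 63)

/-- The data of an X1 game are correct. -/
def okXX (s1 s2 s3 np : ℕ) (tab ex s0 toks n : ℕ) : Bool :=
  (okG maskX3 validX3 n tab toks && okE3 ex (8 - s1) (8 - s2) (8 - s3)) &&
    (okS3 (nzX np) s0 120 && Nat.beq (Nat.shiftRight s0 120) 1)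

/-- **A checked search tree wins the X1 game.** -/
theorem xwin_of {s1 s2 s3 np pb : ℕ} {tab ex s0 toks n j0 : ℕ} (hnp : np ≤ pb + 1)
    (h : okXX s1 s2 s3 np tab ex s0 toks n = true)
    (hi : Imp tab ex pb (ini tab j0 s0) Stk.nil) : XWin s1 s2 s3 np := by
  unfold okXX at h
  simp only [Bool.and_eq_true] at h
  obtain ⟨⟨hT, hE⟩, hS, hS0⟩ := h
  intro A w PP c1 c2 hb c3 hPP HU1 HU3 HS
  have hpr : ∀ s : Finset ℕ, (∀ e ∈ s, e < 64 ∧ XX A w PP e) → s.card ≤ np := by
    intro s hs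
    have key : ∀ e ∈ s, e < 64 ∧ (add w (q (e / 8)), add w (q (e % 8))) ∈ PP := by
      intro e he
      obtain ⟨h64, hX⟩ := hs e he
      rcases hX with hX | hX | hX
      · exact hX
      · exact absurd hX.1 (by omega)
      · omega
    have hinj : ∀ a ∈ s, ∀ b ∈ s, (add w (q (a / 8)), add w (q (a % 8))) =
        (add w (q (b / 8)), add w (q (b % 8))) → a = b := by
      intro a ha b hb hab
      rw [Prod.mk.injEq] at hab
      have k1 := (key a ha).1
      have k2 := (key b hb).1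
      have h3 := q_inj _ (by omega) _ (by omega) (add_inj _ _ _ hab.1)
      have h4 := q_inj _ (by omega) _ (by omega) (add_inj _ _ _ hab.2)
      omega
    have h1 := card_le_card (show s.image (fun e => (add w (q (e / 8)), add w (q (e % 8)))) ⊆ PP from
      fun y hy => by
        rw [mem_image] at hy
        obtain ⟨e, he, rfl⟩ := hy
        exact (key e he).2)
    rw [card_image_of_injOn hinj] at h1
    omega
  have hok : Ok (XX A w PP) tab ex pb := by
    refine ok3 (A := A) (w := w) (n1 := s1) (n2 := s2) (n3 := s3) (fun e he hX => ?_)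
      (fun s hs => (hpr s hs).trans hnp) (fun j hj => ?_) hE c1 c2 hb c3 rfl rfl rfl
    · rcases hX with hX | hX | hX
      · omega
      · exact Or.inl hX
      · exact Or.inr hX
    · rcases okG_spec n tab toks hT j with h1 | ⟨tk, hv, h1⟩
      · rw [h1, Nat.zero_testBit] at hj
        exact absurd hj (by simp)
      · rw [h1]
        by_contra hcon
        have hX : ∀ e, e ≠ 120 → (maskX3 tk).testBit e = true → ¬ XX A w PP e :=
          fun e e1 e2 e3 => hcon ⟨e, e1, e2, e3⟩
        unfold validX3 at hv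
        simp only [Bool.and_eq_true] at hv
        obtain ⟨⟨⟨w1, w2⟩, r1, r2⟩, hk⟩ := hv
        have hu : ∀ i, wf2 tk i < 8 := fun i => wf_lt _ _
        have m1 := mX_valid (w := w) (A := A) (PP := PP) (wf_lt tk) w1 (bne_of r1)
          (fun e he => hX e (mX_ne (wf_lt tk) he) (lor_right (lor_left he)))
        have m2 := mX_valid (w := w) (A := A) (PP := PP) hu w2 (bne_of r2)
          (fun e he => hX e (mX_ne hu he) (lor_right (lor_right he)))
        unfold kindX at hk
        simp only [Bool.or_eq_true, Bool.and_eq_true] at hk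
        rcases hk with ⟨⟨k1, k2⟩, k3⟩ | ⟨⟨k1, k2⟩, k3⟩ | ⟨k1, k3⟩
        · refine bne_of k3 (q_inj _ (wf_lt _ _) _ (hu _) (add_inj w _ _ ?_))
          refine HU1 _ _ m1 m2 ?_ ?_
          · show add w (q (wf tk 2)) = add w (q (wf2 tk 2))
            rw [Nat.eq_of_beq_eq_true k1]
          · show add w (q (wf tk 3)) = add w (q (wf2 tk 3))
            rw [Nat.eq_of_beq_eq_true k2]
        · refine bne_of k3 (q_inj _ (wf_lt _ _) _ (hu _) (add_inj w _ _ ?_))
          refine HU3 _ _ m1 m2 ?_ ?_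
          · show add w (q (wf tk 1)) = add w (q (wf2 tk 1))
            rw [Nat.eq_of_beq_eq_true k1]
          · show add w (q (wf tk 2)) = add w (q (wf2 tk 2))
            rw [Nat.eq_of_beq_eq_true k2]
        · refine bne_of k3 (q_inj _ (wf_lt _ _) _ (hu _) (add_inj w _ _ ?_))
          refine HS _ _ m1 m2 ?_
          show add (add w (q (wf tk 1))) (add w (q (wf tk 3))) =
            add (add w (q (wf2 tk 1))) (add w (q (wf2 tk 3)))
          rw [add_assoc4, q_xor _ (wf_lt _ _) _ (wf_lt _ _), add_assoc4, q_xor _ (hu _) _ (hu _)]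
          have : wf tk 1 ^^^ wf tk 3 = wf2 tk 1 ^^^ wf2 tk 3 := Nat.eq_of_beq_eq_true k1
          rw [this]
  have hsat : Sat (XX A w PP) (2 ^ 120) s0 := by
    refine sat3 (Or.inr (Or.inr rfl)) (fun e he hz hX => ?_) hS hS0
    unfold nzX at hz
    simp only [Bool.or_eq_true, Bool.and_eq_true] at hz
    rcases hz with ⟨z1, z2⟩ | ⟨z0, z1⟩
    · have y1 := Nat.le_of_ble_eq_true z1
      have y2 := Nat.le_of_ble_eq_true z2
      rcases hX with hX | hX | hX
      · omega
      · have := hX.1; omega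
      · omega
    · have y0 : np = 0 := Nat.eq_of_beq_eq_true z0
      have y1 := Nat.le_of_ble_eq_true z1
      have := hpr {e} (fun t ht => by rw [mem_singleton] at ht; subst ht; exact ⟨by omega, hX⟩)
      rw [card_singleton] at this
      omega
  exact ini_false hok (hi _ hok trivial) hsat

end CLB.H86.Gm
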