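import Pool.Agent.Helper86_DA.Wst
import Pool.Agent.Helper3_DA.Main
import Pool.Agent.Helper3_DA.CritK
import Pool.Agent.Helper3_DA.RSet

/-!
Closed chains with integer indices, and the statements of the modules on their structure.
-/

set_option autoImplicit false
set_option linter.unusedSectionVars false

namespace CLB.H86

open Finset Classical
open H3DA (Q neg nr)
open CLB.H95
open CLB.H3 (CExt Cat IsTwo mmS llS eU zs OpenFalse)

variable {V : Type*}

/-- A closed chain of links, with integer indices modulo `k`. -/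
structure CC (H : SimpleGraph V) (R : V → Bool) (k : ℕ) (X Y : ℤ → V) : Prop where
  k2 : 2 ≤ k
  even : k % 2 = 0
  perX : ∀ i, X (i + k) = X i
  perY : ∀ i, Y (i + k) = Y i
  me : ∀ i, Me H R (X i) (Y i)
  lk : ∀ i, Lk H R (Y i) (X (i + 1))
  injX : ∀ i j, X i = X j → (k : ℤ) ∣ i - j
  injY : ∀ i j, Y i = Y j → (k : ℤ) ∣ i - j
  xy : ∀ i j, X i ≠ Y j

/-- The vertices of a closed chain. -/
def InZ (X Y : ℤ → V) (v : V) : Prop := ∃ i, v = X i ∨ v = Y i

/-- The ports of a caterpillar. -/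
def Prt (m : ℕ) (c : ℕ → V) (v : V) : Prop := ∃ j ≤ m + 1, c j = v

/-- The ports outside the closed chain have at least their share in the inequality of maximum cuts. -/
def OutI [Fintype V] (H : SimpleGraph V) (R : V → Bool) (m : ℕ) (z c : ℕ → V) (X Y : ℤ → V) : Prop :=
  ∃ O : Finset V, (∀ w ∈ O, Cov H R w ∧ ¬ InZ X Y w) ∧
    ((range (m + 2)).filter (fun j => ¬ InZ X Y (c j))).card + O.card + mmS H R O
      ≤ 2 * ∑ w ∈ O, eU H (zs m z) w + llS H R O

/-- Module S1: two neighbours of an uncovered vertex in a closed chain. -/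
def TwoNH : Prop := ∀ (V : Type) [Fintype V] (H : SimpleGraph V) (R : V → Bool) (k : ℕ) (X Y : ℤ → V),
  ClassC H R → CC H R k X Y → ∀ z a b : V, ¬ Cov H R z → a ≠ b → H.Adj z a → H.Adj z b →
  InZ X Y a → InZ X Y b → ∃ i, (a = Y i ∧ b = X (i + 2)) ∨ (b = Y i ∧ a = X (i + 2))

/-- Module S2: two vertices. -/
def M2H : Prop := ∀ (V : Type) [Fintype V] (H : SimpleGraph V) (R : V → Bool) (k : ℕ) (X Y : ℤ → V),
  ClassC H R → Crit H R → CC H R k X Y → 4 ≤ k → ∀ z c, Cat H R 2 z c → ∀ i j, i ≤ 1 → 2 ≤ j → j ≤ 3 →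
  InZ X Y (c i) → InZ X Y (c j) → (InZ X Y (c 0) ∧ InZ X Y (c 1)) ∨ (InZ X Y (c 2) ∧ InZ X Y (c 3))

/-- Module S3: a closed chain through every link. -/
def ThrH : Prop := OpenFalse → ∀ (V : Type) [Fintype V] (G H : SimpleGraph V) (R : V → Bool),
  Opt G R → ClassC G R → H ≤ G → Crit H R → ∀ u v, Lk H R u v →
  ∃ k X Y, CC H R k X Y ∧ InZ X Y u

/-- Module LF: an unlinked unit with one port at each of its vertices, not both leaves. -/
def LfH : Prop := ∀ (V : Type) [Fintype V] (H : SimpleGraph V) (R : V → Bool),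
  ClassC H R → Crit H R → ∀ m z c, Cat H R m z c → ∀ w w', Me H R w w' → (∀ u, ¬ Lk H R w u) →
  (∀ u, ¬ Lk H R w' u) → ∀ p q, c p = w → c q = w' → 2 ≤ p → p + 1 ≤ m → 2 ≤ q → q ≤ m + 1 →
  (∀ j ≤ m + 1, c j = w → j = p) → (∀ j ≤ m + 1, c j = w' → j = q) → False

/-- Module S4: the ports outside. -/
def OutH : Prop := ∀ (V : Type) [Fintype V] (H : SimpleGraph V) (R : V → Bool),
  ClassC H R → Crit H R → (∀ u v, Lk H R u v → ∃ k X Y, CC H R k X Y ∧ InZ X Y u) →
  ∀ (k : ℕ) (X Y : ℤ → V), CC H R k X Y → ∀ m z c, Cat H R m z c → InZ X Y (c 0) → InZ X Y (c 1) →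
  OutI H R m z c X Y

/-- Module S5: a half seen unit. -/
def FullH : Prop := ∀ (V : Type) [Fintype V] (H : SimpleGraph V) (R : V → Bool) (k : ℕ) (X Y : ℤ → V),
  ClassC H R → CC H R k X Y → 4 ≤ k → ∀ m z c, Cat H R m z c → OutI H R m z c X Y →
  ∀ i, Prt m c (Y i) → ¬ Prt m c (X i) → ∀ j, (Prt m c (Y j) ↔ ¬ Prt m c (X (j + 1)))

/-- Module S7: swapping. -/
def SwapH : Prop := ∀ (V : Type) [Fintype V] (H : SimpleGraph V) (R : V → Bool) (k : ℕ) (X Y : ℤ → V),
  ClassC H R → Crit H R → CC H R k X Y → 4 ≤ k → ∀ m z c, Cat H R m z c → ∀ i, c 0 = Y i →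
  c 1 = X (i + 2) → Prt m c (X i) → Prt m c (Y (i + 2)) → False

end CLB.H86
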