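import Pool.Agent.Helper86_DA.Core2
import Pool.Agent.Helper3_DA.FLemma

/-!
One caterpillar with a fork in the chain, at least six units: the four kill units and the case distinction.
-/

set_option autoImplicit false
set_option linter.unusedSectionVars false

namespace CLB.H86

open Finset Classical
open H3DA (Q neg nr)
open CLB.H95
open CLB.H3 (CExt Cat IsTwo cat_structure he_of_unc pos)

variable {V : Type} [Fintype V] {H : SimpleGraph V} {R : V → Bool} {k : ℕ} {X Y : ℤ → V}
  {m : ℕ} {z c : ℕ → V}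

/-- The run for a kill unit. -/
theorem run (ct1 : Ct1H) (ct2 : Ct2H) (tn : TwoNH) (hG : ClassC H R) (hc : Crit H R)
    (ks : KS H R k X Y m z c) (hk : 6 ≤ k) {w : V} {u : ℕ} (kw : KW H R k X Y m c w u)
    (hkill : ∀ f, OffC H R k (xN X) (xN Y) f → KillU k (xN X) (xN Y) m c f u)
    (hno : ¬ L2 H R X Y 0) (hw1 : L2 H R X Y (-2) ∨ w ≠ X 1) : False := by
  have cc := ks.cc
  have hm3 := ks.m3
  have h : Chn H R k (xN X) (xN Y) := cc.chn
  have hl : Lk H R (xN Y k) (xN X 1) := cc.lkc
  obtain ⟨f, hf⟩ := exists_off h hc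
  obtain ⟨Φ, hΦ⟩ := exists_forb h hf (ES H R X Y m z) (xN X 1) (xN X 1)
  have hu := hkill f hf
  have hK := kap_Kap hG ks kw hu hΦ.two hΦ.triv
  by_cases hL : L2 H R X Y (-2)
  · obtain ⟨v, hv⟩ := hL
    rw [show (-2 : ℤ) + 2 = 0 by ring] at hv
    have hnp : ¬ Prt m c (Y (-2)) := by
      rintro ⟨j, hj, e⟩
      have a1 := cl_mem ks.cat.pos hj
      have a2 := (cat_adj_cl ks.cat hj)
      rw [e] at a2
      have := cc.unc_unique hG (inZ_Y X Y (-2)) hv.2.1.symm a2 hv.1 (ks.cat.unc _ a1.1 a1.2)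
      rw [this] at hv
      exact isTwo_not_cat ks.cat a1.1 a1.2 hv
    obtain ⟨mu, m1, m2, m3, m4, m5⟩ := asm2 hG h hl hK ct2 hk
      (by
        show cst H R Φ (X (k : ℤ)) = 0
        rw [ks.Xk]
        exact cst_pair hG cc hΦ.triv (cc.xy _ _) (inZ_X X Y 0) (inZ_Y X Y (-2)) hv.1 hv.2.2.1 hv.2.1)
      (by
        show cst H R Φ (Y ((k - 2 : ℕ) : ℤ)) = 0
        rw [ks.Yk2]
        exact cst_pair hG cc hΦ.triv (cc.xy _ _).symm (inZ_Y X Y (-2)) (inZ_X X Y 0) hv.1 hv.2.1
          hv.2.2.1)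
      (fun g => by
        show kap H R k X Y m c f w u (Y ((k - 2 : ℕ) : ℤ)) g = ∅
        rw [ks.Yk2]
        unfold kap
        split_ifs with h1 h2
        · exact absurd (h1 ▸ kw.prt) hnp
        · obtain ⟨n, hn⟩ := h2
          exact absurd hn.2.2.1.symm (cc.xy _ _)
        · refine Finset.eq_empty_iff_forall_notMem.2 fun t ht => ?_
          simp only [mem_filter, mem_univ, true_and] at ht
          obtain ⟨b, ⟨-, hb⟩, -⟩ := ht
          apply hnp
          rcases hb with ⟨e, -⟩ | ⟨e, -⟩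
          · exact ⟨m, by omega, e.symm⟩
          · exact ⟨m + 1, le_rfl, e.symm⟩)
    exact core_fin tn hG hc ks kw hf hΦ m1 m2 m3 m4 hno (fun _ => m5)
  · have hw1' : w ≠ X 1 := by
      rcases hw1 with h' | h'
      · exact absurd h' hL
      · exact h'
    obtain ⟨mu, m1, m2, m3, m4⟩ := asm1 hG h hl hK ct1 (by omega) (fun g => by
      show kap H R k X Y m c f w u (X ((1 : ℕ) : ℤ)) g = ∅
      unfold kap
      split_ifs with h1 h2
      · exact absurd h1.symm hw1'
      · obtain ⟨n, n1, n2, n3, -⟩ := h2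
        exact absurd n3 (cc.neX (i := ((1 : ℕ) : ℤ)) (j := n) (by omega) (by omega))
      · refine Finset.eq_empty_iff_forall_notMem.2 fun t ht => ?_
        simp only [mem_filter, mem_univ, true_and] at ht
        obtain ⟨b, ⟨-, hb⟩, -⟩ := ht
        have hin : InZ X Y (c 1) := by rw [ks.e1]; exact inZ_X X Y _
        rcases hb with ⟨e, -⟩ | ⟨e, -⟩
        · have := cc.port_inj hG ks.cat (i := 1) (j := m) (by omega) (by omega) hin (ks.e1.trans e)
          omega
        · have := cc.port_inj hG ks.cat (i := 1) (j := m + 1) (by omega) (by omega) hin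
            (ks.e1.trans e)
          omega)
    exact core_fin tn hG hc ks kw hf hΦ m1 m2 m3 m4 hno (fun h' => absurd h' hL)

/-! ### Uniqueness -/

/-- Labels which agree below `u`. -/
lemma lbl_same (cc : CC H R k X Y) {f : V → Q} {u : ℕ} {g g' : ℕ → Q} (hs : Same u g g') {v : V}
    (hv : ∀ n : ℕ, 1 ≤ n → n ≤ k → (v = X n ∨ v = Y n) → n < u) :
    lbl k (xN X) (xN Y) g f v = lbl k (xN X) (xN Y) g' f v := by
  have h : Chn H R k (xN X) (xN Y) := cc.chn
  by_cases hin : InC k (xN X) (xN Y) v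
  · obtain ⟨a1, a2, a3⟩ := idx_spec hin
    exact lbl_congr h hin (hs _ a1 (hv _ a1 a2 a3))
  · rw [lbl_out hin, lbl_out hin]

/-- The type is determined by the far fork. -/
lemma type_far {D D' : Ty} {s s' : ℕ → Q} {m : ℕ} (h : Tight D s m) (h' : Tight D' s' m)
    (e1 : s m = s' m) (e2 : s (m + 1) = s' (m + 1)) : D = D' := by
  have h1 := h.2.2
  have h2 := h'.2.2
  rw [e1, e2] at h1
  exact altT_inj (frk_unique _ _ _ _ h1 h2)

/-- The label at an inner position is determined by its neighbours. -/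
lemma label_inner {D : Ty} {s s' : ℕ → Q} {m p : ℕ} (h : Tight D s m) (h' : Tight D s' m)
    (hp : 2 ≤ p) (hpm : p + 1 ≤ m) (e1 : s (p - 1) = s' (p - 1)) (e2 : s (p + 1) = s' (p + 1)) :
    s p = s' p := by
  have a1 := h.2.1 (p - 1) (by omega) (by omega)
  have a2 := h.2.1 p (by omega) (by omega)
  have b1 := h'.2.1 (p - 1) (by omega) (by omega)
  have b2 := h'.2.1 p (by omega) (by omega)
  rw [show p - 1 + 1 = p by omega] at a1 b1
  have c1 : altT D p = co (altT D (p - 1)) := by
    have := altT_succ D (p - 1)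
    rwa [show p - 1 + 1 = p by omega] at this
  rw [e1] at a1
  rw [e2, c1] at a2
  rw [c1] at b2
  exact CLB.H3.inner_unique _ _ _ _ _ a1 a2 b1 b2

lemma ml_key : ∀ (D : Ty) (x y b : Q), frk D x y = true → frk (co D) (neg x) b = true → b = y := by
  decide +kernel

/-- Mates in the two forks. -/
lemma mates_far {D : Ty} {s : ℕ → Q} {m a b : ℕ} (h : Tight D s m) (hm : m % 2 = 1)
    (hab : (a = m ∧ b = m + 1) ∨ (a = m + 1 ∧ b = m)) (ha : s a = neg (s 0)) : s b = s 1 := by
  have h1 := h.1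
  have h2 := h.2.2
  have e : altT D (m + 1) = co D := by
    unfold altT; rw [if_neg (by omega)]
  rw [e] at h2
  rcases hab with ⟨rfl, rfl⟩ | ⟨rfl, rfl⟩
  · rw [ha] at h2
    exact ml_key D _ _ _ h1 h2
  · rw [ha, frk_symm] at h2
    exact ml_key D _ _ _ h1 h2

section kills

variable (hG : ClassC H R) (ks : KS H R k X Y m z c)

include hG ks

lemma units_ge (j : ℕ) (hj : j ≤ m + 1) (u : ℕ) (hu : 1 ≤ u)
    (h : ∀ n : ℕ, u ≤ n → n + 1 ≤ k → c j ≠ X n ∧ c j ≠ Y n) :
    ∀ n : ℕ, 1 ≤ n → n ≤ k → (c j = X n ∨ c j = Y n) → n < u := by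
  intro n n1 n2 hn
  by_contra hlt
  by_cases hnk : n = k
  · subst hnk
    rcases hn with hn | hn
    · exact ks.nX0 ⟨j, hj, by rw [hn, ks.Xk]⟩
    · exact ks.nY0 ⟨j, hj, by rw [hn, ks.Yk]⟩
  · have := h n (by omega) (by omega)
    rcases hn with hn | hn
    · exact this.1 hn
    · exact this.2 hn

/-- Kill unit `k - 1`. -/
lemma killA {f : V → Q} {p : ℕ} (hp : 2 ≤ p) (hpm : p + 1 ≤ m) (hcp : c p = X (-1)) :
    KillU k (xN X) (xN Y) m c f (k - 1) := by
  intro D D' g g' hs ht ht'
  have cc := ks.cc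
  have hk4 := ks.k4
  have h : Chn H R k (xN X) (xN Y) := cc.chn
  have eq : ∀ j ≤ m + 1, j ≠ 0 → j ≠ p →
      lbl k (xN X) (xN Y) g f (c j) = lbl k (xN X) (xN Y) g' f (c j) := by
    intro j hj h0 hjp
    refine lbl_same cc hs (units_ge hG ks j hj (k - 1) (by omega) (fun n n1 n2 => ?_))
    have e : n = k - 1 := by omega
    subst e
    constructor
    · intro e
      rw [ks.Xk1] at e
      exact hjp (cc.port_inj hG ks.cat hj (by omega) (by rw [e]; exact inZ_X X Y _) (e.trans hcp.symm))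
    · intro e
      rw [ks.Yk1] at e
      exact h0 (cc.port_inj hG ks.cat hj (by omega) (by rw [e]; exact inZ_Y X Y _)
        (e.trans ks.e0.symm))
  have hD : D = D' := type_far ht ht' (eq m (by omega) (by omega) (by omega))
    (eq (m + 1) le_rfl (by omega) (by omega))
  subst hD
  have key := label_inner ht ht' hp hpm (eq (p - 1) (by omega) (by omega) (by omega))
    (eq (p + 1) (by omega) (by omega) (by omega))
  have e1 : c p = xN X (k - 1) := by rw [hcp]; exact ks.Xk1.symm
  simp only [e1] at key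
  rw [lbl_x h (by omega) (by omega), lbl_x h (by omega) (by omega)] at key
  exact sg_inj key

/-- Kill unit `k - 2`. -/
lemma killB {f : V → Q} (hk : 6 ≤ k) {p : ℕ} (hp : 2 ≤ p) (hpm : p + 1 ≤ m) (hcp : c p = Y (-2))
    (hX : ¬ Prt m c (X (-1))) (hf1 : c m ≠ X (-2)) (hf2 : c (m + 1) ≠ X (-2)) :
    KillU k (xN X) (xN Y) m c f (k - 2) := by
  intro D D' g g' hs ht ht'
  have cc := ks.cc
  have h : Chn H R k (xN X) (xN Y) := cc.chn
  have eq : ∀ j ≤ m + 1, j ≠ 0 → j ≠ p → c j ≠ X (-2) →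
      lbl k (xN X) (xN Y) g f (c j) = lbl k (xN X) (xN Y) g' f (c j) := by
    intro j hj h0 hjp hjX
    refine lbl_same cc hs (units_ge hG ks j hj (k - 2) (by omega) (fun n n1 n2 => ?_))
    have e : n = k - 1 ∨ n = k - 2 := by omega
    rcases e with e | e
    · subst e
      constructor
      · intro e
        rw [ks.Xk1] at e
        exact hX ⟨j, hj, e⟩
      · intro e
        rw [ks.Yk1] at e
        exact h0 (cc.port_inj hG ks.cat hj (by omega) (by rw [e]; exact inZ_Y X Y _)
          (e.trans ks.e0.symm))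
    · subst e
      constructor
      · intro e
        rw [ks.Xk2] at e
        exact hjX e
      · intro e
        rw [ks.Yk2] at e
        exact hjp (cc.port_inj hG ks.cat hj (by omega) (by rw [e]; exact inZ_Y X Y _)
          (e.trans hcp.symm))
  have hD : D = D' := type_far ht ht' (eq m (by omega) (by omega) (by omega) hf1)
    (eq (m + 1) le_rfl (by omega) (by omega) hf2)
  subst hD
  have par : ∀ j ≤ m, 1 ≤ j → c j = X (-2) → j % 2 = p % 2 := by
    intro j hj hj1 e
    have := cc.parity ks.cat (j := j) (j' := p) (by omega) (by omega) (Or.inl e) (Or.inr hcp)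
    have e1 : pos m j = j := by unfold CLB.H3.pos; split_ifs <;> omega
    have e2 : pos m p = p := by unfold CLB.H3.pos; split_ifs <;> omega
    rw [e1, e2] at this
    omega
  have key := label_inner ht ht' hp hpm
    (eq (p - 1) (by omega) (by omega) (by omega) (fun e => by
      have := par (p - 1) (by omega) (by omega) e; omega))
    (eq (p + 1) (by omega) (by omega) (by omega) (fun e => by
      have := par (p + 1) (by omega) (by omega) e; omega))
  have e1 : c p = xN Y (k - 2) := by rw [hcp]; exact ks.Yk2.symm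
  simp only [e1] at key
  rw [lbl_y h (by omega) (by omega), lbl_y h (by omega) (by omega)] at key
  exact sg_inj (neg_inj' key)

/-- The far fork with the mate of the first port. -/
lemma far_mate {f : V → Q} {D : Ty} {g : ℕ → Q} {a b : ℕ}
    (hab : (a = m ∧ b = m + 1) ∨ (a = m + 1 ∧ b = m)) (hca : c a = X (-1))
    (ht : Tight D (fun j => lbl k (xN X) (xN Y) g f (c j)) m) :
    lbl k (xN X) (xN Y) g f (c b) = lbl k (xN X) (xN Y) g f (X 1) := by
  have cc := ks.cc
  have hk4 := ks.k4
  have hm3 := ks.m3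
  have h : Chn H R k (xN X) (xN Y) := cc.chn
  have hmod : m % 2 = 1 := by
    have := cc.parity ks.cat (j := a) (j' := 0) (by omega) (by omega) (Or.inl hca) (Or.inr ks.e0)
    have e1 : pos m a = m := by unfold CLB.H3.pos; split_ifs <;> omega
    have e2 : pos m 0 = 1 := by unfold CLB.H3.pos; simp
    rw [e1, e2] at this
    omega
  have key := mates_far ht hmod hab (by
    have e1 : c a = xN X (k - 1) := by rw [hca]; exact ks.Xk1.symm
    have e2 : c 0 = xN Y (k - 1) := by rw [ks.e0]; exact ks.Yk1.symm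
    show lbl k (xN X) (xN Y) g f (c a) = neg (lbl k (xN X) (xN Y) g f (c 0))
    rw [e1, e2, lbl_x h (by omega) (by omega), lbl_y h (by omega) (by omega), H3DA.neg_neg])
  have e3 : c 1 = X 1 := ks.e1
  simp only [e3] at key
  exact key

/-- Kill unit `1`. -/
lemma killC {f : V → Q} {a b : ℕ} (hab : (a = m ∧ b = m + 1) ∨ (a = m + 1 ∧ b = m))
    (hca : c a = X (-1)) (hcb : ¬ InZ X Y (c b)) : KillU k (xN X) (xN Y) m c f 1 := by
  intro D D' g g' _ ht ht'
  have cc := ks.cc
  have hk4 := ks.k4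
  have h : Chn H R k (xN X) (xN Y) := cc.chn
  have hout : ¬ InC k (xN X) (xN Y) (c b) := fun h' => hcb (cc.inC_iff.1 h')
  have k1 := far_mate hG ks hab hca ht
  have k2 := far_mate hG ks hab hca ht'
  rw [lbl_out hout] at k1 k2
  have e4 : X 1 = xN X 1 := rfl
  rw [e4, lbl_x h (by omega) (by omega)] at k1 k2
  exact sg_inj (k1.symm.trans k2)

/-- Kill unit `k - 3`. -/
lemma killD {f : V → Q} (hk : 6 ≤ k) {a b : ℕ} (hab : (a = m ∧ b = m + 1) ∨ (a = m + 1 ∧ b = m))
    (hca : c a = X (-1)) (hcb : c b = Y (-3)) : KillU k (xN X) (xN Y) m c f (k - 3) := by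
  intro D D' g g' hs ht ht'
  have cc := ks.cc
  have h : Chn H R k (xN X) (xN Y) := cc.chn
  have k1 := far_mate hG ks hab hca ht
  have k2 := far_mate hG ks hab hca ht'
  have e4 : X 1 = xN X 1 := rfl
  have e5 : c b = xN Y (k - 3) := by
    rw [hcb]
    exact (cc.eqX (i := ((k - 3 : ℕ) : ℤ)) (j := -3) ⟨1, by omega⟩).2.symm
  rw [e4, e5, lbl_x h (by omega) (by omega), lbl_y h (by omega) (by omega)] at k1 k2
  rw [hs 1 le_rfl (by omega)] at k1
  exact sg_inj (neg_inj' (k1.trans k2.symm))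

end kills

end CLB.H86
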