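import Pool.Agent.Helper86_DA.Wq
import Pool.Agent.Helper91_DA.M5Defs

/-!
Components with five vertices, full unit 1: the windows W4 and W8.
-/

set_option autoImplicit false
set_option linter.unusedSectionVars false

namespace CLB.H86

open Finset Classical
open H3DA (Q neg nr)
open CLB.H95
open CLB.H91
open CLB.H3 (CExt Cat IsTwo Fits UPath he_of_unc cat_structure chn_side KTight exists_ktight no_cext
  Leaf cext_or ll5')

variable {V : Type*} {G : SimpleGraph V} {R : V → Bool} [Fintype V] {k r : ℕ} {x y X Y : ℕ → V}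
  {m : ℕ} {z c : ℕ → V} {f : V → Q}

/-- The first units of a chain, reversed. -/
lemma chn_win (h : Chn G R k x y) (hr1 : 1 ≤ r) (hr : r ≤ k) :
    Chn G R r (fun i => y (r + 1 - i)) (fun i => x (r + 1 - i)) where
  pos := hr1
  me i h1 h2 := (h.me _ (by omega) (by omega)).symm
  lk i h1 h2 := by
    have := h.lk (r - i) (by omega) (by omega)
    show Lk G R (x (r + 1 - i)) (y (r + 1 - (i + 1)))
    rw [show r + 1 - i = r - i + 1 by omega, show r + 1 - (i + 1) = r - i by omega]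
    exact this.symm
  injx i j h1 h2 h3 h4 he := by
    have := h.injy _ _ (by omega) (by omega) (by omega) (by omega) he
    omega
  injy i j h1 h2 h3 h4 he := by
    have := h.injx _ _ (by omega) (by omega) (by omega) (by omega) he
    omega
  xy i j h1 h2 h3 h4 := fun he => h.xy _ _ (by omega) (by omega) (by omega) (by omega) he.symm

lemma inC_win {v : V} : InC r (fun i => y (r + 1 - i)) (fun i => x (r + 1 - i)) v ↔ InC r x y v := by
  constructor
  · rintro ⟨i, h1, h2, h3 | h3⟩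
    · exact ⟨r + 1 - i, by omega, by omega, Or.inr h3⟩
    · exact ⟨r + 1 - i, by omega, by omega, Or.inl h3⟩
  · rintro ⟨i, h1, h2, h3 | h3⟩
    · refine ⟨r + 1 - i, by omega, by omega, Or.inr ?_⟩
      show v = x (r + 1 - (r + 1 - i))
      rw [show r + 1 - (r + 1 - i) = i by omega]; exact h3
    · refine ⟨r + 1 - i, by omega, by omega, Or.inl ?_⟩
      show v = y (r + 1 - (r + 1 - i))
      rw [show r + 1 - (r + 1 - i) = i by omega]; exact h3

/-- Two components with a port at a linked vertex. -/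
lemma lk_own (hG : ClassC G R) (hcat : Cat G R m z c) {m' : ℕ} {z' c' : ℕ → V} (hC : Cat G R m' z' c')
    {v w : V} (hl : Lk G R v w) {i j : ℕ} (hi : i ≤ m + 1) (hj : j ≤ m' + 1) (ei : c i = v)
    (ej : c' j = v) : cSupp m' z' = cSupp m z := by
  have a1 := cl_mem hcat.pos hi
  have a2 := cl_mem hC.pos hj
  have b1 : z (cl m i) ∈ prt G R v := by
    rw [mem_prt, ← ei]; exact ⟨cat_adj_cl hcat hi, hcat.unc _ a1.1 a1.2⟩
  have b2 : z' (cl m' j) ∈ prt G R v := by
    rw [mem_prt, ← ej]; exact ⟨cat_adj_cl hC hj, hC.unc _ a2.1 a2.2⟩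
  have h5 := Finset.card_le_one.1 (prt_card_lk hG hl) _ b1 _ b2
  exact cSupp_eq hC hcat (mem_cSupp a2.1 a2.2) (by rw [← h5]; exact mem_cSupp a1.1 a1.2)

/-- A component sees a linked vertex at most once. -/
lemma lk_once (hG : ClassC G R) (hcat : Cat G R m z c) {v w : V} (hl : Lk G R v w) {i j : ℕ}
    (hi : i ≤ m + 1) (hj : j ≤ m + 1) (ei : c i = v) (ej : c j = v) : i = j := by
  have a1 := cl_mem hcat.pos hi
  have a2 := cl_mem hcat.pos hj
  have b1 : z (cl m i) ∈ prt G R v := by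
    rw [mem_prt, ← ei]; exact ⟨cat_adj_cl hcat hi, hcat.unc _ a1.1 a1.2⟩
  have b2 : z (cl m j) ∈ prt G R v := by
    rw [mem_prt, ← ej]; exact ⟨cat_adj_cl hcat hj, hcat.unc _ a2.1 a2.2⟩
  exact port_unique hcat hi hj (ei.trans ej.symm) (Finset.card_le_one.1 (prt_card_lk hG hl) _ b1 _ b2)

/-- The finite part of W4. -/
lemma w4_fin {W F1 : Finset Q} {F2 : Q → Finset Q} (hW : 4 ≤ W.card) (h1 : F1.card ≤ 2)
    (h2 : ∀ s, (F2 s).card ≤ 2) (a s0 : Q) :
    ∃ s t, s ∈ W ∧ s ∉ F1 ∧ s ≠ s0 ∧ nr s t = true ∧ t ∉ F2 s ∧ t ≠ a ∧ t ≠ neg a := by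
  obtain ⟨s, hs⟩ : ((W \ F1) \ {s0}).Nonempty := by
    rw [← Finset.card_pos]
    have e1 := Finset.le_card_sdiff F1 W
    have e2 := Finset.le_card_sdiff {s0} (W \ F1)
    rw [card_singleton] at e2
    omega
  rw [mem_sdiff, mem_sdiff, mem_singleton] at hs
  have key : ∀ s a : Q, (ball s \ {a, neg a}).card = 3 := by decide
  obtain ⟨t, ht⟩ : ((ball s \ {a, neg a}) \ F2 s).Nonempty := by
    rw [← Finset.card_pos]
    have e1 := Finset.le_card_sdiff (F2 s) (ball s \ {a, neg a})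
    have e2 := h2 s
    have e3 := key s a
    omega
  rw [mem_sdiff, mem_sdiff, mem_ball, mem_insert, mem_singleton, not_or] at ht
  exact ⟨s, t, hs.1.1, hs.1.2, hs.2, ht.1.1, ht.2, ht.1.2.1, ht.1.2.2⟩

section W4

variable {m' : ℕ} {z' c' : ℕ → V}

lemma w4_see (hb : Base G R k x y) (hK : K5 G R k x y z c 1) (hk : 3 ≤ k) (e4 : c 4 = y 2)
    (hC : Cat G R m' z' c') (hne : cSupp m' z' ≠ cSupp 5 z) {j : ℕ} (hj : j ≤ m' + 1)
    (hin : InC 2 x y (c' j)) : c' j = x 1 ∨ c' j = x 2 := by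
  obtain ⟨i, i1, i2, i3⟩ := hin
  have hi : i = 1 ∨ i = 2 := by omega
  have l1 := hb.ch.lk 1 le_rfl (by omega)
  have l2 := hb.ch.lk 2 (by omega) (by omega)
  rcases hi with rfl | rfl <;> rcases i3 with i3 | i3
  · exact Or.inl i3
  · exact absurd (lk_own hb.hG hK.cat hC l1 (i := 5) (by omega) hj hK.c5 i3) hne
  · exact Or.inr i3
  · exact absurd (lk_own hb.hG hK.cat hC l2 (i := 4) (by omega) hj e4 i3) hne

lemma w4_once (hb : Base G R k x y) (hK : K5 G R k x y z c 1) (hk : 3 ≤ k)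
    (hC : Cat G R m' z' c') (hne : cSupp m' z' ≠ cSupp 5 z) {i j : ℕ} (hi : i ≤ m' + 1)
    (hj : j ≤ m' + 1) (hv : c' i = x 1 ∨ c' i = x 2) (he : c' i = c' j) : i = j := by
  have l1 := hb.ch.lk 1 le_rfl (by omega)
  rcases hv with hv | hv
  · by_contra hij
    exact hne (own_double hb.hG hC hK.cat hi hj hij (l := 1) (by omega) hv (he ▸ hv) hK.c1)
  · exact lk_once hb.hG hC l1.symm hi hj hv (he ▸ hv)

lemma w4_three (hb : Base G R k x y) (hK : K5 G R k x y z c 1) (hk : 3 ≤ k) (e4 : c 4 = y 2)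
    (hC : Cat G R m' z' c') (hne : cSupp m' z' ≠ cSupp 5 z) {i j l : ℕ} (hi : i ≤ m' + 1)
    (hj : j ≤ m' + 1) (hl : l ≤ m' + 1) (hij : i ≠ j) (hil : i ≠ l) (hjl : j ≠ l)
    (hin : InC 2 x y (c' i)) (hjn : InC 2 x y (c' j)) (hln : InC 2 x y (c' l)) : False := by
  have a1 := w4_see hb hK hk e4 hC hne hi hin
  have a2 := w4_see hb hK hk e4 hC hne hj hjn
  have a3 := w4_see hb hK hk e4 hC hne hl hln
  have o1 : c' i ≠ c' j := fun e => hij (w4_once hb hK hk hC hne hi hj a1 e)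
  have o2 : c' i ≠ c' l := fun e => hil (w4_once hb hK hk hC hne hi hl a1 e)
  have o3 : c' j ≠ c' l := fun e => hjl (w4_once hb hK hk hC hne hj hl a2 e)
  rcases a1 with a1 | a1 <;> rcases a2 with a2 | a2 <;> rcases a3 with a3 | a3
  · exact o1 (a1.trans a2.symm)
  · exact o1 (a1.trans a2.symm)
  · exact o2 (a1.trans a3.symm)
  · exact o3 (a2.trans a3.symm)
  · exact o3 (a2.trans a3.symm)
  · exact o2 (a1.trans a3.symm)
  · exact o1 (a1.trans a2.symm)
  · exact o1 (a1.trans a2.symm)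

/-- Nearly closed components in the window are couples. -/
lemma w4_cls (hb : Base G R k x y) (hK : K5 G R k x y z c 1) (hk : 3 ≤ k) (e4 : c 4 = y 2)
    (hC : Cat G R m' z' c') (hne : cSupp m' z' ≠ cSupp 5 z) (hm : 2 ≤ m')
    (hN : NCp m' (fun j => InC 2 x y (c' j))) :
    m' = 2 ∧ ∃ a b, (a = 0 ∨ a = 1) ∧ (b = 2 ∨ b = 3) ∧ ¬ InC 2 x y (c' (1 - a)) ∧
      ¬ InC 2 x y (c' (5 - b)) ∧ ((c' a = x 1 ∧ c' b = x 2) ∨ (c' a = x 2 ∧ c' b = x 1)) := by
  have h3 := fun (i j l : ℕ) (hi : i ≤ m' + 1) (hj : j ≤ m' + 1) (hl : l ≤ m' + 1) (hij : i ≠ j)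
    (hil : i ≠ l) (hjl : j ≠ l) (a : InC 2 x y (c' i)) (b : InC 2 x y (c' j))
    (d : InC 2 x y (c' l)) => w4_three hb hK hk e4 hC hne hi hj hl hij hil hjl a b d
  have hfork := ncp_forks hN
  have h2 : m' = 2 := by
    by_contra hm2
    rcases hN with ⟨h, -⟩ | ⟨a, b, -, d, -⟩ | ⟨a, b, -, d, -⟩ | ⟨a, b, d, -, -⟩ |
      ⟨-, ⟨a, b, d⟩ | ⟨a, b, d⟩⟩ | ⟨-, a, b, d, -⟩
    · exact hm2 h
    · rcases d with d | d
      · exact h3 0 1 m' (by omega) (by omega) (by omega) (by omega) (by omega) (by omega) a b d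
      · exact h3 0 1 (m' + 1) (by omega) (by omega) (by omega) (by omega) (by omega) (by omega) a b d
    · rcases d with d | d
      · exact h3 m' (m' + 1) 0 (by omega) (by omega) (by omega) (by omega) (by omega) (by omega) a b d
      · exact h3 m' (m' + 1) 1 (by omega) (by omega) (by omega) (by omega) (by omega) (by omega) a b d
    · exact h3 0 1 m' (by omega) (by omega) (by omega) (by omega) (by omega) (by omega) a b d
    · rcases d with d | d
      · exact h3 0 1 m' (by omega) (by omega) (by omega) (by omega) (by omega) (by omega) a b d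
      · exact h3 0 1 (m' + 1) (by omega) (by omega) (by omega) (by omega) (by omega) (by omega) a b d
    · rcases d with d | d
      · exact h3 m' (m' + 1) 0 (by omega) (by omega) (by omega) (by omega) (by omega) (by omega) a b d
      · exact h3 m' (m' + 1) 1 (by omega) (by omega) (by omega) (by omega) (by omega) (by omega) a b d
    · exact h3 0 1 m' (by omega) (by omega) (by omega) (by omega) (by omega) (by omega) a b d
  subst h2
  obtain ⟨a, ha, ja⟩ : ∃ a, (a = 0 ∨ a = 1) ∧ InC 2 x y (c' a) := by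
    rcases hfork.1 with h | h
    · exact ⟨0, Or.inl rfl, h⟩
    · exact ⟨1, Or.inr rfl, h⟩
  obtain ⟨b, hb', jb⟩ : ∃ b, (b = 2 ∨ b = 3) ∧ InC 2 x y (c' b) := by
    rcases hfork.2 with h | h
    · exact ⟨2, Or.inl rfl, h⟩
    · exact ⟨3, Or.inr rfl, h⟩
  refine ⟨rfl, a, b, ha, hb', fun h => ?_, fun h => ?_, ?_⟩
  · exact h3 a b (1 - a) (by omega) (by omega) (by omega) (by omega) (by omega) (by omega) ja jb h
  · exact h3 a b (5 - b) (by omega) (by omega) (by omega) (by omega) (by omega) (by omega) ja jb h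
  · have a1 := w4_see hb hK hk e4 hC hne (j := a) (by omega) ja
    have a2 := w4_see hb hK hk e4 hC hne (j := b) (by omega) jb
    have o1 : c' a ≠ c' b := fun e => by
      have := w4_once hb hK hk hC hne (i := a) (j := b) (by omega) (by omega) a1 e
      omega
    rcases a1 with a1 | a1 <;> rcases a2 with a2 | a2
    · exact absurd (a1.trans a2.symm) o1
    · exact Or.inl ⟨a1, a2⟩
    · exact Or.inr ⟨a1, a2⟩
    · exact absurd (a1.trans a2.symm) o1

lemma w4_star (hb : Base G R k x y) (hK : K5 G R k x y z c 1) (hk : 3 ≤ k) (e4 : c 4 = y 2)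
    (hC : Cat G R 1 z' c') (hne : cSupp 1 z' ≠ cSupp 5 z) {i j : ℕ} (hi : i ≤ 2) (hj : j ≤ 2)
    (hin : InC 2 x y (c' i)) (hjn : InC 2 x y (c' j)) : i = j := by
  have l1 := hb.ch.lk 1 le_rfl (by omega)
  have a1 := w4_see hb hK hk e4 hC hne (j := i) (by omega) hin
  have a2 := w4_see hb hK hk e4 hC hne (j := j) (by omega) hjn
  have h1 : c' i = x 1 := by
    rcases a1 with a1 | a1
    · exact a1
    · exact absurd (star_unlinked hb.hG hC hi (a1 ▸ l1.symm)) (by simp)
  have h2 : c' j = x 1 := by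
    rcases a2 with a2 | a2
    · exact a2
    · exact absurd (star_unlinked hb.hG hC hj (a2 ▸ l1.symm)) (by simp)
  exact w4_once hb hK hk hC hne (by omega) (by omega) (Or.inl h1) (h1.trans h2.symm)

/-- The walks of the window. -/
lemma w4_walks (hb : Base G R k x y) (hK : K5 G R k x y z c 1) (hk : 3 ≤ k) (e4 : c 4 = y 2)
    (hoff : OffC G R 2 (fun i => y (2 + 1 - i)) (fun i => x (2 + 1 - i)) f) :
    ∃ (F1 : Finset Q) (F2 : Q → Finset Q), F1.card ≤ 2 ∧ (∀ s, (F2 s).card ≤ 2) ∧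
      ∀ mu, Nwk 2 mu → mu 1 ∈ wall G R 2 (fun i => y (2 + 1 - i)) (fun i => x (2 + 1 - i)) f 1 →
        mu 1 ∉ F1 → mu 2 ∉ F2 (mu 1) →
        lbl 2 (fun i => y (2 + 1 - i)) (fun i => x (2 + 1 - i)) mu f (c 0) ≠
          neg (lbl 2 (fun i => y (2 + 1 - i)) (fun i => x (2 + 1 - i)) mu f (c 1)) →
        lbl 2 (fun i => y (2 + 1 - i)) (fun i => x (2 + 1 - i)) mu f (c 5) ≠
          neg (lbl 2 (fun i => y (2 + 1 - i)) (fun i => x (2 + 1 - i)) mu f (c (5 + 1))) →
        ∃ D, Tight D (fun j => lbl 2 (fun i => y (2 + 1 - i)) (fun i => x (2 + 1 - i)) mu f (c j)) 5 := by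
  have hch := chn_win hb.ch (r := 2) (by norm_num) (by omega)
  have hcyc : ¬ Lk G R ((fun i => x (2 + 1 - i)) 2) ((fun i => y (2 + 1 - i)) 1) := hb.e1 _
  have l1 := hb.ch.lk 1 le_rfl (by omega)
  have l2 := hb.ch.lk 2 (by omega) (by omega)
  have hwall : ∀ t, t ∈ wall G R 2 (fun i => y (2 + 1 - i)) (fun i => x (2 + 1 - i)) f 2 := by
    intro t
    unfold wall
    rw [mem_inter, mem_filter, mem_filter]
    exact ⟨⟨mem_univ _, fun h => by omega⟩, mem_univ _, fun _ v hv => absurd hv (hb.e1 v)⟩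
  have hJ : ∀ (m' : ℕ) (c' : ℕ → V), (fun j => InC 2 (fun i => y (2 + 1 - i)) (fun i => x (2 + 1 - i))
      (c' j)) = (fun j => InC 2 x y (c' j)) := fun m' c' => funext fun j => propext inC_win
  have star : ∀ z' c', Cat G R 1 z' c' → cSupp 1 z' ≠ cSupp 5 z → ∀ i j, i ≤ 2 → j ≤ 2 →
      InC 2 (fun i => y (2 + 1 - i)) (fun i => x (2 + 1 - i)) (c' i) →
      InC 2 (fun i => y (2 + 1 - i)) (fun i => x (2 + 1 - i)) (c' j) → i = j :=
    fun z' c' hC hne i j hi hj h1 h2 => w4_star hb hK hk e4 hC hne hi hj (inC_win.1 h1) (inC_win.1 h2)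
  by_cases hex : ∃ m1 z1 c1, Cat G R m1 z1 c1 ∧ cSupp m1 z1 ≠ cSupp 5 z ∧ 2 ≤ m1 ∧
      NCp m1 (fun j => InC 2 x y (c1 j))
  · obtain ⟨m1, z1, c1, hC1, hne1, hm1, hN1⟩ := hex
    obtain ⟨rfl, a, b, ha, hb', oa, ob, hab⟩ := w4_cls hb hK hk e4 hC1 hne1 hm1 hN1
    -- the condition of the couple
    obtain ⟨α, β, κ, hext⟩ : ∃ α β κ : Q, ∀ mu : ℕ → Q, mu 2 ≠ α → mu 1 ≠ β → mu 2 ≠ add κ (mu 1) →
        CExt 2 (fun j => lbl 2 (fun i => y (2 + 1 - i)) (fun i => x (2 + 1 - i)) mu f (c1 j)) := by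
      rcases hab with ⟨h1, h2⟩ | ⟨h1, h2⟩
      · obtain ⟨α, β, κ, h⟩ := two_ext (f := f) hch (c1 := c1) ha hb' (u := 2) (v := 1) (by norm_num)
          le_rfl le_rfl (by norm_num) (Or.inr h1) (Or.inr h2) (fun h => oa (inC_win.1 h))
          (fun h => ob (inC_win.1 h))
        exact ⟨α, β, κ, h⟩
      · obtain ⟨α, β, κ, h⟩ := two_ext (f := f) hch (c1 := c1) ha hb' (u := 1) (v := 2) le_rfl
          (by norm_num) (by norm_num) le_rfl (Or.inr h1) (Or.inr h2) (fun h => oa (inC_win.1 h))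
          (fun h => ob (inC_win.1 h))
        refine ⟨β, α, κ, fun mu m1 m2 m3 => h mu m2 m1 (fun e => m3 ?_)⟩
        have key : ∀ κ t : Q, add κ (add κ t) = t := by decide
        rw [e, key]
    have p1 : ∃ j ≤ 2 + 1, c1 j = x 1 := by
      rcases hab with ⟨h1, h2⟩ | ⟨h1, h2⟩
      · exact ⟨a, by omega, h1⟩
      · exact ⟨b, by omega, h2⟩
    have p2 : ∃ j ≤ 2 + 1, c1 j = x 2 := by
      rcases hab with ⟨h1, h2⟩ | ⟨h1, h2⟩
      · exact ⟨b, by omega, h2⟩
      · exact ⟨a, by omega, h1⟩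
    obtain ⟨j1, hj1, ej1⟩ := p1
    obtain ⟨j2, hj2, ej2⟩ := p2
    have hE : cSupp 5 z ⊆ cSupp 5 z ∪ cSupp 2 z1 := Set.subset_union_left
    have hE1 : cSupp 2 z1 ⊆ cSupp 5 z ∪ cSupp 2 z1 := Set.subset_union_right
    obtain ⟨F, -, hF, hwin⟩ := win_tightE hb.hG hb.hc hK.cat (by norm_num) hch hcyc hoff
      (cSupp 5 z ∪ cSupp 2 z1) (fun w a b hT hw => by
        rcases hw with ⟨i, i1, i2, i3⟩ | ⟨i, i1, i2, i3⟩
        · exact isTwo_not_cat hK.cat i1 i2 (i3 ▸ hT)
        · exact isTwo_not_cat hC1 i1 i2 (i3 ▸ hT))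
      (fun mu => mu 2 ≠ α ∧ mu 1 ≠ β ∧ mu 2 ≠ add κ (mu 1)) (fun m' z' c' hC hne hmeet => by
        by_cases hs : cSupp m' z' = cSupp 2 z1
        · right
          intro mu hmu
          have h1 := hext mu hmu.1 hmu.2.1 hmu.2.2
          rw [cext_iff_fits hC1 (lbl 2 _ _ mu f)] at h1
          rw [cext_iff_fits hC (lbl 2 _ _ mu f), hs]
          exact h1
        · left
          refine ⟨fun i i1 i2 hi => ?_, fun h1 => ?_, fun h2 hN => ?_⟩
          · rcases hi with hi | hi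
            · exact hne (cSupp_eq hC hK.cat (mem_cSupp i1 i2) hi)
            · exact hs (cSupp_eq hC hC1 (mem_cSupp i1 i2) hi)
          · subst h1
            exact star z' c' hC hne
          · rw [hJ m' c'] at hN
            obtain ⟨rfl, a', b', ha', hbb', -, -, hab'⟩ := w4_cls hb hK hk e4 hC hne h2 hN
            rcases hab' with ⟨-, h4⟩ | ⟨h4, -⟩
            · exact hs (lk_own hb.hG hC1 hC l1.symm hj2 (j := b') (by omega) ej2 h4)
            · exact hs (lk_own hb.hG hC1 hC l1.symm hj2 (j := a') (by omega) ej2 h4))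
    have q1 : fpE G R (cSupp 5 z ∪ cSupp 2 z1) (y 2) = 0 := by
      rw [← e4]; exact fpE_own_lk hb.hG hK.cat hE (by norm_num) (e4 ▸ l2)
    have q2 : fpE G R (cSupp 5 z ∪ cSupp 2 z1) (x 2) = 0 := by
      rw [← ej2]; exact fpE_own_lk hb.hG hC1 hE1 hj2 (ej2 ▸ l1.symm)
    have q3 : fpE G R (cSupp 5 z ∪ cSupp 2 z1) (y 1) = 0 := by
      rw [← hK.c5]; exact fpE_own_lk hb.hG hK.cat hE (by norm_num) (hK.c5 ▸ l1)
    have q4 : fpE G R (cSupp 5 z ∪ cSupp 2 z1) (x 1) = 0 := by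
      rw [← hK.c1]
      exact fpE_own_two hb.hG hK.cat hC1 hne1 hE hE1 (by norm_num) hj1 (ej1.trans hK.c1.symm)
    have hF1 : ∀ g, F 1 g = ∅ := fun g => by
      have h1 : (F 1 g ∪ F 1 g).card ≤ 2 * (fpE G R (cSupp 5 z ∪ cSupp 2 z1) (y 2) +
        fpE G R (cSupp 5 z ∪ cSupp 2 z1) (x 2)) := hF 1 g g
      rw [q1, q2, union_self] at h1
      exact card_eq_zero.1 (by omega)
    have hF2 : ∀ g, F 2 g = ∅ := fun g => by
      have h1 : (F 2 g ∪ F 2 g).card ≤ 2 * (fpE G R (cSupp 5 z ∪ cSupp 2 z1) (y 1) +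
        fpE G R (cSupp 5 z ∪ cSupp 2 z1) (x 1)) := hF 2 g g
      rw [q3, q4, union_self] at h1
      exact card_eq_zero.1 (by omega)
    refine ⟨{β}, fun s => {α, add κ s}, by simp, fun s => card_le_two, fun mu m1 m2 m3 m4 m5 m6 => ?_⟩
    rw [mem_singleton] at m3
    rw [mem_insert, mem_singleton, not_or] at m4
    refine hwin mu m1 (fun i i1 i2 => ?_) (fun i i1 i2 => ?_) ⟨m4.1, m3, m4.2⟩ m5 m6
    · have hi : i = 1 ∨ i = 2 := by omega
      rcases hi with rfl | rfl
      · rw [hF1]; simp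
      · rw [hF2]; simp
    · have hi : i = 1 ∨ i = 2 := by omega
      rcases hi with rfl | rfl
      · exact m2
      · exact hwall _
  · obtain ⟨F, hdep, hF, hwin⟩ := win_tightE hb.hG hb.hc hK.cat (by norm_num) hch hcyc hoff
      (cSupp 5 z) (fun w a b hT hw => by
        obtain ⟨i, i1, i2, i3⟩ := hw
        exact isTwo_not_cat hK.cat i1 i2 (i3 ▸ hT))
      (fun _ => True) (fun m' z' c' hC hne hmeet => by
        left
        refine ⟨fun i i1 i2 hi => ?_, fun h1 => ?_, fun h2 hN => ?_⟩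
        · exact hne (cSupp_eq hC hK.cat (mem_cSupp i1 i2) hi)
        · subst h1
          exact star z' c' hC hne
        · rw [hJ m' c'] at hN
          exact hex ⟨m', z', c', hC, hne, h2, hN⟩)
    have q1 : fpE G R (cSupp 5 z) (y 2) = 0 := by
      rw [← e4]; exact fpE_own_lk hb.hG hK.cat (le_refl _) (by norm_num) (e4 ▸ l2)
    have q2 : fpE G R (cSupp 5 z) (x 2) ≤ 1 := fpE_lk hb.hG l1.symm
    have q3 : fpE G R (cSupp 5 z) (y 1) = 0 := by
      rw [← hK.c5]; exact fpE_own_lk hb.hG hK.cat (le_refl _) (by norm_num) (hK.c5 ▸ l1)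
    have q4 : fpE G R (cSupp 5 z) (x 1) ≤ 1 := by
      rw [← hK.c1]; exact fpE_own_cov hb.hG hK.cat (le_refl _) (by norm_num)
    set g0 : ℕ → Q := fun _ => (false, false, false) with hg0
    have d1 : ∀ g, F 1 g = F 1 g0 := fun g => hdep 1 le_rfl (by norm_num) g g0 (fun j _ _ => by omega)
    have d2 : ∀ g, F 2 g = F 2 g0 := fun g => hdep 2 (by norm_num) le_rfl g g0 (fun j _ _ => by omega)
    refine ⟨F 1 g0, fun _ => F 2 g0, ?_, fun s => ?_, fun mu m1 m2 m3 m4 m5 m6 => ?_⟩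
    · have h1 : (F 1 g0 ∪ F 1 g0).card ≤ 2 * (fpE G R (cSupp 5 z) (y 2) +
        fpE G R (cSupp 5 z) (x 2)) := hF 1 g0 g0
      rw [union_self] at h1
      omega
    · have h1 : (F 2 g0 ∪ F 2 g0).card ≤ 2 * (fpE G R (cSupp 5 z) (y 1) +
        fpE G R (cSupp 5 z) (x 1)) := hF 2 g0 g0
      rw [union_self] at h1
      show (F 2 g0).card ≤ 2
      omega
    · refine hwin mu m1 (fun i i1 i2 => ?_) (fun i i1 i2 => ?_) trivial m5 m6
      · have hi : i = 1 ∨ i = 2 := by omega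
        rcases hi with rfl | rfl
        · rw [d1]; exact m3
        · rw [d2]; exact m4
      · have hi : i = 1 ∨ i = 2 := by omega
        rcases hi with rfl | rfl
        · exact m2
        · exact hwall _

end W4

/-- The labelling outside a window. -/
lemma k5_off (hb : Base G R k x y) (hK : K5 G R k x y z c 1) {X Y : ℕ → V} {j0 : ℕ}
    (hj0 : j0 ≤ 6) (hin : InC r X Y (c j0)) :
    ∃ f D, OffC G R r X Y f ∧ Tight D (fun j => f (c j)) 5 ∧
      (∀ u v, Me G R u v → f v = neg (f u)) := by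
  obtain ⟨f0, D0, hKT⟩ := exists_ktight hb.hG hb.hc hK.cat (by norm_num)
  obtain ⟨f, hoff, hfe⟩ := exists_offw hK.cat (by norm_num) hKT hj0 hin
  obtain ⟨g1, -, -, -⟩ := CLB.H3.fits_other hK.cat hKT.ok
  refine ⟨f, D0, hoff, ?_, fun u v huv => ?_⟩
  · have e : ∀ j ≤ 5 + 1, f (c j) = f0 (c j) := fun j hj => hfe _ (hK.cat.cov j hj)
    obtain ⟨t1, t2, t3⟩ := hKT.tight
    refine ⟨?_, fun i i1 i2 => ?_, ?_⟩
    · show frk D0 (f (c 0)) (f (c 1)) = true
      rw [e 0 (by omega), e 1 (by omega)]; exact t1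
    · show stp (altT D0 i) (neg (f (c i))) (f (c (i + 1))) = true
      rw [e i (by omega), e (i + 1) (by omega)]; exact t2 i i1 i2
    · show frk (altT D0 (5 + 1)) (f (c 5)) (f (c (5 + 1))) = true
      rw [e 5 (by omega), e (5 + 1) le_rfl]; exact t3
  · rw [hfe v huv.symm.cov, hfe u huv.cov]
    exact g1 u v huv

/-- **W4.** -/
theorem w4 : W4Stmt := by
  intro V _ H R k x y z c hb hK hk e4 o0 o2 o3 o6
  have hout : ∀ v, OutU x y 2 v → ¬ InC 2 (fun i => y (2 + 1 - i)) (fun i => x (2 + 1 - i)) v := by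
    intro v ho hin
    rw [inC_win] at hin
    obtain ⟨i, i1, i2, i3 | i3⟩ := hin
    · exact (ho i i1 i2).1 i3
    · exact (ho i i1 i2).2 i3
  obtain ⟨f, D0, hoff, hT, hM⟩ := k5_off (r := 2) (X := fun i => y (2 + 1 - i))
    (Y := fun i => x (2 + 1 - i)) hb hK (j0 := 1) (by norm_num)
    (by rw [inC_win, hK.c1]; exact InC.x le_rfl (by norm_num))
  have hch := chn_win hb.ch (r := 2) (by norm_num) (by omega)
  obtain ⟨F1, F2, h1, h2, hw⟩ := w4_walks hb hK hk e4 hoff
  have hmate : f (c 5) = neg (f (c 1)) := by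
    rw [hK.c5, hK.c1]; exact hM _ _ (hb.ch.me 1 le_rfl (by omega))
  obtain ⟨b1, -⟩ := ll5' (e := 1) (e' := 5) (Or.inr rfl) (Or.inl rfl) hT hmate
  have b1' : f (c 0) = f (c 6) := b1
  have hW : 4 ≤ (wall H R 2 (fun i => y (2 + 1 - i)) (fun i => x (2 + 1 - i)) f 1).card := by
    have e1 := wall_card (r := 2) (X := fun i => y (2 + 1 - i)) (Y := fun i => x (2 + 1 - i)) (f := f)
      hb.hG (R := R) 1
    have e2 := wl_le (G := H) (R := R) (X := fun i => y (2 + 1 - i)) 1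
    have e3 := wr_ne (G := H) (R := R) (r := 2) (Y := fun i => x (2 + 1 - i)) (i := 1) (by norm_num)
    omega
  obtain ⟨s, t, s1, s2, s3, s4, t1, t2, t3⟩ := w4_fin hW h1 h2 (f (c 0))
    (neg (add (add (f (c 2)) (f (c 3))) (f (c 0))))
  set mu : ℕ → Q := fun i => if i = 1 then s else t with hmu
  have m1 : mu 1 = s := by rw [hmu]; exact if_pos rfl
  have m2 : mu 2 = t := by rw [hmu]; exact if_neg (by norm_num)
  have L0 : lbl 2 (fun i => y (2 + 1 - i)) (fun i => x (2 + 1 - i)) mu f (c 0) = f (c 0) :=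
    lbl_out (hout _ o0)
  have L2 : lbl 2 (fun i => y (2 + 1 - i)) (fun i => x (2 + 1 - i)) mu f (c 2) = f (c 2) :=
    lbl_out (hout _ o2)
  have L3 : lbl 2 (fun i => y (2 + 1 - i)) (fun i => x (2 + 1 - i)) mu f (c 3) = f (c 3) :=
    lbl_out (hout _ o3)
  have L6 : lbl 2 (fun i => y (2 + 1 - i)) (fun i => x (2 + 1 - i)) mu f (c 6) = f (c 6) :=
    lbl_out (hout _ o6)
  have L1 : lbl 2 (fun i => y (2 + 1 - i)) (fun i => x (2 + 1 - i)) mu f (c 1) = neg t := by
    rw [hK.c1]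
    have := lbl_y hch (mu := mu) (f := f) (i := 2) (by norm_num) le_rfl
    rw [m2] at this
    exact this
  have L5 : lbl 2 (fun i => y (2 + 1 - i)) (fun i => x (2 + 1 - i)) mu f (c 5) = t := by
    rw [hK.c5]
    have := lbl_x hch (mu := mu) (f := f) (i := 2) (by norm_num) le_rfl
    rw [m2] at this
    exact this
  have L4 : lbl 2 (fun i => y (2 + 1 - i)) (fun i => x (2 + 1 - i)) mu f (c 4) = neg s := by
    rw [e4]
    have := lbl_x hch (mu := mu) (f := f) (i := 1) le_rfl (by norm_num)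
    rw [m1] at this
    exact this
  obtain ⟨D, hD⟩ := hw mu (fun i i1 i2 => by
      have hi : i = 1 := by omega
      subst hi
      rw [m1, m2]; exact s4) (by rw [m1]; exact s1) (by rw [m1]; exact s2)
    (by rw [m1, m2]; exact t1) (by rw [L0, L1, H3DA.neg_neg]; exact fun e => t2 e.symm)
    (by rw [L5]; show t ≠ neg (lbl 2 _ _ mu f (c 6)); rw [L6, ← b1']; exact t3)
  obtain ⟨-, d2⟩ := ll5' (e := 1) (e' := 5) (Or.inr rfl) (Or.inl rfl) hD (by
    show lbl 2 _ _ mu f (c 5) = neg (lbl 2 _ _ mu f (c 1))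
    rw [L5, L1, H3DA.neg_neg])
  have d2' : lbl 2 (fun i => y (2 + 1 - i)) (fun i => x (2 + 1 - i)) mu f (c 0) =
    add (add (lbl 2 (fun i => y (2 + 1 - i)) (fun i => x (2 + 1 - i)) mu f (c 2))
      (lbl 2 (fun i => y (2 + 1 - i)) (fun i => x (2 + 1 - i)) mu f (c 3)))
      (lbl 2 (fun i => y (2 + 1 - i)) (fun i => x (2 + 1 - i)) mu f (c 4)) := d2
  rw [L0, L2, L3, L4] at d2'
  have key : ∀ a q s : Q, a = add q (neg s) → s = neg (add q a) := by decide +kernel
  exact s3 (key _ _ _ d2')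

/-- The unit 4 as a window. -/
lemma chn_four (h : Chn G R k x y) (hk : 5 ≤ k) : Chn G R 1 (fun i => x (3 + i)) (fun i => y (3 + i)) where
  pos := le_rfl
  me i h1 h2 := h.me _ (by omega) (by omega)
  lk i h1 h2 := by omega
  injx i j h1 h2 h3 h4 _ := by omega
  injy i j h1 h2 h3 h4 _ := by omega
  xy i j h1 h2 h3 h4 := h.xy _ _ (by omega) (by omega) (by omega) (by omega)

lemma inC_four {v : V} : InC 1 (fun i => x (3 + i)) (fun i => y (3 + i)) v ↔ v = x 4 ∨ v = y 4 := by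
  constructor
  · rintro ⟨i, h1, h2, h3⟩
    have hi : i = 1 := by omega
    subst hi
    exact h3
  · exact fun h => ⟨1, le_rfl, le_rfl, h⟩

/-- **W8.** -/
theorem w8 : W8Stmt := by
  intro V _ H R k x y z c hb hK hk e0 e6 hp
  obtain ⟨p, hp2, ep, hoth⟩ := hp
  have hch := chn_four hb.ch hk
  have l3 := hb.ch.lk 3 (by norm_num) (by omega)
  have l4 := hb.ch.lk 4 (by norm_num) (by omega)
  have hp6 : p ≤ 6 := by omega
  obtain ⟨f, D0, hoff, hT, hM⟩ := k5_off (r := 1) (X := fun i => x (3 + i))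
    (Y := fun i => y (3 + i)) hb hK (j0 := p) hp6 (by rw [inC_four]; exact Or.inl ep)
  have hmate : f (c 5) = neg (f (c 1)) := by
    rw [hK.c5, hK.c1]; exact hM _ _ (hb.ch.me 1 le_rfl (by omega))
  obtain ⟨b1, -⟩ := ll5' (e := 1) (e' := 5) (Or.inr rfl) (Or.inl rfl) hT hmate
  have b1' : f (x 5) = f (x 3) := by
    have : f (c 0) = f (c 6) := b1
    rwa [e0, e6] at this
  have hcyc : ¬ Lk H R ((fun i => y (3 + i)) 1) ((fun i => x (3 + i)) 1) := by
    intro hl
    have hl' : Lk H R (y 4) (x 4) := hl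
    have := hb.ch.injx _ _ (by omega) (by omega) (by omega) (by omega) (l4.unique hb.hG hl')
    omega
  have hfour : ∀ {m' : ℕ} {z' c' : ℕ → V}, Cat H R m' z' c' → cSupp m' z' ≠ cSupp 5 z →
      ∀ i j, i ≤ m' + 1 → j ≤ m' + 1 → InC 1 (fun i => x (3 + i)) (fun i => y (3 + i)) (c' i) →
      InC 1 (fun i => x (3 + i)) (fun i => y (3 + i)) (c' j) → i = j := by
    intro m' z' c' hC hne i j hi hj h1 h2
    rw [inC_four] at h1 h2
    have g1 : c' i = y 4 := by
      rcases h1 with h1 | h1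
      · exact absurd (lk_own hb.hG hK.cat hC l3.symm (i := p) hp6 hi ep h1) hne
      · exact h1
    have g2 : c' j = y 4 := by
      rcases h2 with h2 | h2
      · exact absurd (lk_own hb.hG hK.cat hC l3.symm (i := p) hp6 hj ep h2) hne
      · exact h2
    exact lk_once hb.hG hC l4 hi hj g1 g2
  obtain ⟨F, hdep, hF, hwin⟩ := win_tightE hb.hG hb.hc hK.cat (by norm_num) hch hcyc hoff
    (cSupp 5 z) (fun w a b hT hw => by
      obtain ⟨i, i1, i2, i3⟩ := hw
      exact isTwo_not_cat hK.cat i1 i2 (i3 ▸ hT))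
    (fun _ => True) (fun m' z' c' hC hne hmeet => by
      left
      refine ⟨fun i i1 i2 hi => ?_, fun h1 i j hi hj h2 h3 => ?_, fun h2 hN => ?_⟩
      · exact hne (cSupp_eq hC hK.cat (mem_cSupp i1 i2) hi)
      · subst h1
        exact hfour hC hne i j (by omega) (by omega) h2 h3
      · have hfork := ncp_forks hN
        have hh := hfour hC hne
        rcases hfork with ⟨h3 | h3, h4 | h4⟩
        · have := hh 0 m' (by omega) (by omega) h3 h4; omega
        · have := hh 0 (m' + 1) (by omega) (by omega) h3 h4; omega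
        · have := hh 1 m' (by omega) (by omega) h3 h4; omega
        · have := hh 1 (m' + 1) (by omega) (by omega) h3 h4; omega)
  set g0 : ℕ → Q := fun _ => (false, false, false) with hg0
  have d1 : ∀ g, F 1 g = F 1 g0 := fun g => hdep 1 le_rfl le_rfl g g0 (fun j _ _ => by omega)
  have hF1 : (F 1 g0).card ≤ 2 := by
    have q1 : fpE H R (cSupp 5 z) (x 4) = 0 := by
      rw [← ep]; exact fpE_own_lk hb.hG hK.cat (le_refl _) hp6 (ep ▸ l3.symm)
    have q2 : fpE H R (cSupp 5 z) (y 4) ≤ 1 := fpE_lk hb.hG l4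
    have h1 : (F 1 g0 ∪ F 1 g0).card ≤ 2 * (fpE H R (cSupp 5 z) (x 4) +
      fpE H R (cSupp 5 z) (y 4)) := hF 1 g0 g0
    rw [union_self] at h1
    omega
  -- two labels
  obtain ⟨t, t', ht, ht', hne⟩ : ∃ t t', t ∈ ball (f (x 3)) \ F 1 g0 ∧ t' ∈ ball (f (x 3)) \ F 1 g0 ∧
      t ≠ t' := by
    have e1 := Finset.le_card_sdiff (F 1 g0) (ball (f (x 3)))
    have e2 := ball_card (f (x 3))
    obtain ⟨t, ht, t', ht', hne⟩ := Finset.one_lt_card.1
      (show 1 < (ball (f (x 3)) \ F 1 g0).card by omega)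
    exact ⟨t, t', ht, ht', hne⟩
  have hy3 : f (y 3) = neg (f (x 3)) := hM _ _ (hb.ch.me 3 (by norm_num) (by omega))
  have hout : ∀ j ≤ 6, j ≠ p → ¬ InC 1 (fun i => x (3 + i)) (fun i => y (3 + i)) (c j) := by
    intro j hj hjp hin
    rw [inC_four] at hin
    rcases hin with hin | hin
    · exact (hoth j hj hjp).1 hin
    · exact (hoth j hj hjp).2 hin
  -- every label gives the same sum
  have main : ∀ t, t ∈ ball (f (x 3)) \ F 1 g0 →
      f (c 0) = add (add (if p = 2 then neg t else f (c 2)) (f (c 3))) (if p = 4 then neg t else f (c 4)) := by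
    intro t ht
    rw [mem_sdiff, mem_ball] at ht
    have L : ∀ j ≤ 6, j ≠ p → lbl 1 (fun i => x (3 + i)) (fun i => y (3 + i)) (fun _ => t) f (c j) = f (c j) :=
      fun j hj hjp => lbl_out (hout j hj hjp)
    have Lp : lbl 1 (fun i => x (3 + i)) (fun i => y (3 + i)) (fun _ => t) f (c p) = neg t := by
      rw [ep]
      exact lbl_x hch (mu := fun _ => t) (f := f) (i := 1) le_rfl le_rfl
    have fr1 := (frk_ne _ _ _ hT.1).2
    have fr5 := (frk_ne _ _ _ hT.2.2).2
    obtain ⟨D, hD⟩ := hwin (fun _ => t) (fun i i1 i2 => by omega) (fun i i1 i2 => by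
        have hi : i = 1 := by omega
        subst hi
        rw [d1]; exact ht.2) (fun i i1 i2 => by
        have hi : i = 1 := by omega
        subst hi
        unfold wall
        rw [mem_inter, mem_filter, mem_filter]
        refine ⟨⟨mem_univ _, fun _ v hv => ?_⟩, mem_univ _, fun _ v hv => ?_⟩
        · have hv' : Lk H R (x 4) v := hv
          rw [hv'.unique hb.hG l3.symm, hy3]
          show nr (neg t) (neg (f (x 3))) = true
          rw [nr_neg_neg]
          exact nr_symm ht.1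
        · have hv' : Lk H R (y 4) v := hv
          rw [hv'.unique hb.hG l4, b1']
          show nr (neg (neg t)) (f (x 3)) = true
          rw [H3DA.neg_neg]
          exact nr_symm ht.1) trivial (by
        rw [L 0 (by norm_num) (by omega), L 1 (by norm_num) (by omega)]
        exact fr1) (by
        rw [L 5 (by norm_num) (by omega), L (5 + 1) (by norm_num) (by omega)]
        exact fr5)
    obtain ⟨-, d2⟩ := ll5' (e := 1) (e' := 5) (Or.inr rfl) (Or.inl rfl) hD (by
      show lbl 1 _ _ (fun _ => t) f (c 5) = neg (lbl 1 _ _ (fun _ => t) f (c 1))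
      rw [L 5 (by norm_num) (by omega), L 1 (by norm_num) (by omega)]
      exact hmate)
    have d2' : lbl 1 (fun i => x (3 + i)) (fun i => y (3 + i)) (fun _ => t) f (c 0) =
      add (add (lbl 1 (fun i => x (3 + i)) (fun i => y (3 + i)) (fun _ => t) f (c 2))
        (lbl 1 (fun i => x (3 + i)) (fun i => y (3 + i)) (fun _ => t) f (c 3)))
        (lbl 1 (fun i => x (3 + i)) (fun i => y (3 + i)) (fun _ => t) f (c 4)) := d2
    rw [L 0 (by norm_num) (by omega), L 3 (by norm_num) (by omega)] at d2'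
    rcases hp2 with rfl | rfl
    · rw [Lp, L 4 (by norm_num) (by norm_num)] at d2'
      rw [if_pos rfl, if_neg (by norm_num)]
      exact d2'
    · rw [Lp, L 2 (by norm_num) (by norm_num)] at d2'
      rw [if_neg (by norm_num), if_pos rfl]
      exact d2'
  have m1 := (main t ht).symm.trans (main t' ht')
  apply hne
  rcases hp2 with rfl | rfl
  · rw [if_pos rfl, if_pos rfl, if_neg (by norm_num), if_neg (by norm_num)] at m1
    exact H3DA.neg_inj (CLB.H3.add_cancel1 _ _ _ _ m1)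
  · rw [if_neg (by norm_num), if_pos rfl, if_neg (by norm_num), if_pos rfl] at m1
    exact H3DA.neg_inj (CLB.H3.add_cancel _ _ _ _ m1)

end CLB.H86
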