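import Pool.Agent.Helper86_DA.M5X
import Pool.Agent.Helper3_DA.M5W

/-!
Components with five vertices, five units: the window E2.
-/

set_option autoImplicit false
set_option linter.unusedSectionVars false

namespace CLB.H86

open Finset Classical
open H3DA (Q neg nr)
open CLB.H95
open CLB.H91
open CLB.H3 (CExt Cat IsTwo Fits UPath he_of_unc cat_structure chn_side KTight exists_ktight no_cext
  Leaf cext_or ll5')

variable {V : Type*} {G : SimpleGraph V} {R : V → Bool} [Fintype V] {k r : ℕ} {x y X Y : ℕ → V}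
  {m : ℕ} {z c : ℕ → V} {f : V → Q}

/-- The first units of a chain. -/
lemma chn_res (h : Chn G R k x y) (hr1 : 1 ≤ r) (hr : r ≤ k) : Chn G R r x y where
  pos := hr1
  me i h1 h2 := h.me i h1 (by omega)
  lk i h1 h2 := h.lk i h1 (by omega)
  injx i j h1 h2 h3 h4 he := h.injx i j h1 (by omega) h3 (by omega) he
  injy i j h1 h2 h3 h4 he := h.injy i j h1 (by omega) h3 (by omega) he
  xy i j h1 h2 h3 h4 := h.xy i j h1 (by omega) h3 (by omega)

/-- The labelling outside a window, any full unit. -/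
lemma k5_offv (hb : Base G R k x y) {v : ℕ} (hK : K5 G R k x y z c v) {X Y : ℕ → V} {j0 : ℕ}
    (hj0 : j0 ≤ 6) (hin : InC r X Y (c j0)) :
    ∃ f D, OffC G R r X Y f ∧ Tight D (fun j => f (c j)) 5 ∧
      (∀ u v, Me G R u v → f v = neg (f u)) := by
  obtain ⟨f0, D0, hKT⟩ := exists_ktight hb.hG hb.hc hK.cat (by norm_num)
  obtain ⟨f, hoff, hfe⟩ := exists_offw hK.cat (by norm_num) hKT hj0 hin
  obtain ⟨g1, -, -, -⟩ := CLB.H3.fits_other hK.cat hKT.ok
  refine ⟨f, D0, hoff, ?_, fun u v huv => ?_⟩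
  · have e : ∀ j ≤ 5 + 1, f (c j) = f0 (c j) := fun j hj => hfe _ (hK.cat.cov j hj)
    obtain ⟨t1, t2, t3⟩ := hKT.tight
    refine ⟨?_, fun i i1 i2 => ?_, ?_⟩
    · show frk D0 (f (c 0)) (f (c 1)) = true
      rw [e 0 (by omega), e 1 (by omega)]; exact t1
    · show stp (altT D0 i) (neg (f (c i))) (f (c (i + 1))) = true
      rw [e i (by omega), e (i + 1) (by omega)]; exact t2 i i1 i2
    · show frk (altT D0 (5 + 1)) (f (c 5)) (f (c (5 + 1))) = true
      rw [e 5 (by omega), e (5 + 1) le_rfl]; exact t3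
  · rw [hfe v huv.symm.cov, hfe u huv.cov]
    exact g1 u v huv

lemma e2_key : ∀ s w b : Q, 3 ≤ ((ball s).filter fun t =>
    ∃ u, nr t u = true ∧ nr u w = true ∧ u ≠ b ∧ u ≠ s).card := by decide +kernel

/-- The finite part of E2. -/
lemma e2_fin {F1 F2 : Finset Q} (h1 : F1.card ≤ 4) (h2 : F2.card ≤ 2) (w a b : Q) :
    ∃ s t u, s ∉ F1 ∧ s ≠ a ∧ nr s t = true ∧ t ∉ F2 ∧ nr t u = true ∧ nr u w = true ∧ u ≠ b ∧
      u ≠ s := by
  have hu : (univ : Finset Q).card = 8 := card_univ_Q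
  obtain ⟨s, hs⟩ : ((univ \ F1) \ {a}).Nonempty := by
    rw [← Finset.card_pos]
    have e1 := Finset.le_card_sdiff F1 univ
    have e2 := Finset.le_card_sdiff {a} (univ \ F1)
    rw [card_singleton] at e2
    omega
  rw [mem_sdiff, mem_sdiff, mem_singleton] at hs
  obtain ⟨t, ht⟩ : (((ball s).filter fun t =>
      ∃ u, nr t u = true ∧ nr u w = true ∧ u ≠ b ∧ u ≠ s) \ F2).Nonempty := by
    rw [← Finset.card_pos]
    have e1 := Finset.le_card_sdiff F2 ((ball s).filter fun t =>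
      ∃ u, nr t u = true ∧ nr u w = true ∧ u ≠ b ∧ u ≠ s)
    have e2 := e2_key s w b
    omega
  rw [mem_sdiff, mem_filter, mem_ball] at ht
  obtain ⟨⟨t1, u, u1, u2, u3, u4⟩, t2⟩ := ht
  exact ⟨s, t, u, hs.1.2, hs.2, t1, t2, u1, u2, u3, u4⟩

/-- **E2.** -/
theorem e2 : E2Stmt := by
  intro V _ H R x y z c hB h5 e0 e2 o3 e4 e6
  have hcat := h5.cat
  have hG := hB.hG
  have e1 := h5.c1
  have e5 := h5.c5
  have hch := chn_res hB.ch (r := 3) (by norm_num) (by norm_num)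
  have hcyc : ¬ Lk H R (y 3) (x 1) := fun hl => hB.e1 _ hl.symm
  have l1 := hB.ch.lk 1 le_rfl (by norm_num)
  have l2 := hB.ch.lk 2 (by norm_num) (by norm_num)
  have l3 := hB.ch.lk 3 (by norm_num) (by norm_num)
  have i6 : InC 3 x y (c 6) := ⟨1, le_rfl, by norm_num, Or.inl e6⟩
  obtain ⟨f, D0, hoff, hT, hM⟩ := k5_offv (r := 3) (X := x) (Y := y) hB h5 (j0 := 6) le_rfl i6
  obtain ⟨F, hdep, hF, hwin⟩ := win_tightE hG hB.hc hcat (by norm_num) hch hcyc hoff
    (cSupp 5 z) (fun w a b hT hw => by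
      obtain ⟨i, i1, i2, i3⟩ := hw
      exact isTwo_not_cat hcat i1 i2 (i3 ▸ hT))
    (fun _ => True) (fun m' z' c' hC hne hmeet => by
      left
      obtain ⟨h1, h2⟩ := CLB.H3.clean3 hB hcat (le_refl 5) (a := 6) (b := 2) (d := 1) (by norm_num)
        (by norm_num) (by norm_num) e6 e2 e1 hC hne
      exact ⟨fun i i1 i2 hi => hne (cSupp_eq hC hcat (mem_cSupp i1 i2) hi), h1, h2⟩)
  set g0 : ℕ → Q := fun _ => (false, false, false) with hg0
  have d1 : ∀ g, F 1 g = F 1 g0 := fun g => hdep 1 le_rfl (by norm_num) g g0 (fun j _ _ => by omega)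
  have d2 : ∀ g, F 2 g = F 2 g0 := fun g => hdep 2 (by norm_num) (by norm_num) g g0
    (fun j _ _ => by omega)
  have q1 : fpE H R (cSupp 5 z) (x 1) ≤ 1 := by
    rw [← e6]; exact fpE_own_cov hG hcat (le_refl _) (by norm_num)
  have q2 : fpE H R (cSupp 5 z) (y 1) ≤ 1 := fpE_lk hG l1
  have q3 : fpE H R (cSupp 5 z) (x 2) = 0 := by
    rw [← e2]; exact fpE_own_lk hG hcat (le_refl _) (by norm_num) (e2 ▸ l1.symm)
  have q4 : fpE H R (cSupp 5 z) (y 2) ≤ 1 := fpE_lk hG l2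
  have q5 : fpE H R (cSupp 5 z) (x 3) = 0 := by
    rw [← e1]; exact fpE_own_lk hG hcat (le_refl _) (by norm_num) (e1 ▸ l2.symm)
  have q6 : fpE H R (cSupp 5 z) (y 3) = 0 := by
    rw [← e5]; exact fpE_own_lk hG hcat (le_refl _) (by norm_num) (e5 ▸ l3)
  have hF1 : (F 1 g0).card ≤ 4 := by
    have h1 := hF 1 g0 g0
    rw [union_self] at h1
    omega
  have hF2 : (F 2 g0).card ≤ 2 := by
    have h1 := hF 2 g0 g0
    rw [union_self] at h1
    omega
  have hF3 : ∀ g, F 3 g = ∅ := fun g => by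
    have h1 := hF 3 g g
    rw [union_self] at h1
    exact card_eq_zero.1 (by omega)
  obtain ⟨s, t, u, s1, s2, t1, t2, u1, u2, u3, u4⟩ := e2_fin hF1 hF2 (f (x 4)) (neg (f (y 5)))
    (f (y 5))
  set mu : ℕ → Q := fun i => if i = 1 then s else if i = 2 then t else u with hmu
  have m1 : mu 1 = s := by rw [hmu]; exact if_pos rfl
  have m2 : mu 2 = t := by rw [hmu]; rfl
  have m3 : mu 3 = u := by rw [hmu]; rfl
  have far : ∀ i, 4 ≤ i → i ≤ 5 → ¬ InC 3 x y (x i) ∧ ¬ InC 3 x y (y i) := by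
    intro i i1 i2
    obtain ⟨a, b⟩ := CLB.H3.outU_far hB.ch (n := 3) (show 3 < i by omega) i2
    refine ⟨?_, ?_⟩
    · rintro ⟨u, u1, u2, u3 | u3⟩
      · exact (a u u1 u2).1 u3
      · exact (a u u1 u2).2 u3
    · rintro ⟨u, u1, u2, u3 | u3⟩
      · exact (b u u1 u2).1 u3
      · exact (b u u1 u2).2 u3
  have L0 : lbl 3 x y mu f (c 0) = f (y 5) := by
    rw [e0]; exact lbl_out (far 5 (by norm_num) le_rfl).2
  have L1 : lbl 3 x y mu f (c 1) = neg u := by
    rw [e1, lbl_x hch (by norm_num) le_rfl, sg_odd (by norm_num), m3]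
  have L5 : lbl 3 x y mu f (c 5) = u := by
    rw [e5, lbl_y hch (by norm_num) le_rfl, sg_odd (by norm_num), m3, H3DA.neg_neg]
  have L6 : lbl 3 x y mu f (c 6) = neg s := by
    rw [e6, lbl_x hch le_rfl (by norm_num), sg_odd (by norm_num), m1]
  have hwall : ∀ i, 1 ≤ i → i ≤ 2 → ∀ t, t ∈ wall H R 3 x y f i := by
    intro i i1 i2 t
    unfold wall
    rw [mem_inter, mem_filter, mem_filter]
    refine ⟨⟨mem_univ _, fun hi v hv => ?_⟩, mem_univ _, fun hi => by omega⟩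
    exact absurd hv (hB.e1 v)
  have hw3 : u ∈ wall H R 3 x y f 3 := by
    unfold wall
    rw [mem_inter, mem_filter, mem_filter]
    refine ⟨⟨mem_univ _, fun hi => by omega⟩, mem_univ _, fun _ v hv => ?_⟩
    rw [hv.unique hG l3, sg_odd (by norm_num), H3DA.neg_neg]
    exact u2
  obtain ⟨D, hD⟩ := hwin mu (fun i i1 i2 => by
      have hi : i = 1 ∨ i = 2 := by omega
      rcases hi with rfl | rfl
      · rw [m1, m2]; exact t1
      · rw [m2, m3]; exact u1) (fun i i1 i2 => by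
      have hi : i = 1 ∨ i = 2 ∨ i = 3 := by omega
      rcases hi with rfl | rfl | rfl
      · rw [d1, m1]; exact s1
      · rw [d2, m2]; exact t2
      · rw [hF3]; simp) (fun i i1 i2 => by
      have hi : i = 1 ∨ i = 2 ∨ i = 3 := by omega
      rcases hi with rfl | rfl | rfl
      · exact hwall 1 le_rfl (by norm_num) _
      · exact hwall 2 (by norm_num) le_rfl _
      · rw [m3]; exact hw3) trivial (by
      rw [L0, L1, H3DA.neg_neg]; exact fun e => u3 e.symm) (by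
      rw [L5]
      show u ≠ neg (lbl 3 x y mu f (c 6))
      rw [L6, H3DA.neg_neg]; exact u4)
  obtain ⟨d3, -⟩ := ll5' (e := 1) (e' := 5) (Or.inr rfl) (Or.inl rfl) hD (by
    show lbl 3 x y mu f (c 5) = neg (lbl 3 x y mu f (c 1))
    rw [L5, L1, H3DA.neg_neg])
  have d4 : lbl 3 x y mu f (c 0) = lbl 3 x y mu f (c 6) := d3
  rw [L0, L6] at d4
  apply s2
  rw [d4, H3DA.neg_neg]

end CLB.H86
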