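import Pool.Agent.Helper95_CLB.OnlWalk

/-!
Closed chains: statements about closed walks of labels through history dependent lists (pure label part).
-/

set_option autoImplicit false
set_option linter.unusedSectionVars false

namespace CLB.H86

open Finset Classical
open H3DA (Q neg nr)
open CLB.H95

/-- The list of unit `i` depends on the labels below `i` only. -/
def DepF (F : ℕ → (ℕ → Q) → Finset Q) : Prop := ∀ i h h', Same i h h' → F i h = F i h'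

/-- A closed walk through history dependent lists. -/
structure CW (F : ℕ → (ℕ → Q) → Finset Q) (k : ℕ) (mu : ℕ → Q) : Prop where
  mem : ∀ i, 1 ≤ i → i ≤ k → mu i ∈ F i mu
  walk : ∀ i, 1 ≤ i → i < k → nr (mu i) (mu (i + 1)) = true
  cyc : nr (mu k) (mu 1) = true

/-- Module W1a. -/
def Ct1H : Prop := ∀ (F : ℕ → (ℕ → Q) → Finset Q) (k : ℕ), 4 ≤ k → DepF F →
  (∀ h, 6 ≤ (F 1 h).card) → (∀ h, 4 ≤ (F 2 h).card) → (∀ h h', F 2 h = F 2 h') →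
  (∀ i, 3 ≤ i → i + 2 ≤ k → ∀ h h', 4 ≤ (F i h ∩ F i h').card) →
  (∀ h h', 6 ≤ (F (k - 1) h ∩ F (k - 1) h').card) →
  (∀ h, 4 ≤ (F k h).card) → (∀ h h', F k h = F k h') →
  ∃ mu, CW F k mu ∧ mu (k - 1) ≠ mu 1

/-- Module W1b. -/
def Ct2H : Prop := ∀ (F : ℕ → (ℕ → Q) → Finset Q) (k : ℕ), 6 ≤ k → DepF F →
  (∀ h, 5 ≤ (F 1 h).card) → (∀ h, 4 ≤ (F 2 h).card) → (∀ h h', F 2 h = F 2 h') →
  (∀ i, 3 ≤ i → i + 3 ≤ k → ∀ h h', 4 ≤ (F i h ∩ F i h').card) →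
  (∀ h h', 6 ≤ (F (k - 2) h ∩ F (k - 2) h').card) →
  (∀ h h', 6 ≤ (F (k - 1) h ∩ F (k - 1) h').card) →
  (∀ h, 6 ≤ (F k h).card) → (∀ h h', F k h = F k h') →
  ∃ mu, CW F k mu ∧ mu (k - 1) ≠ mu 1 ∧ mu k ≠ mu (k - 2)

/-- Module W2a: four lists with six labels. -/
def FsH : Prop := ∀ A1 A2 A3 A4 : Finset Q, 6 ≤ A1.card → 6 ≤ A2.card → 6 ≤ A3.card → 6 ≤ A4.card →
  ∃ t1 ∈ A1, ∃ t2 ∈ A2, ∃ t3 ∈ A3, ∃ t4 ∈ A4, nr t1 t2 = true ∧ nr t2 t3 = true ∧ nr t3 t4 = true ∧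
    nr t4 t1 = true ∧ t1 ≠ t3 ∧ t2 ≠ t4

/-- Module W2b: one history, no crossing. -/
def ShH : Prop := ∀ (A1 A2 A4 : Finset Q) (F : Q → Q → Finset Q), 5 ≤ A1.card → 5 ≤ A2.card →
  4 ≤ A4.card → (∀ a b, 7 ≤ (F a b).card) →
  ∃ t1 ∈ A1, ∃ t2 ∈ A2, ∃ t3 ∈ F t1 t2, ∃ t4 ∈ A4, nr t1 t2 = true ∧ nr t2 t3 = true ∧
    nr t3 t4 = true ∧ nr t4 t1 = true ∧ t1 ≠ t3

/-- Module W2c: one history, crossing. -/
def ShxH : Prop := ∀ (A1 A2 A4 : Finset Q) (F : Q → Q → Finset Q), 5 ≤ A1.card → 7 ≤ A2.card →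
  6 ≤ A4.card → (∀ a b, 7 ≤ (F a b).card) →
  ∃ t1 ∈ A1, ∃ t2 ∈ A2, ∃ t3 ∈ F t1 t2, ∃ t4 ∈ A4, nr t1 t2 = true ∧ nr t2 t3 = true ∧
    nr t3 t4 = true ∧ nr t4 t1 = true ∧ t1 ≠ t3 ∧ t2 ≠ t4

/-- Module W2d: the label `t3` avoids a ball. -/
def ShqH : Prop := ∀ (A1 A2 A3 A4 : Finset Q) (q : Q), 6 ≤ A1.card → 7 ≤ A2.card → 6 ≤ A3.card →
  4 ≤ A4.card →
  ∃ t1 ∈ A1, ∃ t2 ∈ A2, ∃ t3 ∈ A3, ∃ t4 ∈ A4, nr t1 t2 = true ∧ nr t2 t3 = true ∧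
    nr t3 t4 = true ∧ nr t4 t1 = true ∧ t1 ≠ t3 ∧ nr q t3 = false

/-- Module W3a: two values. -/
def TvH : Prop := ∀ (q q' w w' : Q) (b1 b2 b3 b4 : Bool), ∃ v : Bool → Q,
  nr (v false) (v true) = true ∧ v false ≠ v true ∧
  ¬ (nr q (v b1) = true ∧ nr q (v (!b1)) = false) ∧
  ¬ (nr q' (v b2) = true ∧ nr q' (v (!b2)) = false) ∧ v b3 ≠ w ∧ v b4 ≠ w'

/-- Module W3b: colouring of the conflicts `i, i + 2` on the even cycle. -/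
def ColH : Prop := ∀ (k : ℕ) (L : ℤ → Prop), 4 ≤ k → k % 2 = 0 → (∀ i, L (i + k) ↔ L i) →
  (k % 4 = 0 ∨ ∀ p : ℤ, ∃ j, j % 2 = p % 2 ∧ ¬ L j) →
  ∃ χ : ℤ → Bool, (∀ i, χ (i + k) = χ i) ∧ ∀ i, L i → χ i ≠ χ (i + 2)

/-- Module W3c: all conflicts at once. -/
def AllH : Prop := ∀ k : ℕ, 4 ≤ k → k % 2 = 0 → ∃ mu : ℕ → Q, (∀ i, mu (i + k) = mu i) ∧
  (∀ i, nr (mu i) (mu (i + 1)) = true) ∧ ∀ i, mu i ≠ mu (i + 2)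

end CLB.H86
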