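import Pool.Agent.Helper95_CLB.StaN
import Pool.Agent.Helper86_DA.GmAll

/-!
The status X2: a window of five units at the left end.
-/

set_option autoImplicit false
set_option linter.unusedSectionVars false

namespace CLB.H86

open H3DA (Q neg nr)
open Finset Classical
open CLB.H95
open CLB.H3 (CExt Cat IsTwo Fits UPath he_of_unc cat_structure chn_side KTight exists_ktight no_cext
  Leaf cext_or pc pc_pos pc_le pc_lk pc_cov pc_two pc_one cat_side_z)

variable {V : Type*} {G : SimpleGraph V} {R : V → Bool} [Fintype V] {k r : ℕ} {x y X Y : ℕ → V}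
  {m : ℕ} {z c : ℕ → V} {f : V → Q}

/-- The units of the code. -/
lemma g59_u : (Gm.g59.u 1 = ⟨4, true, false, false, true⟩ ∧ Gm.g59.u 2 = ⟨6, true, false, false, false⟩) ∧
    (Gm.g59.u 3 = ⟨5, true, true, false, false⟩ ∧ Gm.g59.u 4 = ⟨5, true, true, false, false⟩) ∧
    Gm.g59.u 5 = ⟨6, true, false, false, false⟩ ∧ Gm.g59.r = 5 ∧ Gm.g59.cp = false :=
  ⟨⟨rfl, rfl⟩, ⟨rfl, rfl⟩, rfl, rfl, rfl⟩

/-- **The status X2.** -/
theorem x2_five (hG : ClassC G R) (hc : Crit G R) (hcat : Cat G R m z c) (hm : 6 ≤ m)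
    (h : Chn G R k x y) (hend : ∀ w, ¬ Lk G R (x 1) w) (hk : 7 ≤ k)
    (hL : ∀ i, 1 ≤ i → i ≤ 4 → pc m c (x i) = 1 ∧ pc m c (y i) = 0) (h5 : pc m c (x 5) = 1)
    (hb : ∃ a a' b b', ((a = 0 ∧ a' = 1) ∨ (a = 1 ∧ a' = 0)) ∧
      ((b = m ∧ b' = m + 1) ∨ (b = m + 1 ∧ b' = m)) ∧
      ((c a = x 3 ∧ c b = x 4) ∨ (c a = x 4 ∧ c b = x 3)) ∧ ¬ InC 5 x y (c a') ∧ ¬ InC 5 x y (c b'))
    (hE : EndClean G R 5 x y m z) : False := by
  obtain ⟨a, a', b, b', ha, hb, hab, oa, ob⟩ := hb
  have hch : Chn G R 5 x y := h.take (by norm_num) (by omega)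
  have hpx : ∀ i, 1 ≤ i → i ≤ 5 → pc m c (x i) = 1 := by
    intro i i1 i2
    by_cases hi : i ≤ 4
    · exact (hL i i1 hi).1
    · have : i = 5 := by omega
      subst this; exact h5
  -- the ports at `x i`
  have hsee : ∀ i, 1 ≤ i → i ≤ 5 → ∃ j ≤ m + 1, c j = x i := fun i i1 i2 =>
    pc_pos.1 (by rw [hpx i i1 i2])
  obtain ⟨f, D, w⟩ := wb_open hG hc hcat (by omega) h hend (r := 5) (by norm_num) (by omega)
    (by obtain ⟨j, j1, j2⟩ := hsee 1 le_rfl (by norm_num)
        exact ⟨j, j1, by rw [j2]; exact InC.x le_rfl (by norm_num)⟩)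
  -- clean
  have hno2 : ∀ {m' : ℕ} {z' c' : ℕ → V}, Cat G R m' z' c' → cSupp m' z' ≠ cSupp m z →
      ¬ ∃ j ≤ m' + 1, c' j = x 2 := by
    rintro m' z' c' hC hne ⟨j, j1, j2⟩
    obtain ⟨i, i1, i2⟩ := hsee 2 (by norm_num) (by norm_num)
    exact hne (supp_x2 hG hch (by norm_num) hC hcat j1 i1 j2 i2)
  have hcl : CleanC G R 5 x y m z := by
    intro m' z' c' hC hne hex
    obtain ⟨e1, e2⟩ := hE m' z' c' hC hne hex
    refine ⟨e1, fun hm2 => ?_⟩
    rcases e2 hm2 with h1 | ⟨_, h1⟩ | ⟨_, h1⟩ | ⟨h1, _⟩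
    · exact Or.inr h1
    · exact absurd h1.x2 (hno2 hC hne)
    · exact absurd h1.x2 (hno2 hC hne)
    · omega
  have hncp : ¬ HasCpl G R 5 x y m z := by
    rintro ⟨m', z', c', hC, hne, h1⟩
    exact hno2 hC hne h1.x2
  obtain ⟨P, hP⟩ := ekill_clean hG hch w.off hcl false
  obtain ⟨Φ, hcst, hT0⟩ := w.base false (bd := fun _ _ => 2) (E := fun _ => True)
    (fun _ _ _ _ => by norm_num) (fun m' z' c' h1 h2 h3 => by
      obtain ⟨φ, hφ⟩ := hP m' z' c' h1 h2 h3
      exact ⟨φ, hφ.bd, hφ.late, fun f' e1 e2 e3 _ => hφ.ok f' e1 e2 e3 (fun _ g => absurd g hncp)⟩)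
  have hcst' : ∀ v, cst G R Φ v ≤ 2 * chg G R 5 x y m z false v := by
    intro v
    rw [← chb_two]; exact hcst v
  obtain ⟨b0, hb1, hb2⟩ := w.last hend ⟨_, h.lk 5 (by norm_num) (by omega)⟩ Φ
  -- vertices at `x i`, `2 ≤ i`, are vertices of the caterpillar
  have hown : ∀ i, 2 ≤ i → i ≤ 5 → ∀ w v, ¬ Cov G R w → G.Adj w (x i) → G.Adj w v → InC 5 x y v →
      v = x i := by
    intro i i1 i2 w v hw hwx hwv hv
    by_contra hne
    obtain ⟨j, j1, j2⟩ := hsee i (by omega) i2
    have h4 := cl_mem hcat.pos j1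
    have b1 : z (cl m j) ∈ prt G R (x i) := by
      rw [mem_prt, ← j2]; exact ⟨cat_adj_cl hcat j1, hcat.unc _ h4.1 h4.2⟩
    have b2 : w ∈ prt G R (x i) := by rw [mem_prt]; exact ⟨hwx.symm, hw⟩
    have hl : Lk G R (x i) (y (i - 1)) := by
      have := h.lk (i - 1) (by omega) (by omega)
      rw [show i - 1 + 1 = i by omega] at this
      exact this.symm
    have hwz : w = z (cl m j) := Finset.card_le_one.1 (prt_card_lk hG hl) _ b2 _ b1
    rw [hwz] at hwv
    obtain ⟨j', j1', j2', j3'⟩ := cat_port hcat h4.1 h4.2 hwv (hch.cov hv)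
    have hjj : j' ≠ j := fun e => hne (by rw [← j2', e, j2])
    have hin' : InC 5 x y (c j') := by rw [j2']; exact hv
    have hin : InC 5 x y (c j) := by rw [j2]; exact InC.x (by omega) i2
    have na : j ≠ a' ∧ j' ≠ a' := ⟨fun e => oa (e ▸ hin), fun e => oa (e ▸ hin')⟩
    have nb : j ≠ b' ∧ j' ≠ b' := ⟨fun e => ob (e ▸ hin), fun e => ob (e ▸ hin')⟩
    unfold cl at j3'
    split_ifs at j3' <;> omega
  -- the far relations
  set P1 : Prop := ∃ w, ¬ Cov G R w ∧ G.Adj w (x 1) ∧ G.Adj w (y 5) with hP1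
  set P2 : Prop := ∃ w, ¬ Cov G R w ∧ G.Adj w (y 1) ∧ G.Adj w (y 5) with hP2
  have hP12 : P1 → P2 → False := by
    rintro ⟨w1, a1, a2, a3⟩ ⟨w2, b1, b2, b3⟩
    have e1 : w1 ∈ prt G R (y 5) := by rw [mem_prt]; exact ⟨a3.symm, a1⟩
    have e2 : w2 ∈ prt G R (y 5) := by rw [mem_prt]; exact ⟨b3.symm, b1⟩
    have e3 : w1 = w2 := Finset.card_le_one.1
      (prt_card_lk hG (h.lk 5 (by norm_num) (by omega))) _ e1 _ e2
    subst e3
    have := idx_ne hG hch (InC.x le_rfl (by norm_num)) (InC.y le_rfl (by norm_num))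
      (h.xy 1 1 le_rfl (by omega) le_rfl (by omega)) a2 b2
    rw [idx_x hch le_rfl (by norm_num), idx_y hch le_rfl (by norm_num)] at this
    exact this rfl
  -- a vertex at `y 5` and at unit 1 is foreign
  have hfor : ∀ w v, ¬ Cov G R w → G.Adj w v → G.Adj w (y 5) → InU x y 1 v → w ∉ cSupp m z := by
    rintro w v hw hv hw5 hu ⟨i, i1, i2, rfl⟩
    have c5 := hch.cov (InC.y (x := x) (y := y) (i := 5) (by norm_num) le_rfl)
    have cv := hch.cov (hu.inC le_rfl (by norm_num))
    obtain ⟨j, j1, j2, j3⟩ := cat_port hcat i1 i2 hv cv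
    obtain ⟨j', j1', j2', j3'⟩ := cat_port hcat i1 i2 hw5 c5
    have hin : InC 5 x y (c j) := by rw [j2]; exact hu.inC le_rfl (by norm_num)
    have hin' : InC 5 x y (c j') := by rw [j2']; exact InC.y (by norm_num) le_rfl
    have hne : v ≠ y 5 := by
      rintro rfl
      rcases hu with e | e
      · exact h.xy 1 5 le_rfl (by omega) (by norm_num) (by omega) e.symm
      · have := h.injy 5 1 (by norm_num) (by omega) le_rfl (by omega) e; omega
    have hjj : j ≠ j' := fun e => hne (by rw [← j2, e, j2'])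
    have na : j ≠ a' ∧ j' ≠ a' := ⟨fun e => oa (e ▸ hin), fun e => oa (e ▸ hin')⟩
    have nb : j ≠ b' ∧ j' ≠ b' := ⟨fun e => ob (e ▸ hin), fun e => ob (e ▸ hin')⟩
    have hcl' := j3.trans j3'.symm
    unfold cl at hcl'
    split_ifs at hcl' <;> omega
  -- sizes
  have cx := fun i (i1 : 1 ≤ i) (i2 : i ≤ 5) => cap_x hG hcat h (i := i) i1 (by omega)
  have cy := fun i (i1 : 1 ≤ i) (i2 : i ≤ 5) => cap_y hG hcat h (i := i) i1 (by omega)
  have gx := fun i => chg_le_fp (G := G) (R := R) (r := 5) (X := x) (Y := y) (m := m) (z := z)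
    false (x i)
  have gy := fun i => chg_le_fp (G := G) (R := R) (r := 5) (X := x) (Y := y) (m := m) (z := z)
    false (y i)
  have hcn : ∀ i, 1 ≤ i → i ≤ 5 → (i ≠ 3 → i ≠ 4 → cnf 5 x y m c i = 0) ∧ cnf 5 x y m c i ≤ 1 := by
    intro i i1 i2
    have key : ∀ p q : ℕ, ∀ u, 1 ≤ u → u ≤ 5 → c p = x u → ¬ InC 5 x y (c q) →
        cn1 5 x y i (c p) (c q) ≤ (if i = u then 1 else 0) ∧ cn1 5 x y i (c q) (c p) = 0 := by
      intro p q u u1 u2 e1 e2
      constructor
      · unfold cn1
        by_cases hi : i = u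
        · rw [if_pos hi]; split_ifs <;> omega
        · rw [if_neg hi, if_neg]
          rintro ⟨e3, -⟩
          have := InU.idx hch i1 i2 e3
          rw [e1, idx_x hch u1 u2] at this
          exact hi this.symm
      · unfold cn1
        rw [if_neg]
        rintro ⟨e3, -⟩
        exact e2 (e3.inC i1 i2)
    have tot : ∀ u v, 1 ≤ u → u ≤ 5 → 1 ≤ v → v ≤ 5 → c a = x u → c b = x v →
        cnf 5 x y m c i ≤ (if i = u then 1 else 0) + (if i = v then 1 else 0) := by
      intro u v u1 u2 v1 v2 e1 e2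
      obtain ⟨k1, k2⟩ := key a a' u u1 u2 e1 oa
      obtain ⟨k3, k4⟩ := key b b' v v1 v2 e2 ob
      unfold cnf
      rcases ha with ⟨rfl, rfl⟩ | ⟨rfl, rfl⟩ <;> rcases hb with ⟨rfl, rfl⟩ | ⟨rfl, rfl⟩ <;> omega
    rcases hab with ⟨e1, e2⟩ | ⟨e1, e2⟩
    · have := tot 3 4 (by norm_num) (by norm_num) (by norm_num) (by norm_num) e1 e2
      refine ⟨fun n3 n4 => ?_, ?_⟩
      · rw [if_neg n3, if_neg n4] at this; omega
      · split_ifs at this <;> omega
    · have := tot 4 3 (by norm_num) (by norm_num) (by norm_num) (by norm_num) e1 e2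
      refine ⟨fun n3 n4 => ?_, ?_⟩
      · rw [if_neg n3, if_neg n4] at this; omega
      · split_ifs at this <;> omega
  have wc := fun i (hi : i ≠ 5) => WB.card (m := m) (c := c) (f := f) (X := x) (Y := y) hend Φ
    (i := i) (r := 5) hi
  -- the list of the last unit
  have s5 : 2 ≤ (wls G R 5 x y m c f Φ 5).card := by
    have e1 := cx 5 (by norm_num) le_rfl
    have e2 := cy 5 (by norm_num) le_rfl
    rw [if_neg (by norm_num)] at e1
    have e3 := hcst' (x 5)
    have e4 := hcst' (y 5)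
    have e5 := gx 5
    have e6 := gy 5
    have e7 := (hcn 5 (by norm_num) le_rfl).1 (by norm_num) (by norm_num)
    have e8 : min (cnf 5 x y m c 5) 1 ≤ cnf 5 x y m c 5 := min_le_left _ _
    omega
  obtain ⟨A5, hA5, hA5c⟩ := Finset.exists_subset_card_eq s5
  -- the list of the first unit
  set A1 : Finset Q := (wls G R 5 x y m c f Φ 1).filter (fun t => (P1 → t ∉ A5) ∧ (P2 → neg t ∉ A5))
    with hA1
  have s1 : 4 ≤ A1.card := by
    have e0 := wc 1 (by norm_num)
    have e1 := cx 1 le_rfl (by norm_num)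
    have e2 := cy 1 le_rfl (by norm_num)
    rw [if_pos rfl] at e1
    have e3 := hcst' (x 1)
    have e4 := hcst' (y 1)
    have e5 := gx 1
    have e6 := gy 1
    have e7 := (hcn 1 le_rfl (by norm_num)).1 (by norm_num) (by norm_num)
    have e8 := hpx 1 le_rfl (by norm_num)
    have sub : ∀ T : Finset Q, T.card ≤ 2 →
        (∀ t, t ∉ T → (P1 → t ∉ A5) ∧ (P2 → neg t ∉ A5)) →
        (wls G R 5 x y m c f Φ 1).card ≤ A1.card + 2 := by
      intro T hT hT'
      have k1 : wls G R 5 x y m c f Φ 1 \ T ⊆ A1 := by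
        intro t ht
        rw [mem_sdiff] at ht
        rw [hA1, mem_filter]
        exact ⟨ht.1, hT' t ht.2⟩
      have k2 := Finset.card_le_card k1
      have k3 := Finset.le_card_sdiff T (wls G R 5 x y m c f Φ 1)
      omega
    by_cases p1 : P1
    · have p2 : ¬ P2 := fun p2 => hP12 p1 p2
      have k1 := sub A5 (by omega) (fun t ht => ⟨fun _ => ht, fun p => absurd p p2⟩)
      obtain ⟨w1, a1, a2, a3⟩ := p1
      have hl : LateAt G R 5 x y false (x 1) w1 := by
        refine ⟨y 5, a1, a2, a3, h.xy 1 5 le_rfl (by omega) (by norm_num) (by omega),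
          InC.x le_rfl (by norm_num), InC.y (by norm_num) le_rfl, ?_⟩
        rw [idx_x hch le_rfl (by norm_num), idx_y hch (by norm_num) le_rfl]
        unfold ltO
        rw [if_neg (by simp)]
        norm_num
      have k2 := chg_late (m := m) (z := z) (show w1 ∈ prt G R (x 1) by
        rw [mem_prt]; exact ⟨a2.symm, a1⟩) (hfor w1 _ a1 a2 a3 (Or.inl rfl)) hl
      omega
    · by_cases p2 : P2
      · have k1 := sub (A5.image neg) (by rw [← hA5c]; exact Finset.card_image_le)
          (fun t ht => ⟨fun p => absurd p p1, fun _ hn => ht (by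
            rw [mem_image]; exact ⟨neg t, hn, H3DA.neg_neg t⟩)⟩)
        obtain ⟨w1, a1, a2, a3⟩ := p2
        have hl : LateAt G R 5 x y false (y 1) w1 := by
          refine ⟨y 5, a1, a2, a3, fun e => ?_, InC.y le_rfl (by norm_num),
            InC.y (by norm_num) le_rfl, ?_⟩
          · have := h.injy 1 5 le_rfl (by omega) (by norm_num) (by omega) e; omega
          · rw [idx_y hch le_rfl (by norm_num), idx_y hch (by norm_num) le_rfl]
            unfold ltO
            rw [if_neg (by simp)]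
            norm_num
        have k2 := chg_late (m := m) (z := z) (show w1 ∈ prt G R (y 1) by
          rw [mem_prt]; exact ⟨a2.symm, a1⟩) (hfor w1 _ a1 a2 a3 (Or.inr rfl)) hl
        omega
      · have : A1 = wls G R 5 x y m c f Φ 1 := by
          rw [hA1]
          refine Finset.filter_true_of_mem (fun t _ => ⟨fun p => absurd p p1, fun p => absurd p p2⟩)
        rw [this]
        omega
  -- the lists
  set A : ℕ → Finset Q := fun i => if i = 1 then A1 else if i = 5 then A5 else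
    wls G R 5 x y m c f Φ i with hA
  have hAw : ∀ i, A i ⊆ wls G R 5 x y m c f Φ i := by
    intro i
    rw [hA]
    dsimp only
    split_ifs with h1 h2
    · subst h1; rw [hA1]; exact Finset.filter_subset _ _
    · subst h2; exact hA5
    · exact Finset.Subset.refl _
  have hAm : ∀ i, i ≠ 1 → i ≠ 5 → A i = wls G R 5 x y m c f Φ i := by
    intro i h1 h2
    rw [hA]
    dsimp only
    rw [if_neg h1, if_neg h2]
  obtain ⟨⟨u1, u2⟩, ⟨u3, u4⟩, u5, ur, ucp⟩ := g59_u
  -- valid walks are tight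
  have hT : ∀ mu, VW Gm.g59 A P mu → ∃ D', Tight D' (fun j => lbl 5 x y mu f (c j)) m := by
    intro mu hmu
    have hnw : Nwk 5 mu := ur ▸ hmu.nwk
    have h13 : mu 1 ≠ mu 3 := hmu.rel 1 le_rfl (by rw [ur]; norm_num) (by rw [u1])
    have m1 : mu 1 ∈ A1 := by
      have := hmu.mem 1 le_rfl (by rw [ur]; norm_num)
      rwa [hA] at this
    have m5 : mu 5 ∈ A5 := by
      have := hmu.mem 5 (by norm_num) (by rw [ur])
      rwa [hA] at this
    rw [hA1, mem_filter] at m1
    refine hT0 mu hnw (fun i i1 i2 => hAw i (hmu.mem i i1 (by rw [ur]; exact i2))) ?_ trivial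
    -- the pairs
    have lx1 : lbl 5 x y mu f (x 1) = neg (mu 1) := by
      rw [lbl_x hch le_rfl (by norm_num), sg_odd (by norm_num)]
    have ly1 : lbl 5 x y mu f (y 1) = mu 1 := by
      rw [lbl_y hch le_rfl (by norm_num), sg_odd (by norm_num), H3DA.neg_neg]
    have ly2 : lbl 5 x y mu f (y 2) = neg (mu 2) := by
      rw [lbl_y hch (by norm_num) (by norm_num), sg_even (by norm_num)]
    have ly3 : lbl 5 x y mu f (y 3) = mu 3 := by
      rw [lbl_y hch (by norm_num) (by norm_num), sg_odd (by norm_num), H3DA.neg_neg]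
    have ly4 : lbl 5 x y mu f (y 4) = neg (mu 4) := by
      rw [lbl_y hch (by norm_num) (by norm_num), sg_even (by norm_num)]
    have ly5 : lbl 5 x y mu f (y 5) = mu 5 := by
      rw [lbl_y hch (by norm_num) (by norm_num), sg_odd (by norm_num), H3DA.neg_neg]
    have near : ∀ i, 1 ≤ i → i + 2 ≤ 5 → mu i ≠ neg (mu (i + 2)) := fun i i1 i2 =>
      near_two (hnw i i1 (by omega)) (hnw (i + 1) (by omega) (by omega))
    have key : ∀ w a b, ¬ Cov G R w → R a = R b → a ≠ b → G.Adj w a → G.Adj w b → InC 5 x y a →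
        InC 5 x y b → idx 5 x y a < idx 5 x y b → lbl 5 x y mu f a ≠ neg (lbl 5 x y mu f b) := by
      intro w a b hw hR hne ha hb hia hib hlt
      have hpar := idx_parity hch hia hib hR
      obtain ⟨a1, a2, a3⟩ := idx_spec hia
      obtain ⟨b1, b2, b3⟩ := idx_spec hib
      have hb' : b = y (idx 5 x y b) := by
        rcases b3 with b3 | b3
        · exfalso
          have hb'' := hb
          rw [b3] at hb''
          have := hown _ (by omega) b2 w a hw hb'' ha hia
          exact hne (this.trans b3.symm)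
        · exact b3
      have ha' : a = y (idx 5 x y a) ∨ (idx 5 x y a = 1 ∧ a = x 1) := by
        rcases a3 with a3 | a3
        · by_cases h1 : idx 5 x y a = 1
          · right
            rw [h1] at a3
            exact ⟨h1, a3⟩
          · exfalso
            have ha'' := ha
            rw [a3] at ha''
            have := hown _ (by omega) a2 w b hw ha'' hb hib
            exact hne (a3.trans this.symm)
        · exact Or.inl a3
      set p := idx 5 x y a with hp
      set q := idx 5 x y b with hq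
      rw [hb']
      rcases ha' with ha' | ⟨hp1, ha'⟩
      · rw [ha']
        have hpq : (p = 1 ∧ q = 3) ∨ (p = 2 ∧ q = 4) ∨ (p = 3 ∧ q = 5) ∨ (p = 1 ∧ q = 5) := by omega
        rcases hpq with ⟨e1, e2⟩ | ⟨e1, e2⟩ | ⟨e1, e2⟩ | ⟨e1, e2⟩
        · rw [e1, e2, ly1, ly3]; exact near 1 le_rfl (by norm_num)
        · rw [e1, e2, ly2, ly4]
          intro he
          exact near 2 (by norm_num) (by norm_num) (H3DA.neg_inj he)
        · rw [e1, e2, ly3, ly5]; exact near 3 (by norm_num) (by norm_num)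
        · rw [e1, e2, ly1, ly5]
          have hp2 : P2 := by
            refine ⟨w, hw, ?_, ?_⟩
            · rw [ha', e1] at ha; exact ha
            · rw [hb', e2] at hb; exact hb
          intro he
          apply m1.2.2 hp2
          rw [he, H3DA.neg_neg]; exact m5
      · rw [ha']
        have hpq : q = 3 ∨ q = 5 := by omega
        rcases hpq with e2 | e2
        · rw [e2, lx1, ly3]
          intro he
          exact h13 (H3DA.neg_inj he)
        · rw [e2, lx1, ly5]
          have hp1 : P1 := by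
            refine ⟨w, hw, ?_, ?_⟩
            · rw [ha'] at ha; exact ha
            · rw [hb', e2] at hb; exact hb
          intro he
          apply m1.2.1 hp1
          rw [H3DA.neg_inj he]; exact m5
    intro w a b hw ha hb hne hia hib
    have hRab : R a = R b := by
      have e1 := (he_of_unc hw ha).2
      have e2 := (he_of_unc hw hb).2
      revert e1 e2
      cases R w <;> cases R a <;> cases R b <;> simp
    rcases Nat.lt_trichotomy (idx 5 x y a) (idx 5 x y b) with h1 | h1 | h1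
    · exact key w a b hw hRab hne ha hb hia hib h1
    · exact absurd h1 (idx_ne hG hch hia hib hne ha hb)
    · exact H3DA.ne_neg_symm (key w b a hw hRab.symm (Ne.symm hne) hb ha hib hia h1)
  -- units of the leaves
  have hleaf : (∀ i, 1 ≤ i → i ≤ 5 → (InU x y i (c 0) ∨ InU x y i (c 1)) →
      c a = x i) ∧ ∀ i, 1 ≤ i → i ≤ 5 → (InU x y i (c m) ∨ InU x y i (c (m + 1))) → c b = x i := by
    have hx : ∀ p u, 1 ≤ u → u ≤ 5 → c p = x u → ∀ i, 1 ≤ i → i ≤ 5 → InU x y i (c p) → c p = x i := by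
      intro p u v1 v2 e1 i i1 i2 e2
      have := InU.idx hch i1 i2 e2
      rw [e1, idx_x hch v1 v2] at this
      rw [e1, this]
    have hxa : ∃ u, 1 ≤ u ∧ u ≤ 5 ∧ c a = x u := by
      rcases hab with ⟨e1, _⟩ | ⟨e1, _⟩
      · exact ⟨3, by norm_num, by norm_num, e1⟩
      · exact ⟨4, by norm_num, by norm_num, e1⟩
    have hxb : ∃ u, 1 ≤ u ∧ u ≤ 5 ∧ c b = x u := by
      rcases hab with ⟨_, e1⟩ | ⟨_, e1⟩
      · exact ⟨4, by norm_num, by norm_num, e1⟩
      · exact ⟨3, by norm_num, by norm_num, e1⟩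
    obtain ⟨ua, a1, a2, a3⟩ := hxa
    obtain ⟨ub, b1, b2, b3⟩ := hxb
    constructor
    · intro i i1 i2 hu
      have : InU x y i (c a) ∨ InU x y i (c a') := by
        rcases ha with ⟨rfl, rfl⟩ | ⟨rfl, rfl⟩
        · exact hu
        · exact hu.symm
      rcases this with e | e
      · exact hx a ua a1 a2 a3 i i1 i2 e
      · exact absurd (e.inC i1 i2) oa
    · intro i i1 i2 hu
      have : InU x y i (c b) ∨ InU x y i (c b') := by
        rcases hb with ⟨rfl, rfl⟩ | ⟨rfl, rfl⟩
        · exact hu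
        · exact hu.symm
      rcases this with e | e
      · exact hx b ub b1 b2 b3 i i1 i2 e
      · exact absurd (e.inC i1 i2) ob
  have hLL : ∀ i, 1 ≤ i → i ≤ 5 → ¬ ((InU x y i (c 0) ∨ InU x y i (c 1)) ∧
      (InU x y i (c m) ∨ InU x y i (c (m + 1)))) := by
    rintro i i1 i2 ⟨g1, g2⟩
    have e1 := hleaf.1 i i1 i2 g1
    have e2 := hleaf.2 i i1 i2 g2
    have e3 : c a ≠ c b := by
      rcases hab with ⟨k1, k2⟩ | ⟨k1, k2⟩
      · rw [k1, k2]; intro e
        have := h.injx 3 4 (by norm_num) (by omega) (by norm_num) (by omega) e; omega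
      · rw [k1, k2]; intro e
        have := h.injx 4 3 (by norm_num) (by omega) (by norm_num) (by omega) e; omega
    exact e3 (e1.trans e2.symm)
  have hlf : ∀ i, 1 ≤ i → i ≤ 5 → (Gm.g59.u i).ph = lfp x y m c i := by
    have hxor : ∀ i, 1 ≤ i → i ≤ 5 → lfp x y m c i = xor (ind x y (c a) i) (ind x y (c b) i) := by
      intro i i1 i2
      have na : ind x y (c a') i = false := by
        unfold ind; rw [decide_eq_false_iff_not]; exact fun e => oa (e.inC i1 i2)
      have nb : ind x y (c b') i = false := by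
        unfold ind; rw [decide_eq_false_iff_not]; exact fun e => ob (e.inC i1 i2)
      unfold lfp
      rcases ha with ⟨rfl, rfl⟩ | ⟨rfl, rfl⟩ <;> rcases hb with ⟨rfl, rfl⟩ | ⟨rfl, rfl⟩ <;>
        rw [na, nb] <;> simp
    have hind : ∀ p u, 1 ≤ u → u ≤ 5 → c p = x u → ∀ i, 1 ≤ i → i ≤ 5 →
        ind x y (c p) i = decide (i = u) := by
      intro p u v1 v2 e1 i i1 i2
      unfold ind
      rw [decide_eq_decide]
      constructor
      · intro e2
        have := InU.idx hch i1 i2 e2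
        rw [e1, idx_x hch v1 v2] at this
        exact this.symm
      · rintro rfl
        exact Or.inl e1
    intro i i1 i2
    rw [hxor i i1 i2]
    have hi : i = 1 ∨ i = 2 ∨ i = 3 ∨ i = 4 ∨ i = 5 := by omega
    rcases hab with ⟨e1, e2⟩ | ⟨e1, e2⟩
    · rw [hind a 3 (by norm_num) (by norm_num) e1 i i1 i2,
        hind b 4 (by norm_num) (by norm_num) e2 i i1 i2]
      rcases hi with rfl | rfl | rfl | rfl | rfl
      · rw [u1]; rfl
      · rw [u2]; rfl
      · rw [u3]; rfl
      · rw [u4]; rfl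
      · rw [u5]; rfl
    · rw [hind a 4 (by norm_num) (by norm_num) e1 i i1 i2,
        hind b 3 (by norm_num) (by norm_num) e2 i i1 i2]
      rcases hi with rfl | rfl | rfl | rfl | rfl
      · rw [u1]; rfl
      · rw [u2]; rfl
      · rw [u3]; rfl
      · rw [u4]; rfl
      · rw [u5]; rfl
  refine Gm.g59_win A b0 P ?_ ?_ ?_ ?_ ?_ ?_
  · intro i i1 i2
    rw [ur] at i2
    have hi : i = 1 ∨ i = 2 ∨ i = 3 ∨ i = 4 := by omega
    have e0 := wc i (by omega)
    have e1 := cx i i1 (by omega)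
    have e2 := cy i i1 (by omega)
    have e3 := hcst' (x i)
    have e4 := hcst' (y i)
    have e5 := gx i
    have e6 := gy i
    have e7 := hcn i i1 (by omega)
    have e8 := hpx i i1 (by omega)
    rcases hi with rfl | rfl | rfl | rfl
    · rw [u1]; exact s1
    · rw [u2, hAm 2 (by norm_num) (by norm_num)]
      rw [if_neg (by norm_num)] at e1
      have e9 := e7.1 (by norm_num) (by norm_num)
      show 6 ≤ _
      omega
    · rw [u3, hAm 3 (by norm_num) (by norm_num)]
      rw [if_neg (by norm_num)] at e1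
      show 5 ≤ _
      omega
    · rw [u4, hAm 4 (by norm_num) (by norm_num)]
      rw [if_neg (by norm_num)] at e1
      show 5 ≤ _
      omega
  · rw [ur]
    exact (hAw 5).trans hb1
  · rw [ur, u5]
    show 6 ≤ (A 5).card + 4
    have : A 5 = A5 := by rw [hA]; rfl
    rw [this, hA5c]
  · intro mu mu' v g1 g2 v1 v2 _ hs
    rw [ur] at v2 hs
    obtain ⟨D1, hD1⟩ := hT mu g1
    obtain ⟨D2, hD2⟩ := hT mu' g2
    obtain ⟨j, j1, j2⟩ := hsee v v1 v2
    exact win_one hG hcat (by omega) hch v1 v2 hs ⟨j, j1, Or.inl j2⟩ (hLL v v1 v2) hD1 hD2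
  · intro mu mu' g1 g2
    rw [ur]
    obtain ⟨D1, hD1⟩ := hT mu g1
    obtain ⟨D2, hD2⟩ := hT mu' g2
    have e : ∀ mu : ℕ → Q, sumU (fun i => (Gm.g59.u i).ph) mu 5 = sumU (lfp x y m c) mu 5 := fun mu =>
      sumU_congr fun i i1 i2 => ⟨hlf i i1 i2, rfl⟩
    rw [e, e]
    exact win_phi hch hD1 hD2
  · refine ⟨{(false, false, false)}, by rw [card_singleton]; norm_num, fun mu _ => ?_⟩
    rw [ur, mem_singleton, ← sumU_false (d := mu) (n := 5)]
    refine sumU_congr fun i i1 i2 => ⟨?_, rfl⟩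
    have hi : i = 1 ∨ i = 2 ∨ i = 3 ∨ i = 4 ∨ i = 5 := by omega
    rcases hi with rfl | rfl | rfl | rfl | rfl
    · rw [u1]
    · rw [u2]
    · rw [u3]
    · rw [u4]
    · rw [u5]

end CLB.H86
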